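import Mathlib

set_option autoImplicit false

open Set Topology Filter

namespace Pool.Agent.V11255.TR

/-! ## A comeager invariant set with infinitely many disjoint copies of itself -/

section greedy

variable {K : Type} [TopologicalSpace K] (s : ℕ → K → K) (B : ℕ → Set K) (W : ℕ → Set K)

open Classical in
/-- the choice at one step -/
noncomputable def stp (D : Set K) (j : ℕ) : Set K × ℕ :=
  if h : ∃ q : Set K × ℕ, IsOpen q.1 ∧ q.1.Nonempty ∧ q.1 ⊆ B j ∧ Disjoint q.1 D ∧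
    s q.2 '' q.1 ⊆ W j then h.choose else (∅, 0)

/-- the union of the chosen open sets -/
noncomputable def DD : ℕ → Set K
  | 0 => ∅
  | j + 1 => DD j ∪ (stp s B W (DD j) j).1

/-- the chosen open set -/
noncomputable def OO (j : ℕ) : Set K := (stp s B W (DD s B W j) j).1
/-- the index of the involution used -/
noncomputable def mm (j : ℕ) : ℕ := (stp s B W (DD s B W j) j).2

theorem isOpen_OO (j : ℕ) : IsOpen (OO s B W j) := by
  unfold OO stp
  split_ifs with h
  · exact h.choose_spec.1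
  · exact isOpen_empty

theorem OO_sub (j : ℕ) : OO s B W j ⊆ B j := by
  unfold OO stp
  split_ifs with h
  · exact h.choose_spec.2.2.1
  · exact empty_subset _

theorem OO_disj (j : ℕ) : Disjoint (OO s B W j) (DD s B W j) := by
  unfold OO stp
  split_ifs with h
  · exact h.choose_spec.2.2.2.1
  · exact disjoint_bot_left

theorem OO_img (j : ℕ) : s (mm s B W j) '' OO s B W j ⊆ W j := by
  unfold OO mm stp
  split_ifs with h
  · exact h.choose_spec.2.2.2.2
  · simp

theorem DD_succ (j : ℕ) : DD s B W (j + 1) = DD s B W j ∪ OO s B W j := rfl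

theorem DD_mono {i j : ℕ} (h : i ≤ j) : DD s B W i ⊆ DD s B W j := by
  induction h with
  | refl => exact Subset.rfl
  | step _ ih => exact ih.trans subset_union_left

theorem isOpen_DD (j : ℕ) : IsOpen (DD s B W j) := by
  induction j with
  | zero => exact isOpen_empty
  | succ j ih => exact ih.union (isOpen_OO s B W j)

theorem OO_pairwise {i j : ℕ} (h : i ≠ j) : Disjoint (OO s B W i) (OO s B W j) := by
  rcases lt_or_gt_of_ne h with h | h
  · have h1 : OO s B W i ⊆ DD s B W j :=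
      (subset_union_right : OO s B W i ⊆ DD s B W (i + 1)).trans (DD_mono s B W h)
    exact (OO_disj s B W j).symm.mono_left h1
  · have h1 : OO s B W j ⊆ DD s B W i :=
      (subset_union_right : OO s B W j ⊆ DD s B W (j + 1)).trans (DD_mono s B W h)
    exact (OO_disj s B W i).mono_right h1

theorem DD_sub (j : ℕ) : DD s B W j ⊆ ⋃ i, OO s B W i := by
  induction j with
  | zero => exact empty_subset _
  | succ j ih => exact union_subset ih (subset_iUnion (OO s B W) j)

theorem dense_OO (hs : ∀ n, Continuous (s n))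
    (htrans : ∀ U V : Set K, IsOpen U → IsOpen V → U.Nonempty → V.Nonempty →
      ∃ n, ∃ x ∈ U, s n x ∈ V)
    (hB : ∀ U : Set K, IsOpen U → U.Nonempty → ∃ j, B j ⊆ U) (hBo : ∀ j, IsOpen (B j))
    (hBn : ∀ j, (B j).Nonempty) (hW : ∀ j, IsOpen (W j)) (hWn : ∀ j, (W j).Nonempty) :
    Dense (⋃ j, OO s B W j) := by
  rw [dense_iff_inter_open]
  intro U hU hUn
  obtain ⟨j, hj⟩ := hB U hU hUn
  by_cases hex : ∃ q : Set K × ℕ, IsOpen q.1 ∧ q.1.Nonempty ∧ q.1 ⊆ B j ∧
      Disjoint q.1 (DD s B W j) ∧ s q.2 '' q.1 ⊆ W j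
  · have h1 : (OO s B W j).Nonempty := by
      unfold OO stp
      rw [dif_pos hex]
      exact hex.choose_spec.2.1
    obtain ⟨x, hx⟩ := h1
    exact ⟨x, hj (OO_sub s B W j hx), mem_iUnion.2 ⟨j, hx⟩⟩
  · -- then `B j` meets the union so far
    have h1 : (B j ∩ DD s B W j).Nonempty := by
      by_contra hne
      rw [not_nonempty_iff_eq_empty] at hne
      obtain ⟨n, x, hx, hx'⟩ := htrans (B j) (W j) (hBo j) (hW j) (hBn j) (hWn j)
      refine hex ⟨(B j ∩ s n ⁻¹' W j, n), (hBo j).inter ((hW j).preimage (hs n)), ⟨x, hx, hx'⟩,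
        inter_subset_left, ?_, ?_⟩
      · exact (disjoint_iff_inter_eq_empty.2 hne).mono_left inter_subset_left
      · rintro _ ⟨y, hy, rfl⟩
        exact hy.2
    obtain ⟨x, hx, hx'⟩ := h1
    exact ⟨x, hj hx, DD_sub s B W j hx'⟩

open Classical in
/-- the partial map -/
noncomputable def PP (x : K) : K :=
  if h : ∃ j, x ∈ OO s B W j then s (mm s B W h.choose) x else x

theorem PP_eq {x : K} {j : ℕ} (hx : x ∈ OO s B W j) : PP s B W x = s (mm s B W j) x := by
  have h : ∃ j, x ∈ OO s B W j := ⟨j, hx⟩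
  unfold PP
  rw [dif_pos h]
  have : h.choose = j := by
    by_contra hne
    exact (disjoint_left.1 (OO_pairwise s B W hne)) h.choose_spec hx
  rw [this]

theorem measurable_PP [MeasurableSpace K] [BorelSpace K] (hs : ∀ n, Continuous (s n)) :
    Measurable (PP s B W) := by
  intro T hT
  have : PP s B W ⁻¹' T = (⋃ j, (OO s B W j ∩ s (mm s B W j) ⁻¹' T)) ∪
      ((⋃ j, OO s B W j)ᶜ ∩ T) := by
    ext x
    simp only [mem_preimage, mem_union, mem_iUnion, mem_inter_iff, mem_compl_iff]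
    by_cases h : ∃ j, x ∈ OO s B W j
    · obtain ⟨j, hj⟩ := h
      rw [PP_eq s B W hj]
      constructor
      · intro h1
        exact Or.inl ⟨j, hj, h1⟩
      · rintro (⟨i, hi, h1⟩ | ⟨h1, -⟩)
        · rwa [← PP_eq s B W hj, PP_eq s B W hi]
        · exact absurd ⟨j, hj⟩ h1
    · have h2 : PP s B W x = x := by
        unfold PP
        rw [dif_neg h]
      rw [h2]
      constructor
      · exact fun h1 => Or.inr ⟨h, h1⟩
      · rintro (⟨i, hi, -⟩ | ⟨-, h1⟩)
        · exact absurd ⟨i, hi⟩ h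
        · exact h1
  rw [this]
  refine MeasurableSet.union (MeasurableSet.iUnion fun j => ?_) (MeasurableSet.inter ?_ hT)
  · exact (isOpen_OO s B W j).measurableSet.inter ((hs _).measurable hT)
  · exact (isOpen_iUnion fun j => isOpen_OO s B W j).measurableSet.compl

end greedy

theorem exists_generic_part {K : Type} [TopologicalSpace K] [PolishSpace K] [MeasurableSpace K]
    [BorelSpace K] [Nonempty K] (s : ℕ → K → K) (hs : ∀ n, Continuous (s n))
    (hi : ∀ n x, s n (s n x) = x) (hE : Equivalence fun x y => ∃ n, s n x = y)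
    (htrans : ∀ U V : Set K, IsOpen U → IsOpen V → U.Nonempty → V.Nonempty →
      ∃ n, ∃ x ∈ U, s n x ∈ V)
    (hperf : ∀ U : Set K, IsOpen U → U.Nonempty → U.Nontrivial) (z : K) :
    ∃ (K0 : Set K) (Φ : ℕ → K → K), IsGδ K0 ∧ Dense K0 ∧ (∀ x ∈ K0, ∀ n, s n x ∈ K0) ∧ z ∉ K0 ∧
      (∀ k ∈ K0, ∀ U, IsOpen U → U.Nonempty → ∃ n, s n k ∈ U) ∧ (∀ n, Measurable (Φ n)) ∧
      (∀ n, ∀ x ∈ K0, ∃ m, Φ n x = s m x) ∧
      (∀ n n' x x', x ∈ K0 → x' ∈ K0 → Φ n x = Φ n' x' → n = n' ∧ x = x') := by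
  classical
  have hinf : Infinite K := by
    by_contra hfin
    rw [not_infinite_iff_finite] at hfin
    obtain ⟨x⟩ := ‹Nonempty K›
    have hd : DiscreteTopology K := Finite.instDiscreteTopology
    have := hperf {x} (isOpen_discrete _) ⟨x, rfl⟩
    exact not_nontrivial_singleton this
  obtain ⟨U, hUi, hUo, hUd⟩ := exists_seq_infinite_isOpen_pairwise_disjoint K
  let W : ℕ → ℕ → Set K := fun n j => U (Nat.pair n j)
  have hW : ∀ n j, IsOpen (W n j) := fun n j => hUo _
  have hWn : ∀ n j, (W n j).Nonempty := fun n j => (hUi _).nonempty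
  have hWd : ∀ {n j n' j' x}, x ∈ W n j → x ∈ W n' j' → n = n' ∧ j = j' := by
    intro n j n' j' x h1 h2
    by_contra hne
    have : Nat.pair n j ≠ Nat.pair n' j' := fun h => hne (Nat.pair_eq_pair.1 h)
    exact disjoint_left.1 (hUd this) h1 h2
  -- a countable base of nonempty sets
  obtain ⟨bs, hbc, hbe, hb⟩ := TopologicalSpace.exists_countable_basis K
  have hbne : bs.Nonempty := by
    obtain ⟨x⟩ := ‹Nonempty K›
    obtain ⟨v, hv, -⟩ := hb.exists_subset_of_mem_open (mem_univ x) isOpen_univ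
    exact ⟨v, hv⟩
  obtain ⟨B, hBr⟩ := hbc.exists_eq_range hbne
  have hBo : ∀ j, IsOpen (B j) := fun j => hb.isOpen (hBr ▸ ⟨j, rfl⟩)
  have hBn : ∀ j, (B j).Nonempty := by
    intro j
    rw [nonempty_iff_ne_empty]
    intro h
    apply hbe
    rw [← h, hBr]
    exact ⟨j, rfl⟩
  have hB : ∀ U : Set K, IsOpen U → U.Nonempty → ∃ j, B j ⊆ U := by
    rintro U hU ⟨x, hx⟩
    obtain ⟨v, hv, -, hvU⟩ := hb.exists_subset_of_mem_open hx hU
    rw [hBr] at hv
    obtain ⟨j, rfl⟩ := hv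
    exact ⟨j, hvU⟩
  let Dom : ℕ → Set K := fun n => ⋃ j, OO s B (W n) j
  have hDo : ∀ n, IsOpen (Dom n) := fun n => isOpen_iUnion fun j => isOpen_OO _ _ _ _
  have hDd : ∀ n, Dense (Dom n) := fun n =>
    dense_OO s B (W n) hs htrans hB hBo hBn (hW n) (hWn n)
  have hso : ∀ m, IsOpenMap (s m) := by
    intro m V hV
    have : s m '' V = s m ⁻¹' V := by
      ext x
      constructor
      · rintro ⟨y, hy, rfl⟩
        show s m (s m y) ∈ V
        rwa [hi]
      · intro hx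
        exact ⟨s m x, hx, hi m x⟩
    rw [this]
    exact hV.preimage (hs m)
  -- the generic set
  let C : (ℕ × ℕ) ⊕ (ℕ ⊕ ℕ) → Set K := fun c => match c with
    | Sum.inl (m, n) => s m ⁻¹' Dom n
    | Sum.inr (Sum.inl m) => s m ⁻¹' {z}ᶜ
    | Sum.inr (Sum.inr i) => ⋃ m, s m ⁻¹' B i
  have hCo : ∀ c, IsOpen (C c) := by
    rintro (⟨m, n⟩ | m | i)
    · exact (hDo n).preimage (hs m)
    · exact isOpen_compl_singleton.preimage (hs m)
    · exact isOpen_iUnion fun m => (hBo i).preimage (hs m)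
  have hCd : ∀ c, Dense (C c) := by
    rintro (⟨m, n⟩ | m | i)
    · exact (hDd n).preimage (hso m)
    · refine Dense.preimage ?_ (hso m)
      rw [dense_iff_inter_open]
      intro V hV hVn
      obtain ⟨x, hx, hxz⟩ := (hperf V hV hVn).exists_ne z
      exact ⟨x, hx, hxz⟩
    · rw [dense_iff_inter_open]
      intro V hV hVn
      obtain ⟨m, x, hx, hx'⟩ := htrans V (B i) hV (hBo i) hVn (hBn i)
      exact ⟨x, hx, mem_iUnion.2 ⟨m, hx'⟩⟩
  have hmem : ∀ x, x ∈ ⋂ c, C c ↔ (∀ m n, s m x ∈ Dom n) ∧ (∀ m, s m x ≠ z) ∧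
      ∀ i, ∃ m, s m x ∈ B i := by
    intro x
    rw [mem_iInter]
    constructor
    · intro h
      refine ⟨fun m n => h (Sum.inl (m, n)), fun m => h (Sum.inr (Sum.inl m)), fun i => ?_⟩
      have := h (Sum.inr (Sum.inr i))
      exact mem_iUnion.1 this
    · rintro ⟨h1, h2, h3⟩ (⟨m, n⟩ | m | i)
      · exact h1 m n
      · exact h2 m
      · exact mem_iUnion.2 (h3 i)
  have hself : ∀ x, ∃ m, s m x = x := fun x => hE.refl x
  refine ⟨⋂ c, C c, fun n => PP s B (W n), ?_, ?_, ?_, ?_, ?_, ?_, ?_, ?_⟩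
  · exact IsGδ.iInter_of_isOpen hCo
  · exact dense_iInter_of_isOpen hCo hCd
  · intro x hx n
    rw [hmem] at hx ⊢
    obtain ⟨h1, h2, h3⟩ := hx
    have key : ∀ m, ∃ k, s m (s n x) = s k x := by
      intro m
      obtain ⟨k, hk⟩ := hE.trans (⟨n, rfl⟩ : ∃ n', s n' x = s n x) ⟨m, rfl⟩
      exact ⟨k, hk.symm⟩
    refine ⟨fun m n' => ?_, fun m => ?_, fun i => ?_⟩
    · obtain ⟨k, hk⟩ := key m
      rw [hk]
      exact h1 k n'
    · obtain ⟨k, hk⟩ := key m
      rw [hk]
      exact h2 k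
    · obtain ⟨m, hm⟩ := h3 i
      obtain ⟨k, hk⟩ := hE.trans (hE.symm (⟨n, rfl⟩ : ∃ n', s n' x = s n x)) ⟨m, rfl⟩
      exact ⟨k, by rw [hk]; exact hm⟩
  · intro hz
    rw [hmem] at hz
    obtain ⟨m, hm⟩ := hself z
    exact hz.2.1 m hm
  · intro k hk V hV hVn
    rw [hmem] at hk
    obtain ⟨i, hi'⟩ := hB V hV hVn
    obtain ⟨m, hm⟩ := hk.2.2 i
    exact ⟨m, hi' hm⟩
  · exact fun n => measurable_PP s B (W n) hs
  · intro n x hx
    rw [hmem] at hx
    obtain ⟨m, hm⟩ := hself x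
    have h1 := hx.1 m n
    rw [hm] at h1
    obtain ⟨j, hj⟩ := mem_iUnion.1 h1
    exact ⟨_, PP_eq s B (W n) hj⟩
  · intro n n' x x' hx hx' h
    rw [hmem] at hx hx'
    obtain ⟨m, hm⟩ := hself x
    obtain ⟨m', hm'⟩ := hself x'
    have h1 := hx.1 m n
    have h2 := hx'.1 m' n'
    rw [hm] at h1
    rw [hm'] at h2
    obtain ⟨j, hj⟩ := mem_iUnion.1 h1
    obtain ⟨j', hj'⟩ := mem_iUnion.1 h2
    have e1 := PP_eq s B (W n) hj
    have e2 := PP_eq s B (W n') hj'
    have h3 : PP s B (W n) x ∈ W n j := by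
      rw [e1]
      exact OO_img s B (W n) j ⟨x, hj, rfl⟩
    have h4 : PP s B (W n') x' ∈ W n' j' := by
      rw [e2]
      exact OO_img s B (W n') j' ⟨x', hj', rfl⟩
    have h : PP s B (W n) x = PP s B (W n') x' := h
    rw [← h] at h4
    obtain ⟨rfl, rfl⟩ := hWd h3 h4
    refine ⟨rfl, ?_⟩
    rw [e1, e2] at h
    have := congrArg (s (mm s B (W n) j)) h
    rwa [hi, hi] at this

end Pool.Agent.V11255.TR
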