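import Mathlib

set_option autoImplicit false

open Set

namespace Pool.Agent.V11255.TR

/-- A Borel Schröder-Bernstein theorem which keeps track of the maps. -/
theorem sb {α β : Type} [MeasurableSpace α] [MeasurableSpace β] {f : α → β} {g : β → α}
    (hf : MeasurableEmbedding f) (hg : MeasurableEmbedding g) :
    ∃ θ : α ≃ᵐ β, ∀ x, θ x = f x ∨ g (θ x) = x := by
  classical
  let F : Set α → Set α := fun A => (g '' (f '' A)ᶜ)ᶜ
  have Fmono : ∀ {A B}, A ⊆ B → F A ⊆ F B := fun h =>
    compl_subset_compl.mpr <| Set.image_mono <| compl_subset_compl.mpr <| Set.image_mono h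
  obtain ⟨A, hA, hFA⟩ : ∃ A : Set α, MeasurableSet A ∧ F A = A := by
    let X : ℕ → Set α := fun n => F^[n] univ
    refine ⟨iInter X, ?_, ?_⟩
    · refine MeasurableSet.iInter fun n ↦ ?_
      induction n with
      | zero => exact MeasurableSet.univ
      | succ n ih =>
        rw [Function.iterate_succ_apply']
        exact (hg.measurableSet_image' (hf.measurableSet_image' ih).compl).compl
    apply subset_antisymm
    · apply subset_iInter
      intro n
      cases n
      · exact subset_univ _
      rename_i n
      rw [Function.iterate_succ_apply']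
      exact Fmono (iInter_subset _ _)
    rintro x hx ⟨y, hy, rfl⟩
    rw [mem_iInter] at hx
    apply hy
    rw [hf.injective.injOn.image_iInter_eq]
    rw [mem_iInter]
    intro n
    have hx' := hx n.succ
    rw [Function.iterate_succ_apply'] at hx'
    by_contra h
    exact hx' ⟨y, h, rfl⟩
  have h1 : ∀ x, x ∉ A → ∃ y, y ∉ f '' A ∧ g y = x := by
    intro x hx
    rw [← hFA] at hx
    obtain ⟨y, hy, hyx⟩ := not_not.1 hx
    exact ⟨y, hy, hyx⟩
  have h2 : ∀ y, y ∉ f '' A → g y ∉ A := by
    intro y hy hgy
    rw [← hFA] at hgy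
    exact hgy ⟨y, hy, rfl⟩
  choose k hk1 hk2 using h1
  let θ : α → β := fun x => if h : x ∈ A then f x else k x h
  have t1 : ∀ x ∈ A, θ x = f x := fun x hx => dif_pos hx
  have t2 : ∀ x (hx : x ∉ A), θ x = k x hx := fun x hx => dif_neg hx
  have hinj : Function.Injective θ := by
    intro x x' h
    by_cases hx : x ∈ A <;> by_cases hx' : x' ∈ A
    · rw [t1 x hx, t1 x' hx'] at h
      exact hf.injective h
    · rw [t1 x hx, t2 x' hx'] at h
      exact absurd ⟨x, hx, h⟩ (hk1 x' hx')
    · rw [t2 x hx, t1 x' hx'] at h
      exact absurd ⟨x', hx', h.symm⟩ (hk1 x hx)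
    · rw [t2 x hx, t2 x' hx'] at h
      rw [← hk2 x hx, h, hk2 x' hx']
  have hsurj : Function.Surjective θ := by
    intro y
    by_cases hy : y ∈ f '' A
    · obtain ⟨x, hx, rfl⟩ := hy
      exact ⟨x, t1 x hx⟩
    · refine ⟨g y, ?_⟩
      have h3 := h2 y hy
      rw [t2 _ h3]
      exact hg.injective (hk2 _ h3)
  have hmeas : Measurable θ := by
    intro T hT
    have : θ ⁻¹' T = (A ∩ f ⁻¹' T) ∪ (Aᶜ ∩ g '' T) := by
      ext x
      by_cases hx : x ∈ A
      · simp only [mem_preimage, mem_union, mem_inter_iff, hx, true_and, mem_compl_iff,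
          not_true_eq_false, false_and, or_false, t1 x hx]
      · simp only [mem_preimage, mem_union, mem_inter_iff, hx, false_and, mem_compl_iff,
          not_false_eq_true, true_and, false_or, t2 x hx]
        constructor
        · intro h
          exact ⟨k x hx, h, hk2 x hx⟩
        · rintro ⟨y, hy, hyx⟩
          have : k x hx = y := hg.injective (by rw [hk2 x hx, hyx])
          rw [this]
          exact hy
    rw [this]
    exact (hA.inter (hf.measurable hT)).union (hA.compl.inter (hg.measurableSet_image' hT))
  let e : α ≃ β := Equiv.ofBijective θ ⟨hinj, hsurj⟩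
  have hinv : Measurable e.symm := by
    intro T hT
    have : e.symm ⁻¹' T = f '' (A ∩ T) ∪ ((f '' A)ᶜ ∩ g ⁻¹' T) := by
      ext y
      obtain ⟨x, rfl⟩ := hsurj y
      have h3 : e.symm (θ x) = x := e.symm_apply_apply x
      rw [mem_preimage, h3]
      by_cases hx : x ∈ A
      · rw [t1 x hx]
        constructor
        · exact fun h => Or.inl ⟨x, ⟨hx, h⟩, rfl⟩
        · rintro (⟨x', ⟨hx', h⟩, h'⟩ | ⟨h, -⟩)
          · rwa [← hf.injective h']
          · exact absurd ⟨x, hx, rfl⟩ h
      · rw [t2 x hx]
        constructor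
        · intro h
          refine Or.inr ⟨hk1 x hx, ?_⟩
          show g (k x hx) ∈ T
          rwa [hk2 x hx]
        · rintro (⟨x', ⟨hx', h⟩, h'⟩ | ⟨-, h⟩)
          · exact absurd ⟨x', hx', h'⟩ (hk1 x hx)
          · have h : g (k x hx) ∈ T := h
            rwa [hk2 x hx] at h
    rw [this]
    exact (hf.measurableSet_image' (hA.inter hT)).union
      ((hf.measurableSet_image' hA).compl.inter (hg.measurable hT))
  refine ⟨⟨e, hmeas, hinv⟩, fun x => ?_⟩
  show θ x = f x ∨ g (θ x) = x
  by_cases hx : x ∈ A
  · exact Or.inl (t1 x hx)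
  · refine Or.inr ?_
    rw [t2 x hx]
    exact hk2 x hx

/-- A countable family of homeomorphisms which generates an equivalence relation gives a continuous
action of a countable group. -/
theorem exists_group {Y : Type} [TopologicalSpace Y] {ι : Type} [Countable ι] (T : ι → Y ≃ₜ Y)
    (F : Y → Y → Prop) (hF : Equivalence F) (h1 : ∀ i y, F y (T i y))
    (h2 : ∀ y z, F y z → ∃ l : List ι, l.foldr (fun i w => T i w) y = z) :
    ∃ (G : Type) (_ : Group G) (_ : Countable G) (_ : MulAction G Y) (_ : ContinuousConstSMul G Y),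
      ∀ y z, F y z ↔ ∃ g : G, g • y = z := by
  let φ : FreeGroup ι →* (Y ≃ₜ Y) := FreeGroup.lift T
  let act : MulAction (FreeGroup ι) Y :=
    { smul := fun g y => φ g y
      one_smul := fun y => by
        show φ 1 y = y
        rw [map_one]
        rfl
      mul_smul := fun g h y => by
        show φ (g * h) y = φ g (φ h y)
        rw [map_mul]
        rfl }
  have hsm : ∀ (g : FreeGroup ι) (y : Y), g • y = φ g y := fun _ _ => rfl
  refine ⟨FreeGroup ι, inferInstance, inferInstance, act, ⟨fun g => (φ g).continuous⟩, ?_⟩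
  intro y z
  constructor
  · intro h
    obtain ⟨l, rfl⟩ := h2 y z h
    induction l with
    | nil => exact ⟨1, one_smul _ _⟩
    | cons i l ih =>
      have hl : F y (l.foldr (fun i w => T i w) y) :=
        hF.trans h (hF.symm (h1 i _))
      obtain ⟨g, hg⟩ := ih hl
      refine ⟨FreeGroup.of i * g, ?_⟩
      rw [mul_smul, hg, hsm]
      show (FreeGroup.lift T (FreeGroup.of i)) _ = _
      rw [FreeGroup.lift_apply_of]
      rfl
  · rintro ⟨g, rfl⟩
    have key : ∀ (g : FreeGroup ι) (y : Y), F y (g • y) := by
      intro g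
      induction g using FreeGroup.induction_on with
      | C1 =>
        intro y
        rw [one_smul]
        exact hF.refl y
      | of i =>
        intro y
        rw [hsm]
        show F y ((FreeGroup.lift T (FreeGroup.of i)) y)
        rw [FreeGroup.lift_apply_of]
        exact h1 i y
      | inv_of i ih =>
        intro y
        have := ih ((FreeGroup.of i)⁻¹ • y)
        rw [smul_inv_smul] at this
        exact hF.symm this
      | mul g h ihg ihh =>
        intro y
        rw [mul_smul]
        exact hF.trans (ihh y) (ihg _)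
    exact key g y

end Pool.Agent.V11255.TR
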