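import Mathlib
import Pool.Agent.V11255.TR1
import Pool.Agent.V11255.TR2

set_option autoImplicit false

open Set Topology Filter

namespace Pool.Agent.V11255.TR

theorem polish_of_Gdelta {Y : Type*} [TopologicalSpace Y] [PolishSpace Y] {s : Set Y}
    (hs : IsGδ s) : PolishSpace s := by
  obtain ⟨U, hU, rfl⟩ := hs.eq_iInter_nat
  haveI : ∀ n, PolishSpace (U n) := fun n => (hU n).polishSpace
  let f : (⋂ n, U n : Set Y) → ∀ n, U n := fun x n => ⟨x, Set.mem_iInter.1 x.2 n⟩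
  have hfc : Continuous f := continuous_pi (fun n => Continuous.subtype_mk continuous_subtype_val _)
  have hg : Continuous (fun p : ∀ n, U n => (p 0 : Y)) :=
    continuous_subtype_val.comp (continuous_apply 0)
  have hind : Topology.IsInducing f := by
    apply Topology.IsInducing.of_comp hfc hg
    exact Topology.IsInducing.subtypeVal
  have hinj : Function.Injective f := by
    intro x y hxy
    have h1 := congrFun hxy 0
    have h2 : ((f x 0 : U 0) : Y) = ((f y 0 : U 0) : Y) := congrArg (fun z : U 0 => (z : Y)) h1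
    exact Subtype.ext h2
  have hrange : Set.range f = ⋂ n, {p : ∀ n, U n | (p n : Y) = (p 0 : Y)} := by
    ext p
    simp only [Set.mem_range, Set.mem_iInter]
    constructor
    · rintro ⟨x, rfl⟩ n
      rfl
    · intro h
      refine ⟨⟨p 0, Set.mem_iInter.2 (fun n => ?_)⟩, ?_⟩
      · have h2 : (p n : Y) = (p 0 : Y) := h n
        rw [← h2]
        exact (p n).2
      · funext n
        have h2 : (p n : Y) = (p 0 : Y) := h n
        exact Subtype.ext h2.symm
  have hcl : IsClosed (Set.range f) := by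
    rw [hrange]
    refine isClosed_iInter fun n => isClosed_eq ?_ hg
    exact continuous_subtype_val.comp (continuous_apply n)
  have hce : Topology.IsClosedEmbedding f := ⟨⟨hind, hinj⟩, hcl⟩
  haveI : PolishSpace (∀ n, U n) := by constructor
  exact hce.polishSpace

/-- smoothness -/
def Smooth {X : Type} [MeasurableSpace X] (E : X → X → Prop) : Prop :=
  ∃ f : X → ℝ, Measurable f ∧ ∀ x y, E x y ↔ f x = f y

theorem smooth_of_cantor {X : Type} [MeasurableSpace X] {E : X → X → Prop}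
    (f : X → ℕ → Bool) (hf : Measurable f) (h : ∀ x y, E x y ↔ f x = f y) : Smooth E := by
  have h1 : Uncountable (ℕ → Bool) := by
    rw [← not_countable_iff, ← Cardinal.mk_le_aleph0_iff, not_le]
    simpa using Cardinal.cantor Cardinal.aleph0
  have hp : PolishSpace (ℕ → Bool) := by constructor
  have hst : StandardBorelSpace (ℕ → Bool) := inferInstance
  obtain ⟨e⟩ : Nonempty ((ℕ → Bool) ≃ᵐ ℝ) :=
    ⟨PolishSpace.measurableEquivOfNotCountable (not_countable_iff.2 h1)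
      (not_countable_iff.2 inferInstance)⟩
  exact ⟨fun x => e (f x), e.measurable.comp hf, fun x y => by rw [h, e.injective.eq_iff]⟩

theorem lemmaA {X : Type} [TopologicalSpace X] [PolishSpace X] [MeasurableSpace X] [BorelSpace X]
    (s : ℕ → X → X) (hs : ∀ n, Continuous (s n)) (hi : ∀ n x, s n (s n x) = x) (E : X → X → Prop)
    (hE : Equivalence E) (hEs : ∀ x y, E x y ↔ ∃ n, s n x = y) (hns : ¬ Smooth E) :
    ∃ (Z : Type) (_ : TopologicalSpace Z) (_ : PolishSpace Z) (ι : Z → X) (s0 : ℕ → Z → Z)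
      (Φ : ℕ → Z → Z), Nonempty Z ∧ Continuous ι ∧ Function.Injective ι ∧ (∃ x, x ∉ range ι) ∧
      (∀ n, Continuous (s0 n)) ∧ (∀ n z, ι (s0 n z) = s n (ι z)) ∧
      (∀ z : Z, ∀ U, IsOpen U → U.Nonempty → ∃ n, s0 n z ∈ U) ∧ (∀ z : Z, ¬ IsOpen {z}) ∧
      (∀ n, @Measurable Z Z (borel Z) (borel Z) (Φ n)) ∧ (∀ n z, ∃ m, Φ n z = s0 m z) ∧
      (∀ n n' z z', Φ n z = Φ n' z' → n = n' ∧ z = z') := by
  classical
  -- a countable base
  obtain ⟨bs, hbc, hbe, hb⟩ := TopologicalSpace.exists_countable_basis X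
  have hX : Nonempty X := by
    by_contra hX
    rw [not_nonempty_iff] at hX
    exact hns ⟨fun _ => 0, measurable_const, fun x => hX.elim x⟩
  have hbne : bs.Nonempty := by
    obtain ⟨x⟩ := hX
    obtain ⟨v, hv, -⟩ := hb.exists_subset_of_mem_open (mem_univ x) isOpen_univ
    exact ⟨v, hv⟩
  obtain ⟨B, hBr⟩ := hbc.exists_eq_range hbne
  have hBo : ∀ j, IsOpen (B j) := fun j => hb.isOpen (hBr ▸ ⟨j, rfl⟩)
  -- two different orbits with the same closure
  obtain ⟨x0, y0, hxy, hsame⟩ : ∃ x0 y0, ¬ E x0 y0 ∧ ∀ j, (∃ n, s n x0 ∈ B j) ↔ ∃ n, s n y0 ∈ B j := by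
    by_contra hcon
    push Not at hcon
    apply hns
    refine smooth_of_cantor (fun x j => decide (∃ n, s n x ∈ B j)) ?_ ?_
    · refine measurable_pi_lambda _ fun j => measurable_to_bool ?_
      have : (fun x => decide (∃ n, s n x ∈ B j)) ⁻¹' {true} = ⋃ n, s n ⁻¹' B j := by
        ext x
        simp
      rw [this]
      exact MeasurableSet.iUnion fun n => (hs n).measurable (hBo j).measurableSet
    · intro x y
      constructor
      · intro h
        funext j
        congr 1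
        apply propext
        constructor
        · rintro ⟨n, hn⟩
          obtain ⟨m, hm⟩ := (hEs _ _).1 (hE.trans (hE.symm h) ((hEs _ _).2 ⟨n, rfl⟩))
          exact ⟨m, by rw [hm]; exact hn⟩
        · rintro ⟨n, hn⟩
          obtain ⟨m, hm⟩ := (hEs _ _).1 (hE.trans h ((hEs _ _).2 ⟨n, rfl⟩))
          exact ⟨m, by rw [hm]; exact hn⟩
      · intro h
        by_contra hne
        obtain ⟨j, hj⟩ := hcon x y hne
        have h1 := congrFun h j
        simp only [decide_eq_decide] at h1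
        rcases hj with ⟨h2, h3⟩ | ⟨h2, h3⟩
        · obtain ⟨n, hn⟩ := h1.1 h2
          exact h3 n hn
        · obtain ⟨n, hn⟩ := h1.2 h3
          exact h2 n hn
  -- the closure of the orbit
  set O : Set X := {y | E x0 y} with hO
  set K : Set X := closure O with hK
  have hKc : IsClosed K := isClosed_closure
  have hKP : PolishSpace K := hKc.polishSpace
  have hmaps : ∀ n x, x ∈ K → s n x ∈ K := by
    intro n x hx
    have h1 : MapsTo (s n) O O := by
      intro y hy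
      exact hE.trans hy ((hEs _ _).2 ⟨n, rfl⟩)
    exact h1.closure (hs n) hx
  let sK : ℕ → K → K := fun n x => ⟨s n x, hmaps n x x.2⟩
  have hsK : ∀ n, Continuous (sK n) := fun n =>
    Continuous.subtype_mk ((hs n).comp continuous_subtype_val) _
  have hiK : ∀ n x, sK n (sK n x) = x := fun n x => Subtype.ext (hi n x)
  have hEK : ∀ x y : K, (∃ n, sK n x = y) ↔ E x y := by
    intro x y
    rw [hEs]
    exact exists_congr fun n => Subtype.ext_iff
  have hEKe : Equivalence fun x y : K => ∃ n, sK n x = y := by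
    refine ⟨fun x => (hEK x x).2 (hE.refl _), fun {x y} h => (hEK y x).2 (hE.symm ((hEK x y).1 h)),
      fun {x y z} h h' => (hEK x z).2 (hE.trans ((hEK x y).1 h) ((hEK y z).1 h'))⟩
  -- both orbits are dense in `K`
  have hdx : ∀ U : Set X, IsOpen U → (U ∩ K).Nonempty → ∃ y, E x0 y ∧ y ∈ U := by
    rintro U hU ⟨x, hx, hx'⟩
    obtain ⟨y, hy, hy'⟩ := mem_closure_iff.1 hx' U hU hx
    exact ⟨y, hy', hy⟩
  have hdy : ∀ U : Set X, IsOpen U → (U ∩ K).Nonempty → ∃ y, E y0 y ∧ y ∈ U := by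
    intro U hU hUn
    obtain ⟨y, hy, hy'⟩ := hdx U hU hUn
    obtain ⟨v, hv, hyv, hvU⟩ := hb.exists_subset_of_mem_open hy' hU
    rw [hBr] at hv
    obtain ⟨j, rfl⟩ := hv
    obtain ⟨n, hn⟩ := (hEs _ _).1 hy
    obtain ⟨m, hm⟩ := (hsame j).1 ⟨n, by rw [hn]; exact hyv⟩
    exact ⟨s m y0, (hEs _ _).2 ⟨m, rfl⟩, hvU hm⟩
  have hyK : ∀ y, E y0 y → y ∈ K := by
    intro y hy
    rw [hK, mem_closure_iff]
    intro U hU hyU
    obtain ⟨v, hv, hyv, hvU⟩ := hb.exists_subset_of_mem_open hyU hU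
    rw [hBr] at hv
    obtain ⟨j, rfl⟩ := hv
    obtain ⟨n, hn⟩ := (hEs _ _).1 hy
    obtain ⟨m, hm⟩ := (hsame j).2 ⟨n, by rw [hn]; exact hyv⟩
    exact ⟨s m x0, hvU hm, (hEs _ _).2 ⟨m, rfl⟩⟩
  have htrans : ∀ U V : Set K, IsOpen U → IsOpen V → U.Nonempty → V.Nonempty →
      ∃ n, ∃ x ∈ U, sK n x ∈ V := by
    rintro _ _ ⟨U, hU, rfl⟩ ⟨V, hV, rfl⟩ ⟨u, hu⟩ ⟨v, hv⟩
    obtain ⟨a, ha, ha'⟩ := hdx U hU ⟨u, hu, u.2⟩
    obtain ⟨b, hb', hb''⟩ := hdx V hV ⟨v, hv, v.2⟩
    obtain ⟨n, hn⟩ := (hEs _ _).1 (hE.trans (hE.symm ha) hb')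
    refine ⟨n, ⟨a, subset_closure ha⟩, ha', ?_⟩
    show s n a ∈ V
    rw [hn]
    exact hb''
  have hperf : ∀ U : Set K, IsOpen U → U.Nonempty → U.Nontrivial := by
    rintro _ ⟨U, hU, rfl⟩ ⟨u, hu⟩
    obtain ⟨a, ha, ha'⟩ := hdx U hU ⟨u, hu, u.2⟩
    obtain ⟨b, hb', hb''⟩ := hdy U hU ⟨u, hu, u.2⟩
    refine ⟨⟨a, subset_closure ha⟩, ha', ⟨b, hyK b hb'⟩, hb'', ?_⟩
    intro h
    have : a = b := congrArg Subtype.val h
    subst this
    exact hxy (hE.trans ha (hE.symm hb'))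
  have hx0 : x0 ∈ K := subset_closure (hE.refl x0)
  let : MeasurableSpace K := borel K
  have : BorelSpace K := ⟨rfl⟩
  have : Nonempty K := ⟨⟨x0, hx0⟩⟩
  obtain ⟨K0, Φ, a1, a2, a3, a4, a5, a6, a7, a8⟩ :=
    exists_generic_part sK hsK hiK hEKe htrans hperf ⟨x0, hx0⟩
  have hP0 : PolishSpace K0 := polish_of_Gdelta a1
  have hΦ0 : ∀ n x, x ∈ K0 → Φ n x ∈ K0 := by
    intro n x hx
    obtain ⟨m, hm⟩ := a7 n x hx
    rw [hm]
    exact a3 x hx m
  refine ⟨K0, inferInstance, hP0, fun z => ((z : K) : X), fun n z => ⟨sK n z, a3 z z.2 n⟩,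
    fun n z => ⟨Φ n z, hΦ0 n z z.2⟩, ?_, ?_, ?_, ?_, ?_, ?_, ?_, ?_, ?_, ?_, ?_⟩
  · obtain ⟨z, hz⟩ := a2.nonempty
    exact ⟨⟨z, hz⟩⟩
  · exact continuous_subtype_val.comp continuous_subtype_val
  · exact Subtype.val_injective.comp Subtype.val_injective
  · refine ⟨x0, ?_⟩
    rintro ⟨z, hz⟩
    apply a4
    have : (⟨x0, hx0⟩ : K) = z := Subtype.ext hz.symm
    rw [this]
    exact z.2
  · exact fun n => Continuous.subtype_mk ((hsK n).comp continuous_subtype_val) _
  · exact fun n z => rfl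
  · rintro z _ ⟨U, hU, rfl⟩ ⟨u, hu⟩
    exact a5 z z.2 U hU ⟨u, hu⟩
  · rintro z ⟨U, hU, hUz⟩
    have hzU : (z : K) ∈ U := by
      have : z ∈ (Subtype.val ⁻¹' U : Set K0) := by
        rw [hUz]
        rfl
      exact this
    obtain ⟨w, hw, hwz⟩ := (hperf U hU ⟨z, hzU⟩).exists_ne (z : K)
    obtain ⟨v, hv, hv'⟩ := a2.inter_open_nonempty (U ∩ {(z : K)}ᶜ)
      (hU.inter isOpen_compl_singleton) ⟨w, hw, hwz⟩
    have : (⟨v, hv'⟩ : K0) ∈ (Subtype.val ⁻¹' U : Set K0) := hv.1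
    rw [hUz] at this
    exact hv.2 (congrArg Subtype.val (mem_singleton_iff.1 this))
  · intro n
    let : MeasurableSpace K0 := borel K0
    have hb0 : BorelSpace K0 := ⟨rfl⟩
    have hval : Measurable (Subtype.val : K0 → K) := continuous_subtype_val.measurable
    have hemb : MeasurableEmbedding (Subtype.val : K0 → K) := by
      have hp : StandardBorelSpace K0 := inferInstance
      exact hval.measurableEmbedding Subtype.val_injective
    rw [← hemb.measurable_comp_iff]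
    exact (a6 n).comp hval
  · intro n z
    obtain ⟨m, hm⟩ := a7 n z z.2
    exact ⟨m, Subtype.ext hm⟩
  · intro n n' z z' h
    obtain ⟨h1, h2⟩ := a8 n n' z z' z.2 z'.2 (congrArg Subtype.val h)
    exact ⟨h1, Subtype.ext h2⟩

end Pool.Agent.V11255.TR
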