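import Mathlib
import Pool.Agent.V11255.TR3

set_option autoImplicit false

open Set Topology Filter

namespace Pool.Agent.V11255.TR

/-! ## The space -/

/-- the underlying set of the space: the first space and the pieces -/
inductive YY {X1 Z : Type} (q : ℕ → X1) (w : Z) : Type
  | lf (x : X1) : YY q w
  | rt (d : ℕ × ℕ) (z : Z) : YY q w

open YY

/-- the element of Baire space coding a piece -/
def tt (d : ℕ × ℕ) : ℕ → ℕ := fun l => if l = d.2 then d.1 + 1 else 0

section

variable {X1 Z : Type} (q : ℕ → X1) (w : Z)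

/-- the embedding in a product -/
def jj : YY q w → X1 × ((ℕ → ℕ) × Z)
  | lf x => (x, (fun _ => 0, w))
  | rt d z => (q d.1, (tt d, z))

theorem tt_inj {d d' : ℕ × ℕ} (h : tt d = tt d') : d = d' := by
  have h1 := congrFun h d.2
  simp only [tt, if_true] at h1
  split_ifs at h1 with h2
  · exact Prod.ext (by omega) h2

theorem tt_ne (d : ℕ × ℕ) : tt d ≠ fun _ => 0 := by
  intro h
  have := congrFun h d.2
  simp [tt] at this

theorem jj_inj : Function.Injective (jj q w) := by
  rintro (x | ⟨d, z⟩) (x' | ⟨d', z'⟩) h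
  · simp only [jj, Prod.mk.injEq, and_true] at h
    rw [h]
  · simp only [jj, Prod.mk.injEq] at h
    exact absurd h.2.1.symm (tt_ne d')
  · simp only [jj, Prod.mk.injEq] at h
    exact absurd h.2.1 (tt_ne d)
  · simp only [jj, Prod.mk.injEq] at h
    rw [tt_inj h.2.1, h.2.2]

variable [TopologicalSpace X1] [TopologicalSpace Z]

instance : TopologicalSpace (YY q w) := TopologicalSpace.induced (jj q w) inferInstance

theorem isInducing_jj : IsInducing (jj q w) := ⟨rfl⟩

theorem continuous_jj : Continuous (jj q w) := (isInducing_jj q w).continuous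

theorem range_jj : range (jj q w) = {p : X1 × ((ℕ → ℕ) × Z) |
    (∀ l, p.2.1 l ≠ 0 → p.1 = q (p.2.1 l - 1)) ∧ (∀ l l', l ≠ l' → p.2.1 l = 0 ∨ p.2.1 l' = 0)} ∩
    ({p | p.2.1 ≠ fun _ => 0} ∪ {p | p.2.2 = w}) := by
  apply Subset.antisymm
  · rintro _ ⟨x | ⟨d, z⟩, rfl⟩
    · refine ⟨⟨fun l hl => ?_, fun l l' _ => Or.inl rfl⟩, Or.inr rfl⟩
      exact absurd rfl hl
    · refine ⟨⟨fun l hl => ?_, fun l l' hll => ?_⟩, Or.inl (tt_ne d)⟩
      · simp only [jj, tt] at hl ⊢
        by_cases h : l = d.2
        · simp [h]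
        · exact absurd (if_neg h) hl
      · simp only [jj, tt]
        by_cases h : l = d.2
        · right
          rw [if_neg]
          intro h'
          exact hll (h.trans h'.symm)
        · left
          rw [if_neg h]
  · rintro ⟨x, t, z⟩ ⟨⟨h1, h2⟩, h3⟩
    by_cases ht : t = fun _ => 0
    · rcases h3 with h3 | h3
      · exact absurd ht h3
      · have h3' : z = w := h3
        subst h3'
        exact ⟨lf x, by rw [ht]; rfl⟩
    · obtain ⟨l, hl⟩ := Function.ne_iff.1 ht
      have hl : t l ≠ 0 := hl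
      refine ⟨rt (t l - 1, l) z, ?_⟩
      have h4 : x = q (t l - 1) := h1 l hl
      have h5 : tt (t l - 1, l) = t := by
        funext l'
        simp only [tt]
        split_ifs with h
        · rw [h]
          omega
        · rcases h2 l' l h with h6 | h6
          · exact h6.symm
          · exact absurd h6 hl
      simp only [jj]
      rw [h5, ← h4]

theorem isGδ_range [PolishSpace X1] [PolishSpace Z] : IsGδ (range (jj q w)) := by
  rw [range_jj]
  have c1 : ∀ l, Continuous fun p : X1 × ((ℕ → ℕ) × Z) => p.2.1 l := fun l =>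
    (continuous_apply l).comp (continuous_fst.comp continuous_snd)
  refine IsGδ.inter ?_ (IsGδ.union ?_ ?_)
  · apply IsClosed.isGδ
    have : {p : X1 × ((ℕ → ℕ) × Z) | (∀ l, p.2.1 l ≠ 0 → p.1 = q (p.2.1 l - 1)) ∧
        (∀ l l', l ≠ l' → p.2.1 l = 0 ∨ p.2.1 l' = 0)} =
        (⋂ l, ⋂ c, ({p : X1 × ((ℕ → ℕ) × Z) | p.2.1 l ≠ c + 1} ∪ {p | p.1 = q c})) ∩
        ⋂ l, ⋂ l', {p : X1 × ((ℕ → ℕ) × Z) | l ≠ l' → p.2.1 l = 0 ∨ p.2.1 l' = 0} := by
      ext p
      simp only [mem_inter_iff, mem_iInter, mem_union]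
      constructor
      · rintro ⟨h1, h2⟩
        refine ⟨fun l c => ?_, h2⟩
        by_cases h : p.2.1 l = c + 1
        · right
          have := h1 l (by omega)
          rw [h] at this
          exact this
        · exact Or.inl h
      · rintro ⟨h1, h2⟩
        refine ⟨fun l hl => ?_, h2⟩
        rcases h1 l (p.2.1 l - 1) with h | h
        · exact absurd (by omega) h
        · exact h
    rw [this]
    refine IsClosed.inter (isClosed_iInter fun l => isClosed_iInter fun c => ?_)
      (isClosed_iInter fun l => isClosed_iInter fun l' => ?_)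
    · exact ((isClosed_discrete ({c + 1}ᶜ : Set ℕ)).preimage (c1 l)).union
        (isClosed_eq continuous_fst continuous_const)
    · have c2 : Continuous fun p : X1 × ((ℕ → ℕ) × Z) => (p.2.1 l, p.2.1 l') := (c1 l).prodMk (c1 l')
      exact (isClosed_discrete {r : ℕ × ℕ | l ≠ l' → r.1 = 0 ∨ r.2 = 0}).preimage c2
  · apply IsOpen.isGδ
    exact (isClosed_eq (continuous_fst.comp continuous_snd) continuous_const).isOpen_compl
  · apply IsClosed.isGδ
    exact isClosed_eq (continuous_snd.comp continuous_snd) continuous_const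

instance [PolishSpace X1] [PolishSpace Z] : PolishSpace (YY q w) := by
  have h1 : PolishSpace (range (jj q w)) := polish_of_Gdelta (isGδ_range q w)
  have h2 : IsEmbedding (jj q w) := ⟨isInducing_jj q w, jj_inj q w⟩
  exact h2.toHomeomorph.isClosedEmbedding.polishSpace

/-! ## Continuity of the maps -/

theorem continuous_iff_jj {A : Type} [TopologicalSpace A] {f : A → YY q w} :
    Continuous f ↔ Continuous fun a => jj q w (f a) := continuous_induced_rng

/-- the inclusion of a piece -/
def inc (d : ℕ × ℕ) (z : Z) : YY q w := rt d z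

/-- the last coordinate -/
def lst (y : YY q w) : Z := (jj q w y).2.2

/-- the pieces -/
def pc (d : ℕ × ℕ) : Set (YY q w) := {y | (jj q w y).2.1 d.2 = d.1 + 1}

theorem inl_notMem_pc (d : ℕ × ℕ) (x : X1) : (lf x : YY q w) ∉ pc q w d := by
  intro h
  have h : (0 : ℕ) = d.1 + 1 := h
  omega

theorem inr_mem_pc (d d' : ℕ × ℕ) (z : Z) : (rt d' z : YY q w) ∈ pc q w d ↔ d' = d := by
  constructor
  · intro h
    have h : tt d' d.2 = d.1 + 1 := h
    simp only [tt] at h
    split_ifs at h with h1
    exact Prod.ext (by omega) h1.symm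
  · rintro rfl
    show tt d' d'.2 = d'.1 + 1
    simp [tt]

theorem isClopen_pc (d : ℕ × ℕ) : IsClopen (pc q w d) := by
  have h1 : Continuous fun y : YY q w => (jj q w y).2.1 d.2 :=
    ((continuous_apply d.2).comp (continuous_fst.comp continuous_snd)).comp (continuous_jj q w)
  exact (isClopen_discrete ({d.1 + 1} : Set ℕ)).preimage h1

theorem continuous_inc (d : ℕ × ℕ) : Continuous (inc q w d) := by
  rw [continuous_iff_jj]
  exact continuous_const.prodMk (continuous_const.prodMk continuous_id)

theorem continuous_lst : Continuous (lst q w) :=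
  (continuous_snd.comp continuous_snd).comp (continuous_jj q w)

theorem continuous_inl : Continuous (lf : X1 → YY q w) := by
  rw [continuous_iff_jj]
  exact continuous_id.prodMk continuous_const

open Classical in
/-- applying a map in one piece -/
noncomputable def locf (d : ℕ × ℕ) (g : Z → Z) (y : YY q w) : YY q w :=
  if y ∈ pc q w d then inc q w d (g (lst q w y)) else y

theorem continuous_locf (d : ℕ × ℕ) {g : Z → Z} (hg : Continuous g) : Continuous (locf q w d g) := by
  classical
  have : locf q w d g = (pc q w d).piecewise (fun y => inc q w d (g (lst q w y))) id := rfl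
  rw [this]
  refine Continuous.piecewise ?_ ((continuous_inc q w d).comp (hg.comp (continuous_lst q w)))
    continuous_id
  rw [(isClopen_pc q w d).frontier_eq]
  simp

theorem locf_inl (d : ℕ × ℕ) (g : Z → Z) (x : X1) :
    locf q w d g (lf x) = lf x := by
  unfold locf
  rw [if_neg (inl_notMem_pc q w d x)]

theorem locf_same (d : ℕ × ℕ) (g : Z → Z) (z : Z) :
    locf q w d g (rt d z) = rt d (g z) := by
  unfold locf
  rw [if_pos ((inr_mem_pc q w d d z).2 rfl)]
  rfl

theorem locf_ne (d : ℕ × ℕ) (g : Z → Z) {d' : ℕ × ℕ} (h : d' ≠ d) (z : Z) :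
    locf q w d g (rt d' z) = rt d' z := by
  unfold locf
  rw [if_neg (fun h' => h ((inr_mem_pc q w d d' z).1 h'))]

/-- the homeomorphism of one piece -/
noncomputable def locH (d : ℕ × ℕ) (g : Z → Z) (hg : Continuous g) (hgi : ∀ z, g (g z) = z) :
    YY q w ≃ₜ YY q w where
  toFun := locf q w d g
  invFun := locf q w d g
  left_inv := by
    rintro (x | ⟨d', z⟩)
    · rw [locf_inl, locf_inl]
    · by_cases h : d' = d
      · subst h
        rw [locf_same, locf_same, hgi]
      · rw [locf_ne q w d g h, locf_ne q w d g h]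
  right_inv := by
    rintro (x | ⟨d', z⟩)
    · rw [locf_inl, locf_inl]
    · by_cases h : d' = d
      · subst h
        rw [locf_same, locf_same, hgi]
      · rw [locf_ne q w d g h, locf_ne q w d g h]
  continuous_toFun := continuous_locf q w d hg
  continuous_invFun := continuous_locf q w d hg

open Classical in
/-- exchanging two pieces -/
noncomputable def swf (d e : ℕ × ℕ) (y : YY q w) : YY q w :=
  if y ∈ pc q w d then inc q w e (lst q w y) else
    if y ∈ pc q w e then inc q w d (lst q w y) else y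

theorem continuous_swf (d e : ℕ × ℕ) : Continuous (swf q w d e) := by
  classical
  have h1 : Continuous ((pc q w e).piecewise (fun y => inc q w d (lst q w y)) id) := by
    refine Continuous.piecewise ?_ ((continuous_inc q w d).comp (continuous_lst q w)) continuous_id
    rw [(isClopen_pc q w e).frontier_eq]
    simp
  have : swf q w d e = (pc q w d).piecewise (fun y => inc q w e (lst q w y))
      ((pc q w e).piecewise (fun y => inc q w d (lst q w y)) id) := rfl
  rw [this]
  refine Continuous.piecewise ?_ ((continuous_inc q w e).comp (continuous_lst q w)) h1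
  rw [(isClopen_pc q w d).frontier_eq]
  simp

theorem swf_inl (d e : ℕ × ℕ) (x : X1) : swf q w d e (lf x) = lf x := by
  unfold swf
  rw [if_neg (inl_notMem_pc q w d x), if_neg (inl_notMem_pc q w e x)]

theorem swf_inr (d e : ℕ × ℕ) (d' : ℕ × ℕ) (z : Z) :
    swf q w d e (rt d' z) = rt (Equiv.swap d e d') z := by
  unfold swf
  by_cases h : d' = d
  · subst h
    rw [if_pos ((inr_mem_pc q w d' d' z).2 rfl), Equiv.swap_apply_left]
    rfl
  · rw [if_neg (fun h' => h ((inr_mem_pc q w d d' z).1 h'))]
    by_cases h2 : d' = e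
    · subst h2
      rw [if_pos ((inr_mem_pc q w d' d' z).2 rfl), Equiv.swap_apply_right]
      rfl
    · rw [if_neg (fun h' => h2 ((inr_mem_pc q w e d' z).1 h')), Equiv.swap_apply_of_ne_of_ne h h2]

/-- the homeomorphism exchanging two pieces -/
noncomputable def swH (d e : ℕ × ℕ) : YY q w ≃ₜ YY q w where
  toFun := swf q w d e
  invFun := swf q w d e
  left_inv := by
    rintro (x | ⟨d', z⟩)
    · rw [swf_inl, swf_inl]
    · rw [swf_inr, swf_inr, Equiv.swap_apply_self]
  right_inv := by
    rintro (x | ⟨d', z⟩)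
    · rw [swf_inl, swf_inl]
    · rw [swf_inr, swf_inr, Equiv.swap_apply_self]
  continuous_toFun := continuous_swf q w d e
  continuous_invFun := continuous_swf q w d e

/-- the map coming from a map of the first space -/
def glf (g : X1 → X1) (π : ℕ → ℕ) : YY q w → YY q w
  | lf x => lf (g x)
  | rt d z => rt (π d.1, d.2) z

theorem continuous_glf {g : X1 → X1} (hg : Continuous g) {π : ℕ → ℕ} (hπ : ∀ i, q (π i) = g (q i)) :
    Continuous (glf q w g π) := by
  rw [continuous_iff_jj]
  let G : X1 × ((ℕ → ℕ) × Z) → X1 × ((ℕ → ℕ) × Z) := fun p =>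
    (g p.1, ((fun l => if p.2.1 l = 0 then 0 else π (p.2.1 l - 1) + 1), p.2.2))
  have hG : Continuous G := by
    refine (hg.comp continuous_fst).prodMk (Continuous.prodMk ?_ (continuous_snd.comp continuous_snd))
    refine continuous_pi fun l => ?_
    have c1 : Continuous fun p : X1 × ((ℕ → ℕ) × Z) => p.2.1 l :=
      (continuous_apply l).comp (continuous_fst.comp continuous_snd)
    exact (continuous_of_discreteTopology (f := fun c : ℕ => if c = 0 then 0 else π (c - 1) + 1)).comp
      c1
  have : (fun a => jj q w (glf q w g π a)) = fun a => G (jj q w a) := by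
    funext a
    rcases a with x | ⟨d, z⟩
    · simp [glf, jj, G]
    · simp only [glf, jj, G, Prod.mk.injEq, hπ, and_true, true_and]
      funext l
      simp only [tt]
      split_ifs <;> simp_all
  rw [this]
  exact hG.comp (continuous_jj q w)

/-- the homeomorphism coming from an involution of the first space -/
def glH (g : X1 → X1) (hg : Continuous g) (hgi : ∀ x, g (g x) = x) (π : ℕ → ℕ)
    (hπ : ∀ i, q (π i) = g (q i)) (hq : Function.Injective q) : YY q w ≃ₜ YY q w where
  toFun := glf q w g π
  invFun := glf q w g π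
  left_inv := by
    have h1 : ∀ i, π (π i) = i := fun i => hq (by rw [hπ, hπ, hgi])
    rintro (x | ⟨d, z⟩)
    · simp only [glf, hgi]
    · simp only [glf, h1]
  right_inv := by
    have h1 : ∀ i, π (π i) = i := fun i => hq (by rw [hπ, hπ, hgi])
    rintro (x | ⟨d, z⟩)
    · simp only [glf, hgi]
    · simp only [glf, h1]
  continuous_toFun := continuous_glf q w hg hπ
  continuous_invFun := continuous_glf q w hg hπ

/-! ## The relation and the group -/

/-- the orbit relation -/
def FF (E1 : X1 → X1 → Prop) (E0 : Z → Z → Prop) : YY q w → YY q w → Prop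
  | lf x, lf x' => E1 x x'
  | rt _ z, rt _ z' => E0 z z'
  | _, _ => False

theorem FF_equiv {E1 : X1 → X1 → Prop} {E0 : Z → Z → Prop} (h1 : Equivalence E1)
    (h0 : Equivalence E0) : Equivalence (FF q w E1 E0) := by
  refine ⟨?_, ?_, ?_⟩
  · rintro (x | ⟨d, z⟩)
    · exact h1.refl x
    · exact h0.refl _
  · rintro (x | ⟨d, z⟩) (x' | ⟨d', z'⟩) h
    · exact h1.symm h
    · exact h
    · exact h
    · exact h0.symm h
  · rintro (x | ⟨d, z⟩) (x' | ⟨d', z'⟩) (x'' | ⟨d'', z''⟩) h h'
    · exact h1.trans h h'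
    · exact h'
    · exact h.elim
    · exact h
    · exact h
    · exact h.elim
    · exact h'
    · exact h0.trans h h'

theorem exists_action (s1 : ℕ → X1 → X1) (hs1 : ∀ n, Continuous (s1 n))
    (hi1 : ∀ n x, s1 n (s1 n x) = x) (s0 : ℕ → Z → Z) (hs0 : ∀ n, Continuous (s0 n))
    (hi0 : ∀ n x, s0 n (s0 n x) = x) (hE1 : Equivalence fun x y => ∃ n, s1 n x = y)
    (hE0 : Equivalence fun x y => ∃ n, s0 n x = y) (hq : Function.Injective q)
    (π : ℕ → ℕ → ℕ) (hπ : ∀ n i, q (π n i) = s1 n (q i)) :
    ∃ (G : Type) (_ : Group G) (_ : Countable G) (_ : MulAction G (YY q w))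
      (_ : ContinuousConstSMul G (YY q w)), ∀ y y', FF q w (fun x y => ∃ n, s1 n x = y)
        (fun x y => ∃ n, s0 n x = y) y y' ↔ ∃ g : G, g • y = y' := by
  let T : ℕ ⊕ ((ℕ × (ℕ × ℕ)) ⊕ ((ℕ × ℕ) × (ℕ × ℕ))) → (YY q w ≃ₜ YY q w) := fun i => match i with
    | Sum.inl n => glH q w (s1 n) (hs1 n) (hi1 n) (π n) (hπ n) hq
    | Sum.inr (Sum.inl (n, d)) => locH q w d (s0 n) (hs0 n) (hi0 n)
    | Sum.inr (Sum.inr (d, e)) => swH q w d e
  refine exists_group T _ (FF_equiv q w hE1 hE0) ?_ ?_
  · rintro (n | ⟨n, d⟩ | ⟨d, e⟩) (x | ⟨d', z⟩)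
    · exact ⟨n, rfl⟩
    · exact hE0.refl z
    · show FF q w _ _ (lf x) (locf q w d (s0 n) (lf x))
      rw [locf_inl]
      exact hE1.refl x
    · show FF q w _ _ (rt d' z) (locf q w d (s0 n) (rt d' z))
      by_cases h : d' = d
      · subst h
        rw [locf_same]
        exact ⟨n, rfl⟩
      · rw [locf_ne q w d _ h]
        exact hE0.refl z
    · show FF q w _ _ (lf x) (swf q w d e (lf x))
      rw [swf_inl]
      exact hE1.refl x
    · show FF q w _ _ (rt d' z) (swf q w d e (rt d' z))
      rw [swf_inr]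
      exact hE0.refl z
  · rintro (x | ⟨d, z⟩) (x' | ⟨d', z'⟩) h
    · obtain ⟨n, hn⟩ := h
      refine ⟨[Sum.inl n], ?_⟩
      show (lf (s1 n x) : YY q w) = lf x'
      rw [hn]
    · exact h.elim
    · exact h.elim
    · obtain ⟨n, hn⟩ := h
      have hn : s0 n z = z' := hn
      refine ⟨[Sum.inr (Sum.inr (d, d')), Sum.inr (Sum.inl (n, d))], ?_⟩
      show swf q w d d' (locf q w d (s0 n) (rt d z)) = rt d' z'
      rw [locf_same, swf_inr, Equiv.swap_apply_left, hn]

theorem dense_orbit {E1 : X1 → X1 → Prop} {E0 : Z → Z → Prop} (hq : DenseRange q)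
    [PolishSpace X1]
    (h0 : ∀ U, IsOpen U → U.Nonempty → ∃ z, E0 w z ∧ z ∈ U) (h00 : E0 w w) :
    ∀ y : YY q w, y ∈ closure {z : YY q w | FF q w E1 E0 (rt (0, 0) w) z} := by
  rintro (x | ⟨d, z⟩)
  · obtain ⟨u, hu, hux⟩ := mem_closure_iff_seq_limit.1 (hq x)
    choose i hi using hu
    have h1 : Tendsto (fun n => (rt (i n, n) w : YY q w)) atTop (𝓝 (lf x)) := by
      rw [(isInducing_jj q w).tendsto_nhds_iff]
      show Tendsto (fun n => (q (i n), (tt (i n, n), w))) atTop (𝓝 (x, ((fun _ => 0), w)))
      refine Tendsto.prodMk_nhds ?_ (Tendsto.prodMk_nhds ?_ tendsto_const_nhds)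
      · simp only [hi]
        exact hux
      · rw [tendsto_pi_nhds]
        intro l
        apply tendsto_const_nhds.congr'
        filter_upwards [eventually_gt_atTop l] with n hn
        simp only [tt]
        rw [if_neg (by omega)]
    exact mem_closure_of_tendsto h1 (Eventually.of_forall fun n => h00)
  · rw [mem_closure_iff]
    intro U hU hz
    obtain ⟨z', h1, h2⟩ := h0 (inc q w d ⁻¹' U) (hU.preimage (continuous_inc q w d)) ⟨z, hz⟩
    exact ⟨rt d z', h2, h1⟩

theorem not_isolated {E1 : X1 → X1 → Prop} {E0 : Z → Z → Prop} (hq : DenseRange q)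
    [PolishSpace X1]
    (h0 : ∀ U, IsOpen U → U.Nonempty → ∃ z, E0 w z ∧ z ∈ U) (h00 : E0 w w)
    (hZ : ∀ z : Z, ¬ IsOpen {z}) (y : YY q w) : ¬ IsOpen {y} := by
  rcases y with x | ⟨d, z⟩
  · intro h
    have h1 := dense_orbit (E1 := E1) (E0 := E0) q w hq h0 h00 (lf x)
    rw [mem_closure_iff] at h1
    obtain ⟨y, hy, hy'⟩ := h1 _ h rfl
    rw [mem_singleton_iff] at hy
    subst hy
    exact hy'
  · intro h
    apply hZ z
    have h1 := h.preimage (continuous_inc q w d)
    have : inc q w d ⁻¹' {rt d z} = {z} := by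
      ext z'
      constructor
      · intro h2
        have h2 : (rt d z' : YY q w) = rt d z := h2
        exact (YY.rt.inj h2).2
      · intro h2
        rw [mem_singleton_iff] at h2
        subst h2
        rfl
    rwa [this] at h1

end

end Pool.Agent.V11255.TR
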