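import Pool.Agent.V11255.MED2

open Set Filter Topology

namespace Pool.Agent.V11255.MED

/-! ### A chain of finite sequences -/

theorem exists_limit {α : Type} [Inhabited α] (t : ℕ → List α) (h : ∀ m, t m <+: t (m + 1))
    (hl : ∀ n, ∃ m, n < (t m).length) : ∃ q : ℕ → α, ∀ m, t m = rs q (t m).length := by
  classical
  have hmono : ∀ m k, m ≤ k → t m <+: t k := by
    intro m k hmk
    induction k, hmk using Nat.le_induction with
    | base => exact List.prefix_rfl
    | succ k _ ih => exact ih.trans (h k)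
  choose M hM using hl
  refine ⟨fun n => ((t (M n))[n]?).getD default, fun m => ?_⟩
  refine List.ext_getElem (by rw [rs_length]) fun n h1 h2 => ?_
  rw [rs_getElem]
  have h3 : (t m)[n] = (t (M n))[n]'(hM n) := by
    rcases le_total m (M n) with h4 | h4
    · exact (hmono _ _ h4).getElem h1
    · exact ((hmono _ _ h4).getElem (hM n)).symm
  rw [h3, List.getElem?_eq_getElem (hM n)]
  rfl

/-! ### The König argument -/

section Konig

variable {p : ℕ → E4}

theorem sig_some {i : ℕ} {s : List E} (h : sig p i = some s) :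
    (p (b p i)).1 = c (b p i) s ∧ s.length = b p i + 1 := sg_eq_some.1 h

theorem finite_b_le (p : ℕ → E4) (N : ℕ) : {i | b p i ≤ N}.Finite :=
  (Set.finite_le_nat N).preimage ((b_inj p).injOn)

theorem konig (hfin : ∀ k, {i | inG (sig p) k i}.Finite) :
    ∃ q : ℕ → E, {n | (p n).1 = c n (rs q (n + 1)) ∧ n = b p (idx n)}.Infinite := by
  classical
  -- eventually all entries are strings
  have hnone : {i | sig p i = none}.Finite := by
    refine (hfin 0).subset fun i hi => ?_
    have hi' : sig p i = none := hi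
    show inG (sig p) 0 i
    rw [inG_iff]
    refine ⟨Nat.zero_le _, fun j _ _ s t _ ht => ?_⟩
    rw [hi'] at ht
    exact absurd ht (by simp)
  obtain ⟨K0, hK0⟩ : ∃ K0, ∀ i, K0 ≤ i → sig p i ≠ none := by
    obtain ⟨B, hB⟩ := hnone.bddAbove
    exact ⟨B + 1, fun i hi h => by have := hB (show i ∈ {i | sig p i = none} from h); omega⟩
  let s : ℕ → List E := fun i => (sig p i).getD []
  have hs : ∀ i, K0 ≤ i → sig p i = some (s i) := by
    intro i hi
    obtain ⟨x, hx⟩ := Option.ne_none_iff_exists'.1 (hK0 i hi)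
    show sig p i = some ((sig p i).getD [])
    rw [hx]; rfl
  have hlen : ∀ i, K0 ≤ i → (s i).length = b p i + 1 := fun i hi => (sig_some (hs i hi)).2
  let T : List E → Prop := fun t => {i | K0 ≤ i ∧ t <+: s i}.Infinite
  have hT0 : T [] := by
    refine (Set.Ici_infinite K0).mono fun i hi => ⟨hi, List.nil_prefix⟩
  have hstep : ∀ t, T t → ∀ K, ∃ j, K ≤ j ∧ K0 ≤ j ∧ t <+: s j ∧ T (s j) := by
    intro t ht K
    obtain ⟨k1, hk1⟩ : ∃ k1, ∀ j, k1 ≤ j → t.length < b p j := by
      obtain ⟨B, hB⟩ := (finite_b_le p t.length).bddAbove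
      refine ⟨B + 1, fun j hj => ?_⟩
      by_contra hcon
      have := hB (show j ∈ {i | b p i ≤ t.length} from by
        show b p j ≤ t.length
        omega)
      omega
    let k := max K (max K0 k1)
    have hkK : K ≤ k := le_max_left _ _
    have hkK0 : K0 ≤ k := (le_max_left _ _).trans (le_max_right _ _)
    have hkk1 : k1 ≤ k := (le_max_right _ _).trans (le_max_right _ _)
    let I : Set ℕ := {i | k ≤ i ∧ t <+: s i}
    have hI : I.Infinite := by
      have h1 : {i | K0 ≤ i ∧ t <+: s i} ⊆ I ∪ {i | i < k} := by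
        rintro i ⟨-, hi⟩
        rcases lt_or_ge i k with h2 | h2
        · exact Or.inr h2
        · exact Or.inl ⟨h2, hi⟩
      intro hfinI
      exact ht ((hfinI.union (Set.finite_lt_nat k)).subset h1)
    obtain ⟨j, hjG, hjinf⟩ : ∃ j, inG (sig p) k j ∧ {i | i ∈ I ∧ s j <+: s i}.Infinite := by
      by_contra hcon
      push Not at hcon
      have hfin1 : ∀ j ∈ {i | inG (sig p) k i}, {i | i ∈ I ∧ s j <+: s i}.Finite := fun j hj =>
        hcon j hj
      have hfin2 : ∀ j ∈ {i | inG (sig p) k i}, {i | i ∈ I ∧ s i <+: s j}.Finite := fun j _ => by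
        refine (finite_b_le p (s j).length).subset ?_
        rintro i ⟨hi, hij⟩
        have h1 := hij.length_le
        rw [hlen i (hkK0.trans hi.1)] at h1
        show b p i ≤ (s j).length
        omega
      apply hI
      refine (((hfin k).union ((hfin k).biUnion hfin1)).union ((hfin k).biUnion hfin2)).subset ?_
      intro i hi
      by_cases hiG : inG (sig p) k i
      · exact Or.inl (Or.inl hiG)
      · rw [inG_iff] at hiG
        push Not at hiG
        obtain ⟨j, hj, hjG, hinc⟩ := hiG hi.1
        have hkj : k ≤ j := ((inG_iff _ _ _).1 hjG).1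
        unfold Incomp at hinc
        push Not at hinc
        obtain ⟨x, y, hx, hy, hxy⟩ := hinc
        rw [hs j (hkK0.trans hkj), Option.some_inj] at hx
        rw [hs i (hkK0.trans hi.1), Option.some_inj] at hy
        subst hx hy
        rcases hxy with h1 | h1
        · exact Or.inl (Or.inr (mem_biUnion hjG ⟨hi, h1⟩))
        · exact Or.inr (mem_biUnion hjG ⟨hi, h1⟩)
    have hkj : k ≤ j := ((inG_iff _ _ _).1 hjG).1
    obtain ⟨i, ⟨hi, hji⟩⟩ := hjinf.nonempty
    refine ⟨j, hkK.trans hkj, hkK0.trans hkj, ?_, ?_⟩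
    · refine List.prefix_of_prefix_length_le hi.2 hji ?_
      rw [hlen j (hkK0.trans hkj)]
      have := hk1 j (hkk1.trans hkj)
      omega
    · refine hjinf.mono ?_
      rintro i ⟨hi, hji⟩
      exact ⟨hkK0.trans hi.1, hji⟩
  choose! nx hnx1 hnx2 hnx3 hnx4 using hstep
  -- the chain
  let st : ℕ → List E × ℕ := fun n => Nat.rec ([], 0) (fun _ x => (s (nx x.1 x.2), nx x.1 x.2 + 1)) n
  have hst : ∀ n, st (n + 1) = (s (nx (st n).1 (st n).2), nx (st n).1 (st n).2 + 1) := fun n => rfl
  have hTst : ∀ n, T (st n).1 := by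
    intro n
    induction n with
    | zero => exact hT0
    | succ n ih => rw [hst]; exact hnx4 _ ih _
  let j : ℕ → ℕ := fun n => nx (st n).1 (st n).2
  have hjlt : ∀ n, j n < j (n + 1) := by
    intro n
    have h1 := hnx1 _ (hTst (n + 1)) (st (n + 1)).2
    have h2 : (st (n + 1)).2 = j n + 1 := by rw [hst]
    have h3 : (st (n + 1)).2 ≤ j (n + 1) := h1
    omega
  have hjmono : StrictMono j := strictMono_nat_of_lt_succ hjlt
  have hpre : ∀ n, (st n).1 <+: (st (n + 1)).1 := by
    intro n
    rw [hst]
    exact hnx3 _ (hTst n) _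
  have hlenst : ∀ n, ((st (n + 1)).1).length = b p (j n) + 1 := by
    intro n
    rw [hst]
    exact hlen _ (hnx2 _ (hTst n) _)
  have hbj : StrictMono fun n => b p (j n) := by
    refine strictMono_nat_of_lt_succ fun n => ?_
    have h1 := (hpre (n + 1)).length_le
    have h1a := hlenst n
    have h1b := hlenst (n + 1)
    rw [h1a, h1b] at h1
    have h2 : b p (j n) ≠ b p (j (n + 1)) := fun h => (hjlt n).ne (b_inj p h)
    omega
  obtain ⟨q, hq⟩ := exists_limit (fun n => (st n).1) hpre (fun n => ⟨n + 1, by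
    show n < ((st (n + 1)).1).length
    rw [hlenst]
    have := hbj.id_le n
    have h2 : n ≤ b p (j n) := this
    omega⟩)
  refine ⟨q, ?_⟩
  refine (Set.infinite_range_of_injective hbj.injective).mono ?_
  rintro _ ⟨n, rfl⟩
  refine ⟨?_, ?_⟩
  · have h1 := (sig_some (hs (j n) (hnx2 _ (hTst n) _))).1
    have h2 := hq (n + 1)
    have h3 : (st (n + 1)).1 = s (j n) := by rw [hst]
    have h4 : (st (n + 1)).1 = rs q ((st (n + 1)).1).length := h2
    rw [hlenst, h3] at h4
    show (p (b p (j n))).1 = c (b p (j n)) (rs q (b p (j n) + 1))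
    rw [h1, ← h4]
  · show b p (j n) = b p (idx (b p (j n)))
    rw [idx_b]

end Konig

/-! ### Catching a permutation -/

section Catch

variable (f : Equiv.Perm ℕ)

theorem finite_lists (i m : ℕ) : {l : List ℕ | l.length = m ∧ ∀ x ∈ l, x ≤ i}.Finite := by
  induction m with
  | zero =>
    refine (Set.finite_singleton ([] : List ℕ)).subset ?_
    rintro l ⟨hl, _⟩
    exact List.length_eq_zero_iff.1 hl
  | succ m ih =>
    refine ((Set.finite_le_nat i).image2 (fun x l => x :: l) ih).subset ?_
    rintro l ⟨hl, hx⟩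
    cases l with
    | nil => simp at hl
    | cons x l =>
      refine ⟨x, hx x (by simp), l, ⟨by simpa using hl, fun y hy => hx y (by simp [hy])⟩, rfl⟩

/-- The codes to be avoided at stage `t.length`. -/
def Bad (t : List E4) : Set ℕ :=
  {v | ∃ n, n < t.length ∧ ∃ s : List E, s.length = n + 1 ∧ s.map Prod.fst = t.take (n + 1) ∧
    (∀ x ∈ s.map Prod.snd, x ≤ t.length) ∧ v = c n s}

theorem finite_Bad (t : List E4) : (Bad t).Finite := by
  have h1 : Bad t ⊆ ⋃ n ∈ {n | n < t.length},
      (fun l : List ℕ => c n (List.zip (t.take (n + 1)) l)) '' {l : List ℕ | l.length = n + 1 ∧ ∀ x ∈ l, x ≤ t.length} := by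
    rintro v ⟨n, hn, s, hs1, hs2, hs3, rfl⟩
    refine mem_biUnion hn ⟨s.map Prod.snd, ⟨by rw [List.length_map, hs1], hs3⟩, ?_⟩
    show c n (List.zip (t.take (n + 1)) (s.map Prod.snd)) = c n s
    rw [← hs2, ← List.unzip_fst, ← List.unzip_snd, List.zip_unzip]
  exact ((Set.finite_lt_nat t.length).biUnion fun n _ => (finite_lists _ _).image _).subset h1

theorem exists_w0 (t : List E4) : ∃ x, f (z t x) ∉ Bad t := by
  by_contra hcon
  push Not at hcon
  have hinj : Function.Injective fun x => f (z t x) := fun x y h => (z_inj (f.injective h)).2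
  have h1 : (Set.range fun x => f (z t x)) ⊆ Bad t := by
    rintro _ ⟨x, rfl⟩
    exact hcon x
  exact Set.infinite_range_of_injective hinj ((finite_Bad t).subset h1)

noncomputable def w0 (t : List E4) : ℕ := (exists_w0 f t).choose

theorem w0_spec (t : List E4) : f (z t (w0 f t)) ∉ Bad t := (exists_w0 f t).choose_spec

noncomputable def w1 (t : List E4) : ℕ :=
  (((sc (f (z t (w0 f t))))[t.length]?).map (fun e => e.1.2.2.2 + 1)).getD 0

noncomputable def next (t : List E4) : E4 := (f t.length, f.symm t.length, w0 f t, w1 f t)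

noncomputable def L : ℕ → List E4
  | 0 => []
  | n + 1 => L n ++ [next f (L n)]

noncomputable def pf (n : ℕ) : E4 := next f (L f n)

theorem rs_pf (n : ℕ) : rs (pf f) n = L f n := by
  induction n with
  | zero => rfl
  | succ n ih => rw [rs_succ, ih]; rfl

theorem L_length (n : ℕ) : (L f n).length = n := by rw [← rs_pf, rs_length]

theorem pf1 (n : ℕ) : (pf f n).1 = f n := by
  show f (L f n).length = f n
  rw [L_length]

theorem pf2 (n : ℕ) : (pf f n).2.1 = f.symm n := by
  show f.symm (L f n).length = f.symm n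
  rw [L_length]

theorem b_pf (i : ℕ) : b (pf f) i = z (L f i) (w0 f (L f i)) := by
  unfold b
  rw [rs_pf]; rfl

theorem avoid1 (i : ℕ) : f (b (pf f) i) ∉ Bad (L f i) := by
  rw [b_pf]; exact w0_spec f _

theorem avoid2 (i m : ℕ) (s : List E) (hs : f (b (pf f) i) = c m s) (e : E) (he : s[i]? = some e) :
    e.1.2.2.2 ≠ (pf f i).2.2.2 := by
  have h1 : (pf f i).2.2.2 = w1 f (L f i) := rfl
  rw [h1]
  unfold w1
  rw [← b_pf, hs, sc_c, L_length, he]
  simp

theorem not_code {q : ℕ → E} (hq : P q = pf f) {U i : ℕ} (hU : ∀ j, u q j ≤ U) (hi : U ≤ i) (m : ℕ) :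
    f (b (pf f) i) ≠ c m (rs q (m + 1)) := by
  intro h
  rcases lt_or_ge m i with hm | hm
  · refine avoid1 f i ⟨m, by rw [L_length]; exact hm, rs q (m + 1), rs_length _ _, ?_, ?_, h⟩
    · rw [← rs_pf, ← hq]
      have h1 : (rs q (m + 1)).map Prod.fst = rs (P q) (m + 1) := by simp [rs, P]
      rw [h1]
      have h2 : rs (P q) (m + 1) <+: rs (P q) i := rs_prefix _ hm
      rw [List.prefix_iff_eq_take] at h2
      rw [h2, rs_length]
    · intro x hx
      rw [L_length]
      simp only [rs, List.map_map, List.mem_map, List.mem_range] at hx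
      obtain ⟨j, _, rfl⟩ := hx
      exact (hU j).trans hi
  · refine avoid2 f i m _ h (q i) (rs_getElem? _ _ _ (by omega)) ?_
    have h1 : (q i).1 = pf f i := congrFun hq i
    rw [h1]

theorem catch_perm : ∃ q : ℕ → E, {n | H q true n = f n}.Infinite := by
  classical
  by_cases hfin : ∀ k, {i | inG (sig (pf f)) k i}.Finite
  · obtain ⟨q, hq⟩ := konig hfin
    refine ⟨q, ?_⟩
    let N0 : Set ℕ := {n | (pf f n).1 = c n (rs q (n + 1)) ∧ n = b (pf f) (idx n)}
    by_cases hN1 : (N0 ∩ {n | InB q n}).Finite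
    · have h1 : (N0 \ {n | InB q n}).Infinite := by
        intro h2
        refine hq ((hN1.union h2).subset ?_)
        intro n hn
        by_cases hB : InB q n
        · exact Or.inl ⟨hn, hB⟩
        · exact Or.inr ⟨hn, hB⟩
      refine h1.mono ?_
      rintro n ⟨⟨hn1, hn2⟩, hnB⟩
      have hU : Up q true n := by
        rw [Up_iff]
        refine ⟨hnB, fun m _ hnm _ => ?_⟩
        have h3 := c_mod m (rs q (m + 1))
        rw [← hnm] at h3
        have h4 : n % 3 = 2 := by rw [hn2, b, z]; omega
        omega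
      show H q true n = f n
      rw [H_up q hU, ← hn1, pf1]
    · have hinf : (N0 ∩ {n | InB q n}).Infinite := hN1
      have hP : P q = pf f := by
        funext j
        obtain ⟨n, ⟨hn0, hnB⟩, hi⟩ := exists_large hinf (P q) (fun n hn => hn.2.1) (j + 1)
        have h1 : b (P q) (idx n) = b (pf f) (idx n) := by
          rw [← (show InB q n from hnB).1]; exact hn0.2
        exact (rs_eq_iff _ _ _).1 (z_inj h1).1 j (by omega)
      refine hinf.mono ?_
      rintro n ⟨_, hnB⟩
      show H q true n = f n
      rw [H_res (s := true) (show Res q true n from hnB)]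
      show g q n = f n
      have h2 : (q n).1 = pf f n := congrFun hP n
      unfold g
      rw [h2, pf1]
  · have hex : ∃ k, {i | inG (sig (pf f)) k i}.Infinite := by
      push Not at hfin
      exact hfin
    let k := Nat.find hex
    have hk : {i | inG (sig (pf f)) k i}.Infinite := Nat.find_spec hex
    have hkmin : ∀ k', k' < k → {i | inG (sig (pf f)) k' i}.Finite := fun k' hk' => by
      have := Nat.find_min hex hk'
      rwa [Set.not_infinite] at this
    have hbound : ∀ k', k' < k → ∃ M, (M = 0 ∨ inG (sig (pf f)) k' (M - 1)) ∧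
        ∀ j, M ≤ j → ¬ inG (sig (pf f)) k' j := by
      intro k' hk'
      have hex2 : ∃ M, ∀ j, M ≤ j → ¬ inG (sig (pf f)) k' j := by
        obtain ⟨B, hB⟩ := (hkmin k' hk').bddAbove
        refine ⟨B + 1, fun j hj h => ?_⟩
        have := hB (show j ∈ {i | inG (sig (pf f)) k' i} from h)
        omega
      refine ⟨Nat.find hex2, ?_, Nat.find_spec hex2⟩
      by_contra hcon
      push Not at hcon
      obtain ⟨h1, h2⟩ := hcon
      refine Nat.find_min hex2 (m := Nat.find hex2 - 1) (by omega) fun j hj => ?_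
      rcases eq_or_lt_of_le hj with h3 | h3
      · rw [← h3]; exact h2
      · exact Nat.find_spec hex2 j (by omega)
    choose! M hM1 hM2 using hbound
    let uu : ℕ → ℕ := fun n => if n = 0 then k else if n ≤ k then M (n - 1) else 0
    let q : ℕ → E := fun n => (pf f n, uu n)
    have hPq : P q = pf f := rfl
    have hu0 : u q 0 = k := rfl
    have hus : ∀ k', k' < k → u q (k' + 1) = M k' := by
      intro k' hk'
      show (if k' + 1 = 0 then k else if k' + 1 ≤ k then M (k' + 1 - 1) else 0) = M k'
      rw [if_neg (by omega), if_pos (by omega)]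
      rfl
    have hul : ∀ j, k < j → u q j = 0 := by
      intro j hj
      show (if j = 0 then k else if j ≤ k then M (j - 1) else 0) = 0
      rw [if_neg (by omega), if_neg (by omega)]
    have hval : ∀ i, Valid q i := by
      intro i
      refine ⟨fun k' hk' => ?_, fun j _ hj => hul j hj⟩
      rw [hu0] at hk'
      rw [hus k' hk', hPq]
      exact ⟨hM1 k' hk', fun j _ hj => hM2 k' hk' j hj⟩
    obtain ⟨U, hU⟩ : ∃ U, ∀ j, u q j ≤ U := by
      refine ⟨(Finset.range (k + 1)).sup (u q), fun j => ?_⟩
      rcases lt_or_ge k j with hj | hj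
      · rw [hul j hj]; exact Nat.zero_le _
      · exact Finset.le_sup (f := u q) (Finset.mem_range.2 (by omega))
    refine ⟨q, ?_⟩
    have hinf : ({i | inG (sig (pf f)) k i} \ {i | i < U}).Infinite := hk.sdiff (Set.finite_lt_nat U)
    have himg := hinf.image ((b_inj (pf f)).injOn)
    refine himg.mono ?_
    rintro _ ⟨i, ⟨hiG, hiU⟩, rfl⟩
    have hiU' : U ≤ i := by
      have : ¬ i < U := hiU
      omega
    have hB : InB q (b (pf f) i) := by
      refine ⟨?_, ?_, hval _, ?_, ?_⟩
      · rw [hPq, idx_b]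
      · rw [hPq, idx_b, hu0]; exact hiG
      · show (pf f (pf f (b (pf f) i)).1).2.1 = b (pf f) i
        rw [pf1, pf2, Equiv.symm_apply_apply]
      · intro m _
        show (pf f (b (pf f) i)).1 ≠ _
        rw [pf1]
        exact not_code f hPq hU hiU' m
    show H q true (b (pf f) i) = f (b (pf f) i)
    rw [H_res (s := true) (show Res q true _ from hB)]
    show (pf f (b (pf f) i)).1 = f (b (pf f) i)
    rw [pf1]

end Catch

end Pool.Agent.V11255.MED
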