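import Mathlib

set_option autoImplicit false

open Set

namespace Pool.Agent.V11255.EE

/-! ## Points: a node of the tree of finite sequences together with a real -/

/-- a node of the tree (most recent entry first) and a real -/
abbrev P : Type := List ℤ × (ℕ → Bool)

/-- the nodes of `a` and `b` have length at least `k` and agree up to length `k` -/
def Dk (k : ℕ) (a b : P) : Prop := ∃ l : List ℤ, l.length = k ∧ l <:+ a.1 ∧ l <:+ b.1

theorem Dk.symm {k : ℕ} {a b : P} (h : Dk k a b) : Dk k b a := by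
  obtain ⟨l, h1, h2, h3⟩ := h
  exact ⟨l, h1, h3, h2⟩

theorem suffix_eq {l l' q : List ℤ} (h : l <:+ q) (h' : l' <:+ q) (hl : l.length = l'.length) :
    l = l' :=
  (List.suffix_of_suffix_length_le h h' hl.le).eq_of_length hl

theorem Dk.trans {k : ℕ} {a b c : P} (h : Dk k a b) (h' : Dk k b c) : Dk k a c := by
  obtain ⟨l, h1, h2, h3⟩ := h
  obtain ⟨l', h4, h5, h6⟩ := h'
  have := suffix_eq h3 h5 (h1.trans h4.symm)
  subst this
  exact ⟨l, h1, h2, h6⟩

theorem exists_suffix (q : List ℤ) {k : ℕ} (hk : k ≤ q.length) : ∃ l, l.length = k ∧ l <:+ q :=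
  ⟨q.drop (q.length - k), by rw [List.length_drop]; omega, List.drop_suffix _ _⟩

theorem Dk.mono {k k' : ℕ} {a b : P} (h : Dk k a b) (hk : k' ≤ k) : Dk k' a b := by
  obtain ⟨l, h1, h2, h3⟩ := h
  obtain ⟨l', h4, h5⟩ := exists_suffix l (h1 ▸ hk)
  exact ⟨l', h4, h5.trans h2, h5.trans h3⟩

theorem Dk_self {k : ℕ} {a : P} : Dk k a a ↔ k ≤ a.1.length := by
  constructor
  · rintro ⟨l, h1, h2, -⟩
    rw [← h1]
    exact h2.length_le
  · intro h
    obtain ⟨l, h1, h2⟩ := exists_suffix a.1 h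
    exact ⟨l, h1, h2, h2⟩

theorem Dk.le_left {k : ℕ} {a b : P} (h : Dk k a b) : k ≤ a.1.length := Dk_self.1 (h.trans h.symm)
theorem Dk.le_right {k : ℕ} {a b : P} (h : Dk k a b) : k ≤ b.1.length := h.symm.le_left

theorem Dk_zero (a b : P) : Dk 0 a b := ⟨[], rfl, List.nil_suffix, List.nil_suffix⟩

/-- the relations: length of the node, bits of the real, agreement of nodes -/
def srel (i : ℕ) (a b : P) : Prop :=
  (i % 3 = 0 ∧ a.1.length = i / 3) ∨ (i % 3 = 1 ∧ a.2 (i / 3) = true) ∨ (i % 3 = 2 ∧ Dk (i / 3) a b)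

theorem srel_len (k : ℕ) (a b : P) : srel (3 * k) a b ↔ a.1.length = k := by
  have h1 : 3 * k % 3 = 0 := by omega
  have h2 : 3 * k / 3 = k := by omega
  simp [srel, h1, h2]

theorem srel_bit (k : ℕ) (a b : P) : srel (3 * k + 1) a b ↔ a.2 k = true := by
  have h1 : (3 * k + 1) % 3 = 1 := by omega
  have h2 : (3 * k + 1) / 3 = k := by omega
  simp [srel, h1, h2]

theorem srel_dk (k : ℕ) (a b : P) : srel (3 * k + 2) a b ↔ Dk k a b := by
  have h1 : (3 * k + 2) % 3 = 2 := by omega
  have h2 : (3 * k + 2) / 3 = k := by omega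
  simp [srel, h1, h2]

/-- two tuples have the same atomic type of level `m` -/
structure AtEq {ι : Type} (m : ℕ) (s t : ι → P) : Prop where
  eq : ∀ i j, s i = s j ↔ t i = t j
  len : ∀ i, ∀ k < m, ((s i).1.length = k ↔ (t i).1.length = k)
  bit : ∀ i, ∀ k < m, (s i).2 k = (t i).2 k
  dk : ∀ i j, ∀ k < m, (Dk k (s i) (s j) ↔ Dk k (t i) (t j))

theorem AtEq.mono {ι : Type} {m m' : ℕ} {s t : ι → P} (h : AtEq m s t) (hm : m' ≤ m) :
    AtEq m' s t :=
  ⟨h.eq, fun i k hk => h.len i k (hk.trans_le hm), fun i k hk => h.bit i k (hk.trans_le hm),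
    fun i j k hk => h.dk i j k (hk.trans_le hm)⟩

theorem AtEq.symm {ι : Type} {m : ℕ} {s t : ι → P} (h : AtEq m s t) : AtEq m t s :=
  ⟨fun i j => (h.eq i j).symm, fun i k hk => (h.len i k hk).symm, fun i k hk => (h.bit i k hk).symm,
    fun i j k hk => (h.dk i j k hk).symm⟩

theorem AtEq.comp {ι κ : Type} {m : ℕ} {s t : ι → P} (h : AtEq m s t) (e : κ → ι) :
    AtEq m (s ∘ e) (t ∘ e) :=
  ⟨fun i j => h.eq _ _, fun i => h.len _, fun i => h.bit _, fun i j => h.dk _ _⟩

theorem AtEq.srel {ι : Type} {m : ℕ} {s t : ι → P} (h : AtEq m s t) {r : ℕ} (hr : r / 3 < m)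
    (i j : ι) : srel r (s i) (s j) ↔ srel r (t i) (t j) := by
  unfold EE.srel
  rw [h.len i _ hr, h.bit i _ hr, h.dk i j _ hr]

/-- every node carries infinitely many reals with any given finite pattern -/
def Full (S : Set P) : Prop :=
  ∀ (q : List ℤ) (m : ℕ) (w : ℕ → Bool) (F : Set P), F.Finite →
    ∃ ρ, (q, ρ) ∈ S ∧ (∀ k < m, ρ k = w k) ∧ (q, ρ) ∉ F

/-- the choice of the node -/
theorem exists_node {ι : Type} [Finite ι] {m : ℕ} {s t : ι → P} (h : AtEq m s t) (a : P) :
    ∃ q : List ℤ, q.length = a.1.length ∧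
      ∀ (ρ : ℕ → Bool) (j : ι), ∀ k < m, (Dk k a (s j) ↔ Dk k (q, ρ) (t j)) := by
  classical
  -- an integer occurring in none of the nodes
  obtain ⟨z, hz⟩ : ∃ z : ℤ, ∀ j, z ∉ (t j).1 := by
    have hfin : (⋃ j, {z : ℤ | z ∈ (t j).1}).Finite :=
      finite_iUnion fun j => List.finite_toSet (t j).1
    obtain ⟨z, hz⟩ := hfin.exists_notMem
    exact ⟨z, fun j hj => hz (mem_iUnion.2 ⟨j, hj⟩)⟩
  by_cases hex : ∃ k, k < m ∧ ∃ j, Dk k a (s j)
  · -- the largest such `k`
    obtain ⟨k0, ⟨hk0, j0, hj0⟩, hmax⟩ : ∃ k, (k < m ∧ ∃ j, Dk k a (s j)) ∧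
        ∀ k', (k' < m ∧ ∃ j, Dk k' a (s j)) → k' ≤ k := by
      have hb : ∀ k, (k < m ∧ ∃ j, Dk k a (s j)) → k ≤ m := fun k hk => hk.1.le
      exact ⟨_, Nat.findGreatest_spec (P := fun k => k < m ∧ ∃ j, Dk k a (s j)) (hb _ hex.choose_spec)
        hex.choose_spec, fun k' hk' => Nat.le_findGreatest (hb _ hk') hk'⟩
    have hts : Dk k0 (t j0) (t j0) := (h.dk j0 j0 k0 hk0).1 (hj0.symm.trans hj0)
    obtain ⟨q0, hq0, hq0s⟩ := exists_suffix (t j0).1 hts.le_left
    have hle : k0 ≤ a.1.length := hj0.le_left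
    refine ⟨List.replicate (a.1.length - k0) z ++ q0, by simp [hq0]; omega, ?_⟩
    intro ρ j k hk
    by_cases hkk : k ≤ k0
    · have h1 : Dk k a (s j) ↔ Dk k (s j0) (s j) :=
        ⟨fun h' => (hj0.symm.mono hkk).trans h', fun h' => (hj0.mono hkk).trans h'⟩
      have h2 : Dk k0 (List.replicate (a.1.length - k0) z ++ q0, ρ) (t j0) :=
        ⟨q0, hq0, List.suffix_append _ _, hq0s⟩
      rw [h1, h.dk j0 j k hk]
      exact ⟨fun h' => (h2.mono hkk).trans h', fun h' => (h2.symm.mono hkk).trans h'⟩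
    · constructor
      · intro h'
        exact absurd (hmax k ⟨hk, j, h'⟩) hkk
      · rintro ⟨l, hl, hl1, hl2⟩
        exfalso
        rcases List.suffix_or_suffix_of_suffix hl1 (List.suffix_append _ q0) with h3 | h3
        · have := h3.length_le
          omega
        · -- `l` contains `z`
          obtain ⟨l', rfl⟩ := h3
          have h4 : l' <:+ List.replicate (a.1.length - k0) z := by
            exact (List.suffix_append_inj_of_length_eq rfl).1 hl1 |>.1
          have h5 : l' ≠ [] := by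
            rintro rfl
            simp at hl
            omega
          obtain ⟨x, hx⟩ := List.exists_mem_of_ne_nil l' h5
          have h6 : x = z := List.eq_of_mem_replicate (h4.subset hx)
          subst h6
          exact hz j (hl2.subset (List.mem_append_left _ hx))
  · push Not at hex
    refine ⟨List.replicate a.1.length 0, by simp, ?_⟩
    intro ρ j k hk
    exact absurd (Dk_zero a (s j)) (hex 0 (by omega) j)

theorem extend {ι : Type} [Finite ι] {m : ℕ} {s t : ι → P} (h : AtEq m s t) {T : Set P}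
    (hT : Full T) (ht : ∀ i, t i ∈ T) (a : P) :
    ∃ b ∈ T, AtEq m (fun o : Option ι => o.elim a s) (fun o : Option ι => o.elim b t) := by
  by_cases ha : ∃ i, s i = a
  · obtain ⟨i, rfl⟩ := ha
    refine ⟨t i, ht i, ?_⟩
    have e1 : (fun o : Option ι => o.elim (s i) s) = s ∘ (fun o : Option ι => o.elim i id) := by
      funext o
      rcases o with _ | o <;> rfl
    have e2 : (fun o : Option ι => o.elim (t i) t) = t ∘ (fun o : Option ι => o.elim i id) := by
      funext o
      rcases o with _ | o <;> rfl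
    rw [e1, e2]
    exact h.comp _
  · push Not at ha
    obtain ⟨q, hq, hqd⟩ := exists_node h a
    obtain ⟨ρ, hρT, hρm, hρt⟩ := hT q m a.2 (range t) (finite_range t)
    have hne : ∀ i, t i ≠ (q, ρ) := fun i hi => hρt ⟨i, hi⟩
    refine ⟨(q, ρ), hρT, ?_, ?_, ?_, ?_⟩
    · rintro (_ | i) (_ | j)
      · simp
      · simp only [Option.elim]
        exact ⟨fun h' => absurd h'.symm (ha j), fun h' => absurd h'.symm (hne j)⟩
      · simp only [Option.elim]
        exact ⟨fun h' => absurd h' (ha i), fun h' => absurd h' (hne i)⟩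
      · exact h.eq i j
    · rintro (_ | i) k hk
      · simp [hq]
      · exact h.len i k hk
    · rintro (_ | i) k hk
      · exact (hρm k hk).symm
      · exact h.bit i k hk
    · rintro (_ | i) (_ | j) k hk
      · simp only [Option.elim]
        rw [Dk_self, Dk_self, hq]
      · exact hqd ρ j k hk
      · simp only [Option.elim]
        constructor
        · exact fun h' => ((hqd ρ i k hk).1 h'.symm).symm
        · exact fun h' => ((hqd ρ i k hk).2 h'.symm).symm
      · exact h.dk i j k hk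

end Pool.Agent.V11255.EE
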