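import Mathlib
import Pool.Agent.V11255.EE1

set_option autoImplicit false

open Set

namespace Pool.Agent.V11255.EE

/-! ## The language, the structures, and elementary maps -/

/-- the language: countably many binary relation symbols -/
abbrev L : FirstOrder.Language.{0, 0} :=
  FirstOrder.Language.mk (fun _ => PEmpty.{1}) (fun n => {i : ℕ // (fun _ : ℕ => 2) i = n})

/-- codes of structures -/
abbrev Str : Type := ∀ i : ℕ, (Fin ((fun _ : ℕ => 2) i) → ℕ) → Bool

/-- the structure with code `u` -/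
abbrev str (u : Str) : L.Structure ℕ :=
  @FirstOrder.Language.Structure.mk
    (FirstOrder.Language.mk (fun _ => PEmpty.{1}) (fun n => {i : ℕ // (fun _ : ℕ => 2) i = n})) ℕ
    (fun f _ => PEmpty.elim f)
    (fun r xs => u (Subtype.val r) (xs ∘ Fin.cast (Subtype.property r)) = true)

open Classical in
/-- the structure on `ℕ` pulled back from the points -/
noncomputable def pull (π : ℕ → P) : Str := fun i v => decide (srel i (π (v 0)) (π (v 1)))

theorem pull_iff (π : ℕ → P) (i : ℕ) (v : Fin 2 → ℕ) :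
    pull π i v = true ↔ srel i (π (v 0)) (π (v 1)) := by
  classical
  unfold pull
  rw [decide_eq_true_iff]

theorem pull_comp (π : ℕ → P) (h : ℕ → ℕ) (i : ℕ) (v : Fin 2 → ℕ) :
    pull π i (h ∘ v) = pull (π ∘ h) i v := rfl

open FirstOrder.Language in
/-- The back-and-forth argument. -/
theorem qe {α : Type} [Finite α] {n : ℕ} (φ : L.BoundedFormula α n) :
    ∃ m, ∀ (π π' : ℕ → P), Function.Injective π → Full (range π) → Function.Injective π' →
      Full (range π') → ∀ (v v' : α → ℕ) (xs xs' : Fin n → ℕ),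
      AtEq m (π ∘ Sum.elim v xs) (π' ∘ Sum.elim v' xs') →
      (@BoundedFormula.Realize L ℕ (str (pull π)) α n φ v xs ↔
        @BoundedFormula.Realize L ℕ (str (pull π')) α n φ v' xs') := by
  induction φ with
  | falsum => exact ⟨0, fun _ _ _ _ _ _ _ _ _ _ _ => Iff.rfl⟩
  | @equal n t₁ t₂ =>
    refine ⟨0, fun π π' hi _ hi' _ v v' xs xs' h => ?_⟩
    rcases t₁ with i | ⟨f, _⟩
    · rcases t₂ with j | ⟨f, _⟩
      · have := h.eq i j
        simp only [Function.comp, hi.eq_iff, hi'.eq_iff] at this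
        exact this
      · exact PEmpty.elim f
    · exact PEmpty.elim f
  | @rel n l R ts =>
    rcases R with ⟨r, hr⟩
    have hr' : 2 = l := hr
    subst hr'
    refine ⟨r / 3 + 1, fun π π' _ _ _ _ v v' xs xs' h => ?_⟩
    obtain ⟨i, hi⟩ : ∃ i, ts 0 = Term.var i := by
      rcases h0 : ts 0 with i | ⟨f, _⟩
      · exact ⟨i, rfl⟩
      · exact PEmpty.elim f
    obtain ⟨j, hj⟩ : ∃ j, ts 1 = Term.var j := by
      rcases h0 : ts 1 with i | ⟨f, _⟩
      · exact ⟨i, rfl⟩
      · exact PEmpty.elim f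
    have key : ∀ (ϖ : ℕ → P) (w : α → ℕ) (ys : Fin n → ℕ),
        @BoundedFormula.Realize L ℕ (str (pull ϖ)) α n
          (BoundedFormula.rel (⟨r, hr⟩ : L.Relations 2) ts) w ys ↔
          srel r (ϖ (Sum.elim w ys i)) (ϖ (Sum.elim w ys j)) := by
      intro ϖ w ys
      let := str (pull ϖ)
      have h1 : Term.realize (Sum.elim w ys) (ts 0) = Sum.elim w ys i := by
        rw [hi]
        rfl
      have h2 : Term.realize (Sum.elim w ys) (ts 1) = Sum.elim w ys j := by
        rw [hj]
        rfl
      rw [← h1, ← h2]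
      exact pull_iff ϖ r _
    rw [key, key]
    exact h.srel (Nat.lt_succ_self _) i j
  | @imp n φ ψ ih1 ih2 =>
    obtain ⟨m1, h1⟩ := ih1
    obtain ⟨m2, h2⟩ := ih2
    refine ⟨max m1 m2, fun π π' a1 a2 a3 a4 v v' xs xs' h => ?_⟩
    have h3 := h1 π π' a1 a2 a3 a4 v v' xs xs' (h.mono (le_max_left _ _))
    have h4 := h2 π π' a1 a2 a3 a4 v v' xs xs' (h.mono (le_max_right _ _))
    have e : ∀ (ϖ : ℕ → P) (w : α → ℕ) (ys : Fin n → ℕ),
        @BoundedFormula.Realize L ℕ (str (pull ϖ)) α n (φ.imp ψ) w ys ↔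
          (@BoundedFormula.Realize L ℕ (str (pull ϖ)) α n φ w ys →
            @BoundedFormula.Realize L ℕ (str (pull ϖ)) α n ψ w ys) := fun _ _ _ => Iff.rfl
    rw [e, e, h3, h4]
  | @all n φ ih =>
    obtain ⟨m, hm⟩ := ih
    refine ⟨m, fun π π' a1 a2 a3 a4 v v' xs xs' h => ?_⟩
    -- one direction
    have main : ∀ (π π' : ℕ → P), Function.Injective π → Full (range π) → Function.Injective π' →
        Full (range π') → ∀ (v v' : α → ℕ) (xs xs' : Fin n → ℕ),
        AtEq m (π ∘ Sum.elim v xs) (π' ∘ Sum.elim v' xs') →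
        (∀ a, @BoundedFormula.Realize L ℕ (str (pull π)) α (n + 1) φ v (Fin.snoc xs a)) →
        ∀ a, @BoundedFormula.Realize L ℕ (str (pull π')) α (n + 1) φ v' (Fin.snoc xs' a) := by
      intro π π' a1 a2 a3 a4 v v' xs xs' h hall b
      obtain ⟨_, ⟨a, rfl⟩, h1⟩ := extend h.symm a2 (fun i => ⟨_, rfl⟩) (π' b)
      rw [← hm π π' a1 a2 a3 a4 v v' (Fin.snoc xs a) (Fin.snoc xs' b)]
      · exact hall a
      · let e : α ⊕ Fin (n + 1) → Option (α ⊕ Fin n) :=
          Sum.elim (fun x => some (Sum.inl x))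
            (fun k => Fin.lastCases (motive := fun _ => Option (α ⊕ Fin n)) none
              (fun j => some (Sum.inr j)) k)
        have key : ∀ (ϖ : ℕ → P) (w : α → ℕ) (ys : Fin n → ℕ) (c : ℕ),
            (fun o : Option (α ⊕ Fin n) => o.elim (ϖ c) (ϖ ∘ Sum.elim w ys)) ∘ e =
              ϖ ∘ Sum.elim w (Fin.snoc ys c : Fin (n + 1) → ℕ) := by
          intro ϖ w ys c
          funext x
          rcases x with x | k
          · rfl
          · refine Fin.lastCases ?_ (fun j => ?_) k
            · simp [e]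
            · simp [e]
        rw [← key, ← key]
        exact h1.symm.comp e
    exact ⟨main π π' a1 a2 a3 a4 v v' xs xs' h, main π' π a3 a4 a1 a2 v' v xs' xs h.symm⟩

/-- Maps preserving the atomic relations are elementary. -/
theorem elementary {π π' : ℕ → P} (h1 : Function.Injective π) (h2 : Full (range π))
    (h3 : Function.Injective π') (h4 : Full (range π')) (h : ℕ → ℕ) (hi : Function.Injective h)
    (hr : ∀ r a b, srel r (π a) (π b) ↔ srel r (π' (h a)) (π' (h b))) :
    Nonempty (@FirstOrder.Language.ElementaryEmbedding L ℕ ℕ (str (pull π)) (str (pull π'))) := by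
  refine ⟨@FirstOrder.Language.ElementaryEmbedding.mk L ℕ ℕ (str (pull π)) (str (pull π')) h ?_⟩
  intro n φ x
  obtain ⟨m, hm⟩ := qe φ
  refine (hm π π' h1 h2 h3 h4 x (h ∘ x) _ _ ?_).symm
  · refine ⟨?_, ?_, ?_, ?_⟩
    · rintro (i | i) (j | j)
      · simp [h1.eq_iff, h3.eq_iff, hi.eq_iff]
      · exact j.elim0
      · exact i.elim0
      · exact i.elim0
    · rintro (i | i) k _
      · have := hr (3 * k) (x i) (x i)
        rw [srel_len, srel_len] at this
        exact this
      · exact i.elim0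
    · rintro (i | i) k _
      · have := hr (3 * k + 1) (x i) (x i)
        rw [srel_bit, srel_bit] at this
        show (π (x i)).2 k = (π' (h (x i))).2 k
        cases h5 : (π (x i)).2 k <;> cases h6 : (π' (h (x i))).2 k <;> simp_all
      · exact i.elim0
    · rintro (i | i) (j | j) k _
      · have := hr (3 * k + 2) (x i) (x j)
        rw [srel_dk, srel_dk] at this
        exact this
      · exact j.elim0
      · exact i.elim0
      · exact i.elim0

/-- Elementary maps preserve the atomic relations. -/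
theorem of_elementary {π π' : ℕ → P}
    (hne : Nonempty (@FirstOrder.Language.ElementaryEmbedding L ℕ ℕ (str (pull π)) (str (pull π')))) :
    ∃ h : ℕ → ℕ, Function.Injective h ∧
      ∀ r a b, srel r (π a) (π b) ↔ srel r (π' (h a)) (π' (h b)) := by
  obtain ⟨f⟩ := hne
  refine ⟨fun n => @DFunLike.coe _ _ _ (@FirstOrder.Language.ElementaryEmbedding.instFunLike L ℕ ℕ
    (str (pull π)) (str (pull π'))) f n, ?_, ?_⟩
  · exact @FirstOrder.Language.ElementaryEmbedding.injective L ℕ ℕ (str (pull π)) (str (pull π')) f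
  · intro r a b
    have := @FirstOrder.Language.ElementaryEmbedding.map_rel L ℕ ℕ (str (pull π)) (str (pull π'))
      f 2 (⟨r, rfl⟩ : {i : ℕ // (fun _ : ℕ => 2) i = 2}) ![a, b]
    have e1 := pull_iff π r ![a, b]
    have e2 := pull_iff π' r (fun i => @DFunLike.coe _ _ _
      (@FirstOrder.Language.ElementaryEmbedding.instFunLike L ℕ ℕ (str (pull π)) (str (pull π')))
      f (![a, b] i))
    exact e1.symm.trans (this.symm.trans e2)

end Pool.Agent.V11255.EE
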