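import Mathlib
import Pool.Agent.V11255.EE2
import Pool.Agent.H579R3.Epi3

set_option autoImplicit false

open Set

namespace Pool.Agent.V11255.EE

open Pool.Agent.H579R3.Epi (K N IsAuto TLe Lam)

/-! ## The points attached to a labelled tree -/

/-- the real coding the label `κ` -/
def rr (κ : K) : ℕ → Bool := fun n => decide (n = Encodable.encode κ)

/-- the reals which are eventually `true` -/
def Q0 : Set (ℕ → Bool) := {ρ | ∃ N, ∀ n ≥ N, ρ n = true}

theorem rr_injective : Function.Injective rr := by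
  intro κ κ' h
  have := congrFun h (Encodable.encode κ)
  simp only [rr, decide_true] at this
  have := (decide_eq_true_iff.1 this.symm)
  exact Encodable.encode_injective this

theorem rr_notMem (κ : K) : rr κ ∉ Q0 := by
  rintro ⟨N, hN⟩
  have := hN (max N (Encodable.encode κ + 1)) (le_max_left _ _)
  simp only [rr, decide_eq_true_eq] at this
  have h2 := le_max_right N (Encodable.encode κ + 1)
  omega

theorem countable_Q0 : Q0.Countable := by
  have : Q0 = ⋃ N : ℕ, {ρ : ℕ → Bool | ∀ n ≥ N, ρ n = true} := by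
    ext ρ
    simp [Q0]
  rw [this]
  refine countable_iUnion fun N => ?_
  have hinj : InjOn (fun (ρ : ℕ → Bool) (i : Fin N) => ρ i) {ρ : ℕ → Bool | ∀ n ≥ N, ρ n = true} := by
    intro ρ h ρ' h' he
    funext n
    by_cases hn : n < N
    · exact congrFun he ⟨n, hn⟩
    · rw [h n (by omega), h' n (by omega)]
  exact (Finite.of_finite_image (toFinite _) hinj).countable

/-- the approximations -/
def ap (m : ℕ) (w : ℕ → Bool) (N : ℕ) : ℕ → Bool := fun n =>
  if n < m then w n else if n < m + N then false else true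

theorem ap_mem (m : ℕ) (w : ℕ → Bool) (N : ℕ) : ap m w N ∈ Q0 := by
  refine ⟨m + N, fun n hn => ?_⟩
  have h1 : ¬ n < m := by omega
  have h2 : ¬ n < m + N := by omega
  simp [ap, h1, h2]

theorem ap_injective (m : ℕ) (w : ℕ → Bool) : Function.Injective (ap m w) := by
  have key : ∀ N N', ap m w N = ap m w N' → ¬ N < N' := by
    intro N N' h hlt
    have := congrFun h (m + N)
    have h1 : ¬ m + N < m := by omega
    have h3 : m + N < m + N' := by omega
    simp [ap, h1, h3] at this
  intro N N' h
  have h1 := key N N' h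
  have h2 := key N' N h.symm
  omega

theorem infinite_Q0 : Q0.Infinite :=
  (infinite_range_of_injective (ap_injective 0 fun _ => true)).mono (by
    rintro _ ⟨N, rfl⟩
    exact ap_mem _ _ _)

/-- the points attached to the labelled tree -/
def Ax (Λ : List ℤ → Set K) : Set P := {a | a.2 ∈ Q0 ∨ ∃ κ ∈ Λ a.1, a.2 = rr κ}

theorem full_Ax (Λ : List ℤ → Set K) : Full (Ax Λ) := by
  intro q m w F hF
  have hinj : Function.Injective fun N => ((q, ap m w N) : P) := by
    intro N N' h
    exact ap_injective m w (congrArg Prod.snd h)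
  obtain ⟨_, ⟨N, rfl⟩, hN⟩ := (infinite_range_of_injective hinj).exists_notMem_finite hF
  refine ⟨ap m w N, Or.inl (ap_mem _ _ _), fun k hk => ?_, hN⟩
  simp [ap, hk]

theorem mem_Ax_rr {Λ : List ℤ → Set K} {p : List ℤ} {κ : K} :
    ((p, rr κ) : P) ∈ Ax Λ ↔ κ ∈ Λ p := by
  constructor
  · rintro (h | ⟨κ', h, h'⟩)
    · exact absurd h (rr_notMem κ)
    · rw [rr_injective h']
      exact h
  · intro h
    exact Or.inr ⟨κ, h, rfl⟩

theorem mem_Ax_ap {Λ : List ℤ → Set K} {p : List ℤ} {m : ℕ} {w : ℕ → Bool} {N : ℕ} :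
    ((p, ap m w N) : P) ∈ Ax Λ := Or.inl (ap_mem m w N)

/-! ## Maps of the structures give maps of the trees -/

/-- the order of labelled trees, through maps preserving length and initial segments -/
def TLe' (Λ Λ' : List ℤ → Set K) : Prop :=
  ∃ g : List ℤ → List ℤ, g [] = [] ∧ (∀ k p, ∃ k', g (k :: p) = k' :: g p) ∧ ∀ p, Λ p ⊆ Λ' (g p)

theorem exists_tree_map {Λ Λ' : List ℤ → Set K} {π π' : ℕ → P} (h1 : range π = Ax Λ)
    (h2 : range π' ⊆ Ax Λ') (h : ℕ → ℕ)
    (hr : ∀ r a b, srel r (π a) (π b) ↔ srel r (π' (h a)) (π' (h b))) :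
    ∃ g : List ℤ → List ℤ, g [] = [] ∧ (∀ k p, ∃ k', g (k :: p) = k' :: g p) ∧
      (∀ p, Λ p ⊆ Λ' (g p)) ∧ ∀ n, π' (h n) = (g (π n).1, (π n).2) := by
  have hlen : ∀ n, (π' (h n)).1.length = (π n).1.length := by
    intro n
    have := hr (3 * (π n).1.length) n n
    rw [srel_len, srel_len] at this
    exact this.1 rfl
  have hbit : ∀ n, (π' (h n)).2 = (π n).2 := by
    intro n
    funext k
    have := hr (3 * k + 1) n n
    rw [srel_bit, srel_bit] at this
    cases h5 : (π n).2 k <;> cases h6 : (π' (h n)).2 k <;> simp_all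
  have hdk : ∀ k a b, Dk k (π a) (π b) ↔ Dk k (π' (h a)) (π' (h b)) := by
    intro k a b
    have := hr (3 * k + 2) a b
    rwa [srel_dk, srel_dk] at this
  -- every node is met
  have hnode : ∀ p, ∃ n, (π n).1 = p := by
    intro p
    have : ((p, ap 0 (fun _ => true) 0) : P) ∈ range π := by
      rw [h1]
      exact mem_Ax_ap
    obtain ⟨n, hn⟩ := this
    exact ⟨n, by rw [hn]⟩
  choose c hc using hnode
  -- suffixes are preserved
  have hsuf : ∀ a b, (π b).1 <:+ (π a).1 → (π' (h b)).1 <:+ (π' (h a)).1 := by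
    intro a b hab
    have h3 : Dk (π b).1.length (π a) (π b) := ⟨(π b).1, rfl, hab, List.suffix_refl _⟩
    rw [hdk] at h3
    obtain ⟨l, h4, h5, h6⟩ := h3
    have : l = (π' (h b)).1 := suffix_eq h6 (List.suffix_refl _) (by rw [h4, hlen])
    rwa [this] at h5
  have huniq : ∀ a b, (π a).1 = (π b).1 → (π' (h a)).1 = (π' (h b)).1 := by
    intro a b hab
    have := hsuf b a (by rw [hab])
    exact this.eq_of_length (by rw [hlen, hlen, hab])
  have hg : ∀ n, (π' (h n)).1 = (π' (h (c (π n).1))).1 := fun n => huniq _ _ (hc _).symm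
  refine ⟨fun p => (π' (h (c p))).1, ?_, ?_, ?_, ?_⟩
  · have := hlen (c [])
    rw [hc] at this
    exact List.eq_nil_of_length_eq_zero this
  · intro k p
    have h3 : (π' (h (c p))).1 <:+ (π' (h (c (k :: p)))).1 := by
      apply hsuf
      rw [hc, hc]
      exact List.suffix_cons k p
    have h4 := hlen (c (k :: p))
    have h5 := hlen (c p)
    rw [hc] at h4 h5
    obtain ⟨t, ht⟩ := h3
    have h6 := congrArg List.length ht
    rw [List.length_append, h4, h5, List.length_cons] at h6
    have h7 : t.length = 1 := by omega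
    obtain ⟨k', rfl⟩ := List.length_eq_one_iff.1 h7
    exact ⟨k', ht.symm⟩
  · intro p κ hκ
    have : ((p, rr κ) : P) ∈ range π := by
      rw [h1]
      exact mem_Ax_rr.2 hκ
    obtain ⟨n, hn⟩ := this
    have h3 : π' (h n) ∈ Ax Λ' := h2 ⟨_, rfl⟩
    have h4 : π' (h n) = ((π' (h (c p))).1, rr κ) := by
      refine Prod.ext ?_ ?_
      · rw [hg n, hn]
      · rw [hbit n, hn]
    rw [h4] at h3
    exact mem_Ax_rr.1 h3
  · intro n
    exact Prod.ext (hg n) (hbit n)

theorem auto_length {g : List ℤ → List ℤ} (hg : IsAuto g) (p : List ℤ) :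
    (g p).length = p.length := by
  induction p with
  | nil => rw [hg.nil]
  | cons k p ih =>
    obtain ⟨k', hk'⟩ := hg.cons k p
    rw [hk', List.length_cons, List.length_cons, ih]

theorem auto_suffix {g : List ℤ → List ℤ} (hg : IsAuto g) {l p : List ℤ} (h : l <:+ p) :
    g l <:+ g p := by
  obtain ⟨t, rfl⟩ := h
  induction t with
  | nil => exact List.suffix_refl _
  | cons k t ih =>
    obtain ⟨k', hk'⟩ := hg.cons k (t ++ l)
    rw [List.cons_append, hk']
    exact ih.trans (List.suffix_cons _ _)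

theorem dk_map {g : List ℤ → List ℤ} (hg : IsAuto g) (k : ℕ) (a b : P) :
    Dk k a b ↔ Dk k (g a.1, a.2) (g b.1, b.2) := by
  constructor
  · rintro ⟨l, h1, h2, h3⟩
    exact ⟨g l, by rw [auto_length hg, h1], auto_suffix hg h2, auto_suffix hg h3⟩
  · rintro ⟨l, h1, h2, h3⟩
    have h4 := h2.length_le
    have h5 := h3.length_le
    simp only [auto_length hg] at h4 h5
    obtain ⟨l1, h6, h7⟩ := exists_suffix a.1 (h1 ▸ h4)
    obtain ⟨l2, h8, h9⟩ := exists_suffix b.1 (h1 ▸ h5)
    have h10 : g l1 = l := suffix_eq (auto_suffix hg h7) h2 (by rw [auto_length hg, h6, h1])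
    have h11 : g l2 = l := suffix_eq (auto_suffix hg h9) h3 (by rw [auto_length hg, h8, h1])
    have h12 : l1 = l2 := hg.bij.1 (h10.trans h11.symm)
    subst h12
    exact ⟨l1, h6, h7, h9⟩

/-- Maps of trees give elementary embeddings. -/
theorem elementary_of_tLe {Λ Λ' : List ℤ → Set K} {π π' : ℕ → P} (i1 : Function.Injective π)
    (h1 : range π = Ax Λ) (i2 : Function.Injective π') (h2 : range π' = Ax Λ')
    (h : TLe Λ Λ') :
    Nonempty (@FirstOrder.Language.ElementaryEmbedding L ℕ ℕ (str (pull π)) (str (pull π'))) := by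
  obtain ⟨g, hg, hΛ⟩ := h
  have hex : ∀ n, ∃ m, π' m = (g (π n).1, (π n).2) := by
    intro n
    have h3 : π n ∈ Ax Λ := h1 ▸ ⟨n, rfl⟩
    have h4 : ((g (π n).1, (π n).2) : P) ∈ Ax Λ' := by
      rcases h3 with h3 | ⟨κ, h3, h5⟩
      · exact Or.inl h3
      · exact Or.inr ⟨κ, hΛ _ h3, h5⟩
    rw [← h2] at h4
    exact h4
  choose f hf using hex
  refine elementary i1 (h1 ▸ full_Ax Λ) i2 (h2 ▸ full_Ax Λ') f ?_ ?_
  · intro n m hnm
    have h3 := hf n
    rw [hnm, hf m] at h3
    have h4 := congrArg Prod.fst h3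
    have h5 := congrArg Prod.snd h3
    exact i1 (Prod.ext (hg.bij.1 h4.symm) h5.symm)
  · intro r a b
    rw [hf, hf]
    unfold srel
    rw [dk_map hg]
    simp only [auto_length hg]

/-- Elementary embeddings give maps of trees. -/
theorem tLe'_of_elementary {Λ Λ' : List ℤ → Set K} {π π' : ℕ → P}
    (h1 : range π = Ax Λ) (h2 : range π' = Ax Λ')
    (h : Nonempty (@FirstOrder.Language.ElementaryEmbedding L ℕ ℕ (str (pull π)) (str (pull π')))) :
    TLe' Λ Λ' := by
  obtain ⟨f, -, hf⟩ := of_elementary h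
  obtain ⟨g, h3, h4, h5, -⟩ := exists_tree_map h1 h2.subset f hf
  exact ⟨g, h3, h4, h5⟩

/-- Equal structures come from isomorphic trees. -/
theorem of_pull_eq {Λ Λ' : List ℤ → Set K} {π π' : ℕ → P}
    (h1 : range π = Ax Λ) (h2 : range π' = Ax Λ') (h : pull π = pull π') :
    ∃ g, IsAuto g ∧ (∀ n, π' n = (g (π n).1, (π n).2)) ∧ ∀ p, Λ p = Λ' (g p) := by
  have hr : ∀ r a b, srel r (π a) (π b) ↔ srel r (π' a) (π' b) := by
    intro r a b
    have e1 := pull_iff π r ![a, b]
    have e2 := pull_iff π' r ![a, b]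
    rw [h] at e1
    exact e1.symm.trans e2
  obtain ⟨g, a1, a2, a3, a4⟩ := exists_tree_map h1 h2.subset id hr
  obtain ⟨g', b1, b2, b3, b4⟩ := exists_tree_map h2 h1.subset id (fun r a b => (hr r a b).symm)
  simp only [id] at a4 b4
  have hnode : ∀ {Λ : List ℤ → Set K} {π : ℕ → P}, range π = Ax Λ → ∀ p, ∃ n, (π n).1 = p := by
    intro Λ π h1 p
    have : ((p, ap 0 (fun _ => true) 0) : P) ∈ range π := by
      rw [h1]
      exact mem_Ax_ap
    obtain ⟨n, hn⟩ := this
    exact ⟨n, by rw [hn]⟩
  have c1 : ∀ p, g' (g p) = p := by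
    intro p
    obtain ⟨n, rfl⟩ := hnode h1 p
    have := congrArg Prod.fst (b4 n)
    rw [a4] at this
    exact this.symm
  have c2 : ∀ p, g (g' p) = p := by
    intro p
    obtain ⟨n, rfl⟩ := hnode h2 p
    have := congrArg Prod.fst (a4 n)
    rw [b4] at this
    exact this.symm
  refine ⟨g, ⟨⟨?_, fun p => ⟨g' p, c2 p⟩⟩, a1, a2⟩, a4, fun p => (a3 p).antisymm ?_⟩
  · intro p q hpq
    rw [← c1 p, hpq, c1]
  · have := b3 (g p)
    rwa [c1] at this

/-! ## From a map of trees to the relation -/

open Pool.Agent.H579R3.Epi in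
/-- the relation with witnesses `w`, where `α w` is related to `β w` -/
theorem rel_of_tree' {α β : N → N} {x y : N} (hα : Continuous α) (hβ : Continuous β)
    (htrans : ∀ u v t w w', α w = u → β w = v → α w' = v → β w' = t →
      ∃ w'', α w'' = u ∧ β w'' = t)
    (h : TLe' (Lam α β x) (Lam α β y)) : x = y ∨ ∃ w, α w = x ∧ β w = y := by
  obtain ⟨g, hgn, hgc, hL⟩ := h
  let q : ℕ → List ℤ := fun n => g (br x n)
  have hex : ∀ n, ∃ k, q (n + 1) = k :: q n := fun n => hgc _ _
  choose k hk using hex
  have hl : ∀ n, (q n).length = n := by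
    intro n
    induction n with
    | zero =>
      change (g []).length = 0
      rw [hgn]
      rfl
    | succ n ih => rw [hk, List.length_cons, ih]
  have hmem : ∀ n, Valid α β y (q (n + 1)) ∧ x n = (ent (k n)).1 := by
    intro n
    have h1 := hL _ (br_lam (α := α) (β := β) x n)
    change _ ∈ Lam α β y (q (n + 1)) at h1
    rw [hk, Lam_inr] at h1
    rw [hk]
    exact h1
  -- the limit chain
  set m := (ent (k 0)).2.length with hm
  let L : List (N × N) := List.ofFn fun j : Fin m =>
    ((fun i => ((ent (k i)).2.getD j (0, 0)).1), (fun i => ((ent (k i)).2.getD j (0, 0)).2))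
  have hlen : ∀ n, (ent (k n)).2.length = m := by
    intro n
    obtain ⟨⟨a, l, -, h2, -⟩, -⟩ := hmem n
    have h3 := Enc.get hk hl h2 n (by omega)
    have h4 := Enc.get hk hl h2 0 (by omega)
    rw [hm, h3, h4]
    simp [evalAt]
  have hev : ∀ n, evalAt x L n = ent (k n) := by
    intro n
    have h1 : (L.map fun q => (q.1 n, q.2 n)) = (ent (k n)).2 := by
      apply List.ext_getElem
      · simp [L, hlen]
      · intro j h2 h3
        simp [L, List.getElem?_eq_getElem h3]
    rw [evalAt, h1, (hmem n).2]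
  have hgood : ∀ n, Good α β n x L ∧ ∀ i < n, last x L i = y i := by
    intro n
    rcases n with _ | n
    · obtain ⟨⟨a, l, h1, h2, -⟩, -⟩ := hmem 0
      refine ⟨?_, fun i hi => by omega⟩
      have h3 := Enc.get hk hl h2 0 (by omega)
      have h4 := hev 0
      rw [h3] at h4
      have h5 : l.length = L.length := by
        have := congrArg (fun e => e.2.length) h4
        simp only [evalAt, List.length_map] at this
        exact this.symm
      exact (h1.mono (Nat.zero_le _)).congr h5 (fun i hi => by omega)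
    · obtain ⟨⟨a, l, h1, h2, h2'⟩, -⟩ := hmem n
      have h3 := Enc.get hk hl h2
      rw [hl] at h1 h2'
      have h5 : l.length = L.length := by
        have h4 := hev 0
        rw [h3 0 (by omega)] at h4
        have := congrArg (fun e => e.2.length) h4
        simp only [evalAt, List.length_map] at this
        exact this.symm
      have h6 : ∀ i < n + 1, evalAt a l i = evalAt x L i := by
        intro i hi
        rw [hev, h3 i hi]
      refine ⟨h1.congr h5 h6, fun i hi => ?_⟩
      rw [← last_congr (h6 i hi)]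
      exact h2' i hi
  have hlast : last x L = y := by
    funext i
    exact (hgood (i + 1)).2 i (by omega)
  -- closedness
  have hclosed : ∀ (a b w : N), (∀ n, ∃ w' : N, ∀ i < n, α w' i = a i ∧ β w' i = b i ∧ w' i = w i) →
      α w = a ∧ β w = b := by
    intro a b w h1
    choose w' hw' using h1
    have hlim : Filter.Tendsto w' Filter.atTop (nhds w) := by
      rw [tendsto_pi_nhds]
      intro i
      apply tendsto_const_nhds.congr'
      filter_upwards [Filter.eventually_gt_atTop i] with n hn
      exact ((hw' n i hn).2.2).symm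
    constructor
    · funext i
      have h2 := (tendsto_pi_nhds.1 ((hα.tendsto w).comp hlim)) i
      have h3 : Filter.Tendsto (fun n => (α ∘ w') n i) Filter.atTop (nhds (a i)) := by
        apply tendsto_const_nhds.congr'
        filter_upwards [Filter.eventually_gt_atTop i] with n hn
        exact ((hw' n i hn).1).symm
      exact tendsto_nhds_unique h2 h3
    · funext i
      have h2 := (tendsto_pi_nhds.1 ((hβ.tendsto w).comp hlim)) i
      have h3 : Filter.Tendsto (fun n => (β ∘ w') n i) Filter.atTop (nhds (b i)) := by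
        apply tendsto_const_nhds.congr'
        filter_upwards [Filter.eventually_gt_atTop i] with n hn
        exact ((hw' n i hn).2.1).symm
      exact tendsto_nhds_unique h2 h3
  have hreach : ∀ l : List (N × N), (∀ n, Good α β n x l) →
      x = last x l ∨ ∃ w, α w = x ∧ β w = last x l := by
    intro l
    induction l with
    | nil => intro _; exact Or.inl rfl
    | cons q l ih =>
      intro h1
      have h2 := ih fun n => (h1 n).2
      obtain ⟨h3, h4⟩ := hclosed (last x l) q.2 q.1 fun n => (h1 n).1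
      rcases h2 with h2 | ⟨w, h5, h6⟩
      · exact Or.inr ⟨q.1, by rw [h3, ← h2], h4⟩
      · obtain ⟨w'', h7, h8⟩ := htrans _ _ _ _ _ h5 h6 h3 h4
        exact Or.inr ⟨w'', h7, h8⟩
  have := hreach L fun n => (hgood n).1
  rwa [hlast] at this

end Pool.Agent.V11255.EE
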