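import Mathlib
import Pool.Agent.V11255.EE3

set_option autoImplicit false

open Set MeasureTheory

namespace Pool.Agent.V11255.EE

open Pool.Agent.H579R3.Epi (K N IsAuto TLe Lam mapD)

instance : MeasurableSpace (List ℤ) := ⊤
instance : DiscreteMeasurableSpace (List ℤ) := ⟨fun _ => trivial⟩

theorem measurable_node (n : ℕ) : Measurable fun π : ℕ → P => (π n).1 :=
  measurable_fst.comp (measurable_pi_apply n)

theorem measurable_bit (n k : ℕ) : Measurable fun π : ℕ → P => (π n).2 k :=
  (measurable_pi_apply k).comp (measurable_snd.comp (measurable_pi_apply n))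

theorem measurableSet_srel (r a b : ℕ) : MeasurableSet {π : ℕ → P | srel r (π a) (π b)} := by
  have h1 : MeasurableSet {π : ℕ → P | (π a).1.length = r / 3} :=
    measurable_node a (MeasurableSet.of_discrete (s := {q : List ℤ | q.length = r / 3}))
  have h2 : MeasurableSet {π : ℕ → P | (π a).2 (r / 3) = true} :=
    measurable_bit a (r / 3) (MeasurableSet.of_discrete (s := {true}))
  have h3 : MeasurableSet {π : ℕ → P | Dk (r / 3) (π a) (π b)} :=
    ((measurable_node a).prodMk (measurable_node b)) (MeasurableSet.of_discrete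
      (s := {q : List ℤ × List ℤ | ∃ l : List ℤ, l.length = r / 3 ∧ l <:+ q.1 ∧ l <:+ q.2}))
  have : {π : ℕ → P | srel r (π a) (π b)} =
      ({_π | r % 3 = 0} ∩ {π : ℕ → P | (π a).1.length = r / 3}) ∪
      (({_π | r % 3 = 1} ∩ {π : ℕ → P | (π a).2 (r / 3) = true}) ∪
        ({_π | r % 3 = 2} ∩ {π : ℕ → P | Dk (r / 3) (π a) (π b)})) := rfl
  rw [this]
  exact ((MeasurableSet.const _).inter h1).union
    (((MeasurableSet.const _).inter h2).union ((MeasurableSet.const _).inter h3))

theorem measurable_pull : Measurable pull := by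
  classical
  refine measurable_pi_lambda _ fun i => measurable_pi_lambda _ fun v => ?_
  refine measurable_to_bool ?_
  have : (fun π : ℕ → P => pull π i v) ⁻¹' {true} = {π : ℕ → P | srel i (π (v 0)) (π (v 1))} := by
    ext π
    exact pull_iff π i v
  rw [this]
  exact measurableSet_srel _ _ _

section

variable {X : Type} [MeasurableSpace X] (Λ : X → List ℤ → Set K)

/-- the good enumerations -/
def A : Set ((ℕ → P) × X) := {q | Function.Injective q.1 ∧ range q.1 = Ax (Λ q.2)}

theorem measurableSet_A (hΛ : ∀ p κ, MeasurableSet {x : X | κ ∈ Λ x p}) : MeasurableSet (A Λ) := by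
  -- basic sets
  have hnode : ∀ (n : ℕ) (p : List ℤ), MeasurableSet {q : (ℕ → P) × X | (q.1 n).1 = p} := fun n p =>
    ((measurable_node n).comp measurable_fst) (MeasurableSet.of_discrete (s := {p}))
  have hbit : ∀ (n k : ℕ) (b : Bool), MeasurableSet {q : (ℕ → P) × X | (q.1 n).2 k = b} :=
    fun n k b => ((measurable_bit n k).comp measurable_fst) (MeasurableSet.of_discrete (s := {b}))
  have hpt : ∀ (n : ℕ) (a : P), MeasurableSet {q : (ℕ → P) × X | q.1 n = a} := by
    intro n a
    have : {q : (ℕ → P) × X | q.1 n = a} =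
        {q : (ℕ → P) × X | (q.1 n).1 = a.1} ∩ ⋂ k, {q : (ℕ → P) × X | (q.1 n).2 k = a.2 k} := by
      ext q
      simp only [mem_inter_iff, mem_iInter]
      constructor
      · intro h
        have h' : q.1 n = a := h
        exact ⟨congrArg Prod.fst h', fun k => congrFun (congrArg Prod.snd h') k⟩
      · rintro ⟨h1, h2⟩
        exact Prod.ext h1 (funext h2)
    rw [this]
    exact (hnode _ _).inter (MeasurableSet.iInter fun k => hbit _ _ _)
  have hreal : ∀ (n : ℕ) (ρ : ℕ → Bool), MeasurableSet {q : (ℕ → P) × X | (q.1 n).2 = ρ} := by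
    intro n ρ
    have : {q : (ℕ → P) × X | (q.1 n).2 = ρ} = ⋂ k, {q : (ℕ → P) × X | (q.1 n).2 k = ρ k} := by
      ext q
      simp only [mem_iInter]
      exact funext_iff
    rw [this]
    exact MeasurableSet.iInter fun k => hbit _ _ _
  have heq : ∀ n m : ℕ, MeasurableSet {q : (ℕ → P) × X | q.1 n = q.1 m} := by
    intro n m
    have : {q : (ℕ → P) × X | q.1 n = q.1 m} =
        (⋃ p, ({q : (ℕ → P) × X | (q.1 n).1 = p} ∩ {q : (ℕ → P) × X | (q.1 m).1 = p})) ∩
        ⋂ k, ⋃ b, ({q : (ℕ → P) × X | (q.1 n).2 k = b} ∩ {q : (ℕ → P) × X | (q.1 m).2 k = b}) := by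
      ext q
      simp only [mem_inter_iff, mem_iInter, mem_iUnion]
      constructor
      · intro h
        have h' : q.1 n = q.1 m := h
        exact ⟨⟨_, rfl, (congrArg Prod.fst h').symm⟩,
          fun k => ⟨_, rfl, (congrFun (congrArg Prod.snd h') k).symm⟩⟩
      · rintro ⟨⟨p, h1, h2⟩, h3⟩
        refine Prod.ext ?_ (funext fun k => ?_)
        · exact Eq.trans h1 (Eq.symm h2)
        · obtain ⟨b, h4, h5⟩ := h3 k
          exact Eq.trans h4 (Eq.symm h5)
    rw [this]
    exact (MeasurableSet.iUnion fun p => (hnode _ _).inter (hnode _ _)).inter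
      (MeasurableSet.iInter fun k => MeasurableSet.iUnion fun b => (hbit _ _ _).inter (hbit _ _ _))
  have hlam : ∀ p κ, MeasurableSet {q : (ℕ → P) × X | κ ∈ Λ q.2 p} := fun p κ =>
    measurable_snd (hΛ p κ)
  -- injectivity
  have hinj : MeasurableSet {q : (ℕ → P) × X | Function.Injective q.1} := by
    have : {q : (ℕ → P) × X | Function.Injective q.1} =
        ⋂ n : ℕ, ⋂ m : ℕ, ({q : (ℕ → P) × X | q.1 n = q.1 m}ᶜ ∪ {_q | n = m}) := by
      ext q
      simp only [mem_iInter, mem_union, mem_compl_iff]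
      constructor
      · intro h n m
        by_cases hnm : n = m
        · exact Or.inr hnm
        · exact Or.inl fun h2 => hnm (h h2)
      · intro h n m hnm
        rcases h n m with h1 | h1
        · exact absurd hnm h1
        · exact h1
    rw [this]
    exact MeasurableSet.iInter fun n => MeasurableSet.iInter fun m =>
      (heq n m).compl.union (MeasurableSet.const _)
  -- range contained
  have hsub : MeasurableSet {q : (ℕ → P) × X | range q.1 ⊆ Ax (Λ q.2)} := by
    have : {q : (ℕ → P) × X | range q.1 ⊆ Ax (Λ q.2)} =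
        ⋂ n : ℕ, ((⋃ ρ ∈ Q0, {q : (ℕ → P) × X | (q.1 n).2 = ρ}) ∪
          ⋃ κ : K, ⋃ p : List ℤ, ({q : (ℕ → P) × X | (q.1 n).1 = p} ∩
            ({q : (ℕ → P) × X | κ ∈ Λ q.2 p} ∩ {q : (ℕ → P) × X | (q.1 n).2 = rr κ}))) := by
      ext q
      simp only [mem_iInter, mem_union, mem_iUnion, mem_inter_iff]
      constructor
      · intro h n
        rcases h ⟨n, rfl⟩ with h1 | ⟨κ, h1, h2⟩
        · exact Or.inl ⟨_, h1, rfl⟩
        · exact Or.inr ⟨κ, _, rfl, h1, h2⟩
      · rintro h _ ⟨n, rfl⟩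
        rcases h n with ⟨ρ, h1, h2⟩ | ⟨κ, p, h1, h2, h3⟩
        · left
          have h2' : (q.1 n).2 = ρ := h2
          rw [h2']
          exact h1
        · right
          have h1' : (q.1 n).1 = p := h1
          refine ⟨κ, ?_, h3⟩
          rw [h1']
          exact h2
    rw [this]
    exact MeasurableSet.iInter fun n => (MeasurableSet.biUnion countable_Q0 fun ρ _ => hreal _ _).union
      (MeasurableSet.iUnion fun κ => MeasurableSet.iUnion fun p =>
        (hnode _ _).inter ((hlam _ _).inter (hreal _ _)))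
  have hsup : MeasurableSet {q : (ℕ → P) × X | Ax (Λ q.2) ⊆ range q.1} := by
    have : {q : (ℕ → P) × X | Ax (Λ q.2) ⊆ range q.1} =
        (⋂ p : List ℤ, ⋂ ρ ∈ Q0, ⋃ n : ℕ, {q : (ℕ → P) × X | q.1 n = (p, ρ)}) ∩
        ⋂ p : List ℤ, ⋂ κ : K, ({q : (ℕ → P) × X | κ ∈ Λ q.2 p}ᶜ ∪
          ⋃ n : ℕ, {q : (ℕ → P) × X | q.1 n = (p, rr κ)}) := by
      ext q
      simp only [mem_iInter, mem_union, mem_iUnion, mem_inter_iff, mem_compl_iff]
      constructor
      · intro h
        refine ⟨fun p ρ hρ => ?_, fun p κ => ?_⟩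
        · exact h (show ((p, ρ) : P) ∈ Ax (Λ q.2) from Or.inl hρ)
        · by_cases hκ : κ ∈ Λ q.2 p
          · exact Or.inr (h (mem_Ax_rr.2 hκ))
          · exact Or.inl hκ
      · rintro ⟨h1, h2⟩ ⟨p, ρ⟩ (h3 | ⟨κ, h3, h4⟩)
        · exact h1 p ρ h3
        · have h4' : ρ = rr κ := h4
          subst h4'
          rcases h2 p κ with h5 | h5
          · exact absurd h3 h5
          · exact h5
    rw [this]
    exact (MeasurableSet.iInter fun p => MeasurableSet.biInter countable_Q0 fun ρ _ =>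
      MeasurableSet.iUnion fun n => hpt _ _).inter
      (MeasurableSet.iInter fun p => MeasurableSet.iInter fun κ =>
        (hlam _ _).compl.union (MeasurableSet.iUnion fun n => hpt _ _))
  have : A Λ = {q : (ℕ → P) × X | Function.Injective q.1} ∩
      ({q : (ℕ → P) × X | range q.1 ⊆ Ax (Λ q.2)} ∩ {q : (ℕ → P) × X | Ax (Λ q.2) ⊆ range q.1}) := by
    ext q
    exact ⟨fun h => ⟨h.1, h.2.subset, h.2.superset⟩, fun h => ⟨h.1, h.2.1.antisymm h.2.2⟩⟩
  rw [this]
  exact hinj.inter (hsub.inter hsup)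

end

/-! ## The enumeration of the points of a labelled tree -/

open Classical in
/-- the enumeration -/
noncomputable def en (e : ℕ ≃ List ℤ × (K × ℕ)) (d : K × ℕ ≃ Q0) (Λ : List ℤ → Set K) (n : ℕ) : P :=
  ((e n).1, if (e n).2.1 ∈ Λ (e n).1 then
      (if (e n).2.2 = 0 then rr (e n).2.1 else (d ((e n).2.1, (e n).2.2 - 1) : ℕ → Bool))
    else (d (e n).2 : ℕ → Bool))

theorem en_injective (e : ℕ ≃ List ℤ × (K × ℕ)) (d : K × ℕ ≃ Q0) (Λ : List ℤ → Set K) :
    Function.Injective (en e d Λ) := by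
  classical
  intro n m h
  apply e.injective
  have h1 : (e n).1 = (e m).1 := by
    have := congrArg Prod.fst h
    simpa only [en] using this
  have h2 := congrArg Prod.snd h
  simp only [en] at h2
  rcases hn : e n with ⟨p, κ, i⟩
  rcases hm : e m with ⟨p', κ', i'⟩
  rw [hn, hm] at h1 h2
  simp only at h1 h2
  subst h1
  have hd : ∀ a b : K × ℕ, (d a : ℕ → Bool) = d b → a = b := fun a b hab =>
    d.injective (Subtype.ext hab)
  have hrd : ∀ (κ : K) (a : K × ℕ), rr κ ≠ (d a : ℕ → Bool) := fun κ a hab =>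
    rr_notMem κ (hab ▸ (d a).2)
  split_ifs at h2 with c1 c2 c3 c4 c5 c6 c7 c8
  · have := rr_injective h2
    subst this
    rw [c2, c4]
  · exact absurd h2 (hrd _ _)
  · exact absurd h2 (hrd _ _)
  · exact absurd h2.symm (hrd _ _)
  · have := hd _ _ h2
    simp only [Prod.mk.injEq] at this
    obtain ⟨h3, h4⟩ := this
    have : i = i' := by omega
    rw [h3, this]
  · have := hd _ _ h2
    simp only [Prod.mk.injEq] at this
    obtain ⟨h3, h4⟩ := this
    subst h3
    contradiction
  · exact absurd h2.symm (hrd _ _)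
  · have := hd _ _ h2
    simp only [Prod.mk.injEq] at this
    obtain ⟨h3, h4⟩ := this
    subst h3
    contradiction
  · have := hd _ _ h2
    rw [this]

theorem range_en (e : ℕ ≃ List ℤ × (K × ℕ)) (d : K × ℕ ≃ Q0) (Λ : List ℤ → Set K) :
    range (en e d Λ) = Ax Λ := by
  classical
  apply Subset.antisymm
  · rintro _ ⟨n, rfl⟩
    show _ ∨ _
    simp only [en]
    split_ifs with c1 c2
    · exact Or.inr ⟨_, c1, rfl⟩
    · exact Or.inl (d _).2
    · exact Or.inl (d _).2
  · rintro ⟨p, ρ⟩ (h | ⟨κ, h, h'⟩)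
    · obtain ⟨⟨κ, i⟩, hd⟩ := d.surjective ⟨ρ, h⟩
      by_cases hκ : κ ∈ Λ p
      · refine ⟨e.symm (p, κ, i + 1), ?_⟩
        simp [en, hκ, hd]
      · refine ⟨e.symm (p, κ, i), ?_⟩
        simp [en, hκ, hd]
    · have h1 : ρ = rr κ := h'
      subst h1
      have h2 : κ ∈ Λ p := h
      refine ⟨e.symm (p, κ, 0), ?_⟩
      simp [en, h2]

theorem measurable_en {X : Type} [MeasurableSpace X] (Λ : X → List ℤ → Set K)
    (hΛ : ∀ p κ, MeasurableSet {x : X | κ ∈ Λ x p}) (e : ℕ ≃ List ℤ × (K × ℕ)) (d : K × ℕ ≃ Q0) :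
    Measurable (fun x : X => en e d (Λ x)) := by
  classical
  refine measurable_pi_lambda _ fun n => ?_
  exact measurable_const.prodMk (Measurable.ite (hΛ _ _) measurable_const measurable_const)

/-- The main theorem: every analytic quasi-order on a nonempty Polish space is Borel equivalent to
elementary embeddability on an invariant Borel class of countable structures. -/
theorem main (X : Type) [Nonempty X] [TopologicalSpace X] [PolishSpace X] [MeasurableSpace X]
    [BorelSpace X] (R : X → X → Prop) (hrefl : ∀ x, R x x)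
    (htrans : ∀ x y z, R x y → R y z → R x z) (hR : AnalyticSet {p : X × X | R p.1 p.2}) :
    ∃ B : Set Str, MeasurableSet B ∧
      (∀ (σ : Equiv.Perm ℕ) (u : Str), u ∈ B ↔ (fun i v => u i (σ ∘ v)) ∈ B) ∧
      (∃ f : X → Str, Measurable f ∧ (∀ x, f x ∈ B) ∧
        ∀ x y, R x y ↔
          Nonempty (@FirstOrder.Language.ElementaryEmbedding L ℕ ℕ (str (f x)) (str (f y)))) ∧
      (∃ g : B → X, Measurable g ∧
        ∀ u v : B,
          Nonempty (@FirstOrder.Language.ElementaryEmbedding L ℕ ℕ (str u.1) (str v.1)) ↔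
          R (g u) (g v)) := by
  classical
  obtain ⟨x₀⟩ := ‹Nonempty X›
  -- a Borel embedding of `X` into Baire space
  obtain ⟨c₀, hc₀m, hc₀i⟩ :=
    MeasurableSpace.measurable_injection_nat_bool_of_countablySeparated X
  let c : X → N := fun x n => (c₀ x n).toNat
  have hcm : Measurable c := by
    refine measurable_pi_lambda _ fun n => ?_
    exact (Measurable.of_discrete (f := Bool.toNat)).comp ((measurable_pi_apply n).comp hc₀m)
  have hci : Function.Injective c := by
    intro x y hxy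
    apply hc₀i
    funext n
    have h := congrFun hxy n
    simp only [c] at h
    cases h1 : c₀ x n <;> cases h2 : c₀ y n <;> simp_all
  -- the relation as a continuous image
  rw [AnalyticSet] at hR
  obtain ⟨ψ, hψ, hψr⟩ : ∃ ψ : (ℕ → ℕ) → X × X, Continuous ψ ∧
      range ψ = {p : X × X | R p.1 p.2} := by
    rcases hR with hR | hR
    · have : (x₀, x₀) ∈ {p : X × X | R p.1 p.2} := hrefl x₀
      rw [hR] at this
      exact absurd this (notMem_empty _)
    · exact hR
  have hS : AnalyticSet (range fun w : ℕ → ℕ => (c (ψ w).1, c (ψ w).2)) := by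
    have h1 : Measurable (fun w : ℕ → ℕ => (c (ψ w).1, c (ψ w).2)) :=
      (hcm.comp (measurable_fst.comp hψ.measurable)).prodMk
        (hcm.comp (measurable_snd.comp hψ.measurable))
    have h2 := (MeasurableSet.univ (α := ℕ → ℕ)).analyticSet_image h1
    rwa [image_univ] at h2
  rw [AnalyticSet] at hS
  obtain ⟨θ, hθ, hθr⟩ : ∃ θ : N → N × N, Continuous θ ∧
      range θ = range fun w : ℕ → ℕ => (c (ψ w).1, c (ψ w).2) := by
    rcases hS with hS | hS
    · have : (c (ψ 0).1, c (ψ 0).2) ∈ (∅ : Set (N × N)) := by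
        rw [← hS]
        exact ⟨0, rfl⟩
      exact absurd this (notMem_empty _)
    · exact hS
  let α : N → N := fun w => (θ w).1
  let β : N → N := fun w => (θ w).2
  have hα : Continuous α := continuous_fst.comp hθ
  have hβ : Continuous β := continuous_snd.comp hθ
  have h1 : ∀ w, ∃ x y, R x y ∧ α w = c x ∧ β w = c y := by
    intro w
    have : θ w ∈ range fun w : ℕ → ℕ => (c (ψ w).1, c (ψ w).2) := by
      rw [← hθr]
      exact ⟨w, rfl⟩
    obtain ⟨w', hw'⟩ := this
    refine ⟨(ψ w').1, (ψ w').2, ?_, ?_, ?_⟩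
    · have : ψ w' ∈ {p : X × X | R p.1 p.2} := by
        rw [← hψr]
        exact ⟨w', rfl⟩
      exact this
    · exact (congrArg Prod.fst hw').symm
    · exact (congrArg Prod.snd hw').symm
  have h2 : ∀ x y, R x y → ∃ w, α w = c x ∧ β w = c y := by
    intro x y hxy
    have hxy' : (x, y) ∈ {p : X × X | R p.1 p.2} := hxy
    rw [← hψr] at hxy'
    obtain ⟨w', hw'⟩ := hxy'
    have : (c x, c y) ∈ range θ := by
      rw [hθr]
      exact ⟨w', by simp only [hw']⟩
    obtain ⟨w, hw⟩ := this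
    exact ⟨w, congrArg Prod.fst hw, congrArg Prod.snd hw⟩
  have htr : ∀ u v t w w', α w = u → β w = v → α w' = v → β w' = t →
      ∃ w'', α w'' = u ∧ β w'' = t := by
    intro u v t w w' e1 e2 e3 e4
    obtain ⟨x, y, hxy, e5, e6⟩ := h1 w
    obtain ⟨y', z, hyz, e7, e8⟩ := h1 w'
    have : y = y' := hci (by rw [← e6, ← e7, e2, e3])
    subst this
    obtain ⟨w'', e9, e10⟩ := h2 x z (htrans x y z hxy hyz)
    exact ⟨w'', by rw [e9, ← e5, e1], by rw [e10, ← e8, e4]⟩
  let Λ : X → List ℤ → Set K := fun x => Lam α β (c x)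
  have fwd : ∀ x y, R x y → TLe (Λ x) (Λ y) := by
    intro x y h
    obtain ⟨w, e1, e2⟩ := h2 x y h
    exact Pool.Agent.H579R3.Epi.tree_map e1 e2
  have bwd : ∀ x y, TLe' (Λ x) (Λ y) → R x y := by
    intro x y h
    rcases rel_of_tree' hα hβ htr h with h3 | ⟨w, e1, e2⟩
    · rw [hci h3]
      exact hrefl _
    · obtain ⟨x', y', hxy, e3, e4⟩ := h1 w
      have e5 : x = x' := hci (by rw [← e1, e3])
      have e6 : y = y' := hci (by rw [← e2, e4])
      rw [e5, e6]
      exact hxy
  have key : ∀ (π π' : ℕ → P) (x y : X), (π, x) ∈ A Λ → (π', y) ∈ A Λ →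
      (Nonempty (@FirstOrder.Language.ElementaryEmbedding L ℕ ℕ (str (pull π)) (str (pull π'))) ↔
        R x y) := by
    intro π π' x y hq hq'
    exact ⟨fun h => bwd x y (tLe'_of_elementary hq.2 hq'.2 h),
      fun h => elementary_of_tLe hq.1 hq.2 hq'.1 hq'.2 (fwd x y h)⟩
  have hΛ : ∀ p κ, MeasurableSet {x : X | κ ∈ Λ x p} := fun p κ =>
    hcm (Pool.Agent.H579R3.Epi.measurableSet_lam (α := α) (β := β) p κ)
  -- the class of structures
  have hA : MeasurableSet (A Λ) := measurableSet_A Λ hΛ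
  let Φ : (ℕ → P) × X → Str := fun q => pull q.1
  have hΦ : Measurable Φ := measurable_pull.comp measurable_fst
  have hinj : InjOn Φ (A Λ) := by
    rintro ⟨π, x⟩ hq ⟨π', x'⟩ hq' h
    obtain ⟨g, hg, hgπ, hgΛ⟩ := of_pull_eq hq.2 hq'.2 h
    obtain ⟨hid, hxx⟩ := Pool.Agent.H579R3.Epi.rigid hg hgΛ
    refine Prod.ext ?_ (hci hxx)
    funext n
    have h3 : π' n = (g (π n).1, (π n).2) := hgπ n
    change π n = π' n
    rw [h3, hid]
  have hAs : StandardBorelSpace (A Λ) := hA.standardBorel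
  let Ψ : A Λ → Str := fun q => Φ q.1
  have hΨ : MeasurableEmbedding Ψ := by
    apply Measurable.measurableEmbedding (hΦ.comp measurable_subtype_coe)
    intro q q' h
    exact Subtype.ext (hinj q.2 q'.2 h)
  obtain ⟨G, hG, hGΨ⟩ := hΨ.exists_measurable_extend
    (g := fun q : A Λ => q.1.2) (measurable_snd.comp measurable_subtype_coe) (fun _ => ⟨x₀⟩)
  have hGpull : ∀ π x, (π, x) ∈ A Λ → G (pull π) = x := by
    intro π x h
    exact congrFun hGΨ ⟨(π, x), h⟩
  obtain ⟨e⟩ : Nonempty (ℕ ≃ List ℤ × (K × ℕ)) := by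
    haveI := Classical.choice (nonempty_denumerable (List ℤ × (K × ℕ)))
    exact ⟨(Denumerable.eqv (List ℤ × (K × ℕ))).symm⟩
  obtain ⟨d⟩ : Nonempty (K × ℕ ≃ Q0) := by
    haveI := Classical.choice (nonempty_denumerable (K × ℕ))
    haveI : Countable Q0 := countable_Q0.to_subtype
    haveI : Infinite Q0 := infinite_Q0.to_subtype
    haveI := Classical.choice (nonempty_denumerable Q0)
    exact ⟨(Denumerable.eqv (K × ℕ)).trans (Denumerable.eqv Q0).symm⟩
  have hperm : ∀ (σ : Equiv.Perm ℕ) (u : Str), u ∈ Φ '' A Λ →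
      (fun i v => u i (σ ∘ v)) ∈ Φ '' A Λ := by
    rintro σ _ ⟨⟨π, x⟩, hq, rfl⟩
    refine ⟨(π ∘ σ, x), ⟨hq.1.comp σ.injective, ?_⟩, rfl⟩
    have : range (π ∘ σ) = range π := σ.surjective.range_comp π
    exact this.trans hq.2
  refine ⟨Φ '' A Λ, hA.image_of_measurable_injOn hΦ hinj, ?_, ?_, ?_⟩
  · intro σ u
    refine ⟨hperm σ u, fun h => ?_⟩
    have := hperm σ.symm _ h
    have e : (fun i (v : Fin 2 → ℕ) => u i (σ ∘ (σ.symm ∘ v))) = u := by
      funext i v
      congr 1
      funext j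
      simp
    have e' : (fun (i : ℕ) (v : Fin 2 → ℕ) => (fun i (v : Fin 2 → ℕ) => u i (σ ∘ v)) i (σ.symm ∘ v)) = u := e
    rw [← e']
    exact this
  · refine ⟨fun x => pull (en e d (Λ x)), measurable_pull.comp (measurable_en Λ hΛ e d), ?_, ?_⟩
    · intro x
      exact ⟨(en e d (Λ x), x), ⟨en_injective e d _, range_en e d _⟩, rfl⟩
    · intro x y
      exact (key (en e d (Λ x)) (en e d (Λ y)) x y ⟨en_injective e d _, range_en e d _⟩
        ⟨en_injective e d _, range_en e d _⟩).symm
  · refine ⟨fun u => G u.1, hG.comp measurable_subtype_coe, ?_⟩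
    rintro ⟨_, ⟨⟨π, x⟩, hq, rfl⟩⟩ ⟨_, ⟨⟨π', y⟩, hq', rfl⟩⟩
    change Nonempty (@FirstOrder.Language.ElementaryEmbedding L ℕ ℕ (str (pull π)) (str (pull π'))) ↔
      R (G (pull π)) (G (pull π'))
    rw [hGpull π x hq, hGpull π' y hq']
    exact key π π' x y hq hq'

end Pool.Agent.V11255.EE
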