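import Mathlib
import Pool.Agent.V11255.EE4

set_option autoImplicit false

open Set MeasureTheory

namespace Pool.Agent.V11255.EE

open Pool.Agent.H579R3.Epi (K N IsAuto TLe Lam mapD)

/-- embeddability of structures -/
def Emb (u v : Str) : Prop :=
  ∃ h : ℕ → ℕ, Function.Injective h ∧ ∀ (i : ℕ) (w : Fin 2 → ℕ), u i w = v i (h ∘ w)

theorem Emb.refl (u : Str) : Emb u u := ⟨id, Function.injective_id, fun _ _ => rfl⟩

theorem Emb.trans {u v w : Str} (h : Emb u v) (h' : Emb v w) : Emb u w := by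
  obtain ⟨f, h1, h2⟩ := h
  obtain ⟨g, h3, h4⟩ := h'
  exact ⟨g ∘ f, h3.comp h1, fun i x => by rw [h2, h4]; rfl⟩

theorem emb_pull {π π' : ℕ → P} : Emb (pull π) (pull π') ↔ ∃ h : ℕ → ℕ, Function.Injective h ∧
    ∀ r a b, srel r (π a) (π b) ↔ srel r (π' (h a)) (π' (h b)) := by
  constructor
  · rintro ⟨h, h1, h2⟩
    refine ⟨h, h1, fun r a b => ?_⟩
    have e1 := pull_iff π r ![a, b]
    have e2 := pull_iff π' r (h ∘ ![a, b])
    rw [h2 r ![a, b]] at e1
    exact e1.symm.trans e2
  · rintro ⟨h, h1, h2⟩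
    refine ⟨h, h1, fun i w => ?_⟩
    have e1 := pull_iff π i w
    have e2 := pull_iff π' i (h ∘ w)
    have e3 := h2 i (w 0) (w 1)
    have : pull π i w = true ↔ pull π' i (h ∘ w) = true := e1.trans (e3.trans e2.symm)
    exact Bool.eq_iff_iff.2 this

theorem emb_of_tLe {Λ Λ' : List ℤ → Set K} {π π' : ℕ → P} (i1 : Function.Injective π)
    (h1 : range π = Ax Λ) (h2 : range π' = Ax Λ')
    (h : TLe Λ Λ') : Emb (pull π) (pull π') := by
  rw [emb_pull]
  obtain ⟨g, hg, hΛ⟩ := h
  have hex : ∀ n, ∃ m, π' m = (g (π n).1, (π n).2) := by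
    intro n
    have h3 : π n ∈ Ax Λ := h1 ▸ ⟨n, rfl⟩
    have h4 : ((g (π n).1, (π n).2) : P) ∈ Ax Λ' := by
      rcases h3 with h3 | ⟨κ, h3, h5⟩
      · exact Or.inl h3
      · exact Or.inr ⟨κ, hΛ _ h3, h5⟩
    rw [← h2] at h4
    exact h4
  choose f hf using hex
  refine ⟨f, ?_, ?_⟩
  · intro n m hnm
    have h3 := hf n
    rw [hnm, hf m] at h3
    have h4 := congrArg Prod.fst h3
    have h5 := congrArg Prod.snd h3
    exact i1 (Prod.ext (hg.bij.1 h4.symm) h5.symm)
  · intro r a b
    rw [hf, hf]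
    unfold srel
    rw [dk_map hg]
    simp only [auto_length hg]

theorem tLe'_of_emb {Λ Λ' : List ℤ → Set K} {π π' : ℕ → P}
    (h1 : range π = Ax Λ) (h2 : range π' = Ax Λ') (h : Emb (pull π) (pull π')) :
    TLe' Λ Λ' := by
  obtain ⟨f, -, hf⟩ := emb_pull.1 h
  obtain ⟨g, h3, h4, h5, -⟩ := exists_tree_map h1 h2.subset f hf
  exact ⟨g, h3, h4, h5⟩

/-- Embeddability of countable structures is complete (Louveau-Rosendal). -/
theorem exists_emb_red (X : Type) [TopologicalSpace X] [PolishSpace X] [MeasurableSpace X]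
    [BorelSpace X] (R : X → X → Prop) (hrefl : ∀ x, R x x)
    (htrans : ∀ x y z, R x y → R y z → R x z) (hR : AnalyticSet {p : X × X | R p.1 p.2}) :
    ∃ f : X → Str, Measurable f ∧ ∀ x y, R x y ↔ Emb (f x) (f y) := by
  classical
  rcases isEmpty_or_nonempty X with hX | hX
  · exact ⟨fun x => (hX.false x).elim, measurable_of_empty _, fun x => (hX.false x).elim⟩
  obtain ⟨x₀⟩ := ‹Nonempty X›
  -- a Borel embedding of `X` into Baire space
  obtain ⟨c₀, hc₀m, hc₀i⟩ :=
    MeasurableSpace.measurable_injection_nat_bool_of_countablySeparated X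
  let c : X → N := fun x n => (c₀ x n).toNat
  have hcm : Measurable c := by
    refine measurable_pi_lambda _ fun n => ?_
    exact (Measurable.of_discrete (f := Bool.toNat)).comp ((measurable_pi_apply n).comp hc₀m)
  have hci : Function.Injective c := by
    intro x y hxy
    apply hc₀i
    funext n
    have h := congrFun hxy n
    simp only [c] at h
    cases h1 : c₀ x n <;> cases h2 : c₀ y n <;> simp_all
  -- the relation as a continuous image
  rw [AnalyticSet] at hR
  obtain ⟨ψ, hψ, hψr⟩ : ∃ ψ : (ℕ → ℕ) → X × X, Continuous ψ ∧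
      range ψ = {p : X × X | R p.1 p.2} := by
    rcases hR with hR | hR
    · have : (x₀, x₀) ∈ {p : X × X | R p.1 p.2} := hrefl x₀
      rw [hR] at this
      exact absurd this (notMem_empty _)
    · exact hR
  have hS : AnalyticSet (range fun w : ℕ → ℕ => (c (ψ w).1, c (ψ w).2)) := by
    have h1 : Measurable (fun w : ℕ → ℕ => (c (ψ w).1, c (ψ w).2)) :=
      (hcm.comp (measurable_fst.comp hψ.measurable)).prodMk
        (hcm.comp (measurable_snd.comp hψ.measurable))
    have h2 := (MeasurableSet.univ (α := ℕ → ℕ)).analyticSet_image h1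
    rwa [image_univ] at h2
  rw [AnalyticSet] at hS
  obtain ⟨θ, hθ, hθr⟩ : ∃ θ : N → N × N, Continuous θ ∧
      range θ = range fun w : ℕ → ℕ => (c (ψ w).1, c (ψ w).2) := by
    rcases hS with hS | hS
    · have : (c (ψ 0).1, c (ψ 0).2) ∈ (∅ : Set (N × N)) := by
        rw [← hS]
        exact ⟨0, rfl⟩
      exact absurd this (notMem_empty _)
    · exact hS
  let α : N → N := fun w => (θ w).1
  let β : N → N := fun w => (θ w).2
  have hα : Continuous α := continuous_fst.comp hθ
  have hβ : Continuous β := continuous_snd.comp hθ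
  have h1 : ∀ w, ∃ x y, R x y ∧ α w = c x ∧ β w = c y := by
    intro w
    have : θ w ∈ range fun w : ℕ → ℕ => (c (ψ w).1, c (ψ w).2) := by
      rw [← hθr]
      exact ⟨w, rfl⟩
    obtain ⟨w', hw'⟩ := this
    refine ⟨(ψ w').1, (ψ w').2, ?_, ?_, ?_⟩
    · have : ψ w' ∈ {p : X × X | R p.1 p.2} := by
        rw [← hψr]
        exact ⟨w', rfl⟩
      exact this
    · exact (congrArg Prod.fst hw').symm
    · exact (congrArg Prod.snd hw').symm
  have h2 : ∀ x y, R x y → ∃ w, α w = c x ∧ β w = c y := by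
    intro x y hxy
    have hxy' : (x, y) ∈ {p : X × X | R p.1 p.2} := hxy
    rw [← hψr] at hxy'
    obtain ⟨w', hw'⟩ := hxy'
    have : (c x, c y) ∈ range θ := by
      rw [hθr]
      exact ⟨w', by simp only [hw']⟩
    obtain ⟨w, hw⟩ := this
    exact ⟨w, congrArg Prod.fst hw, congrArg Prod.snd hw⟩
  have htr : ∀ u v t w w', α w = u → β w = v → α w' = v → β w' = t →
      ∃ w'', α w'' = u ∧ β w'' = t := by
    intro u v t w w' e1 e2 e3 e4
    obtain ⟨x, y, hxy, e5, e6⟩ := h1 w
    obtain ⟨y', z, hyz, e7, e8⟩ := h1 w'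
    have : y = y' := hci (by rw [← e6, ← e7, e2, e3])
    subst this
    obtain ⟨w'', e9, e10⟩ := h2 x z (htrans x y z hxy hyz)
    exact ⟨w'', by rw [e9, ← e5, e1], by rw [e10, ← e8, e4]⟩
  let Λ : X → List ℤ → Set K := fun x => Lam α β (c x)
  have fwd : ∀ x y, R x y → TLe (Λ x) (Λ y) := by
    intro x y h
    obtain ⟨w, e1, e2⟩ := h2 x y h
    exact Pool.Agent.H579R3.Epi.tree_map e1 e2
  have bwd : ∀ x y, TLe' (Λ x) (Λ y) → R x y := by
    intro x y h
    rcases rel_of_tree' hα hβ htr h with h3 | ⟨w, e1, e2⟩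
    · rw [hci h3]
      exact hrefl _
    · obtain ⟨x', y', hxy, e3, e4⟩ := h1 w
      have e5 : x = x' := hci (by rw [← e1, e3])
      have e6 : y = y' := hci (by rw [← e2, e4])
      rw [e5, e6]
      exact hxy
  have hΛ : ∀ p κ, MeasurableSet {x : X | κ ∈ Λ x p} := fun p κ =>
    hcm (Pool.Agent.H579R3.Epi.measurableSet_lam (α := α) (β := β) p κ)
  obtain ⟨e⟩ : Nonempty (ℕ ≃ List ℤ × (K × ℕ)) := by
    haveI := Classical.choice (nonempty_denumerable (List ℤ × (K × ℕ)))
    exact ⟨(Denumerable.eqv (List ℤ × (K × ℕ))).symm⟩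
  obtain ⟨d⟩ : Nonempty (K × ℕ ≃ Q0) := by
    haveI := Classical.choice (nonempty_denumerable (K × ℕ))
    haveI : Countable Q0 := countable_Q0.to_subtype
    haveI : Infinite Q0 := infinite_Q0.to_subtype
    haveI := Classical.choice (nonempty_denumerable Q0)
    exact ⟨(Denumerable.eqv (K × ℕ)).trans (Denumerable.eqv Q0).symm⟩
  refine ⟨fun x => pull (en e d (Λ x)), measurable_pull.comp (measurable_en Λ hΛ e d), ?_⟩
  intro x y
  exact ⟨fun h => emb_of_tLe (en_injective e d _) (range_en e d _) (range_en e d _) (fwd x y h),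
    fun h => bwd x y (tLe'_of_emb (range_en e d _) (range_en e d _) h)⟩

/-- Embeddability is analytic. -/
theorem analyticSet_emb : AnalyticSet {p : Str × Str | Emb p.1 p.2} := by
  let C : Set ((Str × Str) × (ℕ → ℕ)) := {q | Function.Injective q.2 ∧
    ∀ (i : ℕ) (w : Fin 2 → ℕ), q.1.1 i w = q.1.2 i (q.2 ∘ w)}
  have hC : MeasurableSet C := by
    have h1 : MeasurableSet {q : (Str × Str) × (ℕ → ℕ) | Function.Injective q.2} := by
      have : {q : (Str × Str) × (ℕ → ℕ) | Function.Injective q.2} =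
          ⋂ n : ℕ, ⋂ m : ℕ, ({q | q.2 n = q.2 m}ᶜ ∪ {_q | n = m}) := by
        ext q
        simp only [mem_iInter, mem_union, mem_compl_iff]
        constructor
        · intro h n m
          by_cases h3 : q.2 n = q.2 m
          · exact Or.inr (h h3)
          · exact Or.inl h3
        · intro h n m h3
          rcases h n m with h4 | h4
          · exact absurd h3 h4
          · exact h4
      rw [this]
      refine MeasurableSet.iInter fun n => MeasurableSet.iInter fun m => ?_
      exact (measurableSet_eq_fun ((measurable_pi_apply n).comp measurable_snd)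
        ((measurable_pi_apply m).comp measurable_snd)).compl.union (MeasurableSet.const _)
    have h2 : ∀ (i : ℕ) (w : Fin 2 → ℕ),
        MeasurableSet {q : (Str × Str) × (ℕ → ℕ) | q.1.1 i w = q.1.2 i (q.2 ∘ w)} := by
      intro i w
      have : {q : (Str × Str) × (ℕ → ℕ) | q.1.1 i w = q.1.2 i (q.2 ∘ w)} =
          ⋃ w' : Fin 2 → ℕ, ({q | q.2 ∘ w = w'} ∩ {q | q.1.1 i w = q.1.2 i w'}) := by
        ext q
        simp only [mem_iUnion, mem_inter_iff]
        constructor
        · intro h
          exact ⟨q.2 ∘ w, rfl, h⟩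
        · rintro ⟨w', h1, h2⟩
          have h1' : q.2 ∘ w = w' := h1
          have h2' : q.1.1 i w = q.1.2 i w' := h2
          show q.1.1 i w = q.1.2 i (q.2 ∘ w)
          rw [h1', h2']
      rw [this]
      refine MeasurableSet.iUnion fun w' => MeasurableSet.inter ?_ ?_
      · have h3 : Measurable fun q : (Str × Str) × (ℕ → ℕ) => q.2 ∘ w :=
          measurable_pi_lambda _ fun k => (measurable_pi_apply _).comp measurable_snd
        exact h3 (measurableSet_singleton w')
      · have h4 : ∀ w : Fin 2 → ℕ, Measurable fun u : Str => u i w := fun w =>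
          (measurable_pi_apply w).comp (measurable_pi_apply i)
        exact measurableSet_eq_fun ((h4 w).comp (measurable_fst.comp measurable_fst))
          ((h4 w').comp (measurable_snd.comp measurable_fst))
    have : C = {q : (Str × Str) × (ℕ → ℕ) | Function.Injective q.2} ∩
        ⋂ (i : ℕ) (w : Fin 2 → ℕ), {q | q.1.1 i w = q.1.2 i (q.2 ∘ w)} := by
      ext q
      simp only [mem_inter_iff, mem_iInter]
      exact Iff.rfl
    rw [this]
    exact h1.inter (MeasurableSet.iInter fun i => MeasurableSet.iInter fun w => h2 i w)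
  have hP : PolishSpace Str := by
    have h1 : ∀ i : ℕ, PolishSpace ((Fin ((fun _ : ℕ => 2) i) → ℕ) → Bool) := fun i => by constructor
    constructor
  have h3 := hC.analyticSet_image (f := Prod.fst) measurable_fst
  have : Prod.fst '' C = {p : Str × Str | Emb p.1 p.2} := by
    ext p
    constructor
    · rintro ⟨⟨p, h⟩, ⟨h1, h2⟩, rfl⟩
      exact ⟨h, h1, h2⟩
    · rintro ⟨h, h1, h2⟩
      exact ⟨(p, h), ⟨h1, h2⟩, rfl⟩
  rwa [this] at h3

end Pool.Agent.V11255.EE
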