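import Mathlib

set_option autoImplicit false

open Set Topology Filter

namespace Pool.Agent.V11255.CJ

/-- an injective sequence of primes -/
noncomputable def pr (l : ℕ) : ℕ := Nat.nth Nat.Prime l

theorem pr_prime (l : ℕ) : (pr l).Prime := Nat.prime_nth_prime l

theorem pr_inj {l l' : ℕ} (h : pr l = pr l') : l = l' :=
  Nat.nth_injective Nat.infinite_setOfPred_prime h

instance (l : ℕ) : NeZero (pr l) := ⟨(pr_prime l).ne_zero⟩

instance (l : ℕ) : Fact (pr l).Prime := ⟨pr_prime l⟩

/-- the letters: vertices with a multiplicity, and markers with a phase -/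
abbrev A : Type := (ℕ × ℕ) ⊕ (Σ l : ℕ, ℕ × ZMod (pr l))

instance : Countable A := by
  unfold A
  infer_instance

/-- the table of a list of vertices in a graph -/
def mat (G : ℕ → ℕ → Bool) (v : List ℕ) : List (List (Bool × Bool)) :=
  v.map (fun a => v.map (fun b => (G a b, decide (a = b))))

/-- the vertices in a list of letters -/
def verts (s : List A) : List ℕ := s.filterMap (fun a => a.getLeft?.map Prod.fst)

/-- the label of a list of vertex letters -/
def lab (G : ℕ → ℕ → Bool) (s : List A) : Option ℕ :=
  if s.all Sum.isLeft then some (Encodable.encode (mat G (verts s))) else none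

/-- the action on the next letter -/
noncomputable def act (G : ℕ → ℕ → Bool) (n : ℤ) (s : List A) : A → A
  | Sum.inl x => Sum.inl x
  | Sum.inr ⟨l, (k, r)⟩ => if lab G s = some l then Sum.inr ⟨l, (k, r + n)⟩ else Sum.inr ⟨l, (k, r)⟩

/-- the action on lists -/
noncomputable def g (G : ℕ → ℕ → Bool) (n : ℤ) : List A → List A
  | [] => []
  | a :: s => act G n s a :: g G n s

variable {G H : ℕ → ℕ → Bool}

@[simp] theorem g_nil (n : ℤ) : g G n [] = [] := rfl

theorem g_cons (n : ℤ) (a : A) (s : List A) : g G n (a :: s) = act G n s a :: g G n s := rfl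

theorem length_g (n : ℤ) (s : List A) : (g G n s).length = s.length := by
  induction s with
  | nil => rfl
  | cons a s ih => simp [g_cons, ih]

theorem isLeft_act (n : ℤ) (s : List A) (a : A) : (act G n s a).isLeft = a.isLeft := by
  rcases a with x | ⟨l, k, r⟩
  · rfl
  · simp only [act]
    split_ifs <;> rfl

theorem getLeft_act (n : ℤ) (s : List A) (a : A) : (act G n s a).getLeft? = a.getLeft? := by
  rcases a with x | ⟨l, k, r⟩
  · rfl
  · simp only [act]
    split_ifs <;> rfl

theorem all_g (n : ℤ) (s : List A) : (g G n s).all Sum.isLeft = s.all Sum.isLeft := by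
  induction s with
  | nil => rfl
  | cons a s ih => simp only [g_cons, List.all_cons, ih, isLeft_act]

theorem verts_g (n : ℤ) (s : List A) : verts (g G n s) = verts s := by
  induction s with
  | nil => rfl
  | cons a s ih =>
    simp only [verts] at ih ⊢
    simp only [g_cons, List.filterMap_cons, getLeft_act, ih]

theorem lab_g (n : ℤ) (s : List A) : lab H (g G n s) = lab H s := by
  simp only [lab, all_g, verts_g]

theorem act_act (m n : ℤ) (s s' : List A) (hs : lab G s' = lab G s) (a : A) :
    act G m s' (act G n s a) = act G (m + n) s a := by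
  rcases a with x | ⟨l, k, r⟩
  · rfl
  · by_cases h : lab G s = some l
    · have h' : lab G s' = some l := hs.trans h
      simp only [act, h, h', if_true]
      congr 3
      push_cast
      ring
    · have h' : lab G s' ≠ some l := by rw [hs]; exact h
      simp only [act, h, h', if_false]

theorem act_zero (s : List A) (a : A) : act G 0 s a = a := by
  rcases a with x | ⟨l, k, r⟩
  · rfl
  · simp only [act]
    split_ifs
    · simp
    · rfl

theorem g_add (m n : ℤ) (s : List A) : g G m (g G n s) = g G (m + n) s := by
  induction s with
  | nil => rfl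
  | cons a s ih =>
    simp only [g_cons, ih]
    rw [act_act m n s (g G n s) (lab_g n s)]

theorem g_zero (s : List A) : g G 0 s = s := by
  induction s with
  | nil => rfl
  | cons a s ih => simp only [g_cons, ih, act_zero]

theorem g_neg (n : ℤ) (s : List A) : g G n (g G (-n) s) = s := by
  rw [g_add, add_neg_cancel, g_zero]

theorem g_neg' (n : ℤ) (s : List A) : g G (-n) (g G n s) = s := by
  rw [g_add, neg_add_cancel, g_zero]

theorem act_inj (n : ℤ) (s : List A) {a b : A} (h : act G n s a = act G n s b) : a = b := by
  have h1 := congrArg (act G (-n) s) h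
  rw [act_act _ _ _ _ rfl, act_act _ _ _ _ rfl, neg_add_cancel, act_zero, act_zero] at h1
  exact h1

/-- a regular list is fixed -/
theorem g_reg (n : ℤ) (s : List A) (hs : s.all Sum.isLeft = true) : g G n s = s := by
  induction s with
  | nil => rfl
  | cons a s ih =>
    rw [List.all_cons, Bool.and_eq_true] at hs
    rw [g_cons, ih hs.2]
    rcases a with x | y
    · rfl
    · simp at hs

theorem all_of_lab {s : List A} {l : ℕ} (h : lab G s = some l) : s.all Sum.isLeft = true := by
  unfold lab at h
  split_ifs at h with h1
  exact h1

theorem g_marker (n : ℤ) (s : List A) (l k : ℕ) (r : ZMod (pr l)) (h : lab G s = some l) :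
    g G n (Sum.inr ⟨l, (k, r)⟩ :: s) = Sum.inr ⟨l, (k, r + n)⟩ :: s := by
  rw [g_cons, g_reg n s (all_of_lab h)]
  simp only [act, h, if_true]

theorem g_marker_iff (n : ℤ) (s : List A) (l k : ℕ) (r : ZMod (pr l)) (h : lab G s = some l) :
    g G n (Sum.inr ⟨l, (k, r)⟩ :: s) = Sum.inr ⟨l, (k, r)⟩ :: s ↔ (pr l : ℤ) ∣ n := by
  rw [g_marker n s l k r h, ← ZMod.intCast_zmod_eq_zero_iff_dvd]
  constructor
  · intro h1
    injection h1 with h2 h3
    injection h2 with h4
    injection h4 with h5 h6
    injection h6 with h7 h8
    exact add_eq_left.mp h8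
  · intro h1
    rw [h1, add_zero]

/-- a list which moves contains a moved marker -/
theorem exists_marker {s : List A} (h : g G 1 s ≠ s) :
    ∃ (l k : ℕ) (r : ZMod (pr l)) (t : List A), lab G t = some l ∧
      (Sum.inr ⟨l, (k, r)⟩ :: t) <:+ s := by
  induction s with
  | nil => exact absurd rfl h
  | cons a s ih =>
    by_cases hs : g G 1 s = s
    · rcases a with x | ⟨l, k, r⟩
      · exfalso
        apply h
        rw [g_cons, hs]
        rfl
      · by_cases hl : lab G s = some l
        · exact ⟨l, k, r, s, hl, List.suffix_rfl⟩
        · exfalso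
          apply h
          rw [g_cons, hs]
          simp only [act, hl, if_false]
    · obtain ⟨l, k, r, t, h1, h2⟩ := ih hs
      exact ⟨l, k, r, t, h1, h2.trans (List.suffix_cons a s)⟩

theorem length_verts {s : List A} (hs : s.all Sum.isLeft = true) : (verts s).length = s.length := by
  induction s with
  | nil => rfl
  | cons a s ih =>
    rw [List.all_cons, Bool.and_eq_true] at hs
    rcases a with x | y
    · have : verts (Sum.inl x :: s) = x.1 :: verts s := by
        simp [verts]
      rw [this, List.length_cons, List.length_cons, ih hs.2]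
    · simp at hs

theorem lab_eq {s t : List A} {l : ℕ} (h1 : lab G s = some l) (h2 : lab H t = some l) :
    mat G (verts s) = mat H (verts t) := by
  have h3 := all_of_lab h1
  have h4 := all_of_lab h2
  simp only [lab, h3, if_true, Option.some.injEq] at h1
  simp only [lab, h4, if_true, Option.some.injEq] at h2
  exact Encodable.encode_injective (h1.trans h2.symm)

theorem length_of_lab {s t : List A} {l : ℕ} (h1 : lab G s = some l) (h2 : lab H t = some l) :
    s.length = t.length := by
  have h := congrArg List.length (lab_eq h1 h2)
  simp only [mat, List.length_map] at h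
  rw [length_verts (all_of_lab h1), length_verts (all_of_lab h2)] at h
  exact h

/-- suffixes go to suffixes -/
theorem suffix_g (n : ℤ) {l s : List A} (h : l <:+ s) : g G n l <:+ g G n s := by
  induction s with
  | nil =>
    rw [List.suffix_nil.mp h]
  | cons a s ih =>
    rcases List.suffix_cons_iff.mp h with h1 | h1
    · rw [h1]
    · rw [g_cons]
      exact (ih h1).trans (List.suffix_cons _ _)

theorem suffix_g_iff (n : ℤ) {l s : List A} : g G (-n) l <:+ s ↔ l <:+ g G n s := by
  constructor
  · intro h
    have := suffix_g (G := G) n h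
    rwa [g_neg] at this
  · intro h
    have := suffix_g (G := G) (-n) h
    rwa [g_neg'] at this

end Pool.Agent.V11255.CJ
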