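import Mathlib
import Pool.Agent.V11255.CJ1

set_option autoImplicit false

open Set Topology Filter

namespace Pool.Agent.V11255.CJ

/-- chains of lists -/
def Chain (p : List A → Bool) : Prop :=
  (∀ a s, p (a :: s) = true → p s = true) ∧
  (∀ a b s, p (a :: s) = true → p (b :: s) = true → a = b)

theorem Chain.suffix {p : List A → Bool} (hp : Chain p) {u v : List A} (h : u <:+ v)
    (hv : p v = true) : p u = true := by
  induction v with
  | nil => rw [List.suffix_nil.mp h]; exact hv
  | cons a s ih =>
    rcases List.suffix_cons_iff.mp h with h1 | h1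
    · rw [h1]; exact hv
    · exact ih h1 (hp.1 a s hv)

theorem Chain.le {p : List A → Bool} (hp : Chain p) {u v : List A} (hu : p u = true)
    (hv : p v = true) (h : u.length ≤ v.length) : u <:+ v := by
  induction v generalizing u with
  | nil =>
    have : u = [] := List.length_eq_zero_iff.mp (Nat.le_zero.mp h)
    rw [this]
  | cons b v ih =>
    have hv' := hp.1 b v hv
    rcases Nat.lt_or_ge v.length u.length with h1 | h1
    · rcases u with _ | ⟨a, u⟩
      · simp at h1
      · have hu' := hp.1 a u hu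
        have h2 : u.length = v.length := by
          simp only [List.length_cons] at h h1
          omega
        have h3 : u = v := (ih hu' hv' h2.le).eq_of_length h2
        subst h3
        rw [hp.2 a b u hu hv]
    · exact (ih hu hv' h1).trans (List.suffix_cons _ _)

theorem Chain.eq {p : List A → Bool} (hp : Chain p) {u v : List A} (hu : p u = true)
    (hv : p v = true) (h : u.length = v.length) : u = v :=
  (hp.le hu hv h.le).eq_of_length h

open Classical in
/-- the finite chain below a list -/
noncomputable def ch (s : List A) : List A → Bool := fun l => decide (l <:+ s)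

theorem ch_iff (s l : List A) : ch s l = true ↔ l <:+ s := by
  simp [ch]

theorem chain_ch (s : List A) : Chain (ch s) := by
  constructor
  · intro a t h
    rw [ch_iff] at h ⊢
    exact (List.suffix_cons a t).trans h
  · intro a b t h1 h2
    rw [ch_iff] at h1 h2
    have := (List.suffix_of_suffix_length_le h1 h2 (by simp)).eq_of_length (by simp)
    injection this

/-- the empty chain -/
def star : List A → Bool := fun _ => false

theorem chain_star : Chain star := ⟨fun _ _ h => by simp [star] at h, fun _ _ _ h => by simp [star] at h⟩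

theorem Chain.eq_star {p : List A → Bool} (hp : Chain p) (h : p [] = false) : p = star := by
  funext l
  by_contra h1
  have h2 : p l = true := by
    simpa [star] using h1
  have := hp.suffix (List.nil_suffix (l := l)) h2
  rw [h] at this
  exact Bool.noConfusion this

/-- the set of points of the system -/
def XS : Set (ℤ → List A → Bool) :=
  {η | (∀ i, Chain (η i)) ∧ ∀ i, η i [] = true → η (i + 1) [] = true → η i = η (i + 1)}

abbrev X : Type := XS

theorem chain_g {G : ℕ → ℕ → Bool} {p : List A → Bool} (hp : Chain p) (n : ℤ) :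
    Chain (fun l => p (g G n l)) := by
  constructor
  · intro a s h
    exact hp.1 _ _ h
  · intro a b s h1 h2
    exact act_inj n s (hp.2 _ _ _ h1 h2)

/-- the powers of the transformation -/
noncomputable def Tn (G : ℕ → ℕ → Bool) (n : ℤ) (x : X) : X :=
  ⟨fun i l => x.1 (i + n) (g G (-n) l), by
    constructor
    · intro i
      exact chain_g (x.2.1 (i + n)) (-n)
    · intro i h1 h2
      have h3 : i + 1 + n = i + n + 1 := by ring
      have h2' : x.1 (i + n + 1) [] = true := by rw [← h3]; exact h2
      funext l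
      show x.1 (i + n) (g G (-n) l) = x.1 (i + 1 + n) (g G (-n) l)
      rw [h3, x.2.2 (i + n) h1 h2']⟩

theorem Tn_apply (G : ℕ → ℕ → Bool) (n : ℤ) (x : X) (i : ℤ) (l : List A) :
    (Tn G n x).1 i l = x.1 (i + n) (g G (-n) l) := rfl

theorem Tn_add (G : ℕ → ℕ → Bool) (m n : ℤ) (x : X) : Tn G m (Tn G n x) = Tn G (m + n) x := by
  apply Subtype.ext
  funext i l
  rw [Tn_apply, Tn_apply, Tn_apply, g_add, neg_add, add_comm (-n) (-m), ← add_assoc i m n]

theorem Tn_zero (G : ℕ → ℕ → Bool) (x : X) : Tn G 0 x = x := by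
  apply Subtype.ext
  funext i l
  rw [Tn_apply, neg_zero, g_zero, add_zero]

/-- the constant sequence of a finite chain -/
noncomputable def cst (s : List A) : X :=
  ⟨fun _ => ch s, fun _ => chain_ch s, fun _ _ _ => rfl⟩

theorem cst_iff (s l : List A) (i : ℤ) : (cst s).1 i l = true ↔ l <:+ s := ch_iff s l

theorem cst_inj {s t : List A} (h : cst s = cst t) : s = t := by
  have h1 := congrArg (fun x : X => x.1 0) h
  have h2 : s <:+ t := by
    rw [← cst_iff t s 0]
    rw [← h, cst_iff]
  have h3 : t <:+ s := by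
    rw [← cst_iff s t 0]
    rw [h, cst_iff]
  exact h2.eq_of_length (le_antisymm h2.length_le h3.length_le)

theorem Tn_cst (G : ℕ → ℕ → Bool) (n : ℤ) (s : List A) : Tn G n (cst s) = cst (g G n s) := by
  apply Subtype.ext
  funext i l
  rw [Bool.eq_iff_iff, Tn_apply, cst_iff, cst_iff, suffix_g_iff]

/-- points with a ∗-free window of length `m` at zero which are `m`-periodic are constant -/
theorem const_of_all {x : X} (h : ∀ i, x.1 i [] = true) (i : ℤ) : x.1 i = x.1 0 := by
  induction i using Int.induction_on with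
  | zero => rfl
  | succ i ih => rw [← ih, x.2.2 i (h _) (h _)]
  | pred i ih =>
    rw [← ih]
    have := x.2.2 (-(i:ℤ) - 1) (h _) (h _)
    rw [this, sub_add_cancel]

theorem nil_periodic {G : ℕ → ℕ → Bool} {x : X} {m : ℕ} (h : Tn G m x = x) (i : ℤ) :
    x.1 (i + m) [] = x.1 i [] := by
  have h1 := congrFun (congrFun (congrArg Subtype.val h) i) []
  rw [Tn_apply] at h1
  exact h1

theorem nil_all {G : ℕ → ℕ → Bool} {x : X} {m : ℕ} (hm : 0 < m) (h : Tn G m x = x) {b : Bool}
    (hb : ∀ i : ℕ, i < m → x.1 i [] = b) (i : ℤ) : x.1 i [] = b := by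
  have hm' : (0:ℤ) < m := by exact_mod_cast hm
  have key : ∀ (k : ℤ) (j : ℤ), x.1 (j + k * m) [] = x.1 j [] := by
    intro k
    induction k using Int.induction_on with
    | zero => intro j; simp
    | succ k ih =>
      intro j
      have : j + ((k:ℤ) + 1) * m = (j + k * m) + m := by ring
      rw [this, nil_periodic h, ih]
    | pred k ih =>
      intro j
      have : j + -(k:ℤ) * m = j + (-(k:ℤ) - 1) * m + m := by ring
      rw [← ih j, this, nil_periodic h]
  have h1 : i = i % m + (i / m) * m := by
    rw [mul_comm]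
    exact (Int.emod_add_mul_ediv i m).symm
  rw [h1, key]
  have h2 : 0 ≤ i % m := Int.emod_nonneg _ hm'.ne'
  have h3 : i % m < m := Int.emod_lt_of_pos _ hm'
  have h4 : i % m = ((i % m).toNat : ℤ) := (Int.toNat_of_nonneg h2).symm
  rw [h4]
  apply hb
  omega

/-- the points of a prime period -/
def Per (G : ℕ → ℕ → Bool) (q : ℕ) : Set X := {x | Tn G q x = x ∧ Tn G 1 x ≠ x}

/-- a star-free periodic point contains a marker -/
theorem exists_marker_of_per {G : ℕ → ℕ → Bool} {L : ℕ} {y : X} (hy : y ∈ Per G (pr L))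
    (h : ∀ i : ℕ, i < pr L → y.1 i [] = true) :
    ∃ (k : ℕ) (r : ZMod (pr L)) (t : List A), lab G t = some L ∧
      y.1 0 (Sum.inr ⟨L, (k, r)⟩ :: t) = true := by
  have h1 := nil_all (pr_prime L).pos hy.1 h
  have h2 := const_of_all h1
  have h3 : ∃ l, y.1 0 l = true ∧ g G 1 l ≠ l := by
    by_contra hcon
    push Not at hcon
    apply hy.2
    apply Subtype.ext
    funext i l
    rw [Tn_apply, h2 (i + 1), h2 i, Bool.eq_iff_iff]
    constructor
    · intro h4
      have h5 := hcon _ h4
      rw [g_neg] at h5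
      rw [h5]
      exact h4
    · intro h4
      have h5 := hcon _ h4
      have h6 : g G (-1) l = l := by
        conv_lhs => rw [← h5]
        rw [g_neg']
      rw [h6]
      exact h4
  obtain ⟨l, h4, h5⟩ := h3
  obtain ⟨l', k, r, t, h6, h7⟩ := exists_marker h5
  have h8 := (y.2.1 0).suffix h7 h4
  have h9 : l' = L := by
    have h10 := congrFun (congrFun (congrArg Subtype.val hy.1) 0) (Sum.inr ⟨l', (k, r)⟩ :: t)
    rw [Tn_apply, h2 (0 + _), h8] at h10
    have h11 := (y.2.1 0).eq h10 h8 (length_g _ _)
    rw [g_marker_iff _ _ _ _ _ h6] at h11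
    have h12 : (pr l' : ℤ) ∣ (pr L : ℤ) := by
      rwa [dvd_neg] at h11
    have h13 : pr l' ∣ pr L := by exact_mod_cast h12
    exact pr_inj ((Nat.prime_dvd_prime_iff_eq (pr_prime _) (pr_prime _)).mp h13)
  subst h9
  exact ⟨k, r, t, h6, h8⟩

/-- the coordinates are open conditions -/
theorem nhds_coord (x : X) (i : ℤ) (l : List A) : ∀ᶠ y in 𝓝 x, y.1 i l = x.1 i l := by
  have hc : Continuous (fun y : X => y.1 i l) :=
    (continuous_apply_apply i l).comp continuous_subtype_val
  exact hc.continuousAt.eventually (IsOpen.mem_nhds (isOpen_discrete {x.1 i l}) rfl)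

theorem nhds_nil (x : X) (m : ℕ) : ∀ᶠ y in 𝓝 x, ∀ i : ℕ, i < m → y.1 i [] = x.1 i [] := by
  have := (Filter.eventually_all_finite (Set.finite_Iio m) (l := 𝓝 x)
    (p := fun i y => y.1 (i:ℤ) [] = x.1 (i:ℤ) [])).mpr (fun i _ => nhds_coord x i [])
  exact this

/-- the key lemma -/
theorem key {G : ℕ → ℕ → Bool} {L : ℕ} {x : X} (hfix : Tn G 1 x = x)
    (hx : x ∈ closure (Per G (pr L))) :
    ∃ t s : List A, x = cst t ∧ t <:+ s ∧ lab G s = some L := by
  have hx' : ∃ᶠ y in 𝓝 x, y ∈ Per G (pr L) := mem_closure_iff_frequently.mp hx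
  have hnil : ∀ i, x.1 i [] = x.1 0 [] := by
    have h1 : ∀ i, x.1 (i + 1) [] = x.1 i [] := fun i => by
      have := nil_periodic (m := 1) (G := G) (x := x) (by exact_mod_cast hfix) i
      exact_mod_cast this
    intro i
    induction i using Int.induction_on with
    | zero => rfl
    | succ i ih => rw [h1, ih]
    | pred i ih =>
      rw [← ih, ← h1, sub_add_cancel]
  -- no star
  have h0 : x.1 0 [] = true := by
    by_contra h0
    rw [Bool.not_eq_true] at h0
    obtain ⟨y, hy, hy'⟩ := (hx'.and_eventually (nhds_nil x (pr L))).exists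
    have h1 := nil_all (pr_prime L).pos hy.1 (b := false) (fun i hi => by rw [hy' i hi, hnil, h0])
    apply hy.2
    apply Subtype.ext
    funext i l
    rw [Tn_apply, (y.2.1 _).eq_star (h1 _), (y.2.1 _).eq_star (h1 _)]
    rfl
  have hall : ∀ i, x.1 i [] = true := fun i => by rw [hnil, h0]
  have hconst := const_of_all hall
  have hp := x.2.1 0
  -- approximations
  have happ : ∀ F : X → Prop, (∀ᶠ y in 𝓝 x, F y) → ∃ y : X, F y ∧
      ∃ (k : ℕ) (r : ZMod (pr L)) (t : List A), lab G t = some L ∧
      y.1 0 (Sum.inr ⟨L, (k, r)⟩ :: t) = true := by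
    intro F hF
    obtain ⟨y, hy, hy', hF'⟩ := (hx'.and_eventually ((nhds_nil x (pr L)).and hF)).exists
    exact ⟨y, hF', exists_marker_of_per hy (fun i hi => by rw [hy' i hi, hall])⟩
  obtain ⟨y0, -, k0, r0, t0, hl0, -⟩ := happ (fun _ => True) (Eventually.of_forall fun _ => trivial)
  -- bounded length
  have hA : ∀ l, x.1 0 l = true → l.length ≤ t0.length := by
    intro l hl
    by_contra hlt
    rw [not_le] at hlt
    -- the suffix of length one more
    obtain ⟨u, hu, hul⟩ : ∃ u, u <:+ l ∧ u.length = t0.length + 1 :=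
      ⟨l.drop (l.length - (t0.length + 1)), List.drop_suffix _ _, by
        rw [List.length_drop]; omega⟩
    have hxu := hp.suffix hu hl
    obtain ⟨y, hy, k, r, t, hlt', hyt⟩ := happ (fun y => y.1 0 u = x.1 0 u) (nhds_coord x 0 u)
    have htl : t.length = t0.length := length_of_lab hlt' hl0
    have hut : u = Sum.inr ⟨L, (k, r)⟩ :: t :=
      (y.2.1 0).eq (hy.trans hxu) hyt (by rw [hul, List.length_cons, htl])
    have h1 := congrFun (congrFun (congrArg Subtype.val hfix) 0) u
    rw [Tn_apply, hconst (0 + 1), hxu] at h1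
    have h2 := hp.eq h1 hxu (length_g _ _)
    rw [hut, g_marker_iff _ _ _ _ _ hlt'] at h2
    have h3 : (pr L : ℤ) ∣ 1 := by
      rwa [dvd_neg] at h2
    have h4 : pr L ∣ 1 := by exact_mod_cast h3
    exact (pr_prime L).one_lt.ne' (Nat.dvd_one.mp h4)
  -- the maximal element
  obtain ⟨u, hu, humax⟩ : ∃ u, x.1 0 u = true ∧ ∀ l, x.1 0 l = true → l.length ≤ u.length := by
    classical
    have hP : ∃ n, ∃ u, x.1 0 u = true ∧ t0.length - u.length = n := ⟨_, [], h0, rfl⟩
    obtain ⟨u, hu, hu'⟩ := Nat.find_spec hP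
    refine ⟨u, hu, fun l hl => ?_⟩
    have h1 := Nat.find_min' hP ⟨l, hl, rfl⟩
    have h2 := hA l hl
    have h3 := hA u hu
    omega
  have hxu : x = cst u := by
    apply Subtype.ext
    funext i l
    rw [hconst i, Bool.eq_iff_iff, cst_iff]
    constructor
    · intro hl
      exact hp.le hl hu (humax l hl)
    · intro hl
      exact hp.suffix hl hu
  obtain ⟨y, hy, k, r, t, hlt, hyt⟩ := happ (fun y => y.1 0 u = x.1 0 u) (nhds_coord x 0 u)
  have htl : t.length = t0.length := length_of_lab hlt hl0
  refine ⟨u, t, hxu, ?_, hlt⟩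
  exact (y.2.1 0).le (hy.trans hu) ((y.2.1 0).1 _ _ hyt) (by rw [htl]; exact hA u hu)

end Pool.Agent.V11255.CJ
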