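import Mathlib
import Pool.Agent.V11255.CJ2

set_option autoImplicit false

open Set Topology Filter

namespace Pool.Agent.V11255.CJ

/-! ## Continuity -/

theorem eventually_mat (G : ℕ → ℕ → Bool) (v : List ℕ) : ∀ᶠ G' in 𝓝 G, mat G' v = mat G v := by
  have h1 : ∀ᶠ G' in 𝓝 G, ∀ a ∈ v, ∀ b ∈ v, G' a b = G a b := by
    have h2 : ∀ a ∈ {a | a ∈ v}, ∀ᶠ G' in 𝓝 G, ∀ b ∈ {b | b ∈ v}, G' a b = G a b := by
      intro a _
      rw [Filter.eventually_all_finite v.finite_toSet]
      intro b _
      have hc : Continuous (fun G' : ℕ → ℕ → Bool => G' a b) := continuous_apply_apply a b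
      exact hc.continuousAt.eventually (IsOpen.mem_nhds (isOpen_discrete {G a b}) rfl)
    exact (Filter.eventually_all_finite v.finite_toSet).mpr h2
  filter_upwards [h1] with G' hG'
  simp only [mat]
  rw [List.map_inj_left]
  intro a ha
  rw [List.map_inj_left]
  intro b hb
  rw [hG' a ha b hb]

theorem eventually_lab (G : ℕ → ℕ → Bool) (s : List A) : ∀ᶠ G' in 𝓝 G, lab G' s = lab G s := by
  filter_upwards [eventually_mat G (verts s)] with G' hG'
  simp only [lab, hG']

theorem eventually_g (G : ℕ → ℕ → Bool) (n : ℤ) (s : List A) :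
    ∀ᶠ G' in 𝓝 G, g G' n s = g G n s := by
  induction s with
  | nil => exact Eventually.of_forall fun _ => rfl
  | cons a s ih =>
    filter_upwards [ih, eventually_lab G s] with G' h1 h2
    rw [g_cons, g_cons, h1]
    congr 1
    rcases a with x | ⟨l, k, r⟩
    · rfl
    · simp only [act, h2]

theorem continuous_Tn (n : ℤ) :
    Continuous (fun p : (ℕ → ℕ → Bool) × X => Tn p.1 n p.2) := by
  apply Continuous.subtype_mk (f := fun p : (ℕ → ℕ → Bool) × X =>
    (fun i l => p.2.1 (i + n) (g p.1 (-n) l)))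
  refine continuous_pi fun i => continuous_pi fun l => ?_
  rw [continuous_iff_continuousAt]
  rintro ⟨G, x⟩
  have h1 : ∀ᶠ p : (ℕ → ℕ → Bool) × X in 𝓝 (G, x), g p.1 (-n) l = g G (-n) l :=
    (continuous_fst.tendsto (G, x)).eventually (eventually_g G (-n) l)
  have h2 : Continuous (fun p : (ℕ → ℕ → Bool) × X => p.2.1 (i + n) (g G (-n) l)) :=
    (continuous_apply_apply (i + n) (g G (-n) l)).comp (continuous_subtype_val.comp continuous_snd)
  refine ContinuousAt.congr h2.continuousAt ?_
  filter_upwards [h1] with p hp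
  rw [hp]

/-- the homeomorphism of the space of points -/
noncomputable def TH (G : ℕ → ℕ → Bool) : X ≃ₜ X where
  toFun := Tn G 1
  invFun := Tn G (-1)
  left_inv x := by rw [Tn_add]; norm_num [Tn_zero]
  right_inv x := by rw [Tn_add]; norm_num [Tn_zero]
  continuous_toFun := (continuous_Tn 1).comp (Continuous.prodMk_right G)
  continuous_invFun := (continuous_Tn (-1)).comp (Continuous.prodMk_right G)

theorem TH_apply (G : ℕ → ℕ → Bool) (x : X) : TH G x = Tn G 1 x := rfl

/-! ## Isomorphic graphs give conjugate systems -/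

section iso

variable {G H : ℕ → ℕ → Bool} (σ : ℕ ≃ ℕ)

/-- the induced permutation of the letters -/
def sg : A ≃ A := Equiv.sumCongr (Equiv.prodCongr σ (Equiv.refl _)) (Equiv.refl _)

theorem verts_inl (c k : ℕ) (s : List A) : verts (Sum.inl (c, k) :: s) = c :: verts s := by
  simp [verts]

theorem verts_inr (y : Σ l : ℕ, ℕ × ZMod (pr l)) (s : List A) :
    verts (Sum.inr y :: s) = verts s := by
  simp [verts]

theorem verts_map (s : List A) : verts (s.map (sg σ)) = (verts s).map σ := by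
  induction s with
  | nil => rfl
  | cons a s ih =>
    rcases a with ⟨c, k⟩ | y
    · have : sg σ (Sum.inl (c, k)) = Sum.inl (σ c, k) := rfl
      rw [List.map_cons, this, verts_inl, verts_inl, ih, List.map_cons]
    · have : sg σ (Sum.inr y) = Sum.inr y := rfl
      rw [List.map_cons, this, verts_inr, verts_inr, ih]

theorem all_map (s : List A) : (s.map (sg σ)).all Sum.isLeft = s.all Sum.isLeft := by
  induction s with
  | nil => rfl
  | cons a s ih =>
    rw [List.map_cons, List.all_cons, List.all_cons, ih]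
    rcases a with x | y <;> rfl

theorem mat_map (h : ∀ a b, G a b = H (σ a) (σ b)) (v : List ℕ) : mat H (v.map σ) = mat G v := by
  simp only [mat, List.map_map, Function.comp_def, ← h, σ.apply_eq_iff_eq]

theorem lab_map (h : ∀ a b, G a b = H (σ a) (σ b)) (s : List A) :
    lab H (s.map (sg σ)) = lab G s := by
  simp only [lab, all_map, verts_map, mat_map σ h]

theorem g_map (h : ∀ a b, G a b = H (σ a) (σ b)) (n : ℤ) (s : List A) :
    g H n (s.map (sg σ)) = (g G n s).map (sg σ) := by
  induction s with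
  | nil => rfl
  | cons a s ih =>
    rw [List.map_cons, g_cons, g_cons, List.map_cons, ih]
    congr 1
    rcases a with x | ⟨l, k, r⟩
    · rfl
    · have : sg σ (Sum.inr ⟨l, (k, r)⟩) = Sum.inr ⟨l, (k, r)⟩ := rfl
      rw [this]
      simp only [act, lab_map σ h]
      split_ifs <;> rfl

theorem chain_map {p : List A → Bool} (hp : Chain p) : Chain (fun l => p (l.map (sg σ))) := by
  constructor
  · intro a s h
    exact hp.1 _ _ h
  · intro a b s h1 h2
    exact (sg σ).injective (hp.2 _ _ _ h1 h2)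

/-- the relabelling map -/
def rel (x : X) : X :=
  ⟨fun i l => x.1 i (l.map (sg σ)), fun i => chain_map σ (x.2.1 i), fun i h1 h2 => by
    funext l
    show x.1 i _ = x.1 (i + 1) _
    rw [x.2.2 i h1 h2]⟩

theorem continuous_rel : Continuous (rel σ) := by
  refine Continuous.subtype_mk (f := fun x : X => (fun i (l : List A) => x.1 i (l.map (sg σ)))) ?_ _
  refine continuous_pi fun i => continuous_pi fun l => ?_
  exact (continuous_apply_apply i (l.map (sg σ))).comp continuous_subtype_val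

theorem rel_rel (x : X) : rel σ (rel σ.symm x) = x := by
  apply Subtype.ext
  funext i l
  show x.1 i ((l.map (sg σ)).map (sg σ.symm)) = x.1 i l
  rw [List.map_map]
  have : (sg σ.symm ∘ sg σ : A → A) = id := by
    funext a
    rcases a with ⟨c, k⟩ | y
    · show Sum.inl (σ.symm (σ c), k) = _
      rw [Equiv.symm_apply_apply]
      rfl
    · rfl
  rw [this, List.map_id]

/-- the relabelling homeomorphism -/
def relH : X ≃ₜ X where
  toFun := rel σ
  invFun := rel σ.symm
  left_inv x := by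
    have := rel_rel σ.symm x
    rwa [Equiv.symm_symm] at this
  right_inv x := rel_rel σ x
  continuous_toFun := continuous_rel σ
  continuous_invFun := continuous_rel σ.symm

theorem rel_Tn (h : ∀ a b, G a b = H (σ a) (σ b)) (n : ℤ) (x : X) :
    rel σ (Tn H n x) = Tn G n (rel σ x) := by
  apply Subtype.ext
  funext i l
  show x.1 (i + n) (g H (-n) (l.map (sg σ))) = x.1 (i + n) ((g G (-n) l).map (sg σ))
  rw [g_map σ h]

end iso

/-- isomorphic graphs give conjugate systems -/
theorem conj_of_iso {G H : ℕ → ℕ → Bool} (h : ∃ σ : ℕ ≃ ℕ, ∀ a b, G a b = H (σ a) (σ b)) :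
    ∃ e : X ≃ₜ X, ∀ x, e (TH G x) = TH H (e x) := by
  obtain ⟨σ, hσ⟩ := h
  refine ⟨(relH σ).symm, fun x => ?_⟩
  rw [Homeomorph.symm_apply_eq]
  show Tn G 1 x = rel σ (Tn H 1 ((relH σ).symm x))
  rw [rel_Tn σ hσ]
  congr 1
  exact ((relH σ).apply_symm_apply x).symm

/-! ## Conjugate systems come from isomorphic graphs -/

section conj

variable {G H : ℕ → ℕ → Bool}

/-- conjugacy -/
def Cj (G H : ℕ → ℕ → Bool) (e : X ≃ₜ X) : Prop := ∀ x, e (TH G x) = TH H (e x)

theorem Cj.symm {e : X ≃ₜ X} (h : Cj G H e) : Cj H G e.symm := by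
  intro x
  rw [Homeomorph.symm_apply_eq, h, Homeomorph.apply_symm_apply]

theorem Cj.nat {e : X ≃ₜ X} (h : Cj G H e) (n : ℕ) (x : X) : e (Tn G n x) = Tn H n (e x) := by
  induction n with
  | zero => simp [Tn_zero]
  | succ n ih =>
    have h1 : ∀ (G : ℕ → ℕ → Bool) (x : X), Tn G ((n + 1 : ℕ) : ℤ) x = TH G (Tn G n x) := by
      intro G x
      rw [TH_apply, Tn_add]
      congr 1
      push_cast
      ring
    rw [h1, h1, h, ih]

theorem Cj.per {e : X ≃ₜ X} (h : Cj G H e) {q : ℕ} {x : X} (hx : x ∈ Per G q) :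
    e x ∈ Per H q := by
  constructor
  · rw [← h.nat, hx.1]
  · intro h1
    apply hx.2
    apply e.injective
    have := h.nat 1 x
    rw [Nat.cast_one] at this
    rw [this, h1]

theorem Cj.clos {e : X ≃ₜ X} (h : Cj G H e) {q : ℕ} {x : X} (hx : x ∈ closure (Per G q)) :
    e x ∈ closure (Per H q) := by
  have h1 : e x ∈ e '' closure (Per G q) := ⟨x, hx, rfl⟩
  have h2 := image_closure_subset_closure_image e.continuous h1
  refine closure_mono ?_ h2
  rintro _ ⟨y, hy, rfl⟩
  exact h.per hy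

/-- extensions by different letters converge -/
theorem tendsto_cst (s : List A) (a : ℕ → A) (ha : Function.Injective a) :
    Tendsto (fun k => cst (a k :: s)) atTop (𝓝 (cst s)) := by
  rw [tendsto_subtype_rng]
  rw [tendsto_pi_nhds]
  intro i
  rw [tendsto_pi_nhds]
  intro l
  apply tendsto_nhds_of_eventually_eq
  have h1 : ∀ᶠ k in atTop, a k :: s ≠ l := by
    rw [← Nat.cofinite_eq_atTop]
    have h2 : {k | ¬ (a k :: s ≠ l)}.Subsingleton := by
      intro k hk k' hk'
      simp only [ne_eq, not_not, mem_ofPred_eq] at hk hk'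
      apply ha
      have := hk.trans hk'.symm
      injection this
    exact h2.finite
  filter_upwards [h1] with k hk
  rw [Bool.eq_iff_iff, cst_iff, cst_iff, List.suffix_cons_iff]
  constructor
  · rintro (h | h)
    · exact absurd h.symm hk
    · exact h
  · exact Or.inr

theorem mem_closure_per {s : List A} {L : ℕ} (h : lab G s = some L) :
    cst s ∈ closure (Per G (pr L)) := by
  refine mem_closure_of_tendsto (tendsto_cst s (fun k => Sum.inr ⟨L, (k, 0)⟩) ?_)
    (Eventually.of_forall fun k => ?_)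
  · intro k k' hk
    injection hk with h1
    injection h1 with h2 h3
    injection h3
  · constructor
    · rw [Tn_cst, (g_marker_iff _ _ _ _ _ h).mpr dvd_rfl]
    · rw [Tn_cst]
      intro h1
      have h2 := cst_inj h1
      rw [g_marker_iff _ _ _ _ _ h] at h2
      have h4 : pr L ∣ 1 := by exact_mod_cast h2
      exact (pr_prime L).one_lt.ne' (Nat.dvd_one.mp h4)

theorem Cj.half {e : X ≃ₜ X} (h : Cj G H e) {s : List A} {L : ℕ} (hs : lab G s = some L) :
    ∃ t u, e (cst s) = cst t ∧ t <:+ u ∧ lab H u = some L := by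
  have h1 : Tn G 1 (cst s) = cst s := by
    rw [Tn_cst, g_reg _ _ (all_of_lab hs)]
  have h2 : Tn H 1 (e (cst s)) = e (cst s) := by
    rw [← TH_apply, ← h, TH_apply, h1]
  exact key h2 (h.clos (mem_closure_per hs))

theorem lab_of_all {s : List A} (h : s.all Sum.isLeft = true) : ∃ L, lab G s = some L :=
  ⟨_, by rw [lab, if_pos h]⟩

theorem all_suffix {t u : List A} (h : t <:+ u) (hu : u.all Sum.isLeft = true) :
    t.all Sum.isLeft = true := by
  rw [List.all_eq_true] at hu ⊢
  intro a ha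
  exact hu a (h.subset ha)

/-- regular points correspond -/
theorem Cj.corr {e : X ≃ₜ X} (h : Cj G H e) {s : List A} {L : ℕ} (hs : lab G s = some L) :
    ∃ t, e (cst s) = cst t ∧ lab H t = some L := by
  obtain ⟨t, u, h1, h2, h3⟩ := h.half hs
  obtain ⟨M, hM⟩ := lab_of_all (G := H) (all_suffix h2 (all_of_lab h3))
  obtain ⟨s', u', h4, h5, h6⟩ := h.symm.half hM
  have h7 : s' = s := by
    apply cst_inj
    rw [← h4, ← h1, Homeomorph.symm_apply_apply]
  have h8 : s.length ≤ t.length := by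
    rw [← h7, length_of_lab hM h6]
    exact h5.length_le
  have h9 : t = u := h2.eq_of_length (le_antisymm h2.length_le (by rw [← length_of_lab hs h3]; exact h8))
  exact ⟨t, h1, h9 ▸ h3⟩

/-- going forth -/
theorem Cj.forth {e : X ≃ₜ X} (h : Cj G H e) {s t : List A} {L : ℕ} (hs : lab G s = some L)
    (ht : lab H t = some L) (hst : e (cst s) = cst t) (c : ℕ) :
    ∃ k d k' M, e (cst (Sum.inl (c, k) :: s)) = cst (Sum.inl (d, k') :: t) ∧
      lab G (Sum.inl (c, k) :: s) = some M ∧ lab H (Sum.inl (d, k') :: t) = some M := by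
  have h1 : Tendsto (fun k => e (cst (Sum.inl (c, k) :: s))) atTop (𝓝 (cst t)) := by
    rw [← hst]
    refine (e.continuous.tendsto _).comp (tendsto_cst s (fun k => Sum.inl (c, k)) ?_)
    intro k k' hk
    injection hk with h1
    injection h1
  have h2 : ∀ᶠ k in atTop, (e (cst (Sum.inl (c, k) :: s))).1 0 t = (cst t).1 0 t :=
    h1.eventually (nhds_coord (cst t) 0 t)
  obtain ⟨k, hk⟩ := h2.exists
  have h3 : (cst t).1 0 t = true := (cst_iff t t 0).mpr List.suffix_rfl
  rw [h3] at hk
  obtain ⟨M, hM⟩ := lab_of_all (G := G) (s := Sum.inl (c, k) :: s) (by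
    rw [List.all_cons, all_of_lab hs]; rfl)
  obtain ⟨t', ht', htM⟩ := h.corr hM
  rw [ht', cst_iff] at hk
  have h4 : t'.length = t.length + 1 := by
    rw [← length_of_lab hM htM, List.length_cons, length_of_lab hs ht]
  obtain ⟨w, rfl⟩ := hk
  rw [List.length_append] at h4
  have h5 : w.length = 1 := by omega
  obtain ⟨a, rfl⟩ := List.length_eq_one_iff.mp h5
  have h6 := all_of_lab htM
  rw [List.singleton_append, List.all_cons, Bool.and_eq_true] at h6
  rcases a with ⟨d, k'⟩ | y
  · exact ⟨k, d, k', M, ht', hM, htM⟩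
  · simp at h6

end conj

/-! ## Back and forth -/

theorem back_forth (good : List (ℕ × ℕ) → Prop) (P : ℕ × ℕ → ℕ × ℕ → Prop) (h0 : good [])
    (hf : ∀ p, good p → ∀ c, ∃ d, good ((c, d) :: p))
    (hb : ∀ p, good p → ∀ d, ∃ c, good ((c, d) :: p))
    (hP : ∀ p, good p → ∀ x ∈ p, ∀ y ∈ p, (x.1 = y.1 ↔ x.2 = y.2) ∧ P x y) :
    ∃ σ : ℕ ≃ ℕ, ∀ a b, P (a, σ a) (b, σ b) := by
  have hstep : ∀ (p : {p // good p}) (n : ℕ), ∃ q : {p // good p}, p.1 ⊆ q.1 ∧
      (∃ d, (n, d) ∈ q.1) ∧ ∃ c, (c, n) ∈ q.1 := by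
    rintro ⟨p, hp⟩ n
    obtain ⟨d, hd⟩ := hf p hp n
    obtain ⟨c, hc⟩ := hb _ hd n
    refine ⟨⟨_, hc⟩, ?_, ⟨d, ?_⟩, ⟨c, ?_⟩⟩
    · intro x hx
      exact List.mem_cons_of_mem _ (List.mem_cons_of_mem _ hx)
    · exact List.mem_cons_of_mem _ List.mem_cons_self
    · exact List.mem_cons_self
  choose step hs1 hs2 hs3 using hstep
  let S : ℕ → {p // good p} := fun n => Nat.rec ⟨[], h0⟩ (fun n p => step p n) n
  have hS : ∀ n, S (n + 1) = step (S n) n := fun n => rfl
  have hmono : ∀ m n, m ≤ n → (S m).1 ⊆ (S n).1 := by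
    intro m n hmn
    induction hmn with
    | refl => exact fun _ h => h
    | step _ ih =>
      intro x hx
      exact hs1 _ _ (ih hx)
  choose d hd using fun n => hs2 (S n) n
  choose c hc using fun n => hs3 (S n) n
  have hany : ∀ (x y : ℕ × ℕ) (m n : ℕ), x ∈ (S m).1 → y ∈ (S n).1 →
      (x.1 = y.1 ↔ x.2 = y.2) ∧ P x y := by
    intro x y m n hx hy
    exact hP _ (S (max m n)).2 x (hmono _ _ (le_max_left _ _) hx) y
      (hmono _ _ (le_max_right _ _) hy)
  have hd' : ∀ n, (n, d n) ∈ (S (n + 1)).1 := hd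
  have hc' : ∀ n, (c n, n) ∈ (S (n + 1)).1 := hc
  refine ⟨⟨d, c, fun n => ?_, fun n => ?_⟩, fun a b => ?_⟩
  · exact (hany (c (d n), d n) (n, d n) (d n + 1) (n + 1) (hc' (d n)) (hd' n)).1.mpr rfl
  · exact (hany (c n, d (c n)) (c n, n) (c n + 1) (n + 1) (hd' (c n)) (hc' n)).1.mp rfl
  · exact (hany _ _ (a + 1) (b + 1) (hd' a) (hd' b)).2

theorem iso_of_conj {G H : ℕ → ℕ → Bool} {e : X ≃ₜ X} (h : Cj G H e) :
    ∃ σ : ℕ ≃ ℕ, ∀ a b, G a b = H (σ a) (σ b) := by
  let good : List (ℕ × ℕ) → Prop := fun p => ∃ s t L, e (cst s) = cst t ∧ lab G s = some L ∧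
    lab H t = some L ∧ verts s = p.map Prod.fst ∧ verts t = p.map Prod.snd
  apply back_forth good (fun x y => G x.1 y.1 = H x.2 y.2)
  · obtain ⟨L, hL⟩ := lab_of_all (G := G) (s := []) rfl
    obtain ⟨t, h1, h2⟩ := h.corr hL
    have h3 : t = [] := List.length_eq_zero_iff.mp (length_of_lab hL h2).symm
    subst h3
    exact ⟨[], [], L, h1, hL, h2, rfl, rfl⟩
  · rintro p ⟨s, t, L, h1, h2, h3, h4, h5⟩ c
    obtain ⟨k, d, k', M, h6, h7, h8⟩ := h.forth h2 h3 h1 c
    refine ⟨d, _, _, M, h6, h7, h8, ?_, ?_⟩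
    · have : verts (Sum.inl (c, k) :: s) = c :: verts s := by simp [verts]
      rw [this, h4, List.map_cons]
    · have : verts (Sum.inl (d, k') :: t) = d :: verts t := by simp [verts]
      rw [this, h5, List.map_cons]
  · rintro p ⟨s, t, L, h1, h2, h3, h4, h5⟩ d
    have h1' : e.symm (cst t) = cst s := by rw [← h1, Homeomorph.symm_apply_apply]
    obtain ⟨k', c, k, M, h6, h7, h8⟩ := h.symm.forth h3 h2 h1' d
    refine ⟨c, Sum.inl (c, k) :: s, Sum.inl (d, k') :: t, M, ?_, h8, h7, ?_, ?_⟩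
    · rw [← h6, Homeomorph.apply_symm_apply]
    · have : verts (Sum.inl (c, k) :: s) = c :: verts s := by simp [verts]
      rw [this, h4, List.map_cons]
    · have : verts (Sum.inl (d, k') :: t) = d :: verts t := by simp [verts]
      rw [this, h5, List.map_cons]
  · rintro p ⟨s, t, L, h1, h2, h3, h4, h5⟩ x hx y hy
    have h6 := lab_eq h2 h3
    rw [h4, h5] at h6
    simp only [mat, List.map_map] at h6
    rw [List.map_inj_left] at h6
    have h7 := h6 x hx
    simp only [Function.comp_def] at h7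
    rw [List.map_inj_left] at h7
    have h8 := h7 y hy
    rw [Prod.mk.injEq, decide_eq_decide] at h8
    exact ⟨h8.2, h8.1⟩

end Pool.Agent.V11255.CJ
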