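import Mathlib
import Pool.Agent.V11255.CJ3
import Pool.Agent.V11255.CJ4

set_option autoImplicit false

open Set Topology Filter

namespace Pool.Agent.V11255.CJ

/-- neighbourhoods contain windows -/
theorem exists_window (x : X) {U : Set X} (hU : U ∈ 𝓝 x) :
    ∃ N : ℕ, ∀ y : X, (∀ i : ℤ, -(N:ℤ) ≤ i → i ≤ N → y.1 i = x.1 i) → y ∈ U := by
  rw [nhds_subtype_eq_comap, mem_comap] at hU
  obtain ⟨V, hV, hVU⟩ := hU
  rw [nhds_pi, Filter.mem_pi'] at hV
  obtain ⟨I, t, ht, hsub⟩ := hV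
  refine ⟨I.sup Int.natAbs, fun y hy => hVU (hsub ?_)⟩
  intro i hi
  have h1 : i.natAbs ≤ I.sup Int.natAbs := Finset.le_sup (f := Int.natAbs) hi
  rw [hy i (by omega) (by omega)]
  exact mem_of_mem_nhds (ht i)

/-- the sequence with two given windows -/
noncomputable def spl (G : ℕ → ℕ → Bool) (x z : X) (N : ℕ) (n : ℤ) (i : ℤ) : List A → Bool :=
  if -(N:ℤ) ≤ i ∧ i ≤ N then x.1 i else
    if n - N ≤ i ∧ i ≤ n + N then fun l => z.1 (i - n) (g G n l) else star

theorem spl_mem (G : ℕ → ℕ → Bool) (x z : X) (N : ℕ) (n : ℤ) (hn : 2 * (N:ℤ) + 2 ≤ n) :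
    spl G x z N n ∈ XS := by
  constructor
  · intro i
    unfold spl
    split_ifs
    · exact x.2.1 i
    · exact chain_g (z.2.1 _) n
    · exact chain_star
  · intro i h1 h2
    by_cases a1 : -(N:ℤ) ≤ i ∧ i ≤ N
    · by_cases a2 : -(N:ℤ) ≤ i + 1 ∧ i + 1 ≤ N
      · simp only [spl, a1, a2, if_true, and_self] at h1 h2 ⊢
        exact x.2.2 i h1 h2
      · have a3 : ¬ (n - N ≤ i + 1 ∧ i + 1 ≤ n + N) := by omega
        rw [spl, if_neg a2, if_neg a3] at h2
        exact absurd h2 (by simp [star])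
    · by_cases a2 : -(N:ℤ) ≤ i + 1 ∧ i + 1 ≤ N
      · have a3 : ¬ (n - N ≤ i ∧ i ≤ n + N) := by omega
        rw [spl, if_neg a1, if_neg a3] at h1
        exact absurd h1 (by simp [star])
      · by_cases a3 : (n - N ≤ i ∧ i ≤ n + N)
        · by_cases a4 : (n - N ≤ i + 1 ∧ i + 1 ≤ n + N)
          · rw [spl, if_neg a1, if_pos a3] at h1
            rw [spl, if_neg a2, if_pos a4] at h2
            rw [spl, if_neg a1, if_pos a3, spl, if_neg a2, if_pos a4]
            have h3 : i + 1 - n = i - n + 1 := by ring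
            have h4 : z.1 (i - n + 1) [] = true := by rw [← h3]; exact h2
            rw [h3, z.2.2 (i - n) h1 h4]
          · rw [spl, if_neg a2, if_neg a4] at h2
            exact absurd h2 (by simp [star])
        · rw [spl, if_neg a1, if_neg a3] at h1
          exact absurd h1 (by simp [star])

theorem splice (G : ℕ → ℕ → Bool) (x z : X) (N : ℕ) (n : ℤ) (hn : 2 * (N:ℤ) + 2 ≤ n) :
    ∃ y : X, (∀ i : ℤ, -(N:ℤ) ≤ i → i ≤ N → y.1 i = x.1 i) ∧
      ∀ i : ℤ, -(N:ℤ) ≤ i → i ≤ N → (Tn G n y).1 i = z.1 i := by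
  refine ⟨⟨spl G x z N n, spl_mem G x z N n hn⟩, fun i h1 h2 => ?_, fun i h1 h2 => ?_⟩
  · show spl G x z N n i = _
    rw [spl, if_pos ⟨h1, h2⟩]
  · funext l
    rw [Tn_apply]
    show spl G x z N n (i + n) (g G (-n) l) = _
    rw [spl, if_neg (by omega), if_pos (by omega), add_sub_cancel_right, g_neg]

/-- the point with all symbols the empty chain -/
def starX : X := ⟨fun _ => star, fun _ => chain_star, fun _ _ _ => rfl⟩

/-- there are no isolated points -/
theorem no_isolated (x : X) {U : Set X} (hU : U ∈ 𝓝 x) : ∃ y ∈ U, y ≠ x := by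
  obtain ⟨N, hN⟩ := exists_window x hU
  let G : ℕ → ℕ → Bool := fun _ _ => true
  have key : ∀ z : X, z.1 0 [] ≠ x.1 (2 * N + 2) [] → ∃ y ∈ U, y ≠ x := by
    intro z hz
    obtain ⟨y, h1, h2⟩ := splice G x z N (2 * N + 2) le_rfl
    refine ⟨y, hN y h1, fun h => hz ?_⟩
    have h3 := congrFun (h2 0 (by omega) (by omega)) []
    rw [Tn_apply, g_nil, zero_add, h] at h3
    exact h3.symm
  by_cases h : x.1 (2 * N + 2) [] = true
  · exact key starX (by rw [h]; simp [starX, star])
  · refine key (cst []) ?_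
    have : (cst []).1 0 [] = true := (cst_iff _ _ _).mpr List.suffix_rfl
    rw [this]
    exact fun h' => h h'.symm

theorem isClosed_XS : IsClosed XS := by
  have hc : ∀ (i : ℤ) (l : List A), Continuous (fun η : ℤ → List A → Bool => η i l) :=
    fun i l => continuous_apply_apply i l
  have h2 : ∀ (i : ℤ) (l : List A) (b : Bool), IsClosed {η : ℤ → List A → Bool | η i l = b} :=
    fun i l b => isClosed_eq (hc i l) continuous_const
  have h3 : ∀ (i : ℤ) (l : List A) (b : Bool), IsOpen {η : ℤ → List A → Bool | η i l = b} :=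
    fun i l b => (isOpen_discrete {b}).preimage (hc i l)
  have himp : ∀ (i : ℤ) (l : List A) (Q : (ℤ → List A → Bool) → Prop), IsClosed {η | Q η} →
      IsClosed {η | η i l = true → Q η} := fun i l Q hQ => isClosed_imp (h3 i l true) hQ
  have : XS = {η | (∀ i, (∀ a s, η i (a :: s) = true → η i s = true) ∧
      (∀ a b s, η i (a :: s) = true → η i (b :: s) = true → a = b)) ∧
      ∀ i, η i [] = true → η (i + 1) [] = true → ∀ l, η i l = η (i + 1) l} := by
    ext η
    simp only [XS, Chain, mem_ofPred_eq, funext_iff]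
  rw [this]
  simp only [ofPred_and, ofPred_forall]
  refine IsClosed.inter (isClosed_iInter fun i => IsClosed.inter (isClosed_iInter fun a =>
    isClosed_iInter fun s => himp _ _ _ (h2 _ _ _)) (isClosed_iInter fun a =>
    isClosed_iInter fun b => isClosed_iInter fun s => himp _ _ _ (himp _ _ _ isClosed_const)))
    (isClosed_iInter fun i => himp _ _ _ (himp _ _ _ ?_))
  simp only [ofPred_forall]
  exact isClosed_iInter fun l => isClosed_eq (hc _ _) (hc _ _)

/-- uncurrying -/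
def unc : (ℤ → List A → Bool) ≃ₜ (ℤ × List A → Bool) where
  toFun η p := η p.1 p.2
  invFun ξ i l := ξ (i, l)
  left_inv _ := rfl
  right_inv _ := rfl
  continuous_toFun := continuous_pi fun p => continuous_apply_apply p.1 p.2
  continuous_invFun := continuous_pi fun i => continuous_pi fun l => continuous_apply (i, l)

/-- the space of points is a Cantor space -/
theorem exists_cantor : Nonempty ((ℕ → Bool) ≃ₜ X) := by
  have h1 : IsClosed (unc '' XS) := unc.isClosedMap _ isClosed_XS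
  have h2 : Preperfect (unc '' XS) := by
    rw [preperfect_iff_nhds]
    rintro _ ⟨x, hx, rfl⟩ U hU
    have h3 : (fun y : X => unc y.1) ⁻¹' U ∈ 𝓝 (⟨x, hx⟩ : X) :=
      (unc.continuous.comp continuous_subtype_val).continuousAt.preimage_mem_nhds hU
    obtain ⟨y, hy1, hy2⟩ := no_isolated ⟨x, hx⟩ h3
    exact ⟨unc y.1, ⟨hy1, y.1, y.2, rfl⟩, fun h => hy2 (Subtype.ext (unc.injective h))⟩
  have h3 : (unc '' XS).Nonempty := ⟨unc starX.1, starX.1, starX.2, rfl⟩
  obtain ⟨h⟩ := exists_homeo_of _ h1 h2 h3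
  exact ⟨h.trans (unc.image XS).symm⟩

/-- topological mixing of the systems -/
theorem mixing (G : ℕ → ℕ → Bool) (U V : Set X) (hU : IsOpen U) (hV : IsOpen V)
    (hU' : U.Nonempty) (hV' : V.Nonempty) :
    ∃ M : ℕ, ∀ n : ℕ, M ≤ n → ∃ y ∈ U, Tn G n y ∈ V := by
  obtain ⟨x, hx⟩ := hU'
  obtain ⟨z, hz⟩ := hV'
  obtain ⟨N1, hN1⟩ := exists_window x (hU.mem_nhds hx)
  obtain ⟨N2, hN2⟩ := exists_window z (hV.mem_nhds hz)
  refine ⟨2 * (max N1 N2) + 2, fun n hn => ?_⟩
  obtain ⟨y, h1, h2⟩ := splice G x z (max N1 N2) n (by exact_mod_cast hn)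
  refine ⟨y, hN1 y fun i h3 h4 => h1 i ?_ ?_, hN2 _ fun i h3 h4 => h2 i ?_ ?_⟩
  all_goals
    have := le_max_left N1 N2
    have := le_max_right N1 N2
    omega

end Pool.Agent.V11255.CJ
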