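import Mathlib

set_option autoImplicit false

open Set MeasureTheory FirstOrder FirstOrder.Language Topology

namespace Pool.Agent.V11255.BI

/-- The space `X_L` of `L`-structures with universe `ℕ`, for a relational vocabulary `L`: a structure
is given by the truth values of all the atomic relations. -/
abbrev Str (L : FirstOrder.Language.{0, 0}) : Type :=
  (Σ n : ℕ, L.Relations n × (Fin n → ℕ)) → Bool

variable {L : FirstOrder.Language.{0, 0}} [L.IsRelational]

/-- the first-order structure on `ℕ` coded by a point of `X_L` -/
@[reducible] def Str.toStructure (A : Str L) : L.Structure ℕ where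
  funMap := fun f => isEmptyElim f
  RelMap := fun {n} r v => A ⟨n, r, v⟩ = true

/-- The set `S` of tuples (indexed by `α`) is definable in `A` by a first-order formula with
parameters among the `p i`, `i : ι`. -/
def Df (A : Str L) {ι : Type} (p : ι → ℕ) {α : Type} (S : Set (α → ℕ)) : Prop :=
  ∃ φ : L.Formula (α ⊕ ι), ∀ v, v ∈ S ↔ @Formula.Realize L ℕ A.toStructure _ φ (Sum.elim v p)

/-- An interpretation of `B` in `A`, whose formulas use the parameters `p i`, `i : ι`: a definable
set `D` of `n`-tuples and a map `f` from `D` onto the universe of `B`, such that the equivalence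
relation `f u = f v` on `D` is definable and the preimages of the relations of `B` are definable
(so that `f` induces an isomorphism of the structure interpreted on `D / ∼` with `B`). -/
structure Interp (A : Str L) {ι : Type} (p : ι → ℕ) (B : Str L) where
  /-- the dimension -/
  n : ℕ
  /-- the domain -/
  D : Set (Fin n → ℕ)
  /-- the coordinate map -/
  f : (Fin n → ℕ) → ℕ
  surj : ∀ b, ∃ u ∈ D, f u = b
  defD : Df A p D
  defEq : Df A p {w : Fin 2 × Fin n → ℕ | (∀ i, (fun j => w (i, j)) ∈ D) ∧
    f (fun j => w (0, j)) = f (fun j => w (1, j))}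
  defRel : ∀ (k : ℕ) (r : L.Relations k), Df A p {w : Fin k × Fin n → ℕ |
    (∀ i, (fun j => w (i, j)) ∈ D) ∧ B ⟨k, r, fun i => f (fun j => w (i, j))⟩ = true}

/-- The graph of the composite map of two interpretations, `A ⊇ D ^ m ⊇ f ⁻¹ E → A`: it consists of
the tuples `(u₁, …, u_m, a)` with `uᵢ ∈ D`, `(f u₁, …, f u_m) ∈ E` and `g (f u₁, …, f u_m) = a`. -/
def compGraph {A B : Str L} {ι κ : Type} {p : ι → ℕ} {q : κ → ℕ} (I : Interp A p B)
    (J : Interp B q A) : Set ((Fin J.n × Fin I.n) ⊕ Unit → ℕ) :=
  {w | (∀ i, (fun j => w (Sum.inl (i, j))) ∈ I.D) ∧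
    (fun i => I.f fun j => w (Sum.inl (i, j))) ∈ J.D ∧
    J.f (fun i => I.f fun j => w (Sum.inl (i, j))) = w (Sum.inr ())}

/-- `A`, with parameters `p`, and `B`, with parameters `q`, are bi-interpretable: there are
interpretations of `B` in `A` and of `A` in `B` such that both composite maps are definable. -/
def BiInt (A : Str L) {ι : Type} (p : ι → ℕ) (B : Str L) {κ : Type} (q : κ → ℕ) : Prop :=
  ∃ (I : Interp A p B) (J : Interp B q A), Df A p (compGraph I J) ∧ Df B q (compGraph J I)

/-- the relation `E_bi` on `X_L`: bi-interpretability without parameters -/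
def Ebi (A B : Str L) : Prop :=
  BiInt A (fun i : Fin 0 => i.elim0) B (fun i : Fin 0 => i.elim0)

/-- the relation `E_bi^par` on `X_L`: bi-interpretability with finitely many parameters from
each of the two structures -/
def EbiPar (A B : Str L) : Prop :=
  ∃ (k : ℕ) (p : Fin k → ℕ) (l : ℕ) (q : Fin l → ℕ), BiInt A p B q

end Pool.Agent.V11255.BI
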