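import Mathlib
import Pool.Agent.V11255.BI0

set_option autoImplicit false
set_option linter.style.haveILetI false

open Set MeasureTheory FirstOrder FirstOrder.Language Topology

namespace Pool.Agent.V11255.BI

variable {L : FirstOrder.Language.{0, 0}} [L.IsRelational]

section closure

variable {A : Str L} {ι κ : Type} {p : ι → ℕ} {q : κ → ℕ} {α β γ : Type}

theorem Df.congr {S S' : Set (α → ℕ)} (h : Df A p S) (h' : ∀ v, v ∈ S' ↔ v ∈ S) : Df A p S' := by
  have : S' = S := by ext v; exact h' v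
  rwa [this]

theorem Df.univ : Df A p (Set.univ : Set (α → ℕ)) := by
  letI := A.toStructure
  exact ⟨⊤, fun v => by simp⟩

theorem Df.compl {S : Set (α → ℕ)} (h : Df A p S) : Df A p Sᶜ := by
  letI := A.toStructure
  obtain ⟨φ, hφ⟩ := h
  refine ⟨∼φ, fun v => ?_⟩
  rw [mem_compl_iff, hφ]
  exact Formula.realize_not.symm

theorem Df.inter {S S' : Set (α → ℕ)} (h : Df A p S) (h' : Df A p S') : Df A p (S ∩ S') := by
  letI := A.toStructure
  obtain ⟨φ, hφ⟩ := h
  obtain ⟨ψ, hψ⟩ := h'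
  refine ⟨φ ⊓ ψ, fun v => ?_⟩
  rw [mem_inter_iff, hφ, hψ]
  exact Formula.realize_inf.symm

theorem Df.union {S S' : Set (α → ℕ)} (h : Df A p S) (h' : Df A p S') : Df A p (S ∪ S') := by
  have := (h.compl.inter h'.compl).compl
  rwa [compl_inter, compl_compl, compl_compl] at this

theorem Df.reindex {S : Set (α → ℕ)} (h : Df A p S) (σ : α → β) :
    Df A p {w : β → ℕ | (fun a => w (σ a)) ∈ S} := by
  letI := A.toStructure
  obtain ⟨φ, hφ⟩ := h
  refine ⟨φ.relabel (Sum.map σ id), fun v => ?_⟩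
  rw [mem_ofPred_eq, hφ, Formula.realize_relabel]
  have : (Sum.elim v p) ∘ (Sum.map σ id) = Sum.elim (fun a => v (σ a)) p := by
    funext x
    rcases x with x | x <;> rfl
  rw [this]

/-- existential quantification -/
theorem Df.ex [Finite γ] {S : Set (α ⊕ γ → ℕ)} (h : Df A p S) :
    Df A p {v : α → ℕ | ∃ u : γ → ℕ, Sum.elim v u ∈ S} := by
  letI := A.toStructure
  obtain ⟨φ, hφ⟩ := h
  let e : (α ⊕ γ) ⊕ ι → (α ⊕ ι) ⊕ γ := fun x =>
    match x with
    | Sum.inl (Sum.inl a) => Sum.inl (Sum.inl a)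
    | Sum.inl (Sum.inr c) => Sum.inr c
    | Sum.inr i => Sum.inl (Sum.inr i)
  refine ⟨Formula.iExs γ (φ.relabel e), fun v => ?_⟩
  rw [mem_ofPred_eq, Formula.realize_iExs]
  refine exists_congr fun u => ?_
  rw [hφ, Formula.realize_relabel]
  have : Sum.elim (Sum.elim v p) u ∘ e = Sum.elim (Sum.elim v u) p := by
    funext x
    rcases x with (x | x) | x <;> rfl
  rw [this]

theorem Df.all [Finite γ] {S : Set (α ⊕ γ → ℕ)} (h : Df A p S) :
    Df A p {v : α → ℕ | ∀ u : γ → ℕ, Sum.elim v u ∈ S} := by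
  refine (h.compl.ex.compl).congr fun v => ?_
  simp only [mem_ofPred_eq, mem_compl_iff, not_exists, not_not]

theorem Df.iInter [Finite γ] {S : γ → Set (α → ℕ)} (h : ∀ c, Df A p (S c)) :
    Df A p (⋂ c, S c) := by
  classical
  letI := A.toStructure
  choose φ hφ using h
  refine ⟨Formula.iInf φ, fun v => ?_⟩
  rw [mem_iInter, Formula.realize_iInf]
  exact forall_congr' fun c => hφ c v

theorem Df.eq (a b : α) : Df A p {v : α → ℕ | v a = v b} := by
  letI := A.toStructure
  refine ⟨Term.equal (Term.var (Sum.inl a)) (Term.var (Sum.inl b)), fun v => ?_⟩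
  rw [Formula.realize_equal]
  rfl

theorem Df.rel {k : ℕ} (r : L.Relations k) (σ : Fin k → α) :
    Df A p {v : α → ℕ | A ⟨k, r, fun i => v (σ i)⟩ = true} := by
  letI := A.toStructure
  refine ⟨Relations.formula r fun i => Term.var (Sum.inl (σ i)), fun v => ?_⟩
  rw [Formula.realize_rel]
  rfl

/-- change of parameters -/
theorem Df.mono {S : Set (α → ℕ)} (h : Df A p S) (hpq : ∀ i, ∃ j, q j = p i) : Df A q S := by
  letI := A.toStructure
  obtain ⟨φ, hφ⟩ := h
  choose s hs using hpq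
  refine ⟨φ.relabel (Sum.map id s), fun v => ?_⟩
  rw [hφ, Formula.realize_relabel]
  have : (Sum.elim v q) ∘ (Sum.map id s) = Sum.elim v p := by
    funext x
    rcases x with x | x
    · rfl
    · exact hs x
  rw [this]

/-- substituting parameters -/
theorem Df.sect {S : Set (α ⊕ γ → ℕ)} (h : Df A p S) (u : γ → ℕ) (hp : ∀ i, ∃ j, q j = p i)
    (hu : ∀ c, ∃ j, q j = u c) :
    Df A q {v : α → ℕ | Sum.elim v u ∈ S} := by
  letI := A.toStructure
  obtain ⟨φ, hφ⟩ := h
  choose s hs using hp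
  choose t ht using hu
  let e : (α ⊕ γ) ⊕ ι → α ⊕ κ := Sum.elim (Sum.map id t) (Sum.inr ∘ s)
  refine ⟨φ.relabel e, fun v => ?_⟩
  rw [mem_ofPred_eq, hφ, Formula.realize_relabel]
  have : Sum.elim v q ∘ e = Sum.elim (Sum.elim v u) p := by
    funext x
    rcases x with (x | x) | x
    · rfl
    · exact ht x
    · exact hs x
  rw [this]

/-- every definable set is the section of a set definable without parameters -/
theorem Df.exists_sect {S : Set (α → ℕ)} (h : Df A p S) :
    ∃ S' : Set (α ⊕ ι → ℕ), Df A (fun i : Fin 0 => i.elim0) S' ∧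
      ∀ v, v ∈ S ↔ Sum.elim v p ∈ S' := by
  letI := A.toStructure
  obtain ⟨φ, hφ⟩ := h
  refine ⟨{v | φ.Realize v}, ⟨φ.relabel Sum.inl, fun v => ?_⟩, fun v => hφ v⟩
  rw [mem_ofPred_eq, Formula.realize_relabel]
  rfl

end closure

end Pool.Agent.V11255.BI
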