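import Mathlib
import Pool.Agent.Helper212.NonBorel

set_option autoImplicit false
set_option linter.style.haveILetI false
set_option linter.unusedSectionVars false

open Set MeasureTheory
open Pool.Agent.Helper212.Sq (br Wu universal measurable_br)

namespace Pool.Agent.V11255.BI.KB

/-- the dual list -/
def dl (s : List ℕ) : List ℕᵒᵈ := s.map OrderDual.toDual

theorem dl_inj : Function.Injective dl := List.map_injective_iff.mpr OrderDual.toDual.injective

theorem dl_append_lt (s a b : List ℕ) : dl (s ++ a) < dl (s ++ b) ↔ dl a < dl b := by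
  induction s with
  | nil => rfl
  | cons x s ih =>
    change (OrderDual.toDual x :: dl (s ++ a) < OrderDual.toDual x :: dl (s ++ b)) ↔ _
    rw [List.cons_lt_cons_iff, ih]
    simp

open Classical in
/-- the key of a node -/
noncomputable def key (T : Set (List ℕ)) (s : List ℕ) : ℕᵒᵈ ⊕ₗ List ℕᵒᵈ :=
  if s ∈ T then toLex (Sum.inr (dl s)) else toLex (Sum.inl (OrderDual.toDual (Encodable.encode s)))

theorem key_of_mem {T : Set (List ℕ)} {s : List ℕ} (h : s ∈ T) : key T s = toLex (Sum.inr (dl s)) :=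
  if_pos h

theorem key_of_notMem {T : Set (List ℕ)} {s : List ℕ} (h : s ∉ T) :
    key T s = toLex (Sum.inl (OrderDual.toDual (Encodable.encode s))) := if_neg h

theorem key_inj (T : Set (List ℕ)) : Function.Injective (key T) := by
  intro s t h
  by_cases hs : s ∈ T <;> by_cases ht : t ∈ T
  · rw [key_of_mem hs, key_of_mem ht] at h
    exact dl_inj (Sum.inr_injective (toLex.injective h))
  · rw [key_of_mem hs, key_of_notMem ht] at h
    exact absurd (toLex.injective h) (by simp)
  · rw [key_of_notMem hs, key_of_mem ht] at h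
    exact absurd (toLex.injective h) (by simp)
  · rw [key_of_notMem hs, key_of_notMem ht] at h
    exact Encodable.encode_injective (OrderDual.toDual.injective (Sum.inl_injective (toLex.injective h)))

/-- the nodes, with the reversed Kleene-Brouwer order on `T` -/
def KT (_T : Set (List ℕ)) : Type := List ℕ

noncomputable instance (T : Set (List ℕ)) : LinearOrder (KT T) := LinearOrder.lift' (key T) (key_inj T)

instance (T : Set (List ℕ)) : Countable (KT T) := inferInstanceAs (Countable (List ℕ))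

theorem lt_iff {T : Set (List ℕ)} (s t : KT T) : s < t ↔ key T s < key T t := Iff.rfl

theorem lt_cases {T : Set (List ℕ)} (s t : List ℕ) : key T s < key T t ↔
    (s ∈ T ∧ t ∈ T ∧ dl s < dl t) ∨ (s ∉ T ∧ t ∈ T) ∨
    (s ∉ T ∧ t ∉ T ∧ Encodable.encode t < Encodable.encode s) := by
  by_cases hs : s ∈ T <;> by_cases ht : t ∈ T
  · rw [key_of_mem hs, key_of_mem ht, Sum.Lex.inr_lt_inr_iff]
    simp [hs, ht]
  · rw [key_of_mem hs, key_of_notMem ht]
    simp [hs, ht]
  · rw [key_of_notMem hs, key_of_mem ht]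
    simp [hs, ht]
  · rw [key_of_notMem hs, key_of_notMem ht, Sum.Lex.inl_lt_inl_iff]
    simp [hs, ht]

/-- initial segments -/
def fw (z : ℕ → ℕ) (n : ℕ) : List ℕ := (List.range n).map z

theorem fw_succ (z : ℕ → ℕ) (n : ℕ) : fw z (n + 1) = fw z n ++ [z n] := by
  simp [fw, List.range_succ]

theorem fw_length (z : ℕ → ℕ) (n : ℕ) : (fw z n).length = n := by simp [fw]

theorem fw_reverse (z : ℕ → ℕ) (n : ℕ) : (fw z n).reverse = br z n := by
  induction n with
  | zero => rfl
  | succ n ih => rw [fw_succ, List.reverse_append, ih]; rfl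

theorem fw_take (z : ℕ → ℕ) {n m : ℕ} (h : n ≤ m) : (fw z m).take n = fw z n := by
  simp [fw, ← List.map_take, List.take_range, h]

theorem not_wf_of_branch {T : Set (List ℕ)} (z : ℕ → ℕ) (h : ∀ n, fw z n ∈ T) :
    ¬ WellFoundedGT (KT T) := by
  intro hwf
  let f : ℕ → KT T := fun n => fw z n
  have hmono : StrictMono f := by
    refine strictMono_nat_of_lt_succ fun n => ?_
    rw [lt_iff]
    change key T (fw z n) < key T (fw z (n + 1))
    rw [lt_cases]
    refine Or.inl ⟨h _, h _, ?_⟩
    rw [fw_succ]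
    have h1 := dl_append_lt (fw z n) [] [z n]
    rw [List.append_nil] at h1
    rw [h1]
    exact List.nil_lt_cons _ _
  exact not_strictMono_of_wellFoundedGT f hmono

/-- there is an increasing sequence of nodes of `T` above `s` -/
def Good (T : Set (List ℕ)) (s : List ℕ) : Prop :=
  ∃ u : ℕ → List ℕ, (∀ n, u n ∈ T) ∧ (∀ n, dl (u n) < dl (u (n + 1))) ∧ ∀ n, s <+: u n

theorem Good.step {T : Set (List ℕ)} {s : List ℕ} (h : Good T s) : ∃ m, Good T (s ++ [m]) := by
  obtain ⟨u, hT, hlt, hs⟩ := h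
  choose r hr using hs
  have h1 : ∀ n, dl (r n) < dl (r (n + 1)) := by
    intro n
    have := hlt n
    rw [← hr n, ← hr (n + 1), dl_append_lt] at this
    exact this
  have h2 : ∀ n, ∃ a t, r (n + 1) = a :: t := by
    intro n
    rcases h3 : r (n + 1) with _ | ⟨a, t⟩
    · have := h1 n
      rw [h3] at this
      exact absurd this (List.not_lt_nil _)
    · exact ⟨a, t, rfl⟩
  choose a t hat using h2
  have h3 : ∀ n, a (n + 1) ≤ a n := by
    intro n
    have := h1 (n + 1)
    rw [hat, hat] at this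
    change (OrderDual.toDual (a n) :: dl (t n) < OrderDual.toDual (a (n + 1)) :: dl (t (n + 1))) at this
    rcases List.cons_lt_cons_iff.mp this with h | ⟨h, -⟩
    · exact (OrderDual.toDual_lt_toDual.mp h).le
    · exact (OrderDual.toDual.injective h).ge
  have hanti : Antitone a := antitone_nat_of_succ_le h3
  obtain ⟨N, hN⟩ := Nat.sInf_mem (range_nonempty a)
  have h4 : ∀ n, N ≤ n → a n = a N := by
    intro n hn
    refine le_antisymm (hanti hn) ?_
    rw [hN]
    exact Nat.sInf_le (mem_range_self n)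
  refine ⟨a N, fun n => u (N + n + 1), fun n => hT _, fun n => hlt _, fun n => ?_⟩
  refine ⟨t (N + n), ?_⟩
  change s ++ [a N] ++ t (N + n) = u (N + n + 1)
  rw [← hr (N + n + 1), hat, h4 (N + n) (by omega), List.append_assoc, List.singleton_append]

theorem exists_branch {T : Set (List ℕ)} (hT : ∀ s ∈ T, ∀ t, t <+: s → t ∈ T)
    (h : ¬ WellFoundedGT (KT T)) : ∃ z : ℕ → ℕ, ∀ n, fw z n ∈ T := by
  classical
  -- an increasing sequence
  have h1 : ∃ f : ℕ → KT T, StrictMono f := by
    by_contra hcon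
    push Not at hcon
    apply h
    rw [WellFoundedGT, isWellFounded_iff, RelEmbedding.wellFounded_iff_isEmpty]
    refine ⟨fun f => hcon f ?_⟩
    intro m n hmn
    exact f.map_rel_iff.mpr hmn
  obtain ⟨f, hf⟩ := h1
  obtain ⟨g, hg⟩ : ∃ g : ℕ → List ℕ, ∀ i j, i < j → key T (g i) < key T (g j) :=
    ⟨f, fun i j h => hf h⟩
  have h2 : ∃ N, g N ∈ T := by
    by_contra hcon
    push Not at hcon
    have h3 : StrictAnti fun n => Encodable.encode (g n) := by
      refine strictAnti_nat_of_succ_lt fun n => ?_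
      have h4 := hg _ _ (Nat.lt_succ_self n)
      rw [lt_cases] at h4
      rcases h4 with h4 | h4 | h4
      · exact absurd h4.1 (hcon n)
      · exact absurd h4.2 (hcon _)
      · exact h4.2.2
    exact not_strictAnti_of_wellFoundedLT _ h3
  obtain ⟨N, hN⟩ := h2
  have h3 : ∀ n, g (N + n) ∈ T := by
    intro n
    induction n with
    | zero => exact hN
    | succ n ih =>
      have h4 := hg (N + n) (N + (n + 1)) (by omega)
      rw [lt_cases] at h4
      rcases h4 with h4 | h4 | h4
      · exact h4.2.1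
      · exact h4.2
      · exact absurd ih h4.1
  have hgood : Good T [] := by
    refine ⟨fun n => g (N + n), h3, fun n => ?_, fun n => List.nil_prefix⟩
    have h4 := hg (N + n) (N + (n + 1)) (by omega)
    rw [lt_cases] at h4
    rcases h4 with h4 | h4 | h4
    · exact h4.2.2
    · exact absurd (h3 n) h4.1
    · exact absurd (h3 n) h4.1
  choose m hm using fun (s : {s // Good T s}) => s.2.step
  let sq : ℕ → {s // Good T s} := fun n => Nat.rec ⟨[], hgood⟩ (fun _ s => ⟨s.1 ++ [m s], hm s⟩) n
  have hsq : ∀ n, (sq n).1 = fw (fun n => m (sq n)) n := by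
    intro n
    induction n with
    | zero => rfl
    | succ n ih =>
      rw [fw_succ, ← ih]
  refine ⟨fun n => m (sq n), fun n => ?_⟩
  rw [← hsq n]
  obtain ⟨u, hu1, -, hu3⟩ := (sq n).2
  exact hT _ (hu1 0) _ (hu3 0)

/-! ### analytic sets -/

/-- the tree of `x` -/
def Tx (c : ℕ → ℕ) (x : ℕ → ℕ) : Set (List ℕ) :=
  {s | ∀ n ≤ s.length, c (Encodable.encode (br x n, (s.take n).reverse)) = 1}

theorem Tx_prefix (c x : ℕ → ℕ) : ∀ s ∈ Tx c x, ∀ t, t <+: s → t ∈ Tx c x := by
  intro s hs t ht n hn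
  have h1 := hs n (hn.trans ht.length_le)
  obtain ⟨r, rfl⟩ := ht
  rwa [List.take_append_of_le_length hn] at h1

theorem wu_iff (c x : ℕ → ℕ) : Wu c x ↔ ¬ WellFoundedGT (KT (Tx c x)) := by
  constructor
  · rintro ⟨z, hz⟩
    refine not_wf_of_branch z fun m n hn => ?_
    rw [fw_length] at hn
    rw [fw_take z hn, fw_reverse]
    exact hz n
  · intro h
    obtain ⟨z, hz⟩ := exists_branch (Tx_prefix c x) h
    refine ⟨z, fun n => ?_⟩
    have h1 := hz n n (by rw [fw_length])
    rwa [fw_take z le_rfl, fw_reverse] at h1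

theorem measurableSet_mem_Tx (c : ℕ → ℕ) (s : List ℕ) : MeasurableSet {x | s ∈ Tx c x} := by
  have : {x | s ∈ Tx c x} = ⋂ n, ⋂ (_ : n ≤ s.length), ⋃ (w : List ℕ),
      ⋃ (_ : c (Encodable.encode (w, (s.take n).reverse)) = 1), {x | br x n = w} := by
    ext x
    simp only [Tx, mem_ofPred_eq, mem_iInter, mem_iUnion, exists_prop]
    refine forall_congr' fun n => forall_congr' fun _ => ⟨fun h => ⟨_, h, rfl⟩, ?_⟩
    rintro ⟨w, h, rfl⟩
    exact h
  rw [this]
  exact MeasurableSet.iInter fun n => MeasurableSet.iInter fun _ => MeasurableSet.iUnion fun w =>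
    MeasurableSet.iUnion fun _ => measurable_br n w

theorem measurableSet_lt (c : ℕ → ℕ) (s t : List ℕ) :
    MeasurableSet {x | key (Tx c x) s < key (Tx c x) t} := by
  simp only [lt_cases]
  have hs := measurableSet_mem_Tx c s
  have ht := measurableSet_mem_Tx c t
  have : {x | (s ∈ Tx c x ∧ t ∈ Tx c x ∧ dl s < dl t) ∨ (s ∉ Tx c x ∧ t ∈ Tx c x) ∨
      (s ∉ Tx c x ∧ t ∉ Tx c x ∧ Encodable.encode t < Encodable.encode s)} =
      ({x | s ∈ Tx c x} ∩ ({x | t ∈ Tx c x} ∩ {_x | dl s < dl t})) ∪
      (({x | s ∈ Tx c x}ᶜ ∩ {x | t ∈ Tx c x}) ∪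
      ({x | s ∈ Tx c x}ᶜ ∩ ({x | t ∈ Tx c x}ᶜ ∩ {_x | Encodable.encode t < Encodable.encode s}))) := by
    ext x
    rfl
  rw [this]
  exact (hs.inter (ht.inter (MeasurableSet.const _))).union ((hs.compl.inter ht).union
    (hs.compl.inter (ht.compl.inter (MeasurableSet.const _))))

end Pool.Agent.V11255.BI.KB
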