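import Mathlib
import Pool.Agent.V11255.BI1

set_option autoImplicit false
set_option linter.style.haveILetI false

open Set MeasureTheory FirstOrder FirstOrder.Language Topology

namespace Pool.Agent.V11255.BI

variable {L : FirstOrder.Language.{0, 0}} [L.IsRelational]

theorem term_eq_var {α : Type} (t : L.Term α) : ∃ a, t = Term.var a := by
  cases t with
  | var a => exact ⟨a, rfl⟩
  | func f _ => exact isEmptyElim f

variable {A B : Str L} {ι κ : Type} {p : ι → ℕ} {q : κ → ℕ}

namespace Interp

variable (I : Interp A p B)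

/-- all the coordinates lie in the domain -/
def Dom (X : Type) : Set (X × Fin I.n → ℕ) := {w | ∀ x, (fun j => w (x, j)) ∈ I.D}

theorem df_dom (X : Type) [Finite X] : Df A p (I.Dom X) := by
  have : I.Dom X = ⋂ x : X, {w : X × Fin I.n → ℕ | (fun j => w (x, j)) ∈ I.D} := by
    ext w
    simp only [Dom, mem_ofPred_eq, mem_iInter]
  rw [this]
  exact Df.iInter fun x => I.defD.reindex fun j => (x, j)

/-- the values -/
def val {X : Type} (w : X × Fin I.n → ℕ) (x : X) : ℕ := I.f fun j => w (x, j)

theorem pre_bounded {β : Type} [Finite β] {k : ℕ} (ψ : L.BoundedFormula β k) :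
    Df A p {w : (β ⊕ Fin k) × Fin I.n → ℕ | w ∈ I.Dom (β ⊕ Fin k) ∧
      @BoundedFormula.Realize L ℕ B.toStructure _ _ ψ (fun b => I.val w (Sum.inl b))
        (fun i => I.val w (Sum.inr i))} := by
  letI := B.toStructure
  induction ψ with
  | falsum =>
    refine (Df.univ.compl).congr fun w => ?_
    simp only [mem_ofPred_eq, BoundedFormula.Realize, and_false, compl_univ, mem_empty_iff_false]
  | @equal k t₁ t₂ =>
    obtain ⟨x, rfl⟩ := term_eq_var t₁
    obtain ⟨y, rfl⟩ := term_eq_var t₂
    refine ((I.df_dom (β ⊕ Fin k)).inter (I.defEq.reindex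
      (fun z : Fin 2 × Fin I.n => ((if z.1 = 0 then x else y), z.2)))).congr fun w => ?_
    rw [mem_ofPred_eq, mem_inter_iff]
    refine and_congr_right fun hw => ?_
    have h1 : ∀ z : β ⊕ Fin k, (Term.var z : L.Term (β ⊕ Fin k)).realize
        (Sum.elim (fun b => I.val w (Sum.inl b)) fun i => I.val w (Sum.inr i)) = I.val w z := by
      intro z
      rcases z with z | z <;> rfl
    have h2 : BoundedFormula.Realize (BoundedFormula.equal (Term.var x) (Term.var y) : L.BoundedFormula β k)
        (fun b => I.val w (Sum.inl b)) (fun i => I.val w (Sum.inr i)) ↔ I.val w x = I.val w y := by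
      rw [BoundedFormula.Realize, h1, h1]
    rw [h2]
    simp only [mem_ofPred_eq, Fin.isValue, if_true, one_ne_zero, if_false]
    constructor
    · intro h
      refine ⟨fun i => ?_, h⟩
      split_ifs
      · exact hw x
      · exact hw y
    · exact fun h => h.2
  | @rel k l r ts =>
    choose σ hσ using fun i => term_eq_var (ts i)
    refine ((I.df_dom (β ⊕ Fin k)).inter ((I.defRel l r).reindex
      (fun z : Fin l × Fin I.n => (σ z.1, z.2)))).congr fun w => ?_
    rw [mem_ofPred_eq, mem_inter_iff]
    refine and_congr_right fun hw => ?_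
    have h1 : ∀ i, (ts i).realize
        (Sum.elim (fun b => I.val w (Sum.inl b)) fun i => I.val w (Sum.inr i)) = I.val w (σ i) := by
      intro i
      rw [hσ]
      rcases σ i with z | z <;> rfl
    have h2 : BoundedFormula.Realize (BoundedFormula.rel r ts : L.BoundedFormula β k)
        (fun b => I.val w (Sum.inl b)) (fun i => I.val w (Sum.inr i)) ↔
        B ⟨l, r, fun i => I.val w (σ i)⟩ = true := by
      rw [BoundedFormula.Realize]
      simp only [h1]
      rfl
    rw [h2]
    simp only [mem_ofPred_eq]
    constructor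
    · intro h
      exact ⟨fun i => hw _, h⟩
    · exact fun h => h.2
  | @imp k φ ψ ih1 ih2 =>
    refine ((I.df_dom (β ⊕ Fin k)).inter (ih1.compl.union ih2)).congr fun w => ?_
    simp only [mem_ofPred_eq, mem_inter_iff, mem_union, mem_compl_iff, BoundedFormula.realize_imp]
    tauto
  | @all k ψ ih =>
    let σ : (β ⊕ Fin (k + 1)) × Fin I.n → ((β ⊕ Fin k) × Fin I.n) ⊕ Fin I.n := fun z =>
      Sum.elim (fun b => Sum.inl (Sum.inl b, z.2))
        (fun i => Fin.lastCases (motive := fun _ => ((β ⊕ Fin k) × Fin I.n) ⊕ Fin I.n)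
          (Sum.inr z.2) (fun i => Sum.inl (Sum.inr i, z.2)) i) z.1
    have hD' : Df A p {w : ((β ⊕ Fin k) × Fin I.n) ⊕ Fin I.n → ℕ | (fun j => w (Sum.inr j)) ∈ I.D} :=
      I.defD.reindex Sum.inr
    have h1 := (hD'.compl.union (ih.reindex σ)).all
    refine ((I.df_dom (β ⊕ Fin k)).inter h1).congr fun w => ?_
    rw [mem_ofPred_eq, mem_inter_iff]
    refine and_congr_right fun hw => ?_
    rw [BoundedFormula.realize_all, mem_ofPred_eq]
    have key : ∀ u : Fin I.n → ℕ, u ∈ I.D →
        ((fun a => Sum.elim w u (σ a)) ∈ {w : (β ⊕ Fin (k + 1)) × Fin I.n → ℕ |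
          w ∈ I.Dom (β ⊕ Fin (k + 1)) ∧ ψ.Realize (fun b => I.val w (Sum.inl b))
          (fun i => I.val w (Sum.inr i))} ↔
        ψ.Realize (fun b => I.val w (Sum.inl b))
          (Fin.snoc (α := fun _ => ℕ) (fun i => I.val w (Sum.inr i)) (I.f u))) := by
      intro u hu
      have e1 : (fun b => I.val (fun a => Sum.elim w u (σ a)) (Sum.inl b)) =
          fun b => I.val w (Sum.inl b) := by
        funext b
        rfl
      have e2 : (fun i => I.val (fun a => Sum.elim w u (σ a)) (Sum.inr i)) =
          Fin.snoc (α := fun _ => ℕ) (fun i => I.val w (Sum.inr i)) (I.f u) := by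
        funext i
        refine Fin.lastCases ?_ (fun i => ?_) i
        · simp only [val, σ, Sum.elim_inr, Fin.lastCases_last, Fin.snoc_last]
        · simp only [val, σ, Sum.elim_inr, Fin.lastCases_castSucc, Fin.snoc_castSucc, Sum.elim_inl]
      rw [mem_ofPred_eq, e1, e2, and_iff_right]
      intro x
      rcases x with x | i
      · exact hw (Sum.inl x)
      · refine Fin.lastCases ?_ (fun i => ?_) i
        · simp only [σ, Sum.elim_inr, Fin.lastCases_last]
          exact hu
        · simp only [σ, Sum.elim_inr, Fin.lastCases_castSucc, Sum.elim_inl]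
          exact hw (Sum.inr i)
    constructor
    · intro h u
      by_cases hu : u ∈ I.D
      · right
        exact (key u hu).mpr (h _)
      · left
        exact hu
    · intro h a
      obtain ⟨u, hu, rfl⟩ := I.surj a
      rcases h u with h2 | h2
      · exact absurd hu h2
      · exact (key u hu).mp h2

/-- preimages of sets definable without parameters are definable -/
theorem pre_df {α : Type} [Finite α] {S : Set (α → ℕ)} (h : Df B (fun i : Fin 0 => i.elim0) S) :
    Df A p {w : α × Fin I.n → ℕ | w ∈ I.Dom α ∧ I.val w ∈ S} := by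
  letI := B.toStructure
  obtain ⟨φ, hφ⟩ := h
  let φ' : L.Formula α := φ.relabel (Sum.elim id (fun i : Fin 0 => i.elim0))
  have hφ' : ∀ v : α → ℕ, v ∈ S ↔ φ'.Realize v := by
    intro v
    rw [hφ, Formula.realize_relabel]
    have : v ∘ (Sum.elim id fun i : Fin 0 => i.elim0) = Sum.elim v fun i : Fin 0 => i.elim0 := by
      funext x
      rcases x with x | x
      · rfl
      · exact x.elim0
    rw [this]
  have h1 := I.pre_bounded φ'
  have h2 := h1.reindex (β := α × Fin I.n)
    (fun z => (Sum.elim id (fun i : Fin 0 => i.elim0) z.1, z.2))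
  refine h2.congr fun w => ?_
  simp only [mem_ofPred_eq]
  have e1 : ((fun a : (α ⊕ Fin 0) × Fin I.n =>
      w (Sum.elim id (fun i : Fin 0 => i.elim0) a.1, a.2)) ∈ I.Dom (α ⊕ Fin 0)) ↔ w ∈ I.Dom α := by
    constructor
    · intro h x
      exact h (Sum.inl x)
    · intro h x
      rcases x with x | x
      · exact h x
      · exact x.elim0
  rw [e1]
  refine and_congr_right fun _ => ?_
  rw [hφ']
  rw [Formula.Realize]
  exact iff_of_eq (congrArg (BoundedFormula.Realize φ' (I.val w)) (funext fun i => i.elim0))

end Interp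

end Pool.Agent.V11255.BI
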