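import Mathlib
import Pool.Agent.V11255.BI2

set_option autoImplicit false
set_option linter.style.haveILetI false

open Set MeasureTheory FirstOrder FirstOrder.Language Topology

namespace Pool.Agent.V11255.BI

variable {L : FirstOrder.Language.{0, 0}} [L.IsRelational]

variable {A B : Str L} {ι κ : Type} {p : ι → ℕ} {q : κ → ℕ}

/-- the preimage under an interpretation -/
def Interp.pre (I : Interp A p B) {α : Type} (R : Set (α → ℕ)) : Set (α × Fin I.n → ℕ) :=
  {w | w ∈ I.Dom α ∧ I.val w ∈ R}

/-- preimages of definable sets, with parameters -/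
theorem Interp.pre_df_params (I : Interp A p B) {α ι' κ' : Type} [Finite α] [Finite κ']
    {q' : κ' → ℕ} {R : Set (α → ℕ)} (h : Df B q' R) (u : κ' → Fin I.n → ℕ)
    (hu : ∀ c, u c ∈ I.D) (hu' : ∀ c, I.f (u c) = q' c) {p' : ι' → ℕ}
    (hp : ∀ i, ∃ j, p' j = p i) (hup : ∀ c j, ∃ i, p' i = u c j) : Df A p' (I.pre R) := by
  obtain ⟨S', hS', hR⟩ := h.exists_sect
  have h1 := I.pre_df hS'
  have h2 := h1.reindex (β := (α × Fin I.n) ⊕ (κ' × Fin I.n)) fun z =>
    Sum.elim (fun a => Sum.inl (a, z.2)) (fun c => Sum.inr (c, z.2)) z.1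
  have h3 := h2.sect (q := p') (fun z => u z.1 z.2) hp fun z => hup z.1 z.2
  refine h3.congr fun w => ?_
  simp only [mem_ofPred_eq]
  have e1 : ((fun a : (α ⊕ κ') × Fin I.n => Sum.elim w (fun z : κ' × Fin I.n => u z.1 z.2)
      (Sum.elim (fun a' => Sum.inl (a', a.2)) (fun c => Sum.inr (c, a.2)) a.1)) ∈
      I.Dom (α ⊕ κ')) ↔ w ∈ I.Dom α := by
    constructor
    · intro h x
      exact h (Sum.inl x)
    · intro h x
      rcases x with x | x
      · exact h x
      · exact hu x
  rw [e1]
  refine and_congr_right fun _ => ?_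
  rw [hR]
  have e2 : Sum.elim (I.val w) q' = I.val (fun a : (α ⊕ κ') × Fin I.n =>
      Sum.elim w (fun z : κ' × Fin I.n => u z.1 z.2)
      (Sum.elim (fun a' => Sum.inl (a', a.2)) (fun c => Sum.inr (c, a.2)) a.1)) := by
    funext x
    rcases x with x | x
    · rfl
    · exact (hu' x).symm
  rw [e2]

theorem Interp.exists_rep (I : Interp A p B) (b : ℕ) : ∃ u ∈ I.D, I.f u = b := I.surj b

/-- sets with definable preimage are definable -/
theorem df_of_pre (I : Interp A p B) (J : Interp B q A) (hc : Df B q (compGraph J I))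
    {α ι' κ' : Type} [Finite α] [Finite ι'] {p' : ι' → ℕ} {R : Set (α → ℕ)}
    (h : Df A p' (I.pre R)) (e : ι' → Fin J.n → ℕ)
    (he : ∀ c, e c ∈ J.D) (he' : ∀ c, J.f (e c) = p' c) {q' : κ' → ℕ}
    (hq : ∀ i, ∃ j, q' j = q i) (heq : ∀ c j, ∃ i, q' i = e c j) : Df B q' R := by
  have h1 := J.pre_df_params h e he he' hq heq
  have h2 : Df B q' {x : α ⊕ ((α × Fin I.n) × Fin J.n) → ℕ | (fun z => x (Sum.inr z)) ∈
      J.pre (I.pre R)} := h1.reindex Sum.inr
  have h3 : ∀ a : α, Df B q' {x : α ⊕ ((α × Fin I.n) × Fin J.n) → ℕ |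
      (fun z : (Fin I.n × Fin J.n) ⊕ Unit => x (Sum.elim (fun y => Sum.inr ((a, y.1), y.2))
        (fun _ => Sum.inl a) z)) ∈ compGraph J I} := fun a =>
    (hc.mono hq).reindex _
  refine ((h2.inter (Df.iInter h3)).ex).congr fun b => ?_
  simp only [mem_ofPred_eq, mem_inter_iff, mem_iInter]
  constructor
  · intro hb
    choose u hu hu' using fun a => I.surj (b a)
    choose v hv hv' using fun a => J.surj a
    refine ⟨fun z => v (u z.1.1 z.1.2) z.2, ⟨?_, ?_⟩, fun a => ⟨fun i => hv (u a i), ?_, ?_⟩⟩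
    · intro z
      exact hv (u z.1 z.2)
    · have e1 : J.val (fun z : (α × Fin I.n) × Fin J.n => v (u z.1.1 z.1.2) z.2) =
          fun z : α × Fin I.n => u z.1 z.2 := by
        funext z
        exact hv' (u z.1 z.2)
      change J.val (fun z : (α × Fin I.n) × Fin J.n => v (u z.1.1 z.1.2) z.2) ∈ I.pre R
      rw [e1]
      refine ⟨fun x => hu x, ?_⟩
      have e2 : I.val (fun z : α × Fin I.n => u z.1 z.2) = b := by
        funext a
        exact hu' a
      rw [e2]
      exact hb
    · have e1 : (fun i => J.f fun j => v (u a i) j) = u a := by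
        funext i
        exact hv' (u a i)
      change (fun i => J.f fun j => v (u a i) j) ∈ I.D
      rw [e1]
      exact hu a
    · have e1 : (fun i => J.f fun j => v (u a i) j) = u a := by
        funext i
        exact hv' (u a i)
      change I.f (fun i => J.f fun j => v (u a i) j) = b a
      rw [e1]
      exact hu' a
  · rintro ⟨x, ⟨hx1, hx2⟩, hx3⟩
    have e1 : I.val (J.val x) = b := by
      funext a
      exact (hx3 a).2.2
    rw [← e1]
    exact hx2.2

/-! ### Structures with the same definable sets -/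

/-- `h` maps the relations definable in `B₀` over `t` onto those definable in `B` over `t'` -/
def Same (B₀ : Str L) {T T' : Type} (t : T → ℕ) (B : Str L) (t' : T' → ℕ) (h : Equiv.Perm ℕ) :
    Prop :=
  ∀ (k : ℕ) (R : Set (Fin k → ℕ)), Df B t' R ↔ Df B₀ t {v | (fun i => h (v i)) ∈ R}

theorem Same.fin {B₀ : Str L} {T T' : Type} {t : T → ℕ} {B : Str L} {t' : T' → ℕ}
    {h : Equiv.Perm ℕ} (hs : Same B₀ t B t' h) {α : Type} [Finite α] (R : Set (α → ℕ)) :
    Df B t' R ↔ Df B₀ t {v | (fun i => h (v i)) ∈ R} := by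
  obtain ⟨k, ⟨e⟩⟩ := Finite.exists_equiv_fin α
  have h1 : Df B t' R ↔ Df B t' {w : Fin k → ℕ | (fun a => w (e a)) ∈ R} := by
    constructor
    · intro h
      exact h.reindex e
    · intro h
      refine (h.reindex e.symm).congr fun v => ?_
      simp only [mem_ofPred_eq, Equiv.symm_apply_apply]
  have h2 : Df B₀ t {v : α → ℕ | (fun i => h (v i)) ∈ R} ↔
      Df B₀ t {v : Fin k → ℕ | (fun i => h (v i)) ∈ {w : Fin k → ℕ | (fun a => w (e a)) ∈ R}} := by
    constructor
    · intro h
      exact h.reindex e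
    · intro h
      refine (h.reindex e.symm).congr fun v => ?_
      simp only [mem_ofPred_eq, Equiv.symm_apply_apply]
  rw [h1, h2]
  exact hs k _

/-- the class of `A` is closed under `Same` -/
theorem biInt_of_same [Finite κ] {T T' : Type} [Finite T] {B₀ : Str L} {t : T → ℕ} {t' : T' → ℕ}
    (hb : BiInt A p B₀ q) (ht : ∀ c, ∃ j, t j = q c) {h : Equiv.Perm ℕ}
    (hs : Same B₀ t B t' h) : ∃ (n : ℕ) (u : T → Fin n → ℕ),
      BiInt A (Sum.elim p fun z : T × Fin n => u z.1 z.2) B t' := by
  obtain ⟨I, J, hc1, hc2⟩ := hb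
  choose u hu hu' using fun c => I.surj (t c)
  refine ⟨I.n, u, ?_⟩
  have hp : ∀ i, ∃ j, (Sum.elim p fun z : T × Fin I.n => u z.1 z.2) j = p i :=
    fun i => ⟨Sum.inl i, rfl⟩
  have hup : ∀ c j, ∃ i, (Sum.elim p fun z : T × Fin I.n => u z.1 z.2) i = u c j :=
    fun c j => ⟨Sum.inr (c, j), rfl⟩
  let I' : Interp A (Sum.elim p fun z : T × Fin I.n => u z.1 z.2) B :=
    { n := I.n
      D := I.D
      f := fun w => h (I.f w)
      surj := fun b => by
        obtain ⟨w, hw, hw'⟩ := I.surj (h.symm b)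
        exact ⟨w, hw, by rw [hw', Equiv.apply_symm_apply]⟩
      defD := I.defD.mono hp
      defEq := by
        refine (I.defEq.mono hp).congr fun w => ?_
        simp only [mem_ofPred_eq, h.injective.eq_iff]
      defRel := fun k r => by
        have h1 : Df B t' {v : Fin k → ℕ | B ⟨k, r, fun i => v i⟩ = true} := Df.rel r id
        have h2 := (hs k _).mp h1
        have h3 := I.pre_df_params h2 u hu hu' hp hup
        refine h3.congr fun w => ?_
        rfl }
  have hinv : ∀ {α : Type} [Finite α] {S : Set (α → ℕ)}, Df B₀ q S →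
      Df B t' {v | (fun a => h.symm (v a)) ∈ S} := by
    intro α _ S hS
    rw [hs.fin]
    refine (hS.mono ht).congr fun v => ?_
    simp only [mem_ofPred_eq, Equiv.symm_apply_apply]
  let J' : Interp B t' A :=
    { n := J.n
      D := {e | (fun j => h.symm (e j)) ∈ J.D}
      f := fun e => J.f fun j => h.symm (e j)
      surj := fun a => by
        obtain ⟨w, hw, hw'⟩ := J.surj a
        refine ⟨fun j => h (w j), ?_, ?_⟩
        · simp only [mem_ofPred_eq, Equiv.symm_apply_apply]
          exact hw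
        · simp only [Equiv.symm_apply_apply]
          exact hw'
      defD := hinv J.defD
      defEq := hinv J.defEq
      defRel := fun k r => hinv (J.defRel k r) }
  refine ⟨I', J', ?_, ?_⟩
  · refine (hc1.mono hp).congr fun w => ?_
    simp only [compGraph, mem_ofPred_eq, I', J', Equiv.symm_apply_apply]
  · refine (hinv hc2).congr fun w => ?_
    simp only [compGraph, mem_ofPred_eq, I', J']
    refine and_congr_right fun _ => and_congr_right fun _ => ?_
    constructor
    · intro hw
      rw [← hw, Equiv.symm_apply_apply]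
    · intro hw
      rw [hw, Equiv.apply_symm_apply]

end Pool.Agent.V11255.BI
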