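import Mathlib
import Pool.Agent.V11255.BI3

set_option autoImplicit false
set_option linter.style.haveILetI false

open Set MeasureTheory FirstOrder FirstOrder.Language Topology

namespace Pool.Agent.V11255.BI

variable {L : FirstOrder.Language.{0, 0}} [L.IsRelational]

variable {A B : Str L} {ι κ : Type} {p : ι → ℕ} {q : κ → ℕ}

/-- the kernel of the coordinate map -/
def Interp.ker (I : Interp A p B) : Set (Fin 2 × Fin I.n → ℕ) :=
  {w | (∀ i, (fun j => w (i, j)) ∈ I.D) ∧ I.f (fun j => w (0, j)) = I.f (fun j => w (1, j))}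

/-- the code of an interpretation: its dimension, domain and kernel -/
def Interp.code (I : Interp A p B) : Σ n : ℕ, Set (Fin n → ℕ) × Set (Fin 2 × Fin n → ℕ) :=
  ⟨I.n, I.D, I.ker⟩

theorem exists_perm {X : Type} {D : Set X} {f f₀ : X → ℕ} (hf : ∀ b, ∃ u ∈ D, f u = b)
    (hf₀ : ∀ b, ∃ u ∈ D, f₀ u = b) (hk : ∀ u ∈ D, ∀ v ∈ D, (f u = f v ↔ f₀ u = f₀ v)) :
    ∃ h : Equiv.Perm ℕ, ∀ u ∈ D, f u = h (f₀ u) := by
  choose g hg hg' using hf
  choose g₀ hg₀ hg₀' using hf₀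
  refine ⟨⟨fun b => f (g₀ b), fun b => f₀ (g b), fun b => ?_, fun b => ?_⟩, fun u hu => ?_⟩
  · have h1 : f (g (f (g₀ b))) = f (g₀ b) := hg' _
    exact ((hk _ (hg _) _ (hg₀ _)).mp h1).trans (hg₀' b)
  · have h1 : f₀ (g₀ (f₀ (g b))) = f₀ (g b) := hg₀' _
    exact ((hk _ (hg₀ _) _ (hg _)).mpr h1).trans (hg' b)
  · have h1 : f₀ (g₀ (f₀ u)) = f₀ u := hg₀' _
    exact ((hk _ (hg₀ _) _ hu).mpr h1).symm

theorem code_perm {B₀ : Str L} (I : Interp A p B) (I₀ : Interp A p B₀) (h : I.code = I₀.code) :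
    ∃ h : Equiv.Perm ℕ, ∀ {α : Type} (R : Set (α → ℕ)) {ι' : Type} (p' : ι' → ℕ),
      (Df A p' (I.pre R) ↔ Df A p' (I₀.pre {v | (fun a => h (v a)) ∈ R})) := by
  rcases I with ⟨n, D, f, hs, h1, h2, h3⟩
  rcases I₀ with ⟨n₀, D₀, f₀, hs₀, h1₀, h2₀, h3₀⟩
  simp only [Interp.code, Interp.ker] at h
  obtain ⟨rfl, h⟩ := Sigma.mk.inj_iff.mp h
  obtain ⟨rfl, hk⟩ := Prod.mk.inj (eq_of_heq h)
  have hk' : ∀ u ∈ D, ∀ v ∈ D, (f u = f v ↔ f₀ u = f₀ v) := by
    intro u hu v hv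
    have h4 := Set.ext_iff.mp hk fun z => if z.1 = 0 then u z.2 else v z.2
    simp only [mem_ofPred_eq, if_true, Fin.isValue, one_ne_zero, if_false] at h4
    have h5 : ∀ i : Fin 2, (fun j => if i = 0 then u j else v j) ∈ D := by
      intro i
      split_ifs
      · exact hu
      · exact hv
    constructor
    · intro h6
      exact (h4.mp ⟨h5, h6⟩).2
    · intro h6
      exact (h4.mpr ⟨h5, h6⟩).2
  obtain ⟨h, hh⟩ := exists_perm hs hs₀ hk'
  refine ⟨h, fun {α} R {ι'} p' => ?_⟩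
  have : ∀ w : α × Fin n → ℕ,
      (w ∈ (Interp.mk n D f hs h1 h2 h3 : Interp A p B).pre R ↔
        w ∈ (Interp.mk n D f₀ hs₀ h1₀ h2₀ h3₀ : Interp A p B₀).pre {v | (fun a => h (v a)) ∈ R}) := by
    intro w
    simp only [Interp.pre, mem_ofPred_eq]
    refine and_congr_right fun hw => ?_
    have e : (Interp.mk n D f hs h1 h2 h3 : Interp A p B).val w =
        fun a => h ((Interp.mk n D f₀ hs₀ h1₀ h2₀ h3₀ : Interp A p B₀).val w a) := by
      funext a
      exact hh _ (hw a)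
    rw [e]
  have h4 : (Interp.mk n D f hs h1 h2 h3 : Interp A p B).pre R =
      (Interp.mk n D f₀ hs₀ h1₀ h2₀ h3₀ : Interp A p B₀).pre {v | (fun a => h (v a)) ∈ R} :=
    Set.ext this
  rw [h4]

/-- two structures in the class of `A` with the same code have the same definable sets, up to a
bijection, over suitable finite sets of parameters -/
theorem same_of_code [Finite ι] [Finite κ] {κ₀ : Type} [Finite κ₀] {q₀ : κ₀ → ℕ} {B₀ : Str L}
    {I : Interp A p B} {J : Interp B q A} (hc : Df B q (compGraph J I))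
    {I₀ : Interp A p B₀} {J₀ : Interp B₀ q₀ A} (hc₀ : Df B₀ q₀ (compGraph J₀ I₀))
    (hcode : I.code = I₀.code) :
    ∃ (t t' : (κ₀ ⊕ ι × Fin J₀.n) ⊕ (κ ⊕ ι × Fin J.n) → ℕ) (h : Equiv.Perm ℕ),
      (∀ c, t (Sum.inl (Sum.inl c)) = q₀ c) ∧ Same B₀ t B t' h := by
  obtain ⟨h, hh⟩ := code_perm I I₀ hcode
  choose e he he' using fun c => J.surj (p c)
  choose e₀ he₀ he₀' using fun c => J₀.surj (p c)
  let s : κ ⊕ ι × Fin J.n → ℕ := Sum.elim q fun z => e z.1 z.2
  let s₀ : κ₀ ⊕ ι × Fin J₀.n → ℕ := Sum.elim q₀ fun z => e₀ z.1 z.2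
  have h1 : ∀ {α : Type} [Finite α] (R : Set (α → ℕ)), Df B (fun i : Fin 0 => i.elim0) R →
      Df B₀ s₀ {v | (fun a => h (v a)) ∈ R} := by
    intro α _ R hR
    have h2 : Df A p (I.pre R) := I.pre_df hR
    rw [hh] at h2
    exact df_of_pre I₀ J₀ hc₀ h2 e₀ he₀ he₀' (fun i => ⟨Sum.inl i, rfl⟩)
      (fun c j => ⟨Sum.inr (c, j), rfl⟩)
  have h2 : ∀ {α : Type} [Finite α] (R : Set (α → ℕ)), Df B₀ (fun i : Fin 0 => i.elim0) R →
      Df B s {v | (fun a => h.symm (v a)) ∈ R} := by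
    intro α _ R hR
    have h3 : Df A p (I₀.pre R) := I₀.pre_df hR
    have h4 : Df A p (I.pre {v | (fun a => h.symm (v a)) ∈ R}) := by
      rw [hh]
      simp only [mem_ofPred_eq, Equiv.symm_apply_apply]
      exact h3
    exact df_of_pre I J hc h4 e he he' (fun i => ⟨Sum.inl i, rfl⟩)
      (fun c j => ⟨Sum.inr (c, j), rfl⟩)
  let t : (κ₀ ⊕ ι × Fin J₀.n) ⊕ (κ ⊕ ι × Fin J.n) → ℕ := Sum.elim s₀ fun z => h.symm (s z)
  let t' : (κ₀ ⊕ ι × Fin J₀.n) ⊕ (κ ⊕ ι × Fin J.n) → ℕ := Sum.elim (fun z => h (s₀ z)) s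
  have htt' : ∀ z, t' z = h (t z) := by
    intro z
    rcases z with z | z
    · rfl
    · exact (Equiv.apply_symm_apply h _).symm
  refine ⟨t, t', h, fun c => rfl, ?_⟩
  intro k R
  constructor
  · intro hR
    obtain ⟨R', hR', hRR'⟩ := hR.exists_sect
    refine ((h1 R' hR').sect (q := t) t (fun i => ⟨Sum.inl i, rfl⟩) fun c => ⟨c, rfl⟩).congr
      fun v => ?_
    simp only [mem_ofPred_eq]
    rw [hRR']
    have : Sum.elim (fun i => h (v i)) t' = fun a => h (Sum.elim v t a) := by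
      funext z
      rcases z with z | z
      · rfl
      · exact htt' z
    rw [this]
  · intro hR
    obtain ⟨R', hR', hRR'⟩ := hR.exists_sect
    refine ((h2 R' hR').sect (q := t') t' (fun i => ⟨Sum.inr i, rfl⟩) fun c => ⟨c, rfl⟩).congr
      fun v => ?_
    simp only [mem_ofPred_eq]
    have h5 := hRR' fun i => h.symm (v i)
    simp only [mem_ofPred_eq, Equiv.apply_symm_apply] at h5
    rw [h5]
    have : Sum.elim (fun i => h.symm (v i)) t = fun a => h.symm (Sum.elim v t' a) := by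
      funext z
      rcases z with z | z
      · rfl
      · simp only [Sum.elim_inr, htt', Equiv.symm_apply_apply]
    rw [this]

end Pool.Agent.V11255.BI
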