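import Mathlib

set_option autoImplicit false
set_option linter.style.haveILetI false

open Set MeasureTheory Topology

namespace Pool.Agent.V11255.BI.Orb

/-! ### leftmost branches -/

/-- the leftmost branch of a set -/
noncomputable def lm (C : Set (ℕ → ℕ)) (n : ℕ) : ℕ :=
  Nat.strongRecOn (motive := fun _ => ℕ) n fun n ih =>
    sInf {m | ∃ z ∈ C, (∀ i (hi : i < n), z i = ih i hi) ∧ z n = m}

theorem lm_eq (C : Set (ℕ → ℕ)) (n : ℕ) :
    lm C n = sInf {m | ∃ z ∈ C, (∀ i, i < n → z i = lm C i) ∧ z n = m} := by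
  unfold lm
  rw [Nat.strongRecOn_eq]

theorem lm_approx {C : Set (ℕ → ℕ)} (hC : C.Nonempty) (n : ℕ) :
    ∃ z ∈ C, ∀ i, i < n → z i = lm C i := by
  induction n with
  | zero =>
    obtain ⟨z, hz⟩ := hC
    exact ⟨z, hz, fun i hi => absurd hi (Nat.not_lt_zero i)⟩
  | succ n ih =>
    obtain ⟨z, hz, hz'⟩ := ih
    have hne : {m | ∃ z ∈ C, (∀ i, i < n → z i = lm C i) ∧ z n = m}.Nonempty := ⟨z n, z, hz, hz', rfl⟩
    obtain ⟨w, hw, hw1, hw2⟩ := Nat.sInf_mem hne
    refine ⟨w, hw, fun i hi => ?_⟩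
    rcases Nat.lt_succ_iff_lt_or_eq.mp hi with h | rfl
    · exact hw1 i h
    · rw [hw2, ← lm_eq]

theorem lm_le {C : Set (ℕ → ℕ)} {z : ℕ → ℕ} (hz : z ∈ C) (n : ℕ) (h : ∀ i, i < n → z i = lm C i) :
    lm C n ≤ z n := by
  rw [lm_eq]
  exact Nat.sInf_le ⟨z, hz, h, rfl⟩

section orbit

variable {S : Type} (sort : ℕ → S) (y₀ : List ℕ → Bool)

/-- codes of permutations preserving the sorts -/
def P : Set (ℕ → ℕ) :=
  {z | ∀ i, z (2 * z (2 * i + 1)) = i ∧ z (2 * z (2 * i) + 1) = i ∧ sort (z (2 * i)) = sort i}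

/-- the structure coded by the image of `y₀` -/
def F (z : ℕ → ℕ) : List ℕ → Bool := fun l => y₀ (l.map fun i => z (2 * i + 1))

/-- the fiber of `z` -/
def Fib (z : ℕ → ℕ) : Set (ℕ → ℕ) := {z' | z' ∈ P sort ∧ F y₀ z' = F y₀ z}

theorem mem_fib_of_approx {z a : ℕ → ℕ}
    (h : ∀ n, ∃ z' ∈ Fib sort y₀ z, ∀ i, i < n → z' i = a i) : a ∈ Fib sort y₀ z := by
  constructor
  · intro i
    obtain ⟨z', ⟨hz1, -⟩, hz2⟩ := h (2 * i + 2 + 2 * a (2 * i + 1) + 2 * a (2 * i))
    obtain ⟨h1, h2, h3⟩ := hz1 i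
    refine ⟨?_, ?_, ?_⟩
    · rw [hz2 (2 * i + 1) (by omega)] at h1
      rwa [hz2 _ (by omega)] at h1
    · rw [hz2 (2 * i) (by omega)] at h2
      rwa [hz2 _ (by omega)] at h2
    · rw [← h3, hz2 _ (by omega)]
  · funext l
    obtain ⟨N, hN⟩ : ∃ N, ∀ i ∈ l, 2 * i + 1 < N := by
      refine ⟨2 * l.sum + 2, fun i hi => ?_⟩
      have := List.le_sum_of_mem hi
      omega
    obtain ⟨z', ⟨-, hz1⟩, hz2⟩ := h N
    rw [← hz1]
    unfold F
    congr 1
    refine List.map_congr_left fun i hi => ?_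
    exact (hz2 _ (hN i hi)).symm

/-- the codes which are leftmost in their fiber -/
def W : Set (ℕ → ℕ) :=
  {z | z ∈ P sort ∧ ∀ z' ∈ Fib sort y₀ z, ∀ n, (∀ i, i < n → z' i = z i) → z n ≤ z' n}

theorem injOn_W : InjOn (F y₀) (W sort y₀) := by
  intro z hz z' hz' h
  have key : ∀ n, ∀ i, i < n → z' i = z i := by
    intro n
    induction n with
    | zero => exact fun i hi => absurd hi (Nat.not_lt_zero i)
    | succ n ih =>
      intro i hi
      rcases Nat.lt_succ_iff_lt_or_eq.mp hi with h1 | rfl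
      · exact ih i h1
      · exact le_antisymm (hz'.2 z ⟨hz.1, h⟩ i fun j hj => (ih j hj).symm)
          (hz.2 z' ⟨hz'.1, h.symm⟩ i ih)
  funext n
  exact (key (n + 1) n (Nat.lt_succ_self n)).symm

theorem image_W : F y₀ '' (W sort y₀) = F y₀ '' (P sort) := by
  apply Subset.antisymm
  · exact image_mono fun z hz => hz.1
  · rintro _ ⟨z, hz, rfl⟩
    have hne : (Fib sort y₀ z).Nonempty := ⟨z, hz, rfl⟩
    have h1 : lm (Fib sort y₀ z) ∈ Fib sort y₀ z := mem_fib_of_approx sort y₀ fun n => lm_approx hne n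
    refine ⟨lm (Fib sort y₀ z), ⟨h1.1, ?_⟩, h1.2⟩
    intro z' hz' n hn
    exact lm_le (C := Fib sort y₀ z) ⟨hz'.1, hz'.2.trans h1.2⟩ n hn

theorem measurable_eval (i : ℕ) : Measurable fun z : ℕ → ℕ => z i := measurable_pi_apply i

theorem measurableSet_P : MeasurableSet (P sort) := by
  have h1 : ∀ i, {z : ℕ → ℕ | z (2 * z (2 * i + 1)) = i} =
      ⋃ m, ({z : ℕ → ℕ | z (2 * i + 1) = m} ∩ {z | z (2 * m) = i}) := by
    intro i
    ext z
    simp only [mem_ofPred_eq, mem_iUnion, mem_inter_iff]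
    constructor
    · intro h
      exact ⟨_, rfl, h⟩
    · rintro ⟨m, rfl, h⟩
      exact h
  have h2 : ∀ i, {z : ℕ → ℕ | z (2 * z (2 * i) + 1) = i} =
      ⋃ m, ({z : ℕ → ℕ | z (2 * i) = m} ∩ {z | z (2 * m + 1) = i}) := by
    intro i
    ext z
    simp only [mem_ofPred_eq, mem_iUnion, mem_inter_iff]
    constructor
    · intro h
      exact ⟨_, rfl, h⟩
    · rintro ⟨m, rfl, h⟩
      exact h
  have h3 : ∀ i m, MeasurableSet {z : ℕ → ℕ | z i = m} := fun i m =>
    measurable_eval i (measurableSet_singleton m)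
  have : P sort = ⋂ i, (({z : ℕ → ℕ | z (2 * z (2 * i + 1)) = i} ∩
      {z : ℕ → ℕ | z (2 * z (2 * i) + 1) = i}) ∩ {z | sort (z (2 * i)) = sort i}) := by
    ext z
    simp only [P, mem_ofPred_eq, mem_iInter, mem_inter_iff, and_assoc]
  rw [this]
  refine MeasurableSet.iInter fun i => (MeasurableSet.inter ?_ ?_).inter ?_
  · rw [h1]
    exact MeasurableSet.iUnion fun m => (h3 _ _).inter (h3 _ _)
  · rw [h2]
    exact MeasurableSet.iUnion fun m => (h3 _ _).inter (h3 _ _)
  · exact measurable_eval (2 * i) (MeasurableSet.of_discrete (s := {m | sort m = sort i}))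

theorem measurable_F : Measurable (F y₀) := by
  rw [measurable_pi_iff]
  intro l
  have h1 : (fun z : ℕ → ℕ => F y₀ z l) =
      (fun w : Fin l.length → ℕ => y₀ (List.ofFn w)) ∘
        fun (z : ℕ → ℕ) (i : Fin l.length) => z (2 * l.get i + 1) := by
    funext z
    simp only [F, Function.comp_apply]
    congr 1
    apply List.ext_get
    · simp
    · intro n h1 h2
      simp
  have h2 : Measurable fun w : Fin l.length → ℕ => y₀ (List.ofFn w) := measurable_of_countable _
  have h3 : Measurable fun (z : ℕ → ℕ) (i : Fin l.length) => z (2 * l.get i + 1) :=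
    measurable_pi_iff.mpr fun i => measurable_eval _
  rw [h1]
  exact h2.comp h3

/-! ### the saturation of an open set -/

/-- `z` has in its fiber an element extending a given sequence -/
def Q (n m : ℕ) : Set (ℕ → ℕ) :=
  {z | z ∈ P sort ∧ ∃ z' ∈ Fib sort y₀ z, (∀ i, i < n → z' i = z i) ∧ z' n = m}

theorem Q_open (n m : ℕ) {z : ℕ → ℕ} (hz : z ∈ Q sort y₀ n m) :
    ∃ N, ∀ z₂ ∈ P sort, (∀ k, k < N → z₂ k = z k) → z₂ ∈ Q sort y₀ n m := by
  obtain ⟨hzP, z', ⟨hz', hF⟩, h1, h2⟩ := hz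
  -- the coordinates which matter
  obtain ⟨N, hN1, hN2⟩ : ∃ N, n < N ∧ ∀ i ≤ n, 2 * z (2 * z' (2 * i) + 1) < N := by
    refine ⟨n + 1 + ∑ i ∈ Finset.range (n + 1), 2 * z (2 * z' (2 * i) + 1) , by omega, fun i hi => ?_⟩
    have := Finset.single_le_sum (f := fun i => 2 * z (2 * z' (2 * i) + 1)) (s := Finset.range (n + 1))
      (fun _ _ => Nat.zero_le _) (Finset.mem_range.mpr (Nat.lt_succ_of_le hi))
    omega
  refine ⟨N, fun z₂ hz₂ h3 => ⟨hz₂, ?_⟩⟩
  -- the translated permutation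
  let w : ℕ → ℕ := fun j => if j % 2 = 0 then z₂ (2 * z (2 * z' (2 * (j / 2)) + 1))
    else z' (2 * z (2 * z₂ (2 * (j / 2) + 1)) + 1)
  have we : ∀ i, w (2 * i) = z₂ (2 * z (2 * z' (2 * i) + 1)) := by
    intro i
    simp only [w]
    rw [if_pos (by omega), Nat.mul_div_cancel_left _ (by norm_num)]
  have wo : ∀ i, w (2 * i + 1) = z' (2 * z (2 * z₂ (2 * i + 1)) + 1) := by
    intro i
    simp only [w]
    rw [if_neg (by omega)]
    have : (2 * i + 1) / 2 = i := by omega
    rw [this]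
  have hwP : w ∈ P sort := by
    intro i
    rw [we, wo, we, wo]
    refine ⟨?_, ?_, ?_⟩
    · rw [(hz' _).1, (hzP _).2.1, (hz₂ _).1]
    · rw [(hz₂ _).2.1, (hzP _).1, (hz' _).2.1]
    · rw [(hz₂ _).2.2]
      have h4 := (hzP (z (2 * z' (2 * i) + 1))).2.2
      rw [(hzP _).1] at h4
      rw [← h4, (hz' _).2.2]
  refine ⟨w, ⟨hwP, ?_⟩, ?_⟩
  · funext l
    have h4 := congrFun hF (l.map fun i => z (2 * z₂ (2 * i + 1)))
    simp only [F, List.map_map, Function.comp_def] at h4 ⊢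
    simp only [wo]
    rw [h4]
    simp only [(hzP _).2.1]
  · have h4 : ∀ j, j ≤ n → w j = z' j := by
      intro j hj
      rcases Nat.even_or_odd' j with ⟨i, rfl | rfl⟩
      · rw [we, h3 _ (hN2 i (by omega)), (hzP _).1]
      · rw [wo, h3 _ (by omega), (hzP _).1]
    refine ⟨fun i hi => ?_, ?_⟩
    · rw [h4 i hi.le, h1 i hi, h3 i (by omega)]
    · rw [h4 n le_rfl, h2]

theorem measurableSet_Q (n m : ℕ) : MeasurableSet (Q sort y₀ n m) := by
  choose! N hN using fun (z : ℕ → ℕ) (hz : z ∈ Q sort y₀ n m) => Q_open sort y₀ n m hz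
  have h1 : Q sort y₀ n m = P sort ∩ ⋃ z ∈ Q sort y₀ n m, {z₂ | ∀ k, k < N z → z₂ k = z k} := by
    ext z₂
    simp only [mem_inter_iff, mem_iUnion, mem_ofPred_eq, exists_prop]
    constructor
    · intro h
      exact ⟨h.1, z₂, h, fun _ _ => rfl⟩
    · rintro ⟨h, z, hz, hz'⟩
      exact hN z hz z₂ h hz'
  rw [h1]
  refine (measurableSet_P sort).inter (IsOpen.measurableSet ?_)
  refine isOpen_iUnion fun z => isOpen_iUnion fun _ => ?_
  have : {z₂ : ℕ → ℕ | ∀ k, k < N z → z₂ k = z k} =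
      ⋂ k ∈ Finset.range (N z), {z₂ : ℕ → ℕ | z₂ k = z k} := by
    ext z₂
    simp only [mem_ofPred_eq, mem_iInter, Finset.mem_range]
  rw [this]
  refine isOpen_biInter_finset fun k _ => ?_
  have hc : Continuous fun z₂ : ℕ → ℕ => z₂ k := continuous_apply k
  exact (isOpen_discrete ({z k} : Set ℕ)).preimage hc

theorem measurableSet_W : MeasurableSet (W sort y₀) := by
  have h1 : W sort y₀ = P sort ∩ ⋂ n, ⋂ m, ({z | m < z n} ∩ Q sort y₀ n m)ᶜ := by
    ext z
    simp only [mem_inter_iff, mem_iInter, mem_compl_iff, mem_ofPred_eq, not_and]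
    constructor
    · rintro ⟨h1, h2⟩
      refine ⟨h1, fun n m hm hQ => ?_⟩
      obtain ⟨-, z', hz', h3, h4⟩ := hQ
      have := h2 z' hz' n h3
      omega
    · rintro ⟨h1, h2⟩
      refine ⟨h1, fun z' hz' n hn => ?_⟩
      by_contra hlt
      push Not at hlt
      exact h2 n (z' n) hlt ⟨h1, z', hz', hn, rfl⟩
  rw [h1]
  refine (measurableSet_P sort).inter (MeasurableSet.iInter fun n => MeasurableSet.iInter fun m =>
    (MeasurableSet.inter ?_ (measurableSet_Q sort y₀ n m)).compl)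
  exact measurable_eval n (MeasurableSet.of_discrete (s := {k | m < k}))

/-- orbits of the logic action are Borel -/
theorem orbit_borel : MeasurableSet {y : List ℕ → Bool | ∃ g : Equiv.Perm ℕ,
    (∀ z, sort (g z) = sort z) ∧ ∀ l, y (l.map g) = y₀ l} := by
  have h1 : {y : List ℕ → Bool | ∃ g : Equiv.Perm ℕ,
      (∀ z, sort (g z) = sort z) ∧ ∀ l, y (l.map g) = y₀ l} = F y₀ '' (P sort) := by
    ext y
    constructor
    · rintro ⟨g, hg, hy⟩
      let w : ℕ → ℕ := fun j => if j % 2 = 0 then g (j / 2) else g.symm (j / 2)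
      have we : ∀ i, w (2 * i) = g i := by
        intro i
        simp only [w]
        rw [if_pos (by omega), Nat.mul_div_cancel_left _ (by norm_num)]
      have wo : ∀ i, w (2 * i + 1) = g.symm i := by
        intro i
        simp only [w]
        rw [if_neg (by omega)]
        have : (2 * i + 1) / 2 = i := by omega
        rw [this]
      refine ⟨w, fun i => ?_, ?_⟩
      · rw [wo, we, we, wo]
        exact ⟨g.apply_symm_apply i, g.symm_apply_apply i, hg i⟩
      · funext l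
        simp only [F, wo]
        rw [← hy, List.map_map]
        congr 1
        have : (⇑g ∘ fun i => g.symm i) = id := by
          funext i
          exact g.apply_symm_apply i
        rw [this, List.map_id]
    · rintro ⟨z, hz, rfl⟩
      refine ⟨⟨fun i => z (2 * i), fun i => z (2 * i + 1), fun i => (hz i).2.1, fun i => (hz i).1⟩,
        fun i => (hz i).2.2, fun l => ?_⟩
      simp only [F, List.map_map]
      congr 1
      have : ((fun i => z (2 * i + 1)) ∘ ⇑(Equiv.mk (fun i => z (2 * i)) (fun i => z (2 * i + 1))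
        (fun i => (hz i).2.1) (fun i => (hz i).1) : Equiv.Perm ℕ)) = id := by
        funext i
        exact (hz i).2.1
      rw [this, List.map_id]
  rw [h1, ← image_W]
  exact (measurableSet_W sort y₀).image_of_measurable_injOn (measurable_F y₀) (injOn_W sort y₀)

end orbit

end Pool.Agent.V11255.BI.Orb
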