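import Mathlib
import Pool.Agent.V11255.BI4
import Pool.Agent.V11255.BI5

set_option autoImplicit false
set_option linter.style.haveILetI false

open Set MeasureTheory FirstOrder FirstOrder.Language Topology

namespace Pool.Agent.V11255.BI

variable {L : FirstOrder.Language.{0, 0}} [L.IsRelational]

/-- truth of a formula depends on the structure in a Borel way -/
theorem measurableSet_realize {α : Type} {n : ℕ} (φ : L.BoundedFormula α n) :
    ∀ (v : α → ℕ) (xs : Fin n → ℕ),
      MeasurableSet {B : Str L | @BoundedFormula.Realize L ℕ B.toStructure _ _ φ v xs} := by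
  induction φ with
  | falsum =>
    intro v xs
    exact MeasurableSet.empty
  | equal t₁ t₂ =>
    intro v xs
    obtain ⟨x, rfl⟩ := term_eq_var t₁
    obtain ⟨y, rfl⟩ := term_eq_var t₂
    have h1 : {B : Str L | @BoundedFormula.Realize L ℕ B.toStructure _ _
        (BoundedFormula.equal (Term.var x) (Term.var y)) v xs} =
        {_B : Str L | Sum.elim v xs x = Sum.elim v xs y} := rfl
    rw [h1]
    exact MeasurableSet.const _
  | @rel k l r ts =>
    intro v xs
    choose σ hσ using fun i => term_eq_var (ts i)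
    have h1 : ∀ (B : Str L) i, @Term.realize L ℕ B.toStructure _ (Sum.elim v xs) (ts i) =
        Sum.elim v xs (σ i) := by
      intro B i
      rw [hσ]
      rfl
    have h2 : {B : Str L | @BoundedFormula.Realize L ℕ B.toStructure _ _
        (BoundedFormula.rel r ts) v xs} = {B : Str L | B ⟨l, r, fun i => Sum.elim v xs (σ i)⟩ = true} := by
      ext B
      simp only [mem_ofPred_eq, BoundedFormula.Realize, h1]
      rfl
    rw [h2]
    exact measurable_pi_apply (X := fun _ : (Σ n : ℕ, L.Relations n × (Fin n → ℕ)) => Bool)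
      (⟨l, r, fun i => Sum.elim v xs (σ i)⟩ : Σ n : ℕ, L.Relations n × (Fin n → ℕ))
      (measurableSet_singleton true)
  | imp φ ψ ih1 ih2 =>
    intro v xs
    have h1 : {B : Str L | @BoundedFormula.Realize L ℕ B.toStructure _ _ (φ.imp ψ) v xs} =
        {B : Str L | @BoundedFormula.Realize L ℕ B.toStructure _ _ φ v xs}ᶜ ∪
        {B : Str L | @BoundedFormula.Realize L ℕ B.toStructure _ _ ψ v xs} := by
      ext B
      simp only [mem_ofPred_eq, mem_union, mem_compl_iff, BoundedFormula.realize_imp]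
      tauto
    rw [h1]
    exact (ih1 v xs).compl.union (ih2 v xs)
  | all φ ih =>
    intro v xs
    have h1 : {B : Str L | @BoundedFormula.Realize L ℕ B.toStructure _ _ φ.all v xs} =
        ⋂ a : ℕ, {B : Str L | @BoundedFormula.Realize L ℕ B.toStructure _ _ φ v (Fin.snoc xs a)} := by
      ext B
      simp only [mem_ofPred_eq, mem_iInter, BoundedFormula.realize_all]
    rw [h1]
    exact MeasurableSet.iInter fun a => ih v _

/-- a fiberwise bijection -/
theorem exists_fib_equiv {F Z : Type} [Countable F] (a b : F → Z) (h : range a = range b) :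
    ∃ π : Equiv.Perm (F × ℕ), ∀ x, b (π x).1 = a x.1 := by
  classical
  have key : ∀ z : Z, Nonempty ({x : F × ℕ // a x.1 = z} ≃ {x : F × ℕ // b x.1 = z}) := by
    intro z
    by_cases hz : z ∈ range a
    · have hz' : z ∈ range b := h ▸ hz
      obtain ⟨x, hx⟩ := hz
      obtain ⟨y, hy⟩ := hz'
      have i1 : Infinite {x : F × ℕ // a x.1 = z} :=
        Infinite.of_injective (fun n : ℕ => ⟨(x, n), hx⟩) fun m n hmn => by
          have := congrArg (fun w => w.1.2) hmn
          exact this
      have i2 : Infinite {x : F × ℕ // b x.1 = z} :=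
        Infinite.of_injective (fun n : ℕ => ⟨(y, n), hy⟩) fun m n hmn => by
          have := congrArg (fun w => w.1.2) hmn
          exact this
      exact nonempty_equiv_of_countable
    · have hz' : z ∉ range b := h ▸ hz
      have i1 : IsEmpty {x : F × ℕ // a x.1 = z} := ⟨fun x => hz ⟨x.1.1, x.2⟩⟩
      have i2 : IsEmpty {x : F × ℕ // b x.1 = z} := ⟨fun x => hz' ⟨x.1.1, x.2⟩⟩
      exact ⟨Equiv.equivOfIsEmpty _ _⟩
  let e := fun z => Classical.choice (key z)
  refine ⟨(Equiv.sigmaFiberEquiv fun x : F × ℕ => a x.1).symm.trans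
    ((Equiv.sigmaCongrRight e).trans (Equiv.sigmaFiberEquiv fun x : F × ℕ => b x.1)), fun x => ?_⟩
  exact ((e (a x.1)) ⟨x, rfl⟩).2

section sat

variable (L) in
/-- formulas with any finite number of variables, and parameters indexed by `T` -/
abbrev Fm (T : Type) : Type := Σ k : ℕ, L.Formula (Fin k ⊕ T)

/-- satisfaction of a formula by a list -/
def Sat (B : Str L) {T : Type} (t : T → ℕ) (x : Fm L T) (a : List ℕ) : Prop :=
  ∃ v : Fin x.1 → ℕ, a = List.ofFn v ∧
    @Formula.Realize L ℕ B.toStructure _ x.2 (Sum.elim v t)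

theorem sat_iff (B : Str L) {T : Type} (t : T → ℕ) {k : ℕ} (φ : L.Formula (Fin k ⊕ T))
    (v : Fin k → ℕ) : Sat B t ⟨k, φ⟩ (List.ofFn v) ↔
      @Formula.Realize L ℕ B.toStructure _ φ (Sum.elim v t) := by
  constructor
  · rintro ⟨w, hw, h⟩
    have : v = w := List.ofFn_injective hw
    rw [this]
    exact h
  · intro h
    exact ⟨v, rfl, h⟩

open Classical in
/-- the two-sorted structure of elements and formulas -/
noncomputable def yB (B : Str L) {T : Type} (t : T → ℕ) (l : List (ℕ ⊕ (Fm L T × ℕ))) : Bool :=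
  decide (∃ (x : Fm L T) (n : ℕ) (a : List ℕ), l = Sum.inr (x, n) :: a.map Sum.inl ∧ Sat B t x a)

open Classical in
theorem yB_true_iff (B : Str L) {T : Type} (t : T → ℕ) (l : List (ℕ ⊕ (Fm L T × ℕ))) :
    yB B t l = true ↔
      ∃ (x : Fm L T) (n : ℕ) (a : List ℕ), l = Sum.inr (x, n) :: a.map Sum.inl ∧ Sat B t x a := by
  unfold yB
  exact decide_eq_true_iff

theorem yB_iff (B : Str L) {T : Type} (t : T → ℕ) (x : Fm L T) (n : ℕ) (a : List ℕ) :
    yB B t (Sum.inr (x, n) :: a.map Sum.inl) = true ↔ Sat B t x a := by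
  rw [yB_true_iff]
  constructor
  · rintro ⟨x', n', a', h, hs⟩
    rw [List.cons.injEq] at h
    obtain ⟨h1, h2⟩ := h
    have h3 := Sum.inr_injective h1
    have h4 : a = a' := List.map_injective_iff.mpr Sum.inl_injective h2
    have h5 : x = x' := congrArg Prod.fst h3
    rw [h5, h4]
    exact hs
  · intro h
    exact ⟨x, n, a, rfl, h⟩

/-- the sorts -/
def srt {T : Type} : (ℕ ⊕ (Fm L T × ℕ)) → Option ℕ
  | Sum.inl _ => none
  | Sum.inr x => some x.1.1

theorem same_iff [Countable L.Symbols] {T : Type} [Countable T] (B₀ : Str L) (t : T → ℕ) (B : Str L)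
    (t' : T → ℕ) : (∃ h : Equiv.Perm ℕ, Same B₀ t B t' h) ↔
    ∃ g : Equiv.Perm (ℕ ⊕ (Fm L T × ℕ)), (∀ z, srt (g z) = srt z) ∧
      ∀ l, yB B t' (l.map g) = yB B₀ t l := by
  constructor
  · rintro ⟨h, hs⟩
    let a : Fm L T → Σ k : ℕ, Set (Fin k → ℕ) := fun x =>
      ⟨x.1, {v | @Formula.Realize L ℕ B₀.toStructure _ x.2 (Sum.elim v t)}⟩
    let b : Fm L T → Σ k : ℕ, Set (Fin k → ℕ) := fun x =>
      ⟨x.1, {v | @Formula.Realize L ℕ B.toStructure _ x.2 (Sum.elim (fun i => h (v i)) t')}⟩
    have hr : range a = range b := by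
      ext ⟨k, R⟩
      constructor
      · rintro ⟨⟨k', φ⟩, hφ⟩
        obtain ⟨rfl, hR⟩ := Sigma.mk.inj_iff.mp hφ
        have hR := eq_of_heq hR
        have h1 : Df B₀ t R := ⟨φ, fun v => by rw [← hR]; rfl⟩
        have h2 : Df B t' {v : Fin k' → ℕ | (fun i => h.symm (v i)) ∈ R} := by
          rw [hs]
          simp only [mem_ofPred_eq, Equiv.symm_apply_apply]
          exact h1
        obtain ⟨ψ, hψ⟩ := h2
        refine ⟨⟨k', ψ⟩, ?_⟩
        simp only [b]
        congr 1
        ext v
        have h3 := hψ fun i => h (v i)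
        simp only [mem_ofPred_eq, Equiv.symm_apply_apply] at h3
        exact h3.symm
      · rintro ⟨⟨k', φ⟩, hφ⟩
        obtain ⟨rfl, hR⟩ := Sigma.mk.inj_iff.mp hφ
        have hR := eq_of_heq hR
        have h1 : Df B t' {v : Fin k' → ℕ | @Formula.Realize L ℕ B.toStructure _ φ (Sum.elim v t')} :=
          ⟨φ, fun v => Iff.rfl⟩
        have h2 := (hs _ _).mp h1
        simp only [mem_ofPred_eq] at h2
        have h3 : Df B₀ t R := by rw [← hR]; exact h2
        obtain ⟨ψ, hψ⟩ := h3
        refine ⟨⟨k', ψ⟩, ?_⟩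
        simp only [a]
        congr 1
        ext v
        exact (hψ v).symm
    obtain ⟨π, hπ⟩ := exists_fib_equiv a b hr
    -- the bijection preserves satisfaction
    have hsat : ∀ (x : Fm L T) (n : ℕ) (l : List ℕ),
        Sat B t' (π (x, n)).1 (l.map h) ↔ Sat B₀ t x l := by
      intro x n l
      have h1 := hπ (x, n)
      generalize (π (x, n)).1 = y at h1
      obtain ⟨k, φ⟩ := x
      obtain ⟨k', ψ⟩ := y
      obtain ⟨rfl, h2⟩ := Sigma.mk.inj_iff.mp h1
      have h2 := eq_of_heq h2
      constructor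
      · rintro ⟨v, hv, hr⟩
        have hlen : l.length = k' := by
          have := congrArg List.length hv
          simpa using this
        obtain ⟨w, rfl⟩ : ∃ w : Fin k' → ℕ, l = List.ofFn w := by
          subst hlen
          exact ⟨l.get, (List.ofFn_get l).symm⟩
        have hvw : v = fun i => h (w i) := by
          rw [List.map_ofFn] at hv
          exact (List.ofFn_injective hv).symm
        refine ⟨w, rfl, ?_⟩
        have h3 := Set.ext_iff.mp h2 w
        simp only [mem_ofPred_eq] at h3
        rw [hvw] at hr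
        exact h3.mp hr
      · rintro ⟨w, rfl, hr⟩
        refine ⟨fun i => h (w i), by rw [List.map_ofFn]; rfl, ?_⟩
        have h3 := Set.ext_iff.mp h2 w
        simp only [mem_ofPred_eq] at h3
        exact h3.mpr hr
    refine ⟨Equiv.sumCongr h π, fun z => ?_, fun l => ?_⟩
    · rcases z with z | z
      · rfl
      · have h1 := congrArg Sigma.fst (hπ z)
        simp only [Equiv.sumCongr_apply, Sum.map_inr, srt]
        exact congrArg some h1
    · rw [Bool.eq_iff_iff]
      have e1 : ∀ a : List ℕ, (a.map Sum.inl).map (Equiv.sumCongr h π) =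
          ((a.map h).map Sum.inl : List (ℕ ⊕ (Fm L T × ℕ))) := by
        intro a
        rw [List.map_map, List.map_map]
        rfl
      constructor
      · intro hy
        rw [yB_true_iff] at hy
        obtain ⟨x, n, a, hl, hs'⟩ := hy
        -- pull back
        have hl' : l = (Sum.inr (x, n) :: a.map Sum.inl).map (Equiv.sumCongr h π).symm := by
          have e0 : (Equiv.sumCongr h π).symm ∘ (Equiv.sumCongr h π) = id := by
            funext z
            exact Equiv.symm_apply_apply _ z
          rw [← hl, List.map_map, e0, List.map_id]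
        have e2 : (Equiv.sumCongr h π).symm (Sum.inr (x, n)) = Sum.inr (π.symm (x, n)) := rfl
        have e3 : (a.map Sum.inl).map (Equiv.sumCongr h π).symm =
            ((a.map h.symm).map Sum.inl : List (ℕ ⊕ (Fm L T × ℕ))) := by
          rw [List.map_map, List.map_map]
          rfl
        rw [List.map_cons, e2, e3] at hl'
        rw [hl']
        obtain ⟨x', n', hx⟩ : ∃ x' n', π.symm (x, n) = (x', n') := ⟨_, _, rfl⟩
        rw [hx, yB_iff, ← hsat x' n', ← hx, Equiv.apply_symm_apply, List.map_map]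
        have e4 : (⇑h ∘ ⇑h.symm) = id := by
          funext z
          exact h.apply_symm_apply z
        rw [e4, List.map_id]
        exact hs'
      · intro hy
        rw [yB_true_iff] at hy
        obtain ⟨x, n, a, rfl, hs'⟩ := hy
        rw [List.map_cons, e1]
        have e2 : (Equiv.sumCongr h π) (Sum.inr (x, n)) = Sum.inr (π (x, n)) := rfl
        rw [e2]
        have := (hsat x n a).mpr hs'
        obtain ⟨x', n', hx⟩ : ∃ x' n', π (x, n) = (x', n') := ⟨_, _, rfl⟩
        rw [hx] at this ⊢
        rw [yB_iff]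
        exact this
  · rintro ⟨g, hg1, hg2⟩
    -- the restrictions of g
    have hinl : ∀ z : ℕ, ∃ z', g (Sum.inl z) = Sum.inl z' := by
      intro z
      have h1 := hg1 (Sum.inl z)
      rcases h2 : g (Sum.inl z) with z' | z'
      · exact ⟨z', rfl⟩
      · rw [h2] at h1
        simp [srt] at h1
    have hinl' : ∀ z : ℕ, ∃ z', g.symm (Sum.inl z) = Sum.inl z' := by
      intro z
      have h1 := hg1 (g.symm (Sum.inl z))
      rw [Equiv.apply_symm_apply] at h1
      rcases h2 : g.symm (Sum.inl z) with z' | z'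
      · exact ⟨z', rfl⟩
      · rw [h2] at h1
        simp [srt] at h1
    have hinr : ∀ (k : ℕ) (φ : L.Formula (Fin k ⊕ T)) (n : ℕ), ∃ (ψ : L.Formula (Fin k ⊕ T)) (m : ℕ),
        g (Sum.inr (⟨k, φ⟩, n)) = Sum.inr (⟨k, ψ⟩, m) := by
      intro k φ n
      have h1 := hg1 (Sum.inr (⟨k, φ⟩, n))
      rcases h2 : g (Sum.inr (⟨k, φ⟩, n)) with z' | ⟨⟨k', ψ⟩, m⟩
      · rw [h2] at h1
        simp [srt] at h1
      · rw [h2] at h1
        simp only [srt, Option.some.injEq] at h1
        subst h1
        exact ⟨ψ, m, rfl⟩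
    have hinr' : ∀ (k : ℕ) (φ : L.Formula (Fin k ⊕ T)) (n : ℕ), ∃ (ψ : L.Formula (Fin k ⊕ T)) (m : ℕ),
        g.symm (Sum.inr (⟨k, φ⟩, n)) = Sum.inr (⟨k, ψ⟩, m) := by
      intro k φ n
      have h1 := hg1 (g.symm (Sum.inr (⟨k, φ⟩, n)))
      rw [Equiv.apply_symm_apply] at h1
      rcases h2 : g.symm (Sum.inr (⟨k, φ⟩, n)) with z' | ⟨⟨k', ψ⟩, m⟩
      · rw [h2] at h1
        simp [srt] at h1
      · rw [h2] at h1
        simp only [srt, Option.some.injEq] at h1
        subst h1
        exact ⟨ψ, m, rfl⟩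
    choose u hu using hinl
    choose u' hu' using hinl'
    let h : Equiv.Perm ℕ := ⟨u, u', fun z => by
      have h1 := hu' (u z)
      rw [← hu, Equiv.symm_apply_apply] at h1
      exact (Sum.inl_injective h1).symm, fun z => by
      have h1 := hu (u' z)
      rw [← hu', Equiv.apply_symm_apply] at h1
      exact (Sum.inl_injective h1).symm⟩
    have hh : ∀ z, g (Sum.inl z) = Sum.inl (h z) := hu
    have hmap : ∀ a : List ℕ, (a.map Sum.inl).map g =
        ((a.map h).map Sum.inl : List (ℕ ⊕ (Fm L T × ℕ))) := by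
      intro a
      rw [List.map_map, List.map_map]
      congr 1
      funext z
      exact hh z
    have key : ∀ (k : ℕ) (φ ψ : L.Formula (Fin k ⊕ T)) (n m : ℕ),
        g (Sum.inr (⟨k, φ⟩, n)) = Sum.inr (⟨k, ψ⟩, m) → ∀ v : Fin k → ℕ,
        (@Formula.Realize L ℕ B₀.toStructure _ φ (Sum.elim v t) ↔
          @Formula.Realize L ℕ B.toStructure _ ψ (Sum.elim (fun i => h (v i)) t')) := by
      intro k φ ψ n m hgφ v
      have h1 := hg2 (Sum.inr (⟨k, φ⟩, n) :: (List.ofFn v).map Sum.inl)
      rw [List.map_cons, hmap, hgφ, Bool.eq_iff_iff, yB_iff, yB_iff, sat_iff, List.map_ofFn] at h1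
      rw [← h1]
      exact sat_iff B t' ψ (fun i => h (v i))
    refine ⟨h, fun k R => ⟨?_, ?_⟩⟩
    · rintro ⟨ψ, hψ⟩
      obtain ⟨φ, n, hφ⟩ := hinr' k ψ 0
      have h1 : g (Sum.inr (⟨k, φ⟩, n)) = Sum.inr (⟨k, ψ⟩, 0) := by
        rw [← hφ, Equiv.apply_symm_apply]
      refine ⟨φ, fun v => ?_⟩
      rw [key k φ ψ n 0 h1 v, mem_ofPred_eq, hψ]
    · rintro ⟨φ, hφ⟩
      obtain ⟨ψ, m, hψ⟩ := hinr k φ 0
      refine ⟨ψ, fun v => ?_⟩
      have h1 := hφ fun i => h.symm (v i)
      have h2 := key k φ ψ 0 m hψ fun i => h.symm (v i)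
      simp only [mem_ofPred_eq, Equiv.apply_symm_apply] at h1 h2
      rw [h1, h2]

/-- the set of the structures with the same definable sets as a given one is Borel -/
theorem measurableSet_same [Countable L.Symbols] {T : Type} [Countable T] (B₀ : Str L) (t t' : T → ℕ) :
    MeasurableSet {B : Str L | ∃ h : Equiv.Perm ℕ, Same B₀ t B t' h} := by
  classical
  obtain ⟨e⟩ : Nonempty ((ℕ ⊕ (Fm L T × ℕ)) ≃ ℕ) := nonempty_equiv_of_countable
  let Y : Str L → (List ℕ → Bool) := fun B l => yB B t' (l.map e.symm)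
  have hY : Measurable Y := by
    rw [measurable_pi_iff]
    intro l
    have h1 : ∀ l' : List (ℕ ⊕ (Fm L T × ℕ)), MeasurableSet {B : Str L | yB B t' l' = true} := by
      intro l'
      have : {B : Str L | yB B t' l' = true} = ⋃ (x : Fm L T), ⋃ (n : ℕ), ⋃ (v : Fin x.1 → ℕ),
          ⋃ (_ : l' = Sum.inr (x, n) :: (List.ofFn v).map Sum.inl),
          {B : Str L | @Formula.Realize L ℕ B.toStructure _ x.2 (Sum.elim v t')} := by
        ext B
        simp only [mem_ofPred_eq, mem_iUnion, yB, decide_eq_true_iff, Sat]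
        constructor
        · rintro ⟨x, n, a, h, v, rfl, hv⟩
          exact ⟨x, n, v, h, hv⟩
        · rintro ⟨x, n, v, h, hv⟩
          exact ⟨x, n, _, h, v, rfl, hv⟩
      rw [this]
      exact MeasurableSet.iUnion fun x => MeasurableSet.iUnion fun n => MeasurableSet.iUnion fun v =>
        MeasurableSet.iUnion fun _ => measurableSet_realize _ _ _
    exact measurable_to_bool (h1 _)
  let Y' : List ℕ → Bool := fun l => yB B₀ t (l.map e.symm)
  have hset : {B : Str L | ∃ h : Equiv.Perm ℕ, Same B₀ t B t' h} =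
      Y ⁻¹' {y : List ℕ → Bool | ∃ g : Equiv.Perm ℕ,
        (∀ z, (fun i => srt (e.symm i)) (g z) = (fun i => srt (e.symm i)) z) ∧
        ∀ l, y (l.map g) = Y' l} := by
    ext B
    rw [mem_ofPred_eq, same_iff, mem_preimage, mem_ofPred_eq]
    constructor
    · rintro ⟨g, hg1, hg2⟩
      refine ⟨e.symm.trans (g.trans e), fun z => ?_, fun l => ?_⟩
      · simp only [Equiv.trans_apply, Equiv.symm_apply_apply]
        exact hg1 _
      · simp only [Y, Y']
        rw [← hg2, List.map_map, List.map_map]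
        congr 2
        funext z
        simp only [Function.comp_apply, Equiv.trans_apply, Equiv.symm_apply_apply]
    · rintro ⟨g, hg1, hg2⟩
      refine ⟨e.trans (g.trans e.symm), fun z => ?_, fun l => ?_⟩
      · have := hg1 (e z)
        simp only [Equiv.symm_apply_apply] at this
        exact this
      · have h1 := hg2 (l.map e)
        simp only [Y, Y', List.map_map] at h1
        have e1 : (⇑e.symm ∘ ⇑e) = id := by
          funext z
          exact e.symm_apply_apply z
        rw [e1, List.map_id] at h1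
        rw [← h1]
        congr 1
  rw [hset]
  exact hY (Orb.orbit_borel (fun i => srt (e.symm i)) Y')

end sat

end Pool.Agent.V11255.BI
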