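import Mathlib
import Pool.Agent.V11255.BI6

set_option autoImplicit false
set_option linter.style.haveILetI false

open Set MeasureTheory FirstOrder FirstOrder.Language Topology

namespace Pool.Agent.V11255.BI

variable {L : FirstOrder.Language.{0, 0}} [L.IsRelational]

/-- enlarging the parameters of an interpretation -/
def Interp.mono {A B : Str L} {ι ι' : Type} {p : ι → ℕ} {p' : ι' → ℕ} (I : Interp A p B)
    (hp : ∀ i, ∃ j, p' j = p i) : Interp A p' B where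
  n := I.n
  D := I.D
  f := I.f
  surj := I.surj
  defD := I.defD.mono hp
  defEq := I.defEq.mono hp
  defRel := fun k r => (I.defRel k r).mono hp

theorem BiInt.mono {A B : Str L} {ι ι' κ κ' : Type} {p : ι → ℕ} {p' : ι' → ℕ} {q : κ → ℕ}
    {q' : κ' → ℕ} (h : BiInt A p B q) (hp : ∀ i, ∃ j, p' j = p i) (hq : ∀ i, ∃ j, q' j = q i) :
    BiInt A p' B q' := by
  obtain ⟨I, J, h1, h2⟩ := h
  exact ⟨I.mono hp, J.mono hq, h1.mono hp, h2.mono hq⟩

theorem Same.mono {B₀ B : Str L} {T T' S S' : Type} {t : T → ℕ} {t' : T' → ℕ} {s : S → ℕ}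
    {s' : S' → ℕ} {h : Equiv.Perm ℕ} (hs : Same B₀ t B t' h) (h1 : ∀ i, ∃ j, s j = t i)
    (h2 : ∀ i, ∃ j, t j = s i) (h3 : ∀ i, ∃ j, s' j = t' i) (h4 : ∀ i, ∃ j, t' j = s' i) :
    Same B₀ s B s' h := by
  intro k R
  constructor
  · intro hR
    exact ((hs k R).mp (hR.mono h4)).mono h1
  · intro hR
    exact ((hs k R).mpr (hR.mono h2)).mono h3

theorem countable_df [Countable L.Symbols] (A : Str L) {ι α : Type} [Countable ι] [Countable α]
    (p : ι → ℕ) : {S : Set (α → ℕ) | Df A p S}.Countable := by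
  have : {S : Set (α → ℕ) | Df A p S} ⊆ range fun φ : L.Formula (α ⊕ ι) =>
      {v | @Formula.Realize L ℕ A.toStructure _ φ (Sum.elim v p)} := by
    rintro S ⟨φ, hφ⟩
    exact ⟨φ, by ext v; exact (hφ v).symm⟩
  exact (countable_range _).mono this

theorem countable_code [Countable L.Symbols] (A : Str L) {ι : Type} [Countable ι] (p : ι → ℕ) :
    {c : Σ n : ℕ, Set (Fin n → ℕ) × Set (Fin 2 × Fin n → ℕ) | Df A p c.2.1 ∧ Df A p c.2.2}.Countable := by
  have : {c : Σ n : ℕ, Set (Fin n → ℕ) × Set (Fin 2 × Fin n → ℕ) | Df A p c.2.1 ∧ Df A p c.2.2} =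
      ⋃ n : ℕ, Sigma.mk n '' ({S | Df A p S} ×ˢ {S | Df A p S}) := by
    ext ⟨n, D, K⟩
    simp only [mem_ofPred_eq, mem_iUnion]
    constructor
    · rintro ⟨h1, h2⟩
      exact ⟨n, (D, K), ⟨h1, h2⟩, rfl⟩
    · rintro ⟨m, ⟨D', K'⟩, ⟨h1, h2⟩, h⟩
      cases h
      exact ⟨h1, h2⟩
  rw [this]
  exact countable_iUnion fun n => ((countable_df A p).prod (countable_df A p)).image _

theorem code_mem {A B : Str L} {ι : Type} {p : ι → ℕ} (I : Interp A p B) :
    I.code ∈ {c : Σ n : ℕ, Set (Fin n → ℕ) × Set (Fin 2 × Fin n → ℕ) |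
      Df A p c.2.1 ∧ Df A p c.2.2} := ⟨I.defD, I.defEq⟩

/-- structures bi-interpretable with `A` through an interpretation with a given code -/
def Cls (A : Str L) {ι : Type} (p : ι → ℕ) (l : ℕ)
    (c : Σ n : ℕ, Set (Fin n → ℕ) × Set (Fin 2 × Fin n → ℕ)) (B : Str L) (q : Fin l → ℕ) : Prop :=
  ∃ (I : Interp A p B) (J : Interp B q A), Df A p (compGraph I J) ∧ Df B q (compGraph J I) ∧
    I.code = c

theorem biInt_iff_cls {A B : Str L} {ι : Type} {p : ι → ℕ} {l : ℕ} {q : Fin l → ℕ} :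
    BiInt A p B q ↔ ∃ c ∈ {c : Σ n : ℕ, Set (Fin n → ℕ) × Set (Fin 2 × Fin n → ℕ) |
      Df A p c.2.1 ∧ Df A p c.2.2}, Cls A p l c B q := by
  constructor
  · rintro ⟨I, J, h1, h2⟩
    exact ⟨I.code, code_mem I, I, J, h1, h2, rfl⟩
  · rintro ⟨c, -, I, J, h1, h2, -⟩
    exact ⟨I, J, h1, h2⟩

/-- the classes of `E_bi` are Borel -/
theorem class_borel [Countable L.Symbols] (A : Str L) : MeasurableSet {B : Str L | Ebi A B} := by
  classical
  let p₀ : Fin 0 → ℕ := fun i => i.elim0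
  let C := {c : Σ n : ℕ, Set (Fin n → ℕ) × Set (Fin 2 × Fin n → ℕ) | Df A p₀ c.2.1 ∧ Df A p₀ c.2.2}
  have hC : C.Countable := countable_code A p₀
  have key : {B : Str L | Ebi A B} = ⋃ c ∈ C, ⋃ (h : ∃ B₀, Cls A p₀ 0 c B₀ p₀),
      {B : Str L | ∃ g : Equiv.Perm ℕ, Same h.choose p₀ B p₀ g} := by
    ext B
    simp only [mem_iUnion, mem_ofPred_eq, exists_prop]
    constructor
    · intro hB
      obtain ⟨c, hc, hcls⟩ := biInt_iff_cls.mp hB
      have hex : ∃ B₀, Cls A p₀ 0 c B₀ p₀ := ⟨B, hcls⟩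
      refine ⟨c, hc, hex, ?_⟩
      obtain ⟨I₀, J₀, h1, h2, h3⟩ := hex.choose_spec
      obtain ⟨I, J, h4, h5, h6⟩ := hcls
      obtain ⟨t, t', g, -, hs⟩ := same_of_code h5 h2 (h6.trans h3.symm)
      refine ⟨g, hs.mono ?_ (fun i => i.elim0) ?_ (fun i => i.elim0)⟩
      · rintro ((x | x) | (x | x))
        · exact x.elim0
        · exact x.1.elim0
        · exact x.elim0
        · exact x.1.elim0
      · rintro ((x | x) | (x | x))
        · exact x.elim0
        · exact x.1.elim0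
        · exact x.elim0
        · exact x.1.elim0
    · rintro ⟨c, hc, hex, g, hs⟩
      have hb : BiInt A p₀ hex.choose p₀ := biInt_iff_cls.mpr ⟨c, hc, hex.choose_spec⟩
      obtain ⟨n, u, hu⟩ := biInt_of_same hb (fun i => i.elim0) hs
      refine hu.mono ?_ (fun i => i.elim0)
      rintro (x | x)
      · exact x.elim0
      · exact x.1.elim0
  rw [key]
  exact MeasurableSet.biUnion hC fun c _ => MeasurableSet.iUnion fun h =>
    measurableSet_same _ _ _

/-- the classes of `E_bi^par` are Borel -/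
theorem class_borel_par [Countable L.Symbols] (A : Str L) :
    MeasurableSet {B : Str L | EbiPar A B} := by
  classical
  have key : {B : Str L | EbiPar A B} = ⋃ (k : ℕ), ⋃ (p : Fin k → ℕ), ⋃ (l : ℕ),
      ⋃ c ∈ {c : Σ n : ℕ, Set (Fin n → ℕ) × Set (Fin 2 × Fin n → ℕ) |
        Df A p c.2.1 ∧ Df A p c.2.2}, ⋃ (h : ∃ B₀ : Str L × (Fin l → ℕ), Cls A p l c B₀.1 B₀.2),
      ⋃ (N : ℕ), ⋃ (t : Fin N → ℕ), ⋃ (t' : Fin N → ℕ), ⋃ (_ : ∀ i, ∃ j, t j = h.choose.2 i),
      {B : Str L | ∃ g : Equiv.Perm ℕ, Same h.choose.1 t B t' g} := by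
    ext B
    simp only [mem_iUnion, mem_ofPred_eq, exists_prop]
    constructor
    · rintro ⟨k, p, l, q, hB⟩
      obtain ⟨c, hc, hcls⟩ := biInt_iff_cls.mp hB
      have hex : ∃ B₀ : Str L × (Fin l → ℕ), Cls A p l c B₀.1 B₀.2 := ⟨(B, q), hcls⟩
      refine ⟨k, p, l, c, hc, hex, ?_⟩
      obtain ⟨I₀, J₀, h1, h2, h3⟩ := hex.choose_spec
      obtain ⟨I, J, h4, h5, h6⟩ := hcls
      obtain ⟨t, t', g, ht, hs⟩ := same_of_code h5 h2 (h6.trans h3.symm)
      obtain ⟨N, ⟨e⟩⟩ := Finite.exists_equiv_fin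
        ((Fin l ⊕ Fin k × Fin J₀.n) ⊕ (Fin l ⊕ Fin k × Fin J.n))
      refine ⟨N, fun i => t (e.symm i), fun i => t' (e.symm i), fun i => ?_, g, ?_⟩
      · exact ⟨e (Sum.inl (Sum.inl i)), (congrArg t (e.symm_apply_apply _)).trans (ht i)⟩
      · exact hs.mono (fun i => ⟨e i, by rw [Equiv.symm_apply_apply]⟩) (fun i => ⟨e.symm i, rfl⟩)
          (fun i => ⟨e i, by rw [Equiv.symm_apply_apply]⟩) (fun i => ⟨e.symm i, rfl⟩)
    · rintro ⟨k, p, l, c, hc, hex, N, t, t', ht, g, hs⟩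
      have hb : BiInt A p hex.choose.1 hex.choose.2 := biInt_iff_cls.mpr ⟨c, hc, hex.choose_spec⟩
      obtain ⟨n, u, hu⟩ := biInt_of_same hb ht hs
      obtain ⟨M, ⟨e⟩⟩ := Finite.exists_equiv_fin (Fin k ⊕ Fin N × Fin n)
      refine ⟨M, fun i => (Sum.elim p fun z : Fin N × Fin n => u z.1 z.2) (e.symm i), N, t', ?_⟩
      exact hu.mono (fun i => ⟨e i, by rw [Equiv.symm_apply_apply]⟩) fun i => ⟨i, rfl⟩
  rw [key]
  exact MeasurableSet.iUnion fun k => MeasurableSet.iUnion fun p => MeasurableSet.iUnion fun l =>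
    MeasurableSet.biUnion (countable_code A p) fun c _ => MeasurableSet.iUnion fun h =>
    MeasurableSet.iUnion fun N => MeasurableSet.iUnion fun t => MeasurableSet.iUnion fun t' =>
    MeasurableSet.iUnion fun _ => measurableSet_same _ _ _

end Pool.Agent.V11255.BI
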