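import Mathlib

set_option autoImplicit false
set_option linter.style.haveILetI false
set_option linter.unusedSectionVars false

open Set

namespace Pool.Agent.V11255.BI.LO

/-- finitely supported functions, ordered lexicographically -/
abbrev M (U : Type) : Type := Lex (U →₀ ℕ)

theorem lt_iff' {U : Type} [LinearOrder U] {a b : M U} :
    a < b ↔ ∃ i, (∀ j, j < i → ofLex a j = ofLex b j) ∧ ofLex a i < ofLex b i :=
  Finsupp.Lex.lt_iff

section sumprod

variable {U V : Type} [LinearOrder U] [LinearOrder V]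

/-- the sum of two orders gives the lexicographic product -/
noncomputable def sumIso : M (U ⊕ₗ V) ≃o M U ×ₗ M V := by
  let f : M (U ⊕ₗ V) → M U ×ₗ M V := fun a =>
    toLex (toLex (Finsupp.comapDomain (fun u => toLex (Sum.inl u)) (ofLex a)
      (fun x _ y _ h => Sum.inl_injective (toLex.injective h))),
      toLex (Finsupp.comapDomain (fun v => toLex (Sum.inr v)) (ofLex a)
      (fun x _ y _ h => Sum.inr_injective (toLex.injective h))))
  have f1 : ∀ a u, ofLex (ofLex (f a)).1 u = ofLex a (toLex (Sum.inl u)) := fun a u => rfl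
  have f2 : ∀ a v, ofLex (ofLex (f a)).2 v = ofLex a (toLex (Sum.inr v)) := fun a v => rfl
  have hmono : StrictMono f := by
    intro a b hab
    rw [Prod.Lex.lt_iff]
    obtain ⟨i, h1, h2⟩ := lt_iff'.mp hab
    obtain ⟨i, rfl⟩ := toLex.surjective i
    rcases i with u | v
    · left
      rw [lt_iff']
      refine ⟨u, fun j hj => ?_, ?_⟩
      · rw [f1, f1]
        exact h1 _ (Sum.Lex.inl_lt_inl_iff.mpr hj)
      · rw [f1, f1]
        exact h2
    · right
      constructor
      · apply ofLex.injective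
        ext u
        rw [f1, f1]
        exact h1 _ (Sum.Lex.inl_lt_inr _ _)
      · rw [lt_iff']
        refine ⟨v, fun j hj => ?_, ?_⟩
        · rw [f2, f2]
          exact h1 _ (Sum.Lex.inr_lt_inr_iff.mpr hj)
        · rw [f2, f2]
          exact h2
  have hsurj : Function.Surjective f := by
    intro c
    obtain ⟨x, y⟩ := c
    let a : (U ⊕ₗ V) →₀ ℕ := Finsupp.sumFinsuppEquivProdFinsupp.symm (ofLex x, ofLex y)
    refine ⟨toLex a, ?_⟩
    apply ofLex.injective
    apply Prod.ext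
    · apply ofLex.injective
      ext u
      rw [f1]
      exact Finsupp.sumFinsuppEquivProdFinsupp_symm_inl (ofLex x, ofLex y) u
    · apply ofLex.injective
      ext v
      rw [f2]
      exact Finsupp.sumFinsuppEquivProdFinsupp_symm_inr (ofLex x, ofLex y) v
  exact hmono.orderIsoOfSurjective f hsurj

/-- functoriality -/
noncomputable def mapIso (e : U ≃o V) : M U ≃o M V := by
  let f : M U → M V := fun a => toLex (Finsupp.equivMapDomain e.toEquiv (ofLex a))
  have f1 : ∀ a v, ofLex (f a) v = ofLex a (e.symm v) := fun a v => rfl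
  have hmono : StrictMono f := by
    intro a b hab
    obtain ⟨i, h1, h2⟩ := lt_iff'.mp hab
    rw [lt_iff']
    refine ⟨e i, fun j hj => ?_, ?_⟩
    · rw [f1, f1]
      exact h1 _ (by rwa [e.symm_apply_lt])
    · rw [f1, f1, e.symm_apply_apply]
      exact h2
  have hsurj : Function.Surjective f := by
    intro c
    refine ⟨toLex (Finsupp.equivMapDomain e.symm.toEquiv (ofLex c)), ?_⟩
    apply ofLex.injective
    ext v
    rw [f1]
    exact congrArg (fun z => (ofLex c : V →₀ ℕ) z) (e.apply_symm_apply v)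
  exact hmono.orderIsoOfSurjective f hsurj

end sumprod

theorem mapIso_apply {U V : Type} [LinearOrder U] [LinearOrder V] (e : U ≃o V) (a : M U) (v : V) :
    ofLex (mapIso e a) v = ofLex a (e.symm v) := rfl

/-! ### automorphisms -/

/-- a map of `ℚ` fixing exactly the points up to `c` -/
noncomputable def stretch (c : ℚ) : ℚ ≃o ℚ := by
  let f : ℚ → ℚ := fun x => if x ≤ c then x else c + 2 * (x - c)
  have hmono : StrictMono f := by
    intro x y hxy
    simp only [f]
    split_ifs <;> linarith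
  have hsurj : Function.Surjective f := by
    intro y
    by_cases hy : y ≤ c
    · exact ⟨y, if_pos hy⟩
    · refine ⟨c + (y - c) / 2, ?_⟩
      simp only [f]
      rw [if_neg (by linarith)]
      ring
  exact hmono.orderIsoOfSurjective f hsurj

theorem stretch_of_le {c x : ℚ} (h : x ≤ c) : stretch c x = x := by
  change (if x ≤ c then x else c + 2 * (x - c)) = x
  exact if_pos h

theorem stretch_of_gt {c x : ℚ} (h : c < x) : stretch c x = c + 2 * (x - c) := by
  change (if x ≤ c then x else c + 2 * (x - c)) = _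
  exact if_neg (not_le.mpr h)

theorem stretch_symm_of_le {c x : ℚ} (h : x ≤ c) : (stretch c).symm x = x := by
  rw [OrderIso.symm_apply_eq, stretch_of_le h]

theorem stretch_symm_of_gt {c x : ℚ} (h : c < x) : c < (stretch c).symm x := by
  rw [OrderIso.lt_symm_apply, stretch_of_le le_rfl]
  exact h

theorem exists_auto {K : Type} [LinearOrder K] {l : ℕ} (q : Fin l → M (ℚ ⊕ₗ K)) :
    ∃ g : M (ℚ ⊕ₗ K) ≃o M (ℚ ⊕ₗ K), (∀ i, g (q i) = q i) ∧ ∃ b, g b ≠ b := by
  classical
  -- the rationals which occur in the supports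
  let F : Finset (ℚ ⊕ₗ K) := Finset.univ.biUnion fun i => (ofLex (q i)).support
  let F' : Finset ℚ := F.image fun z => Sum.elim id (fun _ => 0) (ofLex z)
  obtain ⟨c, hc⟩ := F'.bddAbove
  have hc' : ∀ i (x : ℚ), c < x → ofLex (q i) (toLex (Sum.inl x)) = 0 := by
    intro i x hx
    by_contra hne
    have h1 : toLex (Sum.inl x) ∈ F := by
      rw [Finset.mem_biUnion]
      exact ⟨i, Finset.mem_univ i, Finsupp.mem_support_iff.mpr hne⟩
    have h2 : x ∈ F' := Finset.mem_image.mpr ⟨_, h1, rfl⟩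
    exact absurd (hc h2) (not_le.mpr hx)
  let e : (ℚ ⊕ₗ K) ≃o (ℚ ⊕ₗ K) := OrderIso.sumLexCongr (stretch c) (OrderIso.refl K)
  have e1 : ∀ x : ℚ, e.symm (toLex (Sum.inl x)) = toLex (Sum.inl ((stretch c).symm x)) := fun x => rfl
  have e2 : ∀ k : K, e.symm (toLex (Sum.inr k)) = toLex (Sum.inr k) := fun k => rfl
  refine ⟨mapIso e, fun i => ?_, toLex (Finsupp.single (toLex (Sum.inl (c + 1))) 1), ?_⟩
  · apply ofLex.injective
    ext v
    rw [mapIso_apply]
    obtain ⟨v, rfl⟩ := toLex.surjective v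
    rcases v with x | k
    · rw [e1]
      rcases le_or_gt x c with hx | hx
      · rw [stretch_symm_of_le hx]
      · rw [hc' i x hx, hc' i _ (stretch_symm_of_gt hx)]
    · rw [e2]
  · intro h
    have h1 := congrArg (fun a : M (ℚ ⊕ₗ K) => ofLex a (toLex (Sum.inl (c + 2)))) h
    simp only [mapIso_apply, e1] at h1
    have h2 : (stretch c).symm (c + 2) = c + 1 := by
      rw [OrderIso.symm_apply_eq, stretch_of_gt (by linarith)]
      ring
    rw [h2] at h1
    have h3 : toLex (Sum.inl (c + 1)) ≠ (toLex (Sum.inl (c + 2)) : ℚ ⊕ₗ K) := by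
      intro h4
      have := Sum.inl_injective (toLex.injective h4)
      linarith
    rw [ofLex_toLex, Finsupp.single_eq_same, Finsupp.single_eq_of_ne h3.symm] at h1
    exact one_ne_zero h1

/-! ### the dense case -/

section dense

variable {U : Type} [LinearOrder U]

theorem zero_lt_iff {a : M U} : (toLex 0 : M U) < a ↔ a ≠ toLex 0 := by
  constructor
  · intro h
    exact h.ne'
  · intro h
    rcases lt_trichotomy a (toLex 0) with h1 | h1 | h1
    · obtain ⟨i, -, h2⟩ := lt_iff'.mp h1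
      exact absurd h2 (Nat.not_lt_zero _)
    · exact absurd h1 h
    · exact h1

theorem exists_between' [NoMaxOrder U] {a b : M U} (hab : a < b) : ∃ c, a < c ∧ c < b := by
  obtain ⟨i, h1, h2⟩ := lt_iff'.mp hab
  obtain ⟨j, hj⟩ := exists_gt i
  refine ⟨toLex (ofLex a + Finsupp.single j 1), ?_, ?_⟩
  · rw [lt_iff']
    refine ⟨j, fun k hk => ?_, ?_⟩
    · simp [hk.ne]
    · simp
  · rw [lt_iff']
    refine ⟨i, fun k hk => ?_, ?_⟩
    · simp [(hk.trans hj).ne, h1 k hk]
    · simpa [hj.ne] using h2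

/-- positive elements -/
abbrev Pos (U : Type) [LinearOrder U] : Type := {a : M U // toLex 0 < a}

instance [NoMaxOrder U] : DenselyOrdered (Pos U) := ⟨fun a b hab => by
  obtain ⟨c, h1, h2⟩ := exists_between' (show a.1 < b.1 from hab)
  exact ⟨⟨c, a.2.trans h1⟩, h1, h2⟩⟩

instance [NoMaxOrder U] : NoMinOrder (Pos U) := ⟨fun a => by
  obtain ⟨c, h1, h2⟩ := exists_between' a.2
  exact ⟨⟨c, h1⟩, h2⟩⟩

instance [Nonempty U] : NoMaxOrder (Pos U) := ⟨fun a => by
  obtain ⟨i⟩ := ‹Nonempty U›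
  have h1 : a.1 < toLex (ofLex a.1 + Finsupp.single i 1) := by
    rw [lt_iff']
    refine ⟨i, fun k hk => ?_, ?_⟩
    · simp [hk.ne]
    · simp
  exact ⟨⟨_, a.2.trans h1⟩, h1⟩⟩

instance [Nonempty U] : Nonempty (Pos U) := by
  obtain ⟨i⟩ := ‹Nonempty U›
  refine ⟨⟨toLex (Finsupp.single i 1), ?_⟩⟩
  rw [lt_iff']
  refine ⟨i, fun k hk => ?_, ?_⟩
  · simp [hk.ne]
  · simp

instance [Countable U] : Countable (Pos U) := by
  have : Countable (U →₀ ℕ) := inferInstance
  have : Countable (M U) := this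
  infer_instance

theorem dense_iso {V : Type} [LinearOrder V] [NoMaxOrder U] [NoMaxOrder V] [Nonempty U] [Nonempty V]
    [Countable U] [Countable V] : Nonempty (M U ≃o M V) := by
  classical
  obtain ⟨e⟩ := Order.iso_of_countable_dense (Pos U) (Pos V)
  let f : M U → M V := fun a => if h : (toLex 0 : M U) < a then (e ⟨a, h⟩).1 else toLex 0
  have f1 : ∀ a (h : (toLex 0 : M U) < a), f a = (e ⟨a, h⟩).1 := fun a h => dif_pos h
  have f2 : f (toLex 0) = toLex 0 := dif_neg (lt_irrefl _)
  have hmono : StrictMono f := by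
    intro a b hab
    have hb : (toLex 0 : M U) < b := by
      rw [zero_lt_iff]
      rintro rfl
      obtain ⟨i, -, h2⟩ := lt_iff'.mp hab
      exact absurd h2 (Nat.not_lt_zero _)
    rw [f1 b hb]
    by_cases ha : (toLex 0 : M U) < a
    · rw [f1 a ha]
      exact e.strictMono (show (⟨a, ha⟩ : Pos U) < ⟨b, hb⟩ from hab)
    · have ha' : a = toLex 0 := by
        by_contra hne
        exact ha (zero_lt_iff.mpr hne)
      rw [ha', f2]
      exact (e ⟨b, hb⟩).2
  have hsurj : Function.Surjective f := by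
    intro c
    by_cases hc : (toLex 0 : M V) < c
    · refine ⟨(e.symm ⟨c, hc⟩).1, ?_⟩
      rw [f1 _ (e.symm ⟨c, hc⟩).2]
      have : e ⟨(e.symm ⟨c, hc⟩).1, (e.symm ⟨c, hc⟩).2⟩ = ⟨c, hc⟩ := e.apply_symm_apply _
      rw [this]
    · have hc' : c = toLex 0 := by
        by_contra hne
        exact hc (zero_lt_iff.mpr hne)
      exact ⟨toLex 0, by rw [f2, hc']⟩
  exact ⟨hmono.orderIsoOfSurjective f hsurj⟩

end dense

/-! ### decomposition along the well-founded part -/

section decomp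

variable {K : Type} [LinearOrder K]

/-- decomposition along an upper set -/
noncomputable def decomp (W : K → Prop) (hW : ∀ a b, W a → a ≤ b → W b) :
    K ≃o {k // ¬ W k} ⊕ₗ {k // W k} := by
  classical
  let f : {k // ¬ W k} ⊕ₗ {k // W k} → K := fun x => Sum.elim (fun a => a.1) (fun a => a.1) (ofLex x)
  have hmono : StrictMono f := by
    intro a b hab
    obtain ⟨a, rfl⟩ := toLex.surjective a
    obtain ⟨b, rfl⟩ := toLex.surjective b
    rcases a with a | a <;> rcases b with b | b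
    · have h : a < b := Sum.Lex.inl_lt_inl_iff.mp hab
      exact h
    · change a.1 < b.1
      by_contra h
      exact a.2 (hW _ _ b.2 (not_lt.mp h))
    · exact absurd hab Sum.Lex.not_inr_lt_inl
    · have h : a < b := Sum.Lex.inr_lt_inr_iff.mp hab
      exact h
  have hsurj : Function.Surjective f := by
    intro k
    by_cases hk : W k
    · exact ⟨toLex (Sum.inr ⟨k, hk⟩), rfl⟩
    · exact ⟨toLex (Sum.inl ⟨k, hk⟩), rfl⟩
  exact (hmono.orderIsoOfSurjective f hsurj).symm

/-- absorption: if `K` has an infinite increasing sequence, then adding `ℚ` in front does not change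
the order of finitely supported functions -/
theorem absorb [Countable K] (h : ¬ WellFoundedGT K) : Nonempty (M K ≃o M (ℚ ⊕ₗ K)) := by
  classical
  let W : K → Prop := fun k => Acc (· > ·) k
  have hW : ∀ a b, W a → a ≤ b → W b := by
    intro a b ha hab
    rcases hab.lt_or_eq with h1 | rfl
    · exact ha.inv h1
    · exact ha
  have hne : ∃ k, ¬ W k := by
    by_contra hcon
    push Not at hcon
    exact h ⟨⟨hcon⟩⟩
  have i1 : Nonempty {k // ¬ W k} := by
    obtain ⟨k, hk⟩ := hne
    exact ⟨⟨k, hk⟩⟩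
  have i2 : NoMaxOrder {k // ¬ W k} := ⟨fun a => by
    by_contra hcon
    push Not at hcon
    apply a.2
    refine ⟨_, fun b hb => ?_⟩
    by_contra hWb
    have := hcon ⟨b, hWb⟩
    exact absurd hb (not_lt.mpr this)⟩
  have i3 : NoMaxOrder (ℚ ⊕ₗ {k // ¬ W k}) := ⟨fun a => by
    obtain ⟨a, rfl⟩ := toLex.surjective a
    rcases a with a | a
    · exact ⟨toLex (Sum.inl (a + 1)), Sum.Lex.inl_lt_inl_iff.mpr (lt_add_one a)⟩
    · obtain ⟨b, hb⟩ := exists_gt a
      exact ⟨toLex (Sum.inr b), Sum.Lex.inr_lt_inr_iff.mpr hb⟩⟩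
  have i4 : Countable (ℚ ⊕ₗ {k // ¬ W k}) := by
    have : Countable (ℚ ⊕ {k // ¬ W k}) := inferInstance
    exact this
  have i5 : Nonempty (ℚ ⊕ₗ {k // ¬ W k}) := ⟨toLex (Sum.inl 0)⟩
  obtain ⟨e⟩ : Nonempty (M {k // ¬ W k} ≃o M (ℚ ⊕ₗ {k // ¬ W k})) := dense_iso
  let e1 : M K ≃o M ({k // ¬ W k} ⊕ₗ {k // W k}) := mapIso (decomp W hW)
  let e2 : M ({k // ¬ W k} ⊕ₗ {k // W k}) ≃o M {k // ¬ W k} ×ₗ M {k // W k} := sumIso
  let e3 : M {k // ¬ W k} ×ₗ M {k // W k} ≃o M (ℚ ⊕ₗ {k // ¬ W k}) ×ₗ M {k // W k} :=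
    Prod.Lex.prodLexCongr e (OrderIso.refl _)
  let e4 : M (ℚ ⊕ₗ {k // ¬ W k}) ×ₗ M {k // W k} ≃o M ((ℚ ⊕ₗ {k // ¬ W k}) ⊕ₗ {k // W k}) :=
    sumIso.symm
  let e5 : ((ℚ ⊕ₗ {k // ¬ W k}) ⊕ₗ {k // W k}) ≃o ℚ ⊕ₗ K :=
    (OrderIso.sumLexAssoc _ _ _).trans (OrderIso.sumLexCongr (OrderIso.refl _) (decomp W hW).symm)
  exact ⟨e1.trans (e2.trans (e3.trans (e4.trans (mapIso e5))))⟩

end decomp

end Pool.Agent.V11255.BI.LO
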