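import Mathlib
import Pool.Agent.V11255.BI7
import Pool.Agent.V11255.BI9
import Pool.Agent.V11255.BI10

set_option autoImplicit false
set_option linter.style.haveILetI false
set_option linter.unusedSectionVars false

open Set MeasureTheory FirstOrder FirstOrder.Language Topology
open Pool.Agent.Helper212.Sq (br Wu universal measurable_br)

namespace Pool.Agent.V11255.BI

variable {L : FirstOrder.Language.{0, 0}} [L.IsRelational]

/-! ### isomorphic structures -/

theorem ebi_of_iso {A B : Str L} (h : Equiv.Perm ℕ)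
    (hAB : ∀ (k : ℕ) (r : L.Relations k) (v : Fin k → ℕ), A ⟨k, r, v⟩ = B ⟨k, r, fun i => h (v i)⟩) :
    Ebi A B := by
  have hBA : ∀ (k : ℕ) (r : L.Relations k) (v : Fin k → ℕ),
      B ⟨k, r, v⟩ = A ⟨k, r, fun i => h.symm (v i)⟩ := by
    intro k r v
    rw [hAB]
    simp only [Equiv.apply_symm_apply]
  let I : Interp A (fun i : Fin 0 => i.elim0) B :=
    { n := 1
      D := univ
      f := fun u => h (u 0)
      surj := fun b => ⟨fun _ => h.symm b, mem_univ _, h.apply_symm_apply b⟩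
      defD := Df.univ
      defEq := by
        refine (Df.eq (A := A) (p := fun i : Fin 0 => i.elim0) ((0, 0) : Fin 2 × Fin 1) (1, 0)).congr
          fun w => ?_
        simp only [mem_ofPred_eq, mem_univ, implies_true, true_and, h.injective.eq_iff]
      defRel := fun k r => by
        refine (Df.rel (A := A) (p := fun i : Fin 0 => i.elim0) r
          fun i : Fin k => ((i, 0) : Fin k × Fin 1)).congr fun w => ?_
        simp only [mem_ofPred_eq, mem_univ, implies_true, true_and, ← hAB] }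
  let J : Interp B (fun i : Fin 0 => i.elim0) A :=
    { n := 1
      D := univ
      f := fun u => h.symm (u 0)
      surj := fun b => ⟨fun _ => h b, mem_univ _, h.symm_apply_apply b⟩
      defD := Df.univ
      defEq := by
        refine (Df.eq (A := B) (p := fun i : Fin 0 => i.elim0) ((0, 0) : Fin 2 × Fin 1) (1, 0)).congr
          fun w => ?_
        simp only [mem_ofPred_eq, mem_univ, implies_true, true_and, h.symm.injective.eq_iff]
      defRel := fun k r => by
        refine (Df.rel (A := B) (p := fun i : Fin 0 => i.elim0) r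
          fun i : Fin k => ((i, 0) : Fin k × Fin 1)).congr fun w => ?_
        simp only [mem_ofPred_eq, mem_univ, implies_true, true_and, ← hBA] }
  refine ⟨I, J, ?_, ?_⟩
  · refine (Df.eq (A := A) (p := fun i : Fin 0 => i.elim0)
      (Sum.inl (0, 0) : (Fin 1 × Fin 1) ⊕ Unit) (Sum.inr ())).congr fun w => ?_
    simp only [compGraph, mem_ofPred_eq, I, J, mem_univ, implies_true, true_and,
      Equiv.symm_apply_apply]
  · refine (Df.eq (A := B) (p := fun i : Fin 0 => i.elim0)
      (Sum.inl (0, 0) : (Fin 1 × Fin 1) ⊕ Unit) (Sum.inr ())).congr fun w => ?_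
    simp only [compGraph, mem_ofPred_eq, I, J, mem_univ, implies_true, true_and,
      Equiv.apply_symm_apply]

theorem Ebi.par {A B : Str L} (h : Ebi A B) : EbiPar A B := ⟨0, _, 0, _, h⟩

/-! ### automorphisms -/

/-- automorphisms of a structure -/
def IsAut (A : Str L) (g : Equiv.Perm ℕ) : Prop :=
  ∀ (k : ℕ) (r : L.Relations k) (v : Fin k → ℕ), A ⟨k, r, fun i => g (v i)⟩ = A ⟨k, r, v⟩

theorem Df.inv {A : Str L} {ι α : Type} {p : ι → ℕ} {S : Set (α → ℕ)} (h : Df A p S)
    {g : Equiv.Perm ℕ} (hg : IsAut A g) (hp : ∀ i, g (p i) = p i) (v : α → ℕ) :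
    (fun a => g (v a)) ∈ S ↔ v ∈ S := by
  letI := A.toStructure
  obtain ⟨φ, hφ⟩ := h
  let G : ℕ ≃[L] ℕ :=
    { toEquiv := g
      map_fun' := fun f _ => isEmptyElim f
      map_rel' := fun {n} r x => by
        change (A ⟨n, r, g ∘ x⟩ = true) ↔ (A ⟨n, r, x⟩ = true)
        have := hg n r x
        change A ⟨n, r, g ∘ x⟩ = A ⟨n, r, x⟩ at this
        rw [this] }
  rw [hφ, hφ]
  have h1 := StrongHomClass.realize_formula G φ (v := Sum.elim v p)
  have h2 : (⇑G ∘ Sum.elim v p) = Sum.elim (fun a => g (v a)) p := by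
    funext x
    rcases x with x | x
    · rfl
    · exact hp x
  rw [h2] at h1
  exact h1

/-- if `A` is rigid then `B` is rigid over the parameters -/
theorem aut_trivial {A B : Str L} {ι κ : Type} {p : ι → ℕ} {q : κ → ℕ} (hb : BiInt A p B q)
    (hA : ∀ g : Equiv.Perm ℕ, IsAut A g → ∀ a, g a = a) {σ : Equiv.Perm ℕ} (hσ : IsAut B σ)
    (hq : ∀ c, σ (q c) = q c) (b : ℕ) : σ b = b := by
  obtain ⟨I, J, -, hc⟩ := hb
  have hD : ∀ u : Fin J.n → ℕ, (fun j => σ (u j)) ∈ J.D ↔ u ∈ J.D := J.defD.inv hσ hq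
  have hD' : ∀ u : Fin J.n → ℕ, (fun j => σ.symm (u j)) ∈ J.D ↔ u ∈ J.D := by
    intro u
    rw [← hD]
    simp only [Equiv.apply_symm_apply]
  obtain ⟨g, hg⟩ : ∃ g : Equiv.Perm ℕ, ∀ u ∈ J.D, J.f (fun j => σ (u j)) = g (J.f u) := by
    refine exists_perm (D := J.D) (f := fun u => J.f fun j => σ (u j)) (f₀ := J.f) ?_ J.surj ?_
    · intro b
      obtain ⟨u, hu, hu'⟩ := J.surj b
      refine ⟨fun j => σ.symm (u j), (hD' u).mpr hu, ?_⟩
      simp only [Equiv.apply_symm_apply]
      exact hu'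
    · intro u hu v hv
      have h1 := J.defEq.inv hσ hq fun z => if z.1 = 0 then u z.2 else v z.2
      simp only [mem_ofPred_eq, Fin.isValue, if_true, one_ne_zero, if_false] at h1
      have h2 : ∀ i : Fin 2, (fun j => if i = 0 then u j else v j) ∈ J.D := by
        intro i
        split_ifs
        · exact hu
        · exact hv
      have h3 : ∀ i : Fin 2, (fun j => σ (if i = 0 then u j else v j)) ∈ J.D := fun i =>
        (hD _).mpr (h2 i)
      constructor
      · intro h4
        exact (h1.mp ⟨h3, h4⟩).2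
      · intro h4
        exact (h1.mpr ⟨h2, h4⟩).2
  have hgaut : IsAut A g := by
    intro k r v
    choose e he he' using fun i => J.surj (v i)
    have h1 := (J.defRel k r).inv hσ hq fun z => e z.1 z.2
    simp only [mem_ofPred_eq] at h1
    have h2 : ∀ i, (fun j => σ (e i j)) ∈ J.D := fun i => (hD _).mpr (he i)
    have e1 : (fun i => J.f fun j => σ (e i j)) = fun i => g (v i) := by
      funext i
      rw [hg _ (he i), he']
    have e2 : (fun i => J.f fun j => e i j) = v := by
      funext i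
      exact he' i
    rw [e1] at h1
    change _ ↔ ((∀ i, e i ∈ J.D) ∧ A ⟨k, r, fun i => J.f fun j => e i j⟩ = true) at h1
    rw [e2] at h1
    rw [Bool.eq_iff_iff]
    constructor
    · intro h3
      exact (h1.mp ⟨h2, h3⟩).2
    · intro h3
      exact (h1.mpr ⟨he, h3⟩).2
  have hgid := hA g hgaut
  obtain ⟨u, hu, rfl⟩ := I.surj b
  choose e he he' using fun i => J.surj (u i)
  have h1 := hc.inv hσ hq (Sum.elim (fun z => e z.1 z.2) fun _ => I.f u)
  have e2 : (fun i => J.f fun j => e i j) = u := by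
    funext i
    exact he' i
  have h2 : (Sum.elim (fun z : Fin I.n × Fin J.n => e z.1 z.2) fun _ => I.f u) ∈ compGraph J I := by
    refine ⟨fun i => he i, ?_, ?_⟩
    · change (fun i => J.f fun j => e i j) ∈ I.D
      rw [e2]
      exact hu
    · change I.f (fun i => J.f fun j => e i j) = I.f u
      rw [e2]
  have h3 := (h1.mpr h2).2.2
  change I.f (fun i => J.f fun j => σ (e i j)) = σ (I.f u) at h3
  have e3 : (fun i => J.f fun j => σ (e i j)) = u := by
    funext i
    rw [hg _ (he i), he', hgid]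
  rw [e3] at h3
  exact h3.symm

/-! ### structures coding orders -/

open Classical in
/-- the structure with a binary relation and all the other relations empty -/
noncomputable def ordStr (r₂ : L.Relations 2) (lt : ℕ → ℕ → Prop) : Str L :=
  fun z => decide (∃ a b : ℕ, z = ⟨2, r₂, ![a, b]⟩ ∧ lt a b)

open Classical in
theorem ordStr_iff (r₂ : L.Relations 2) (lt : ℕ → ℕ → Prop)
    (z : Σ n : ℕ, L.Relations n × (Fin n → ℕ)) :
    ordStr r₂ lt z = true ↔ ∃ a b : ℕ, z = ⟨2, r₂, ![a, b]⟩ ∧ lt a b := by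
  unfold ordStr
  exact decide_eq_true_iff

theorem ordStr_pair (r₂ : L.Relations 2) (lt : ℕ → ℕ → Prop) (a b : ℕ) :
    ordStr r₂ lt ⟨2, r₂, ![a, b]⟩ = true ↔ lt a b := by
  rw [ordStr_iff]
  constructor
  · rintro ⟨a', b', h, hlt⟩
    have h1 := (Prod.mk.inj (eq_of_heq (Sigma.mk.inj_iff.mp h).2)).2
    have h2 := congrFun h1 0
    have h3 := congrFun h1 1
    simp only [Matrix.cons_val_zero, Matrix.cons_val_one, Fin.isValue] at h2 h3
    rw [h2, h3]
    exact hlt
  · intro h
    exact ⟨a, b, rfl, h⟩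

theorem ordStr_map (r₂ : L.Relations 2) {lt lt' : ℕ → ℕ → Prop} (h : Equiv.Perm ℕ)
    (hlt : ∀ a b, lt a b ↔ lt' (h a) (h b)) (k : ℕ) (r : L.Relations k) (v : Fin k → ℕ) :
    ordStr r₂ lt ⟨k, r, v⟩ = ordStr r₂ lt' ⟨k, r, fun i => h (v i)⟩ := by
  rw [Bool.eq_iff_iff, ordStr_iff, ordStr_iff]
  constructor
  · rintro ⟨a, b, he, hab⟩
    obtain ⟨rfl, he⟩ := Sigma.mk.inj_iff.mp he
    obtain ⟨rfl, rfl⟩ := Prod.mk.inj (eq_of_heq he)
    refine ⟨h a, h b, ?_, (hlt a b).mp hab⟩
    congr 2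
    funext i
    fin_cases i <;> rfl
  · rintro ⟨a, b, he, hab⟩
    obtain ⟨rfl, he⟩ := Sigma.mk.inj_iff.mp he
    obtain ⟨hr, he2⟩ := Prod.mk.inj (eq_of_heq he)
    subst hr
    have h0 : h (v 0) = a := congrFun he2 0
    have h1 : h (v 1) = b := congrFun he2 1
    refine ⟨v 0, v 1, ?_, ?_⟩
    · congr 2
      funext i
      fin_cases i <;> rfl
    · rw [hlt, h0, h1]
      exact hab

theorem lt_of_isAut (r₂ : L.Relations 2) {lt : ℕ → ℕ → Prop} {g : Equiv.Perm ℕ}
    (hg : IsAut (ordStr r₂ lt) g) (a b : ℕ) : lt (g a) (g b) ↔ lt a b := by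
  have h1 := hg 2 r₂ ![a, b]
  have h2 : (fun i => g (![a, b] i)) = ![g a, g b] := by
    funext i
    fin_cases i <;> rfl
  rw [h2, Bool.eq_iff_iff, ordStr_pair, ordStr_pair] at h1
  exact h1

/-! ### the reduction -/

open LO KB

/-- an enumeration of the finitely supported functions on the nodes -/
noncomputable def eA : (List ℕ →₀ ℕ) ≃ ℕ := Classical.choice nonempty_equiv_of_countable

noncomputable def eB : ((ℚ ⊕ List ℕ) →₀ ℕ) ≃ ℕ := Classical.choice nonempty_equiv_of_countable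

noncomputable def eA' (T : Set (List ℕ)) : M (KT T) ≃ ℕ :=
  (ofLex : M (KT T) ≃ (KT T →₀ ℕ)).trans (show (KT T →₀ ℕ) ≃ ℕ from eA)

noncomputable def eB' (T : Set (List ℕ)) : M (ℚ ⊕ₗ KT T) ≃ ℕ :=
  (ofLex : M (ℚ ⊕ₗ KT T) ≃ ((ℚ ⊕ₗ KT T) →₀ ℕ)).trans (show ((ℚ ⊕ₗ KT T) →₀ ℕ) ≃ ℕ from eB)

noncomputable def SA (r₂ : L.Relations 2) (T : Set (List ℕ)) : Str L :=
  ordStr r₂ fun a b => (eA' T).symm a < (eA' T).symm b

noncomputable def SB (r₂ : L.Relations 2) (T : Set (List ℕ)) : Str L :=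
  ordStr r₂ fun a b => (eB' T).symm a < (eB' T).symm b

theorem ebi_of_not_wf (r₂ : L.Relations 2) {T : Set (List ℕ)} (h : ¬ WellFoundedGT (KT T)) :
    Ebi (SA r₂ T) (SB r₂ T) := by
  obtain ⟨Φ⟩ := absorb h
  refine ebi_of_iso ((eA' T).symm.trans (Φ.toEquiv.trans (eB' T))) fun k r v => ?_
  refine ordStr_map r₂ _ (fun a b => ?_) k r v
  simp only [Equiv.trans_apply, Equiv.symm_apply_apply]
  exact (Φ.lt_iff_lt).symm

theorem not_ebiPar_of_wf (r₂ : L.Relations 2) {T : Set (List ℕ)} (h : WellFoundedGT (KT T)) :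
    ¬ EbiPar (SA r₂ T) (SB r₂ T) := by
  rintro ⟨k, p, l, q, hb⟩
  have hrigid : ∀ g : Equiv.Perm ℕ, IsAut (SA r₂ T) g → ∀ a, g a = a := by
    intro g hg a
    have h1 := lt_of_isAut r₂ hg
    let ψ : M (KT T) ≃o M (KT T) := OrderIso.ofRelIsoLT
      { toEquiv := (eA' T).trans (g.trans (eA' T).symm)
        map_rel_iff' := fun {x y} => by
          have := h1 (eA' T x) (eA' T y)
          rw [Equiv.symm_apply_apply, Equiv.symm_apply_apply] at this
          exact this }
    have i1 : WellFoundedLT (M (KT T)) := Finsupp.Lex.wellFoundedLT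
    have h2 : ψ = OrderIso.refl _ := (OrderIso.subsingleton_of_wellFoundedLT).elim _ _
    have h3 : ψ ((eA' T).symm a) = (eA' T).symm a := by rw [h2]; rfl
    have h4 : ψ ((eA' T).symm a) = (eA' T).symm (g (eA' T ((eA' T).symm a))) := rfl
    rw [h4, Equiv.apply_symm_apply] at h3
    exact (eA' T).symm.injective h3
  obtain ⟨g, hg1, b, hb2⟩ := exists_auto (K := KT T) fun i => (eB' T).symm (q i)
  let σ : Equiv.Perm ℕ := (eB' T).symm.trans (g.toEquiv.trans (eB' T))
  have hσ : IsAut (SB r₂ T) σ := by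
    intro k r v
    refine (ordStr_map r₂ σ (fun a b => ?_) k r v).symm
    simp only [σ, Equiv.trans_apply, Equiv.symm_apply_apply]
    exact (g.lt_iff_lt).symm
  have hq : ∀ c, σ (q c) = q c := by
    intro c
    have := hg1 c
    change eB' T (g ((eB' T).symm (q c))) = q c
    rw [this, Equiv.apply_symm_apply]
  have h5 := aut_trivial hb hrigid hσ hq (eB' T b)
  apply hb2
  have h6 : σ (eB' T b) = eB' T (g ((eB' T).symm (eB' T b))) := rfl
  rw [h6, Equiv.symm_apply_apply] at h5
  exact (eB' T).injective h5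

theorem measurable_ordStr (r₂ : L.Relations 2) {X : Type} [MeasurableSpace X] (lt : X → ℕ → ℕ → Prop)
    (h : ∀ a b, MeasurableSet {x | lt x a b}) : Measurable fun x => ordStr r₂ (lt x) := by
  rw [measurable_pi_iff]
  intro z
  refine measurable_to_bool ?_
  have : (fun x => ordStr r₂ (lt x) z) ⁻¹' {true} = ⋃ (a : ℕ), ⋃ (b : ℕ),
      ⋃ (_ : z = ⟨2, r₂, ![a, b]⟩), {x | lt x a b} := by
    ext x
    simp only [mem_preimage, mem_singleton_iff, ordStr_iff, mem_iUnion, mem_ofPred_eq, exists_prop]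
  rw [this]
  exact MeasurableSet.iUnion fun a => MeasurableSet.iUnion fun b => MeasurableSet.iUnion fun _ => h a b

theorem measurable_SA (r₂ : L.Relations 2) (c : ℕ → ℕ) : Measurable fun x => SA r₂ (Tx c x) := by
  refine measurable_ordStr r₂ _ fun a b => ?_
  have : {x | (eA' (Tx c x)).symm a < (eA' (Tx c x)).symm b} = ⋃ i : List ℕ,
      ((⋂ j : List ℕ, ({x | key (Tx c x) j < key (Tx c x) i}ᶜ ∪ {_x | eA.symm a j = eA.symm b j})) ∩
      {_x | eA.symm a i < eA.symm b i}) := by
    ext x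
    rw [mem_ofPred_eq, LO.lt_iff']
    simp only [mem_iUnion, mem_inter_iff, mem_iInter, mem_union, mem_compl_iff, mem_ofPred_eq]
    constructor
    · rintro ⟨i, h1, h2⟩
      exact ⟨i, fun j => or_iff_not_imp_left.mpr fun h3 => h1 j (not_not.mp h3), h2⟩
    · rintro ⟨i, h1, h2⟩
      exact ⟨i, fun j hj => (h1 j).resolve_left (not_not.mpr hj), h2⟩
  rw [this]
  exact MeasurableSet.iUnion fun i => (MeasurableSet.iInter fun j =>
    (measurableSet_lt c j i).compl.union (MeasurableSet.const _)).inter (MeasurableSet.const _)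

theorem measurable_SB (r₂ : L.Relations 2) (c : ℕ → ℕ) : Measurable fun x => SB r₂ (Tx c x) := by
  refine measurable_ordStr r₂ _ fun a b => ?_
  have h0 : ∀ j i : ℚ ⊕ List ℕ, MeasurableSet {x | Sum.Lex (· < ·)
      (fun s t : List ℕ => key (Tx c x) s < key (Tx c x) t) j i} := by
    intro j i
    rcases j with j | j <;> rcases i with i | i
    · simp only [Sum.lex_inl_inl]
      exact MeasurableSet.const _
    · simp
    · simp
    · simp only [Sum.lex_inr_inr]
      exact measurableSet_lt c j i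
  have : {x | (eB' (Tx c x)).symm a < (eB' (Tx c x)).symm b} = ⋃ i : ℚ ⊕ List ℕ,
      ((⋂ j : ℚ ⊕ List ℕ, ({x | Sum.Lex (· < ·)
        (fun s t : List ℕ => key (Tx c x) s < key (Tx c x) t) j i}ᶜ ∪
        {_x | eB.symm a j = eB.symm b j})) ∩ {_x | eB.symm a i < eB.symm b i}) := by
    ext x
    rw [mem_ofPred_eq, LO.lt_iff']
    simp only [mem_iUnion, mem_inter_iff, mem_iInter, mem_union, mem_compl_iff, mem_ofPred_eq]
    constructor
    · rintro ⟨i, h1, h2⟩
      exact ⟨i, fun j => or_iff_not_imp_left.mpr fun h3 => h1 j (not_not.mp h3), h2⟩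
    · rintro ⟨i, h1, h2⟩
      exact ⟨i, fun j hj => (h1 j).resolve_left (not_not.mpr hj), h2⟩
  rw [this]
  exact MeasurableSet.iUnion fun i => (MeasurableSet.iInter fun j =>
    (h0 j i).compl.union (MeasurableSet.const _)).inter (MeasurableSet.const _)

/-- every analytic set is reducible to `E_bi` and to `E_bi^par` -/
theorem hard (r₂ : L.Relations 2) (C : Set (ℕ → ℕ)) (hC : AnalyticSet C) :
    ∃ F : (ℕ → ℕ) → Str L × Str L, Measurable F ∧ (∀ x, x ∈ C ↔ Ebi (F x).1 (F x).2) ∧
      ∀ x, x ∈ C ↔ EbiPar (F x).1 (F x).2 := by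
  obtain ⟨c, hc⟩ := universal C hC
  refine ⟨fun x => (SA r₂ (Tx c x), SB r₂ (Tx c x)),
    (measurable_SA r₂ c).prodMk (measurable_SB r₂ c), fun x => ?_, fun x => ?_⟩
  · rw [hc, wu_iff]
    constructor
    · exact ebi_of_not_wf r₂
    · intro h hwf
      exact not_ebiPar_of_wf r₂ hwf h.par
  · rw [hc, wu_iff]
    constructor
    · exact fun h => (ebi_of_not_wf r₂ h).par
    · intro h hwf
      exact not_ebiPar_of_wf r₂ hwf h

end Pool.Agent.V11255.BI
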