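import Mathlib
import Pool.Agent.V11255.BI6

set_option autoImplicit false
set_option linter.style.haveILetI false
set_option linter.unusedSectionVars false

open Set MeasureTheory FirstOrder FirstOrder.Language Topology

namespace Pool.Agent.V11255.BI

variable {L : FirstOrder.Language.{0, 0}} [L.IsRelational]

instance countable_relations [Countable L.Symbols] (n : ℕ) : Countable (L.Relations n) := by
  have : Function.Injective fun r : L.Relations n => (Sum.inr ⟨n, r⟩ : L.Symbols) := by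
    intro r s h
    have h1 := Sum.inr_injective h
    exact eq_of_heq (Sigma.mk.inj_iff.mp h1).2
  exact this.countable

instance polish_str [Countable L.Symbols] : PolishSpace (Str L) := by
  have h := TopologicalSpace.IsCompletelyMetrizableSpace.pi_countable
    (ι := Σ n : ℕ, L.Relations n × (Fin n → ℕ)) (X := fun _ => Bool)
  infer_instance

theorem borel_prod {X Y : Type} [TopologicalSpace X] [SecondCountableTopology X] [MeasurableSpace X]
    [BorelSpace X] [TopologicalSpace Y] [SecondCountableTopology Y] [MeasurableSpace Y]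
    [BorelSpace Y] : BorelSpace (X × Y) := inferInstance

theorem polish_prod {X Y : Type} [TopologicalSpace X] [PolishSpace X] [TopologicalSpace Y]
    [PolishSpace Y] : PolishSpace (X × Y) := inferInstance

/-- truth of a formula, shorthand -/
def Rl (A : Str L) {α ι : Type} (φ : L.Formula (α ⊕ ι)) (p : ι → ℕ) (v : α → ℕ) : Prop :=
  @Formula.Realize L ℕ A.toStructure _ φ (Sum.elim v p)

theorem meas_rl {X : Type} [MeasurableSpace X] {α ι : Type} [Finite α]
    (φ : L.Formula (α ⊕ ι)) (p : ι → ℕ) {B : X → Str L} (hB : Measurable B) {v : X → α → ℕ}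
    (hv : Measurable v) : Measurable fun x => Rl (B x) φ p (v x) := by
  rw [← measurableSet_setOfPred]
  have : {x | Rl (B x) φ p (v x)} = ⋃ w : α → ℕ, (v ⁻¹' {w} ∩ B ⁻¹' {A | Rl A φ p w}) := by
    ext x
    simp only [mem_ofPred_eq, mem_iUnion, mem_inter_iff, mem_preimage, mem_singleton_iff]
    constructor
    · intro h
      exact ⟨_, rfl, h⟩
    · rintro ⟨w, rfl, h⟩
      exact h
  rw [this]
  exact MeasurableSet.iUnion fun w => (hv (measurableSet_singleton w)).inter
    (hB (measurableSet_realize φ _ _))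

theorem meas_rel {X : Type} [MeasurableSpace X] {j : ℕ} (r : L.Relations j) {B : X → Str L}
    (hB : Measurable B) {v : X → Fin j → ℕ} (hv : Measurable v) :
    Measurable fun x => (B x ⟨j, r, v x⟩ = true) := by
  rw [← measurableSet_setOfPred]
  have : {x | B x ⟨j, r, v x⟩ = true} = ⋃ w : Fin j → ℕ, (v ⁻¹' {w} ∩
      B ⁻¹' {A | A ⟨j, r, w⟩ = true}) := by
    ext x
    simp only [mem_ofPred_eq, mem_iUnion, mem_inter_iff, mem_preimage, mem_singleton_iff]
    constructor
    · intro h
      exact ⟨_, rfl, h⟩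
    · rintro ⟨w, rfl, h⟩
      exact h
  rw [this]
  refine MeasurableSet.iUnion fun w => (hv (measurableSet_singleton w)).inter (hB ?_)
  exact measurable_pi_apply (X := fun _ : (Σ n : ℕ, L.Relations n × (Fin n → ℕ)) => Bool)
      (⟨j, r, w⟩ : Σ n : ℕ, L.Relations n × (Fin n → ℕ)) (measurableSet_singleton true)

/-- the functions of `n` variables -/
abbrev Fc (n : ℕ) : Type := (Fin n → ℕ) → ℕ

theorem meas_app {X : Type} [MeasurableSpace X] {n : ℕ} {f : X → Fc n} (hf : Measurable f)
    {v : X → Fin n → ℕ} (hv : Measurable v) : Measurable fun x => f x (v x) := by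
  refine measurable_to_countable' fun m => ?_
  have : (fun x => f x (v x)) ⁻¹' {m} = ⋃ w : Fin n → ℕ, (v ⁻¹' {w} ∩ {x | f x w = m}) := by
    ext x
    simp only [mem_iUnion, mem_inter_iff, mem_preimage, mem_singleton_iff, mem_ofPred_eq]
    constructor
    · intro h
      exact ⟨_, rfl, h⟩
    · rintro ⟨w, rfl, h⟩
      exact h
  rw [this]
  exact MeasurableSet.iUnion fun w => (hv (measurableSet_singleton w)).inter
    ((measurable_pi_iff.mp hf w) (measurableSet_singleton m))

section preds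

variable {k l n m : ℕ}

/-- the data `(φ, f)` define an interpretation of `B` in `A` -/
def IP (A : Str L) (p : Fin k → ℕ) (φ : L.Formula (Fin n ⊕ Fin k)) (f : Fc n) (B : Str L) : Prop :=
  (∀ b : ℕ, ∃ u : Fin n → ℕ, Rl A φ p u ∧ f u = b) ∧
  (∃ ψ : L.Formula ((Fin 2 × Fin n) ⊕ Fin k), ∀ w : Fin 2 × Fin n → ℕ,
    (((∀ i, Rl A φ p fun j => w (i, j)) ∧ f (fun j => w (0, j)) = f (fun j => w (1, j))) ↔
      Rl A ψ p w)) ∧
  (∀ (j : ℕ) (r : L.Relations j), ∃ ψ : L.Formula ((Fin j × Fin n) ⊕ Fin k),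
    ∀ w : Fin j × Fin n → ℕ,
    (((∀ i, Rl A φ p fun j => w (i, j)) ∧ B ⟨j, r, fun i => f fun j => w (i, j)⟩ = true) ↔
      Rl A ψ p w))

/-- the composite map is definable -/
def CP (A : Str L) (p : Fin k → ℕ) (φ : L.Formula (Fin n ⊕ Fin k)) (f : Fc n) (B : Str L)
    (q : Fin l → ℕ) (φ' : L.Formula (Fin m ⊕ Fin l)) (g : Fc m) : Prop :=
  ∃ ψ : L.Formula (((Fin m × Fin n) ⊕ Unit) ⊕ Fin k), ∀ w : (Fin m × Fin n) ⊕ Unit → ℕ,
    (((∀ i, Rl A φ p fun j => w (Sum.inl (i, j))) ∧
      Rl B φ' q (fun i => f fun j => w (Sum.inl (i, j))) ∧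
      g (fun i => f fun j => w (Sum.inl (i, j))) = w (Sum.inr ())) ↔ Rl A ψ p w)

theorem biInt_iff_preds {A B : Str L} {p : Fin k → ℕ} {q : Fin l → ℕ} :
    BiInt A p B q ↔ ∃ (n m : ℕ) (φ : L.Formula (Fin n ⊕ Fin k)) (φ' : L.Formula (Fin m ⊕ Fin l))
      (f : Fc n) (g : Fc m), IP A p φ f B ∧ IP B q φ' g A ∧ CP A p φ f B q φ' g ∧
        CP B q φ' g A p φ f := by
  constructor
  · rintro ⟨I, J, h1, h2⟩
    obtain ⟨φ, hφ⟩ := I.defD
    obtain ⟨φ', hφ'⟩ := J.defD
    have hφ1 : ∀ u, u ∈ I.D ↔ Rl A φ p u := hφ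
    have hφ1' : ∀ u, u ∈ J.D ↔ Rl B φ' q u := hφ'
    refine ⟨I.n, J.n, φ, φ', I.f, J.f, ⟨?_, ?_, ?_⟩, ⟨?_, ?_, ?_⟩, ?_, ?_⟩
    · intro b
      obtain ⟨u, hu, hu'⟩ := I.surj b
      exact ⟨u, (hφ1 u).mp hu, hu'⟩
    · obtain ⟨ψ, hψ⟩ := I.defEq
      refine ⟨ψ, fun w => ?_⟩
      simp only [← hφ1]
      exact hψ w
    · intro j r
      obtain ⟨ψ, hψ⟩ := I.defRel j r
      refine ⟨ψ, fun w => ?_⟩
      simp only [← hφ1]
      exact hψ w
    · intro b
      obtain ⟨u, hu, hu'⟩ := J.surj b
      exact ⟨u, (hφ1' u).mp hu, hu'⟩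
    · obtain ⟨ψ, hψ⟩ := J.defEq
      refine ⟨ψ, fun w => ?_⟩
      simp only [← hφ1']
      exact hψ w
    · intro j r
      obtain ⟨ψ, hψ⟩ := J.defRel j r
      refine ⟨ψ, fun w => ?_⟩
      simp only [← hφ1']
      exact hψ w
    · obtain ⟨ψ, hψ⟩ := h1
      refine ⟨ψ, fun w => ?_⟩
      simp only [← hφ1, ← hφ1']
      exact hψ w
    · obtain ⟨ψ, hψ⟩ := h2
      refine ⟨ψ, fun w => ?_⟩
      simp only [← hφ1, ← hφ1']
      exact hψ w
  · rintro ⟨n, m, φ, φ', f, g, ⟨h1, h2, h3⟩, ⟨h4, h5, h6⟩, h7, h8⟩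
    refine ⟨⟨n, {u | Rl A φ p u}, f, h1, ⟨φ, fun _ => Iff.rfl⟩, h2, h3⟩,
      ⟨m, {u | Rl B φ' q u}, g, h4, ⟨φ', fun _ => Iff.rfl⟩, h5, h6⟩, h7, h8⟩

variable {X : Type} [MeasurableSpace X] {A B : X → Str L} {f : X → Fc n} {g : X → Fc m}

theorem meas_IP [Countable L.Symbols] (hA : Measurable A) (hB : Measurable B) (hf : Measurable f)
    (p : Fin k → ℕ) (φ : L.Formula (Fin n ⊕ Fin k)) :
    Measurable fun x => IP (A x) p φ (f x) (B x) := by
  unfold IP
  refine Measurable.and ?_ (Measurable.and ?_ ?_)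
  · refine Measurable.forall fun b => Measurable.exists fun u => ?_
    refine (meas_rl φ p hA measurable_const).and ?_
    rw [← measurableSet_setOfPred]
    exact (meas_app hf measurable_const) (measurableSet_singleton b)
  · refine Measurable.exists fun ψ => Measurable.forall fun w => Measurable.iff
      (Measurable.and (Measurable.forall fun i => meas_rl φ p hA measurable_const) ?_)
      (meas_rl ψ p hA measurable_const)
    rw [← measurableSet_setOfPred]
    exact measurableSet_eq_fun (meas_app hf measurable_const) (meas_app hf measurable_const)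
  · refine Measurable.forall fun j => Measurable.forall fun r => Measurable.exists fun ψ =>
      Measurable.forall fun w => Measurable.iff
      (Measurable.and (Measurable.forall fun i => meas_rl φ p hA measurable_const) ?_)
      (meas_rl ψ p hA measurable_const)
    exact meas_rel r hB (measurable_pi_iff.mpr fun i => meas_app hf measurable_const)

theorem meas_CP [Countable L.Symbols] (hA : Measurable A) (hB : Measurable B) (hf : Measurable f)
    (hg : Measurable g) (p : Fin k → ℕ) (φ : L.Formula (Fin n ⊕ Fin k)) (q : Fin l → ℕ)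
    (φ' : L.Formula (Fin m ⊕ Fin l)) :
    Measurable fun x => CP (A x) p φ (f x) (B x) q φ' (g x) := by
  unfold CP
  refine Measurable.exists fun ψ => Measurable.forall fun w => Measurable.iff
    (Measurable.and (Measurable.forall fun i => meas_rl φ p hA measurable_const)
      (Measurable.and ?_ ?_)) (meas_rl ψ p hA measurable_const)
  · exact meas_rl φ' q hB (measurable_pi_iff.mpr fun i => meas_app hf measurable_const)
  · rw [← measurableSet_setOfPred]
    exact measurableSet_eq_fun (meas_app hg (measurable_pi_iff.mpr fun i =>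
      meas_app hf measurable_const)) measurable_const

end preds

/-- bi-interpretability is analytic -/
theorem analytic_biInt [Countable L.Symbols] {k l : ℕ} (p : Fin k → ℕ) (q : Fin l → ℕ) :
    AnalyticSet {x : Str L × Str L | BiInt x.1 p x.2 q} := by
  have h1 : {x : Str L × Str L | BiInt x.1 p x.2 q} = ⋃ (n : ℕ), ⋃ (m : ℕ),
      ⋃ (φ : L.Formula (Fin n ⊕ Fin k)), ⋃ (φ' : L.Formula (Fin m ⊕ Fin l)),
      Prod.fst '' {y : (Str L × Str L) × (Fc n × Fc m) |
        IP y.1.1 p φ y.2.1 y.1.2 ∧ IP y.1.2 q φ' y.2.2 y.1.1 ∧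
        CP y.1.1 p φ y.2.1 y.1.2 q φ' y.2.2 ∧ CP y.1.2 q φ' y.2.2 y.1.1 p φ y.2.1} := by
    ext x
    rw [mem_ofPred_eq, biInt_iff_preds]
    simp only [mem_iUnion, mem_image, mem_ofPred_eq]
    constructor
    · rintro ⟨n, m, φ, φ', f, g, h⟩
      exact ⟨n, m, φ, φ', (x, (f, g)), h, rfl⟩
    · rintro ⟨n, m, φ, φ', ⟨x', ⟨f, g⟩⟩, h, rfl⟩
      exact ⟨n, m, φ, φ', f, g, h⟩
  rw [h1]
  refine AnalyticSet.iUnion fun n => AnalyticSet.iUnion fun m => AnalyticSet.iUnion fun φ =>
    AnalyticSet.iUnion fun φ' => ?_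
  have i1 : PolishSpace (Str L × Str L) := inferInstance
  have i2 : PolishSpace (Fc n × Fc m) := inferInstance
  have i3 : BorelSpace (Str L × Str L) := borel_prod
  have i4 : BorelSpace (Fc n × Fc m) := borel_prod
  have i5 : PolishSpace ((Str L × Str L) × (Fc n × Fc m)) := polish_prod
  have i6 : BorelSpace ((Str L × Str L) × (Fc n × Fc m)) := borel_prod
  refine AnalyticSet.image_of_continuous (MeasurableSet.analyticSet ?_) continuous_fst
  rw [measurableSet_setOfPred]
  have hA : Measurable fun y : (Str L × Str L) × (Fc n × Fc m) => y.1.1 :=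
    measurable_fst.comp measurable_fst
  have hB : Measurable fun y : (Str L × Str L) × (Fc n × Fc m) => y.1.2 :=
    measurable_snd.comp measurable_fst
  have hf : Measurable fun y : (Str L × Str L) × (Fc n × Fc m) => y.2.1 :=
    measurable_fst.comp measurable_snd
  have hg : Measurable fun y : (Str L × Str L) × (Fc n × Fc m) => y.2.2 :=
    measurable_snd.comp measurable_snd
  exact (meas_IP hA hB hf p φ).and ((meas_IP hB hA hg q φ').and
    ((meas_CP hA hB hf hg p φ q φ').and (meas_CP hB hA hg hf q φ' p φ)))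

theorem analytic_Ebi [Countable L.Symbols] : AnalyticSet {x : Str L × Str L | Ebi x.1 x.2} :=
  analytic_biInt _ _

theorem analytic_EbiPar [Countable L.Symbols] :
    AnalyticSet {x : Str L × Str L | EbiPar x.1 x.2} := by
  have h1 : {x : Str L × Str L | EbiPar x.1 x.2} = ⋃ (k : ℕ), ⋃ (p : Fin k → ℕ), ⋃ (l : ℕ),
      ⋃ (q : Fin l → ℕ), {x : Str L × Str L | BiInt x.1 p x.2 q} := by
    ext x
    simp only [mem_iUnion, mem_ofPred_eq, EbiPar]
  rw [h1]
  exact AnalyticSet.iUnion fun k => AnalyticSet.iUnion fun p => AnalyticSet.iUnion fun l =>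
    AnalyticSet.iUnion fun q => analytic_biInt p q

end Pool.Agent.V11255.BI
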