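import Mathlib

set_option autoImplicit false

open Set MeasureTheory Filter Topology
open scoped ENNReal

namespace Pool.Agent.V11255.FG

section basic

variable {X : Type} [MeasurableSpace X] (T : X ≃ᵐ X)

/-- the powers of an automorphism -/
def pw (n : ℤ) : X → X := ⇑((T.toEquiv : Equiv.Perm X) ^ n)

theorem pw_zero (x : X) : pw T 0 x = x := by simp [pw]

theorem pw_one (x : X) : pw T 1 x = T x := by simp [pw]

theorem pw_add (m n : ℤ) (x : X) : pw T (m + n) x = pw T m (pw T n x) := by
  simp only [pw, zpow_add, Equiv.Perm.mul_apply]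

theorem pw_neg_one (x : X) : pw T (-1) x = T.symm x := by
  simp only [pw, zpow_neg, zpow_one]
  rfl

theorem pw_neg (n : ℤ) (x : X) : pw T (-n) (pw T n x) = x := by
  rw [← pw_add, neg_add_cancel, pw_zero]

theorem pw_neg' (n : ℤ) (x : X) : pw T n (pw T (-n) x) = x := by
  rw [← pw_add, add_neg_cancel, pw_zero]

theorem pw_natCast (n : ℕ) (x : X) : pw T n x = T^[n] x := by
  induction n with
  | zero => simp [pw_zero]
  | succ n ih =>
    rw [Function.iterate_succ_apply', ← ih, Nat.cast_succ, add_comm, pw_add, pw_one]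

theorem measurable_pw (n : ℤ) : Measurable (pw T n) := by
  induction n using Int.induction_on with
  | zero =>
    have : pw T 0 = id := by funext x; exact pw_zero T x
    rw [this]; exact measurable_id
  | succ i ih =>
    have : pw T (i + 1) = pw T i ∘ T := by
      funext x
      rw [pw_add, pw_one]
      rfl
    rw [this]
    exact ih.comp T.measurable
  | pred i ih =>
    have : pw T (-i - 1) = pw T (-i) ∘ T.symm := by
      funext x
      rw [sub_eq_add_neg, pw_add, pw_neg_one]
      rfl
    rw [this]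
    exact ih.comp T.symm.measurable

theorem mp_pw {μ : Measure X} (hT : MeasurePreserving T μ μ) (n : ℤ) :
    MeasurePreserving (pw T n) μ μ := by
  induction n using Int.induction_on with
  | zero =>
    have : pw T 0 = id := by funext x; exact pw_zero T x
    rw [this]; exact MeasurePreserving.id μ
  | succ i ih =>
    have : pw T (i + 1) = pw T i ∘ T := by
      funext x
      rw [pw_add, pw_one]
      rfl
    rw [this]
    exact ih.comp hT
  | pred i ih =>
    have : pw T (-i - 1) = pw T (-i) ∘ T.symm := by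
      funext x
      rw [sub_eq_add_neg, pw_add, pw_neg_one]
      rfl
    rw [this]
    exact ih.comp (hT.symm T)

/-- lying in the same orbit -/
def Orb (x y : X) : Prop := ∃ n : ℤ, y = pw T n x

variable {T}

theorem Orb.refl (x : X) : Orb T x x := ⟨0, (pw_zero T x).symm⟩

theorem Orb.symm {x y : X} (h : Orb T x y) : Orb T y x := by
  obtain ⟨n, rfl⟩ := h
  exact ⟨-n, (pw_neg T n x).symm⟩

theorem Orb.trans {x y z : X} (h : Orb T x y) (h' : Orb T y z) : Orb T x z := by
  obtain ⟨n, rfl⟩ := h
  obtain ⟨m, rfl⟩ := h'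
  exact ⟨m + n, (pw_add T m n x).symm⟩

variable (T)

/-- an enumeration of the integers -/
noncomputable def en : ℕ → ℤ := (exists_surjective_nat ℤ).choose

theorem en_surj : Function.Surjective en := (exists_surjective_nat ℤ).choose_spec

end basic

section image

variable {X : Type} [MeasurableSpace X] [StandardBorelSpace X] {T : X ≃ᵐ X} {μ : Measure X}

/-- images under injective maps which move the points along the orbits -/
theorem measure_image (hT : MeasurePreserving T μ μ) {E : Set X} (hE : MeasurableSet E)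
    {η : X → X} (hη : Measurable η) (hinj : InjOn η E) (horb : ∀ x ∈ E, Orb T x (η x)) :
    MeasurableSet (η '' E) ∧ μ (η '' E) = μ E := by
  classical
  have hex : ∀ x, x ∈ E → ∃ n, η x = pw T (en n) x := by
    intro x hx
    obtain ⟨m, hm⟩ := horb x hx
    obtain ⟨n, hn⟩ := en_surj m
    exact ⟨n, by rw [hn, hm]⟩
  let En : ℕ → Set X := fun n => {x | x ∈ E ∧ η x = pw T (en n) x ∧ ∀ m < n, η x ≠ pw T (en m) x}
  have hEm : ∀ n, MeasurableSet (En n) := by
    intro n
    have : En n = E ∩ ({x | η x = pw T (en n) x} ∩ ⋂ m, ⋂ (_ : m < n), {x | η x = pw T (en m) x}ᶜ) := by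
      ext x
      simp only [En, mem_ofPred_eq, mem_inter_iff, mem_iInter, mem_compl_iff]
    rw [this]
    refine hE.inter ((measurableSet_eq_fun hη (measurable_pw T _)).inter
      (MeasurableSet.iInter fun m => MeasurableSet.iInter fun _ =>
        (measurableSet_eq_fun hη (measurable_pw T _)).compl))
  have hEu : E = ⋃ n, En n := by
    ext x
    simp only [mem_iUnion]
    constructor
    · intro hx
      exact ⟨Nat.find (hex x hx), hx, Nat.find_spec (hex x hx), fun m hm => Nat.find_min (hex x hx) hm⟩
    · rintro ⟨n, hn⟩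
      exact hn.1
  have hEd : Pairwise (Function.onFun Disjoint En) := by
    intro n m hnm
    rw [Function.onFun, Set.disjoint_left]
    rintro x ⟨-, h1, h2⟩ ⟨-, h3, h4⟩
    rcases lt_or_gt_of_ne hnm with h | h
    · exact h4 n h h1
    · exact h2 m h h3
  have hEi : ∀ n, η '' (En n) = (pw T (-(en n))) ⁻¹' (En n) := by
    intro n
    ext y
    constructor
    · rintro ⟨x, hx, rfl⟩
      rw [mem_preimage, hx.2.1, pw_neg]
      exact hx
    · intro hy
      refine ⟨pw T (-(en n)) y, hy, ?_⟩
      rw [hy.2.1, pw_neg']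
  have hIm : ∀ n, MeasurableSet (η '' (En n)) := fun n => by
    rw [hEi n]
    exact measurable_pw T _ (hEm n)
  have hId : Pairwise (Function.onFun Disjoint fun n => η '' (En n)) := by
    intro n m hnm
    rw [Function.onFun, Set.disjoint_left]
    rintro _ ⟨x, hx, rfl⟩ ⟨x', hx', h⟩
    have : x' = x := hinj hx'.1 hx.1 h
    subst this
    exact Set.disjoint_left.mp (hEd hnm) hx hx'
  have hIu : η '' E = ⋃ n, η '' (En n) := by
    conv_lhs => rw [hEu]
    rw [image_iUnion]
  constructor
  · rw [hIu]
    exact MeasurableSet.iUnion hIm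
  · rw [hIu, measure_iUnion hId hIm]
    conv_rhs => rw [hEu]
    rw [measure_iUnion hEd hEm]
    congr 1
    funext n
    rw [hEi n]
    exact (mp_pw T hT _).measure_preimage (hEm n).nullMeasurableSet

theorem measure_le_of_mapsTo (hT : MeasurePreserving T μ μ) {E B : Set X} (hE : MeasurableSet E)
    {η : X → X} (hη : Measurable η) (hinj : InjOn η E) (horb : ∀ x ∈ E, Orb T x (η x))
    (hm : MapsTo η E B) : μ E ≤ μ B := by
  rw [← (measure_image hT hE hη hinj horb).2]
  exact measure_mono hm.image_subset

end image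

/-! ## Partial isomorphisms -/

section piso

variable {X : Type} [MeasurableSpace X] [StandardBorelSpace X] {T : X ≃ᵐ X} {μ : Measure X}

/-- a partial isomorphism from `R` to `S` inside the orbits of `T` -/
structure PIso (T R S : X ≃ᵐ X) where
  A : Set X
  φ : X → X
  hA : MeasurableSet A
  hφ : Measurable φ
  inv : ∀ x, R x ∈ A ↔ x ∈ A
  inj : InjOn φ A
  eqv : ∀ x ∈ A, φ (R x) = S (φ x)
  orb : ∀ x ∈ A, Orb T x (φ x)

namespace PIso

variable {R S : X ≃ᵐ X} (P : PIso T R S)

/-- the range -/
def B : Set X := P.φ '' P.A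

theorem exists_inv : ∃ g : X → X, Measurable g ∧ (∀ x ∈ P.A, g (P.φ x) = x) ∧
    (MeasurableSet P.B) ∧ ∀ y ∈ P.B, Orb T y (g y) := by
  classical
  let p : ℕ → X → Prop := fun n y => (pw T (en n) y ∈ P.A ∧ P.φ (pw T (en n) y) = y)
  have hp : ∀ n, MeasurableSet {y | p n y} := fun n =>
    ((measurable_pw T _) P.hA).inter (measurableSet_eq_fun (P.hφ.comp (measurable_pw T _)) measurable_id)
  have hB : ∀ y, y ∈ P.B ↔ ∃ n, p n y := by
    intro y
    constructor
    · rintro ⟨x, hx, rfl⟩
      obtain ⟨m, hm⟩ := (P.orb x hx).symm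
      obtain ⟨n, hn⟩ := en_surj m
      refine ⟨n, ?_⟩
      simp only [p]
      rw [hn, ← hm]
      exact ⟨hx, rfl⟩
    · rintro ⟨n, h1, h2⟩
      exact ⟨_, h1, h2⟩
  have hBm : MeasurableSet P.B := by
    have : P.B = ⋃ n, {y | p n y} := by
      ext y
      rw [hB, mem_iUnion]
      rfl
    rw [this]
    exact MeasurableSet.iUnion hp
  let q : ℕ → X → Prop := fun n y => p n y ∨ y ∉ P.B
  have hq : ∀ y, ∃ n, q n y := by
    intro y
    by_cases hy : y ∈ P.B
    · obtain ⟨n, hn⟩ := (hB y).mp hy
      exact ⟨n, Or.inl hn⟩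
    · exact ⟨0, Or.inr hy⟩
  have hqm : ∀ n, MeasurableSet {y | q n y} := fun n => (hp n).union hBm.compl
  refine ⟨fun y => pw T (en (Nat.find (hq y))) y, ?_, ?_, hBm, ?_⟩
  · exact Measurable.find (fun n => measurable_pw T (en n)) hqm hq
  · intro x hx
    rcases Nat.find_spec (hq (P.φ x)) with h | h
    · exact P.inj h.1 hx h.2
    · exact absurd ⟨x, hx, rfl⟩ h
  · intro y _
    exact ⟨_, rfl⟩

end PIso

end piso

end Pool.Agent.V11255.FG
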