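import Mathlib
import Pool.Agent.V11255.FG1

set_option autoImplicit false
set_option linter.unusedSectionVars false

open Set MeasureTheory Filter Topology
open scoped ENNReal

namespace Pool.Agent.V11255.FG

variable {X : Type} [MeasurableSpace X] [StandardBorelSpace X] {T : X ≃ᵐ X} {μ : Measure X}
  {R S : X ≃ᵐ X}

namespace PIso

theorem mem_inv_iff (P : PIso T R S) (x : X) : R.symm x ∈ P.A ↔ x ∈ P.A := by
  rw [← P.inv, R.apply_symm_apply]

theorem B_inv (P : PIso T R S) (y : X) : S y ∈ P.B ↔ y ∈ P.B := by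
  constructor
  · rintro ⟨a, ha, h⟩
    refine ⟨R.symm a, (P.mem_inv_iff a).mpr ha, ?_⟩
    apply S.injective
    rw [← P.eqv _ ((P.mem_inv_iff a).mpr ha), R.apply_symm_apply, h]
  · rintro ⟨a, ha, rfl⟩
    exact ⟨R a, (P.inv a).mpr ha, P.eqv a ha⟩

end PIso

/-- the extension lemma -/
theorem extend [IsFiniteMeasure μ] (hT : MeasurePreserving T μ μ) (P P' : PIso T R S) :
    ∃ P'' : PIso T R S, P.A ⊆ P''.A ∧ EqOn P.φ P''.φ P.A ∧ μ P''.Aᶜ ≤ μ P'.Aᶜ := by
  classical
  obtain ⟨g, hg, hg1, hBm, hg2⟩ := P.exists_inv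
  set Q : Set X := {x | x ∈ P'.A ∧ P'.φ x ∈ P.B} with hQ
  have hQm : MeasurableSet Q := P'.hA.inter (P'.hφ hBm)
  set ψ : X → X := fun x => g (P'.φ x) with hψ
  have hψm : Measurable ψ := hg.comp P'.hφ
  have hψA : ∀ x ∈ Q, ψ x ∈ P.A ∧ P.φ (ψ x) = P'.φ x := by
    rintro x ⟨-, a, ha, h⟩
    simp only [hψ]
    rw [← h, hg1 a ha]
    exact ⟨ha, rfl⟩
  have hψinj : InjOn ψ Q := by
    intro x hx z hz h
    apply P'.inj hx.1 hz.1
    rw [← (hψA x hx).2, ← (hψA z hz).2, h]
  have hψorb : ∀ x ∈ Q, Orb T x (ψ x) := by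
    intro x hx
    exact (P'.orb x hx.1).trans (P.orb _ (hψA x hx).1 |>.symm.trans (Orb.refl _) |> fun h => by
      rw [(hψA x hx).2] at h; exact h)
  have hQR : ∀ x, R x ∈ Q ↔ x ∈ Q := by
    intro x
    simp only [hQ, mem_ofPred_eq, P'.inv]
    constructor
    · rintro ⟨h1, h2⟩
      rw [P'.eqv x h1, P.B_inv] at h2
      exact ⟨h1, h2⟩
    · rintro ⟨h1, h2⟩
      refine ⟨h1, ?_⟩
      rw [P'.eqv x h1, P.B_inv]
      exact h2
  have hψR : ∀ x ∈ Q, ψ (R x) = R (ψ x) := by
    intro x hx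
    have h1 := hψA x hx
    simp only [hψ]
    rw [P'.eqv x hx.1, ← h1.2, ← P.eqv _ h1.1, hg1 _ ((P.inv _).mpr h1.1), hg1 _ h1.1]
  have hitR : ∀ m x, (∀ k < m, ψ^[k] x ∈ Q) → ψ^[m] (R x) = R (ψ^[m] x) := by
    intro m
    induction m with
    | zero => intro x _; rfl
    | succ m ih =>
      intro x hx
      rw [Function.iterate_succ_apply', Function.iterate_succ_apply',
        ih x fun k hk => hx k (by omega), hψR _ (hx m (by omega))]
  have hitRQ : ∀ m x, (∀ k < m, ψ^[k] (R x) ∈ Q) ↔ (∀ k < m, ψ^[k] x ∈ Q) := by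
    intro m
    induction m with
    | zero => intro x; simp
    | succ m ih =>
      intro x
      constructor
      · intro h k hk
        have h1 := (ih x).mp fun k hk => h k (by omega)
        rcases Nat.lt_succ_iff_lt_or_eq.mp hk with h2 | rfl
        · exact h1 k h2
        · rw [← hQR, ← hitR k x h1]
          exact h k (by omega)
      · intro h k hk
        have h1 : ∀ k < m, ψ^[k] x ∈ Q := fun k hk => h k (by omega)
        rcases Nat.lt_succ_iff_lt_or_eq.mp hk with h2 | rfl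
        · exact (ih x).mpr h1 k h2
        · rw [hitR k x h1, hQR]
          exact h k (by omega)
  have horb : ∀ m x, (∀ k < m, ψ^[k] x ∈ Q) → Orb T x (ψ^[m] x) := by
    intro m
    induction m with
    | zero => intro x _; exact Orb.refl x
    | succ m ih =>
      intro x hx
      rw [Function.iterate_succ_apply']
      exact (ih x fun k hk => hx k (by omega)).trans (hψorb _ (hx m (by omega)))
  -- the key injectivity
  have K : ∀ m m' x z, x ∉ P.A → z ∉ P.A → (∀ k < m, ψ^[k] x ∈ Q) → (∀ k < m', ψ^[k] z ∈ Q) →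
      ψ^[m] x = ψ^[m'] z → m = m' ∧ x = z := by
    intro m
    induction m with
    | zero =>
      intro m' x z hx hz _ h2 h
      rcases m' with _ | m'
      · exact ⟨rfl, h⟩
      · exfalso
        rw [Function.iterate_succ_apply'] at h
        apply hx
        have := (hψA _ (h2 m' (by omega))).1
        rw [← h] at this
        exact this
    | succ m ih =>
      intro m' x z hx hz h1 h2 h
      rcases m' with _ | m'
      · exfalso
        rw [Function.iterate_succ_apply'] at h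
        apply hz
        have := (hψA _ (h1 m (by omega))).1
        rw [h] at this
        exact this
      · rw [Function.iterate_succ_apply', Function.iterate_succ_apply'] at h
        have h3 := hψinj (h1 m (by omega)) (h2 m' (by omega)) h
        obtain ⟨h4, h5⟩ := ih m' x z hx hz (fun k hk => h1 k (by omega))
          (fun k hk => h2 k (by omega)) h3
        exact ⟨by rw [h4], h5⟩
  have hitm : ∀ m, Measurable (ψ^[m]) := fun m => hψm.iterate m
  -- stopping
  let St : ℕ → Set X := fun m => {x | (∀ k < m, ψ^[k] x ∈ Q) ∧ ψ^[m] x ∉ Q}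
  have hStm : ∀ m, MeasurableSet (St m) := by
    intro m
    have : St m = (⋂ k, ⋂ (_ : k < m), (ψ^[k]) ⁻¹' Q) ∩ ((ψ^[m]) ⁻¹' Q)ᶜ := by
      ext x
      simp only [St, mem_ofPred_eq, mem_inter_iff, mem_iInter, mem_preimage, mem_compl_iff]
    rw [this]
    exact (MeasurableSet.iInter fun k => MeasurableSet.iInter fun _ => hitm k hQm).inter
      (hitm m hQm).compl
  let Gd : ℕ → Set X := fun m => {x | x ∈ St m ∧ ψ^[m] x ∈ P'.A}
  have hGdm : ∀ m, MeasurableSet (Gd m) := fun m => (hStm m).inter (hitm m P'.hA)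
  have hStR : ∀ m x, R x ∈ St m ↔ x ∈ St m := by
    intro m x
    simp only [St, mem_ofPred_eq, hitRQ]
    refine and_congr_right fun h => ?_
    rw [hitR m x h, hQR]
  have hGdR : ∀ m x, R x ∈ Gd m ↔ x ∈ Gd m := by
    intro m x
    simp only [Gd, mem_ofPred_eq, hStR]
    refine and_congr_right fun h => ?_
    rw [hitR m x h.1, P'.inv]
  have hGdB : ∀ m x, x ∈ Gd m → P'.φ (ψ^[m] x) ∉ P.B := by
    intro m x hx h
    exact hx.1.2 ⟨hx.2, h⟩
  let D : Set X := {x | x ∉ P.A ∧ ∃ m, x ∈ Gd m}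
  have hDm : MeasurableSet D := by
    have : D = P.Aᶜ ∩ ⋃ m, Gd m := by
      ext x
      simp only [D, mem_ofPred_eq, mem_inter_iff, mem_compl_iff, mem_iUnion]
    rw [this]
    exact P.hA.compl.inter (MeasurableSet.iUnion hGdm)
  have hDR : ∀ x, R x ∈ D ↔ x ∈ D := by
    intro x
    simp only [D, mem_ofPred_eq, P.inv, hGdR]
  -- the choice of the index
  have hex : ∀ x, ∃ m, x ∈ Gd m ∨ x ∉ D := by
    intro x
    by_cases hx : x ∈ D
    · obtain ⟨m, hm⟩ := hx.2
      exact ⟨m, Or.inl hm⟩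
    · exact ⟨0, Or.inr hx⟩
  let τ : X → ℕ := fun x => Nat.find (hex x)
  have hτ : ∀ x ∈ D, x ∈ Gd (τ x) := by
    intro x hx
    rcases Nat.find_spec (hex x) with h | h
    · exact h
    · exact absurd hx h
  have hτu : ∀ x ∈ D, ∀ m, x ∈ St m → τ x = m := by
    intro x hx m hm
    have h1 := (hτ x hx).1
    rcases lt_trichotomy (τ x) m with h | h | h
    · exact absurd (hm.1 _ h) h1.2
    · exact h
    · exact absurd (h1.1 _ h) hm.2
  have hηm : Measurable (fun x => ψ^[τ x] x) :=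
    Measurable.find (p := fun m x => x ∈ Gd m ∨ x ∉ D) hitm
      (fun m => (hGdm m).union hDm.compl) hex
  let φ'' : X → X := fun x => if x ∈ P.A then P.φ x else P'.φ (ψ^[τ x] x)
  have hφ''1 : ∀ x ∈ P.A, φ'' x = P.φ x := fun x hx => if_pos hx
  have hφ''2 : ∀ x ∈ D, φ'' x = P'.φ (ψ^[τ x] x) := fun x hx => if_neg hx.1
  refine ⟨⟨P.A ∪ D, φ'', P.hA.union hDm, Measurable.ite P.hA P.hφ (P'.hφ.comp hηm), ?_, ?_, ?_, ?_⟩,
    subset_union_left, fun x hx => (hφ''1 x hx).symm, ?_⟩
  · intro x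
    simp only [mem_union, P.inv, hDR]
  · rintro x (hx | hx) z (hz | hz) h
    · rw [hφ''1 x hx, hφ''1 z hz] at h
      exact P.inj hx hz h
    · rw [hφ''1 x hx, hφ''2 z hz] at h
      exact absurd ⟨x, hx, h⟩ (hGdB _ z (hτ z hz))
    · rw [hφ''2 x hx, hφ''1 z hz] at h
      exact absurd ⟨z, hz, h.symm⟩ (hGdB _ x (hτ x hx))
    · rw [hφ''2 x hx, hφ''2 z hz] at h
      have h1 := P'.inj (hτ x hx).2 (hτ z hz).2 h
      exact (K _ _ x z hx.1 hz.1 (hτ x hx).1.1 (hτ z hz).1.1 h1).2
  · rintro x (hx | hx)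
    · rw [hφ''1 x hx, hφ''1 _ ((P.inv x).mpr hx), P.eqv x hx]
    · have h1 := (hDR x).mpr hx
      have h2 : τ (R x) = τ x := hτu _ h1 _ ((hStR _ x).mpr (hτ x hx).1)
      rw [hφ''2 x hx, hφ''2 _ h1, h2, hitR _ x (hτ x hx).1.1, P'.eqv _ (hτ x hx).2]
  · rintro x (hx | hx)
    · rw [hφ''1 x hx]
      exact P.orb x hx
    · rw [hφ''2 x hx]
      exact (horb _ x (hτ x hx).1.1).trans (P'.orb _ (hτ x hx).2)
  · -- the measure
    let F1 : Set X := {x | x ∉ P.A ∧ ∃ m, x ∈ St m ∧ ψ^[m] x ∉ P'.A}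
    let F2 : Set X := {x | x ∉ P.A ∧ ∀ k, ψ^[k] x ∈ Q}
    have hsub : (P.A ∪ D)ᶜ ⊆ F1 ∪ F2 := by
      intro x hx
      simp only [mem_compl_iff, mem_union, not_or] at hx
      by_cases h : ∀ k, ψ^[k] x ∈ Q
      · exact Or.inr ⟨hx.1, h⟩
      · left
        push Not at h
        refine ⟨hx.1, Nat.find h, ⟨fun k hk => ?_, Nat.find_spec h⟩, fun hA => ?_⟩
        · by_contra h1
          exact Nat.find_min h hk h1
        · exact hx.2 ⟨hx.1, Nat.find h, ⟨fun k hk => by
            by_contra h1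
            exact Nat.find_min h hk h1, Nat.find_spec h⟩, hA⟩
    have hF1m : MeasurableSet F1 := by
      have : F1 = P.Aᶜ ∩ ⋃ m, (St m ∩ ((ψ^[m]) ⁻¹' P'.A)ᶜ) := by
        ext x
        simp only [F1, mem_ofPred_eq, mem_inter_iff, mem_compl_iff, mem_iUnion, mem_preimage]
      rw [this]
      exact P.hA.compl.inter (MeasurableSet.iUnion fun m => (hStm m).inter (hitm m P'.hA).compl)
    have hF2m : MeasurableSet F2 := by
      have : F2 = P.Aᶜ ∩ ⋂ k, (ψ^[k]) ⁻¹' Q := by
        ext x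
        simp only [F2, mem_ofPred_eq, mem_inter_iff, mem_compl_iff, mem_iInter, mem_preimage]
      rw [this]
      exact P.hA.compl.inter (MeasurableSet.iInter fun k => hitm k hQm)
    have h1 : μ F1 ≤ μ P'.Aᶜ := by
      have hex1 : ∀ x, ∃ m, x ∈ St m ∨ x ∉ F1 := by
        intro x
        by_cases hx : x ∈ F1
        · obtain ⟨m, hm, -⟩ := hx.2
          exact ⟨m, Or.inl hm⟩
        · exact ⟨0, Or.inr hx⟩
      have hs : ∀ x ∈ F1, x ∈ St (Nat.find (hex1 x)) := by
        intro x hx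
        rcases Nat.find_spec (hex1 x) with h | h
        · exact h
        · exact absurd hx h
      refine measure_le_of_mapsTo hT hF1m (η := fun x => ψ^[Nat.find (hex1 x)] x) ?_ ?_ ?_ ?_
      · exact Measurable.find (p := fun m x => x ∈ St m ∨ x ∉ F1) hitm
          (fun m => (hStm m).union hF1m.compl) hex1
      · intro x hx z hz h
        exact (K _ _ x z hx.1 hz.1 (hs x hx).1 (hs z hz).1 h).2
      · intro x hx
        exact horb _ x (hs x hx).1
      · intro x hx
        obtain ⟨m, hm1, hm2⟩ := hx.2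
        have h3 := hs x hx
        have h4 : Nat.find (hex1 x) = m := by
          rcases lt_trichotomy (Nat.find (hex1 x)) m with h | h | h
          · exact absurd (hm1.1 _ h) h3.2
          · exact h
          · exact absurd (h3.1 _ h) hm1.2
        simp only [mem_compl_iff]
        rw [h4]
        exact hm2
    have h2 : μ F2 = 0 := by
      have hi : ∀ m, MeasurableSet (ψ^[m] '' F2) ∧ μ (ψ^[m] '' F2) = μ F2 := by
        intro m
        refine measure_image hT hF2m (hitm m) ?_ ?_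
        · intro x hx z hz h
          exact (K m m x z hx.1 hz.1 (fun k _ => hx.2 k) (fun k _ => hz.2 k) h).2
        · intro x hx
          exact horb m x fun k _ => hx.2 k
      have hd : Pairwise (Function.onFun Disjoint fun m => ψ^[m] '' F2) := by
        intro m n hmn
        rw [Function.onFun, Set.disjoint_left]
        rintro _ ⟨x, hx, rfl⟩ ⟨z, hz, h⟩
        exact hmn (K m n x z hx.1 hz.1 (fun k _ => hx.2 k) (fun k _ => hz.2 k) h.symm).1
      by_contra hne
      have h3 := measure_iUnion (μ := μ) hd fun m => (hi m).1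
      simp only [(hi _).2] at h3
      rw [ENNReal.tsum_const_eq_top_of_ne_zero hne] at h3
      exact measure_ne_top μ _ h3
    calc μ (P.A ∪ D)ᶜ ≤ μ (F1 ∪ F2) := measure_mono hsub
      _ ≤ μ F1 + μ F2 := measure_union_le _ _
      _ ≤ μ P'.Aᶜ := by rw [h2, add_zero]; exact h1

end Pool.Agent.V11255.FG
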