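import Mathlib
import Pool.Agent.V11255.FG2

set_option autoImplicit false
set_option linter.unusedSectionVars false

open Set MeasureTheory Filter Topology
open scoped ENNReal

namespace Pool.Agent.V11255.FG

variable {X : Type} [MeasurableSpace X] [StandardBorelSpace X] {T : X ≃ᵐ X} {μ : Measure X}
  {R S : X ≃ᵐ X}

theorem exists_full [IsFiniteMeasure μ] (hT : MeasurePreserving T μ μ)
    (h : ∀ n : ℕ, ∃ P : PIso T R S, μ P.Aᶜ ≤ (n + 1 : ℝ≥0∞)⁻¹) :
    ∃ P : PIso T R S, μ P.Aᶜ = 0 := by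
  classical
  choose P hP using h
  choose F hF1 hF2 hF3 using fun (Q : PIso T R S) (P' : PIso T R S) => extend hT Q P'
  let Q : ℕ → PIso T R S := fun n => Nat.rec (P 0) (fun n q => F q (P (n + 1))) n
  have hQ : ∀ n, Q (n + 1) = F (Q n) (P (n + 1)) := fun n => rfl
  have hsub : ∀ n, (Q n).A ⊆ (Q (n + 1)).A := fun n => hF1 _ _
  have heq : ∀ n, EqOn (Q n).φ (Q (n + 1)).φ (Q n).A := fun n => hF2 _ _
  have hmono : ∀ m n, m ≤ n → (Q m).A ⊆ (Q n).A ∧ EqOn (Q m).φ (Q n).φ (Q m).A := by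
    intro m n hmn
    induction hmn with
    | refl => exact ⟨Subset.rfl, fun _ _ => rfl⟩
    | step _ ih => exact ⟨ih.1.trans (hsub _), fun x hx => (ih.2 hx).trans (heq _ (ih.1 hx))⟩
  have hmeas : ∀ n, μ (Q n).Aᶜ ≤ (n + 1 : ℝ≥0∞)⁻¹ := by
    intro n
    rcases n with _ | n
    · exact hP 0
    · rw [hQ]
      exact (hF3 _ _).trans (hP (n + 1))
  have hex : ∀ x, ∃ n, x ∈ (Q n).A ∨ x ∉ ⋃ n, (Q n).A := by
    intro x
    by_cases hx : x ∈ ⋃ n, (Q n).A
    · obtain ⟨n, hn⟩ := mem_iUnion.mp hx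
      exact ⟨n, Or.inl hn⟩
    · exact ⟨0, Or.inr hx⟩
  have hUm : MeasurableSet (⋃ n, (Q n).A) := MeasurableSet.iUnion fun n => (Q n).hA
  let φ : X → X := fun x => (Q (Nat.find (hex x))).φ x
  have hφ : ∀ n, ∀ x ∈ (Q n).A, φ x = (Q n).φ x := by
    intro n x hx
    have h1 : x ∈ (Q (Nat.find (hex x))).A := by
      rcases Nat.find_spec (hex x) with h | h
      · exact h
      · exact absurd (mem_iUnion.mpr ⟨n, hx⟩) h
    have h2 : Nat.find (hex x) ≤ n := Nat.find_min' (hex x) (Or.inl hx)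
    exact (hmono _ _ h2).2 h1
  refine ⟨⟨⋃ n, (Q n).A, φ, hUm, ?_, ?_, ?_, ?_, ?_⟩, ?_⟩
  · exact Measurable.find (f := fun n x => (Q n).φ x) (p := fun n x => x ∈ (Q n).A ∨ x ∉ ⋃ n, (Q n).A)
      (fun n => (Q n).hφ) (fun n => (Q n).hA.union hUm.compl) hex
  · intro x
    simp only [mem_iUnion, (Q _).inv]
  · intro x hx z hz h
    obtain ⟨n, hn⟩ := mem_iUnion.mp hx
    obtain ⟨m, hm⟩ := mem_iUnion.mp hz
    have h1 := (hmono _ _ (le_max_left n m)).1 hn
    have h2 := (hmono _ _ (le_max_right n m)).1 hm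
    rw [hφ _ x h1, hφ _ z h2] at h
    exact (Q _).inj h1 h2 h
  · intro x hx
    obtain ⟨n, hn⟩ := mem_iUnion.mp hx
    rw [hφ n x hn, hφ n _ (((Q n).inv x).mpr hn), (Q n).eqv x hn]
  · intro x hx
    obtain ⟨n, hn⟩ := mem_iUnion.mp hx
    rw [hφ n x hn]
    exact (Q n).orb x hn
  · have h1 : ∀ n : ℕ, μ (⋃ n, (Q n).A)ᶜ ≤ (n + 1 : ℝ≥0∞)⁻¹ := by
      intro n
      exact (measure_mono (compl_subset_compl.mpr (subset_iUnion _ n))).trans (hmeas n)
    have h2 : Tendsto (fun n : ℕ => ((n + 1 : ℝ≥0∞))⁻¹) atTop (𝓝 0) := by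
      have := (ENNReal.tendsto_inv_nat_nhds_zero).comp (tendsto_add_atTop_nat 1)
      simpa [Function.comp_def] using this
    exact le_antisymm (ge_of_tendsto' h2 h1) bot_le

/-- saturations -/
def sat (T : X ≃ᵐ X) (N : Set X) : Set X := ⋃ n : ℤ, (pw T n) ⁻¹' N

theorem subset_sat (N : Set X) : N ⊆ sat T N := fun x hx => mem_iUnion.mpr ⟨0, by
  rw [mem_preimage, pw_zero]; exact hx⟩

theorem mem_sat_iff {N : Set X} {x y : X} (h : Orb T x y) : y ∈ sat T N ↔ x ∈ sat T N := by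
  obtain ⟨k, rfl⟩ := h
  simp only [sat, mem_iUnion, mem_preimage]
  constructor
  · rintro ⟨n, hn⟩
    exact ⟨n + k, by rw [pw_add]; exact hn⟩
  · rintro ⟨n, hn⟩
    refine ⟨n - k, ?_⟩
    rw [← pw_add, sub_add_cancel]
    exact hn

theorem measurableSet_sat {N : Set X} (hN : MeasurableSet N) : MeasurableSet (sat T N) :=
  MeasurableSet.iUnion fun n => measurable_pw T n hN

theorem sat_null (hT : MeasurePreserving T μ μ) {N : Set X} (hN : μ N = 0) : μ (sat T N) = 0 := by
  rw [sat, measure_iUnion_null_iff]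
  intro n
  exact (mp_pw T hT n).quasiMeasurePreserving.preimage_null hN

/-- a partial isomorphism with conull domain is given by an element of the full group -/
theorem exists_equiv [IsFiniteMeasure μ] (hT : MeasurePreserving T μ μ)
    (hRo : ∀ x, Orb T x (R x)) (P : PIso T R S) (h0 : μ P.Aᶜ = 0) : ∃ U : X ≃ᵐ X, (∀ x, Orb T x (U x)) ∧ ∀ᵐ x ∂μ, U (R x) = S (U x) := by
  classical
  obtain ⟨g, hg, hg1, hBm, hg2⟩ := P.exists_inv
  have hB0 : μ P.Bᶜ = 0 := by
    have h1 := (measure_image hT P.hA P.hφ P.inj P.orb)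
    have h2 : μ P.A = μ univ := by
      have := measure_add_measure_compl P.hA (μ := μ)
      rw [h0, add_zero] at this
      exact this
    have h3 : μ P.B = μ univ := h1.2.trans h2
    rw [measure_compl hBm (measure_ne_top μ _), h3, tsub_self]
  set N : Set X := sat T (P.Aᶜ ∪ P.Bᶜ) with hN
  have hN0 : μ N = 0 := sat_null hT (measure_union_null h0 hB0)
  have hNm : MeasurableSet N := measurableSet_sat (P.hA.compl.union hBm.compl)
  have hNA : ∀ x ∉ N, x ∈ P.A := fun x hx => by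
    by_contra h
    exact hx (subset_sat _ (Or.inl h))
  have hNB : ∀ x ∉ N, x ∈ P.B := fun x hx => by
    by_contra h
    exact hx (subset_sat _ (Or.inr h))
  have horb : ∀ x ∉ N, P.φ x ∉ N := fun x hx h => hx ((mem_sat_iff (P.orb x (hNA x hx))).mp h)
  have horb2 : ∀ x ∉ N, g x ∉ N := fun x hx h => hx ((mem_sat_iff (hg2 x (hNB x hx))).mp h)
  have hgr : ∀ x ∉ N, P.φ (g x) = x := by
    intro x hx
    obtain ⟨a, ha, rfl⟩ := hNB x hx
    rw [hg1 a ha]
  let U : X ≃ᵐ X :=
    { toFun := fun x => if x ∈ N then x else P.φ x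
      invFun := fun x => if x ∈ N then x else g x
      left_inv := fun x => by
        by_cases hx : x ∈ N
        · simp only [hx, if_true]
        · simp only [hx, if_false, horb x hx]
          exact hg1 x (hNA x hx)
      right_inv := fun x => by
        by_cases hx : x ∈ N
        · simp only [hx, if_true]
        · simp only [hx, if_false, horb2 x hx]
          exact hgr x hx
      measurable_toFun := Measurable.ite hNm measurable_id P.hφ
      measurable_invFun := Measurable.ite hNm measurable_id hg }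
  have hU : ∀ x, U x = if x ∈ N then x else P.φ x := fun x => rfl
  refine ⟨U, fun x => ?_, ?_⟩
  · rw [hU]
    split_ifs with hx
    · exact Orb.refl x
    · exact P.orb x (hNA x hx)
  · have h1 : ∀ᵐ x ∂μ, x ∉ N := measure_eq_zero_iff_ae_notMem.mp hN0
    filter_upwards [h1] with x hx
    have hx' : R x ∉ N := fun h => hx ((mem_sat_iff (hRo x)).mp h)
    rw [hU, hU, if_neg hx, if_neg hx', P.eqv x (hNA x hx)]

end Pool.Agent.V11255.FG
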