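import Mathlib
import Pool.Agent.V11255.FG3

set_option autoImplicit false
set_option linter.unusedSectionVars false

open Set MeasureTheory Filter Topology
open scoped ENNReal

namespace Pool.Agent.V11255.FG

variable {X : Type} [MeasurableSpace X] [StandardBorelSpace X] {T : X ≃ᵐ X} {μ : Measure X}

/-- ergodic transformations of atomless spaces have no periodic points, almost everywhere -/
theorem ae_free [IsProbabilityMeasure μ] [NullSingletonClass μ] (hT : Ergodic T μ) :
    ∀ᵐ x ∂μ, ∀ n : ℤ, n ≠ 0 → pw T n x ≠ x := by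
  -- positive periods suffice
  have key : ∀ n : ℕ, ∀ᵐ x ∂μ, pw T ((n : ℤ) + 1) x ≠ x := by
    intro n
    by_contra hcon
    set N : ℤ := (n : ℤ) + 1 with hN
    have hfix : MeasurableSet {x | pw T N x = x} :=
      measurableSet_eq_fun (measurable_pw T N) measurable_id
    -- the set of periodic points is invariant so of full measure
    have hinv : T ⁻¹' {x | pw T N x = x} = {x | pw T N x = x} := by
      ext x
      simp only [mem_preimage, mem_ofPred_eq]
      have h1 : pw T N (T x) = T (pw T N x) := by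
        rw [← pw_one T x, ← pw_add, add_comm N 1, pw_add, pw_one]
      rw [h1]
      exact T.injective.eq_iff
    have hfull : ∀ᵐ x ∂μ, pw T N x = x := by
      rcases hT.toPreErgodic.ae_mem_or_ae_notMem hfix hinv with h | h
      · exact h
      · exact absurd h hcon
    obtain ⟨e, he⟩ := exists_measurableEmbedding_real X
    -- the maximum along the cycle
    let H : X → ℝ := fun x => (Finset.range (n + 1)).sup' ⟨0, by simp⟩ fun k => e (pw T (k : ℤ) x)
    have hHm : Measurable H := by
      have : H = (Finset.range (n + 1)).sup' ⟨0, by simp⟩ fun k x => e (pw T (k : ℤ) x) := by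
        funext x
        simp only [H, Finset.sup'_apply]
      rw [this]
      exact Finset.measurable_sup' _ fun k _ => he.measurable.comp (measurable_pw T _)
    have hHinv : H ∘ T =ᵐ[μ] H := by
      filter_upwards [hfull] with x hx
      simp only [Function.comp_apply, H]
      have h2 : ∀ k : ℕ, pw T (k : ℤ) (T x) = pw T ((k + 1 : ℕ) : ℤ) x := by
        intro k
        rw [← pw_one T x, ← pw_add]
        push_cast
        rfl
      apply le_antisymm
      · refine Finset.sup'_le _ _ fun k hk => ?_
        rw [h2]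
        rcases Nat.lt_succ_iff_lt_or_eq.mp (Finset.mem_range.mp hk) with h | h
        · exact Finset.le_sup' (fun k : ℕ => e (pw T (k : ℤ) x)) (Finset.mem_range.mpr (by omega))
        · subst h
          have h3 : pw T ((k + 1 : ℕ) : ℤ) x = pw T ((0 : ℕ) : ℤ) x := by
            have : ((k + 1 : ℕ) : ℤ) = N := by push_cast; rfl
            rw [this, hx, Nat.cast_zero, pw_zero]
          rw [h3]
          exact Finset.le_sup' (fun k : ℕ => e (pw T (k : ℤ) x)) (Finset.mem_range.mpr (by omega))
      · refine Finset.sup'_le _ _ fun k hk => ?_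
        rcases k with _ | k
        · have h3 : pw T ((0 : ℕ) : ℤ) x = pw T (n : ℤ) (T x) := by
            rw [h2 n]
            have : ((n + 1 : ℕ) : ℤ) = N := by push_cast; rfl
            rw [this, hx, Nat.cast_zero, pw_zero]
          rw [h3]
          exact Finset.le_sup' (fun k : ℕ => e (pw T (k : ℤ) (T x))) (Finset.mem_range.mpr (by omega))
        · rw [← h2 k]
          exact Finset.le_sup' (fun k : ℕ => e (pw T (k : ℤ) (T x)))
            (Finset.mem_range.mpr (by have := Finset.mem_range.mp hk; omega))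
    obtain ⟨c, hc⟩ := hT.quasiErgodic.ae_eq_const_of_ae_eq_comp₀ hHm.nullMeasurable hHinv
    have hnull : ∀ k : ℕ, ∀ᵐ x ∂μ, e (pw T (k : ℤ) x) ≠ c := by
      intro k
      have h4 : μ (e ⁻¹' {c}) = 0 := by
        apply Set.Subsingleton.measure_zero
        intro a ha b hb
        exact he.injective (ha.trans hb.symm)
      have h5 := (mp_pw T hT.toMeasurePreserving (k : ℤ)).quasiMeasurePreserving.preimage_null h4
      rw [measure_eq_zero_iff_ae_notMem] at h5
      filter_upwards [h5] with x hx h
      exact hx h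
    have hall : ∀ᵐ x ∂μ, ∀ k : ℕ, e (pw T (k : ℤ) x) ≠ c := ae_all_iff.mpr hnull
    have hF : ∀ᵐ x ∂μ, False := by
      filter_upwards [hc, hall] with x h1 h2
      obtain ⟨k, -, hk⟩ := Finset.exists_mem_eq_sup' (s := Finset.range (n + 1)) ⟨0, by simp⟩
        fun k : ℕ => e (pw T (k : ℤ) x)
      apply h2 k
      rw [← hk]
      exact h1
    obtain ⟨x, hx⟩ := hF.exists
    exact hx
  have h1 : ∀ᵐ x ∂μ, ∀ n : ℕ, pw T ((n : ℤ) + 1) x ≠ x := ae_all_iff.mpr key
  filter_upwards [h1] with x hx n hn h
  rcases lt_or_gt_of_ne hn with h2 | h2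
  · obtain ⟨m, hm⟩ : ∃ m : ℕ, n = -((m : ℤ) + 1) := ⟨(-n - 1).toNat, by omega⟩
    apply hx m
    rw [hm] at h
    have h3 := congrArg (pw T ((m : ℤ) + 1)) h
    rw [pw_neg'] at h3
    exact h3.symm
  · obtain ⟨m, hm⟩ : ∃ m : ℕ, n = (m : ℤ) + 1 := ⟨(n - 1).toNat, by omega⟩
    exact hx m (hm ▸ h)

/-- the measure on the equivalence relation -/
noncomputable def MM (T : X ≃ᵐ X) (μ : Measure X) : Measure (X × X) :=
  Measure.sum fun n : ℤ => μ.map fun x => (x, pw T n x)

theorem measurable_pair (n : ℤ) : Measurable fun x => (x, pw T n x) :=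
  measurable_id.prodMk (measurable_pw T n)

theorem MM_apply {C : Set (X × X)} (hC : MeasurableSet C) :
    MM T μ C = ∑' n : ℤ, μ {x | (x, pw T n x) ∈ C} := by
  rw [MM, Measure.sum_apply _ hC]
  congr 1
  funext n
  rw [Measure.map_apply (measurable_pair n) hC]
  rfl

theorem lintegral_MM {F : X × X → ℝ≥0∞} (hF : Measurable F) :
    ∫⁻ p, F p ∂(MM T μ) = ∫⁻ x, ∑' n : ℤ, F (x, pw T n x) ∂μ := by
  rw [MM, lintegral_sum_measure, lintegral_tsum]
  · congr 1
    funext n
    rw [lintegral_map hF (measurable_pair n)]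
  · intro n
    exact (hF.comp (measurable_pair n)).aemeasurable

instance [IsFiniteMeasure μ] : SFinite (MM T μ) := by
  unfold MM
  infer_instance

theorem mp_left (hT : MeasurePreserving T μ μ) {S : X ≃ᵐ X} (hS : MeasurePreserving S μ μ)
    (hSo : ∀ x, Orb T x (S x)) :
    MeasurePreserving (fun p : X × X => (S p.1, p.2)) (MM T μ) (MM T μ) := by
  have hm : Measurable (fun p : X × X => (S p.1, p.2)) :=
    (S.measurable.comp measurable_fst).prodMk measurable_snd
  refine ⟨hm, ?_⟩
  refine Measure.ext_of_lintegral _ fun F hF => ?_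
  have hF' : Measurable fun p : X × X => F (S p.1, p.2) := hF.comp hm
  have hG : Measurable fun z => ∑' n : ℤ, F (z, pw T n z) :=
    Measurable.tsum fun n => hF.comp (measurable_pair n)
  calc ∫⁻ p, F p ∂(Measure.map (fun p : X × X => (S p.1, p.2)) (MM T μ))
      = ∫⁻ p, F (S p.1, p.2) ∂(MM T μ) := lintegral_map hF hm
    _ = ∫⁻ x, ∑' n : ℤ, F (S x, pw T n x) ∂μ := lintegral_MM hF'
    _ = ∫⁻ x, (fun z => ∑' n : ℤ, F (z, pw T n z)) (S x) ∂μ := by
        congr 1
        funext x
        obtain ⟨k, hk⟩ := hSo x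
        rw [← (Equiv.addRight k).tsum_eq fun n : ℤ => F (S x, pw T n x)]
        congr 1
        funext n
        simp only [Equiv.coe_addRight]
        rw [pw_add, ← hk]
    _ = ∫⁻ x, ∑' n : ℤ, F (x, pw T n x) ∂μ := hS.lintegral_comp hG
    _ = ∫⁻ p, F p ∂(MM T μ) := (lintegral_MM hF).symm

theorem mp_swap (hT : MeasurePreserving T μ μ) :
    MeasurePreserving (Prod.swap : X × X → X × X) (MM T μ) (MM T μ) := by
  refine ⟨measurable_swap, ?_⟩
  refine Measure.ext_of_lintegral _ fun F hF => ?_
  have hF' : Measurable fun p : X × X => F p.swap := hF.comp measurable_swap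
  rw [lintegral_map hF measurable_swap, MM, lintegral_sum_measure, lintegral_sum_measure,
    ← (Equiv.neg ℤ).tsum_eq]
  congr 1
  funext n
  rw [lintegral_map hF' (measurable_pair _), lintegral_map hF (measurable_pair _)]
  simp only [Equiv.neg_apply, Prod.swap_prod_mk]
  have h1 := (mp_pw T hT n).lintegral_comp (f := fun x => F (pw T (-n) x, x))
    (hF.comp ((measurable_pw T _).prodMk measurable_id))
  rw [← h1]
  congr 1
  funext x
  rw [pw_neg]

theorem mp_right (hT : MeasurePreserving T μ μ) {S : X ≃ᵐ X} (hS : MeasurePreserving S μ μ)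
    (hSo : ∀ x, Orb T x (S x)) :
    MeasurePreserving (fun p : X × X => (p.1, S p.2)) (MM T μ) (MM T μ) :=
  (mp_swap hT).comp ((mp_left hT hS hSo).comp (mp_swap hT))

theorem mp_both (hT : MeasurePreserving T μ μ) {S S' : X ≃ᵐ X} (hS : MeasurePreserving S μ μ)
    (hS' : MeasurePreserving S' μ μ) (hSo : ∀ x, Orb T x (S x)) (hSo' : ∀ x, Orb T x (S' x)) :
    MeasurePreserving (fun p : X × X => (S p.1, S' p.2)) (MM T μ) (MM T μ) :=
  (mp_left hT hS hSo).comp (mp_right hT hS' hSo')

/-- elements of the full group preserve the measure -/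
theorem mp_of_orb (hT : MeasurePreserving T μ μ) {S : X ≃ᵐ X} (hSo : ∀ x, Orb T x (S x)) :
    MeasurePreserving S μ μ := by
  refine ⟨S.measurable, ?_⟩
  ext C hC
  rw [Measure.map_apply S.measurable hC]
  have h := measure_image (μ := μ) hT (S.measurable hC) S.measurable S.injective.injOn
    fun x _ => hSo x
  rw [image_preimage_eq C S.surjective] at h
  exact h.2.symm

/-- the graph -/
def gr (U : X ≃ᵐ X) : Set (X × X) := {p | U p.1 = p.2}

theorem measurableSet_gr (U : X ≃ᵐ X) : MeasurableSet (gr U) :=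
  measurableSet_eq_fun (U.measurable.comp measurable_fst) measurable_snd

theorem MM_gr (hfree : ∀ᵐ x ∂μ, ∀ n : ℤ, n ≠ 0 → pw T n x ≠ x) {U : X ≃ᵐ X}
    (hU : ∀ x, Orb T x (U x)) {C : Set (X × X)} (hC : MeasurableSet C) :
    MM T μ (gr U ∩ C) = μ {x | (x, U x) ∈ C} := by
  classical
  have hm : MeasurableSet (gr U ∩ C) := (measurableSet_gr U).inter hC
  rw [← lintegral_indicator_one hm, lintegral_MM (measurable_one.indicator hm)]
  have hm' : MeasurableSet {x | (x, U x) ∈ C} := (measurable_id.prodMk U.measurable) hC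
  rw [← lintegral_indicator_one hm']
  refine lintegral_congr_ae ?_
  filter_upwards [hfree] with x hx
  obtain ⟨k, hk⟩ := hU x
  rw [tsum_eq_single k]
  · simp only [indicator, gr, mem_inter_iff, mem_ofPred_eq, hk, true_and, Pi.one_apply]
  · intro n hn
    have : ¬ (U x = pw T n x) := by
      intro h
      rw [hk] at h
      apply hx (n - k) (sub_ne_zero.mpr hn)
      rw [sub_eq_add_neg, add_comm, pw_add, ← h, pw_neg]
    simp only [indicator, gr, mem_inter_iff, mem_ofPred_eq, this, false_and, if_false]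

end Pool.Agent.V11255.FG
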