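import Mathlib
import Pool.Agent.V11255.FG4

set_option autoImplicit false
set_option linter.unusedSectionVars false

open Set MeasureTheory Filter Topology
open scoped ENNReal

namespace Pool.Agent.V11255.FG

variable {X : Type} [MeasurableSpace X] [StandardBorelSpace X] {T : X ≃ᵐ X} {μ : Measure X}

/-- the indicator of a graph -/
noncomputable def ig (U : X ≃ᵐ X) (p : X × X) : ℝ := (gr U).indicator (fun _ => (1 : ℝ)) p

theorem ig_nonneg (U : X ≃ᵐ X) (p : X × X) : 0 ≤ ig U p := by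
  unfold ig indicator
  split_ifs <;> norm_num

theorem ig_le_one (U : X ≃ᵐ X) (p : X × X) : ig U p ≤ 1 := by
  unfold ig indicator
  split_ifs <;> norm_num

theorem ig_of (U : X ≃ᵐ X) {p : X × X} (h : U p.1 = p.2) : ig U p = 1 :=
  indicator_of_mem (show p ∈ gr U from h) _

theorem ig_of_not (U : X ≃ᵐ X) {p : X × X} (h : U p.1 ≠ p.2) : ig U p = 0 :=
  indicator_of_notMem (show p ∉ gr U from h) _

theorem measurable_ig (U : X ≃ᵐ X) : Measurable (ig U) :=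
  measurable_const.indicator (measurableSet_gr U)

/-- the frequency with which the orbit of `p` under `S × S'` visits the graph of `U` -/
noncomputable def frq (S S' U : X ≃ᵐ X) (N : ℕ) (p : X × X) : ℝ :=
  (N : ℝ)⁻¹ * ∑ n ∈ Finset.range N, ig U (S^[n] p.1, S'^[n] p.2)

theorem measurable_frq (S S' U : X ≃ᵐ X) (N : ℕ) : Measurable (frq S S' U N) := by
  unfold frq
  refine Measurable.const_mul (Finset.measurable_sum _ fun n _ => ?_) _
  exact (measurable_ig U).comp (((S.measurable.iterate n).comp measurable_fst).prodMk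
    ((S'.measurable.iterate n).comp measurable_snd))

theorem frq_nonneg (S S' U : X ≃ᵐ X) (N : ℕ) (p : X × X) : 0 ≤ frq S S' U N p :=
  mul_nonneg (by positivity) (Finset.sum_nonneg fun _ _ => ig_nonneg _ _)

theorem frq_le_of (S S' U : X ≃ᵐ X) (N : ℕ) (p q : X × X)
    (h : ∀ n, ig U (S^[n] p.1, S'^[n] p.2) + ig U (S^[n] q.1, S'^[n] q.2) ≤ 1) :
    frq S S' U N p + frq S S' U N q ≤ 1 := by
  rw [frq, frq, ← mul_add, ← Finset.sum_add_distrib]
  have h1 : ∑ n ∈ Finset.range N, (ig U (S^[n] p.1, S'^[n] p.2) + ig U (S^[n] q.1, S'^[n] q.2))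
      ≤ N := by
    refine (Finset.sum_le_sum fun n _ => h n).trans ?_
    simp
  rcases Nat.eq_zero_or_pos N with rfl | hN
  · simp
  · have hN' : (0 : ℝ) < N := by exact_mod_cast hN
    calc (N : ℝ)⁻¹ * _ ≤ (N : ℝ)⁻¹ * N := mul_le_mul_of_nonneg_left h1 (by positivity)
      _ = 1 := inv_mul_cancel₀ hN'.ne'

theorem ig_add_le (U : X ≃ᵐ X) {p q : X × X} (h : ¬ (U p.1 = p.2 ∧ U q.1 = q.2)) :
    ig U p + ig U q ≤ 1 := by
  by_cases h1 : U p.1 = p.2
  · rw [ig_of_not U (p := q) fun h2 => h ⟨h1, h2⟩, add_zero]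
    exact ig_le_one _ _
  · rw [ig_of_not U h1, zero_add]
    exact ig_le_one _ _

theorem frq_fst (S S' U : X ≃ᵐ X) (N : ℕ) {x y z : X} (h : y ≠ z) :
    frq S S' U N (x, y) + frq S S' U N (x, z) ≤ 1 := by
  refine frq_le_of S S' U N _ _ fun n => ig_add_le U ?_
  rintro ⟨h1, h2⟩
  exact h (S'.injective.iterate n (h1.symm.trans h2))

theorem frq_snd (S S' U : X ≃ᵐ X) (N : ℕ) {x y z : X} (h : x ≠ y) :
    frq S S' U N (x, z) + frq S S' U N (y, z) ≤ 1 := by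
  refine frq_le_of S S' U N _ _ fun n => ig_add_le U ?_
  rintro ⟨h1, h2⟩
  exact h (S.injective.iterate n (U.injective (h1.trans h2.symm)))

theorem frq_le_one (S S' U : X ≃ᵐ X) (N : ℕ) (p : X × X) : frq S S' U N p ≤ 1 := by
  rw [frq]
  have h1 : ∑ n ∈ Finset.range N, ig U (S^[n] p.1, S'^[n] p.2) ≤ N := by
    refine (Finset.sum_le_sum fun n _ => ig_le_one U _).trans ?_
    simp
  rcases Nat.eq_zero_or_pos N with rfl | hN
  · simp
  · have hN' : (0 : ℝ) < N := by exact_mod_cast hN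
    calc (N : ℝ)⁻¹ * _ ≤ (N : ℝ)⁻¹ * N := mul_le_mul_of_nonneg_left h1 (by positivity)
      _ = 1 := inv_mul_cancel₀ hN'.ne'

theorem frq_shift (S S' U : X ≃ᵐ X) (N : ℕ) (x y : X) :
    |frq S S' U N (S x, S' y) - frq S S' U N (x, y)| ≤ (N : ℝ)⁻¹ := by
  rw [frq, frq, ← mul_sub]
  have h1 : ∑ n ∈ Finset.range N, ig U (S^[n] (S x), S'^[n] (S' y)) -
      ∑ n ∈ Finset.range N, ig U (S^[n] x, S'^[n] y) = ig U (S^[N] x, S'^[N] y) - ig U (x, y) := by
    rw [← Finset.sum_sub_distrib]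
    have := Finset.sum_range_sub (fun n => ig U (S^[n] x, S'^[n] y)) N
    simpa only [Function.iterate_succ_apply, Function.iterate_zero, id] using this
  rw [h1, abs_mul, abs_of_nonneg (by positivity : (0 : ℝ) ≤ (N : ℝ)⁻¹)]
  have h2 : |ig U (S^[N] x, S'^[N] y) - ig U (x, y)| ≤ 1 := by
    rw [abs_le]
    constructor
    · linarith [ig_nonneg U (S^[N] x, S'^[N] y), ig_le_one U (x, y)]
    · linarith [ig_nonneg U (x, y), ig_le_one U (S^[N] x, S'^[N] y)]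
  calc (N : ℝ)⁻¹ * _ ≤ (N : ℝ)⁻¹ * 1 := mul_le_mul_of_nonneg_left h2 (by positivity)
    _ = (N : ℝ)⁻¹ := mul_one _

/-! ### The partial isomorphism -/

/-- the set of pairs with large frequency -/
def GG (S S' U : X ≃ᵐ X) (ν : ℕ → ℕ) : Set (X × X) :=
  {p | ∃ j : ℕ, ∃ K : ℕ, ∀ k ≥ K, 1 / 2 + 1 / ((j : ℝ) + 1) ≤ frq S S' U (ν k) p}

theorem measurableSet_GG (S S' U : X ≃ᵐ X) (ν : ℕ → ℕ) : MeasurableSet (GG S S' U ν) := by
  have : GG S S' U ν = ⋃ j : ℕ, ⋃ K : ℕ, ⋂ k : ℕ, ⋂ (_ : k ≥ K),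
      {p | 1 / 2 + 1 / ((j : ℝ) + 1) ≤ frq S S' U (ν k) p} := by
    ext p
    simp only [GG, mem_ofPred_eq, mem_iUnion, mem_iInter]
  rw [this]
  exact MeasurableSet.iUnion fun j => MeasurableSet.iUnion fun K => MeasurableSet.iInter fun k =>
    MeasurableSet.iInter fun _ => measurableSet_le measurable_const (measurable_frq _ _ _ _)

theorem GG_fst {S S' U : X ≃ᵐ X} {ν : ℕ → ℕ} {x y z : X} (h : (x, y) ∈ GG S S' U ν)
    (h' : (x, z) ∈ GG S S' U ν) : y = z := by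
  by_contra hne
  obtain ⟨j, K, hK⟩ := h
  obtain ⟨j', K', hK'⟩ := h'
  have h1 := hK (max K K') (le_max_left _ _)
  have h2 := hK' (max K K') (le_max_right _ _)
  have h3 := frq_fst S S' U (ν (max K K')) (x := x) hne
  have h4 : (0 : ℝ) < 1 / ((j : ℝ) + 1) := by positivity
  have h5 : (0 : ℝ) < 1 / ((j' : ℝ) + 1) := by positivity
  linarith

theorem GG_snd {S S' U : X ≃ᵐ X} {ν : ℕ → ℕ} {x y z : X} (h : (x, z) ∈ GG S S' U ν)
    (h' : (y, z) ∈ GG S S' U ν) : x = y := by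
  by_contra hne
  obtain ⟨j, K, hK⟩ := h
  obtain ⟨j', K', hK'⟩ := h'
  have h1 := hK (max K K') (le_max_left _ _)
  have h2 := hK' (max K K') (le_max_right _ _)
  have h3 := frq_snd S S' U (ν (max K K')) (z := z) hne
  have h4 : (0 : ℝ) < 1 / ((j : ℝ) + 1) := by positivity
  have h5 : (0 : ℝ) < 1 / ((j' : ℝ) + 1) := by positivity
  linarith

theorem GG_aux {S S' U : X ≃ᵐ X} {ν : ℕ → ℕ} (hν : StrictMono ν) {p q : X × X}
    (hpq : ∀ N, |frq S S' U N p - frq S S' U N q| ≤ (N : ℝ)⁻¹) (h : p ∈ GG S S' U ν) :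
    q ∈ GG S S' U ν := by
  obtain ⟨j, K, hK⟩ := h
  refine ⟨2 * j + 1, max K (2 * j + 2), fun k hk => ?_⟩
  have h1 := hK k ((le_max_left _ _).trans hk)
  have h2 : 2 * j + 2 ≤ ν k := ((le_max_right _ _).trans hk).trans (hν.id_le k)
  have h3 := (abs_le.mp (hpq (ν k))).2
  have h4 : ((ν k : ℕ) : ℝ)⁻¹ ≤ ((2 * j + 2 : ℕ) : ℝ)⁻¹ :=
    inv_anti₀ (by positivity) (by exact_mod_cast h2)
  have h5 : ((2 * j + 2 : ℕ) : ℝ)⁻¹ = 1 / ((j : ℝ) + 1) / 2 := by
    push_cast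
    field_simp
  have h6 : 1 / (((2 * j + 1 : ℕ) : ℝ) + 1) = 1 / ((j : ℝ) + 1) / 2 := by
    push_cast
    have : (2 * (j : ℝ) + 1 + 1) = ((j : ℝ) + 1) * 2 := by ring
    rw [this]
    field_simp
  rw [h6]
  rw [h5] at h4
  linarith

theorem GG_shift {S S' U : X ≃ᵐ X} {ν : ℕ → ℕ} (hν : StrictMono ν) (x y : X) :
    (S x, S' y) ∈ GG S S' U ν ↔ (x, y) ∈ GG S S' U ν :=
  ⟨GG_aux hν fun N => frq_shift S S' U N x y,
    GG_aux hν fun N => by rw [abs_sub_comm]; exact frq_shift S S' U N x y⟩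

/-- the partial isomorphism -/
theorem exists_piso_GG {S S' U : X ≃ᵐ X} (hS : ∀ x, Orb T x (S x)) (hS' : ∀ x, Orb T x (S' x))
    {ν : ℕ → ℕ} (hν : StrictMono ν) :
    ∃ P : PIso T S S', ∀ x, x ∈ P.A ↔ ∃ y, Orb T x y ∧ (x, y) ∈ GG S S' U ν := by
  classical
  let p : ℕ → X → Prop := fun n x => (x, pw T (en n) x) ∈ GG S S' U ν
  have hp : ∀ n, MeasurableSet {x | p n x} := fun n =>
    (measurable_pair (T := T) (en n)) (measurableSet_GG S S' U ν)
  let A : Set X := {x | ∃ n, p n x}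
  have hA : MeasurableSet A := by
    have : A = ⋃ n, {x | p n x} := by
      ext x
      simp only [A, mem_ofPred_eq, mem_iUnion]
    rw [this]
    exact MeasurableSet.iUnion hp
  have hA' : ∀ x, x ∈ A ↔ ∃ y, Orb T x y ∧ (x, y) ∈ GG S S' U ν := by
    intro x
    constructor
    · rintro ⟨n, hn⟩
      exact ⟨_, ⟨_, rfl⟩, hn⟩
    · rintro ⟨y, ⟨m, rfl⟩, hy⟩
      obtain ⟨n, rfl⟩ := en_surj m
      exact ⟨n, hy⟩
  have hex : ∀ x, ∃ n, p n x ∨ x ∉ A := by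
    intro x
    by_cases hx : x ∈ A
    · obtain ⟨n, hn⟩ := hx
      exact ⟨n, Or.inl hn⟩
    · exact ⟨0, Or.inr hx⟩
  let φ : X → X := fun x => pw T (en (Nat.find (hex x))) x
  have hφm : Measurable φ := Measurable.find (f := fun n => pw T (en n))
    (p := fun n x => p n x ∨ x ∉ A) (fun n => measurable_pw T (en n)) (fun n => (hp n).union hA.compl) hex
  have hφ : ∀ x ∈ A, (x, φ x) ∈ GG S S' U ν := by
    intro x hx
    rcases Nat.find_spec (hex x) with h | h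
    · exact h
    · exact absurd hx h
  have hφo : ∀ x, Orb T x (φ x) := fun x => ⟨_, rfl⟩
  have hu : ∀ x y, Orb T x y → (x, y) ∈ GG S S' U ν → x ∈ A ∧ φ x = y := by
    intro x y ho h
    have hx : x ∈ A := (hA' x).mpr ⟨y, ho, h⟩
    exact ⟨hx, GG_fst (hφ x hx) h⟩
  have hstep : ∀ x ∈ A, S x ∈ A ∧ φ (S x) = S' (φ x) := by
    intro x hx
    apply hu
    · exact (hS x).symm.trans ((hφo x).trans (hS' _))
    · exact (GG_shift hν _ _).mpr (hφ x hx)
  refine ⟨⟨A, φ, hA, hφm, fun x => ⟨fun h => ?_, fun h => (hstep x h).1⟩, ?_,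
    fun x hx => (hstep x hx).2, fun x _ => hφo x⟩, hA'⟩
  · rw [hA']
    refine ⟨S'.symm (φ (S x)), ?_, ?_⟩
    · have h1 : Orb T (S'.symm (φ (S x))) (φ (S x)) := by
        have := hS' (S'.symm (φ (S x)))
        rwa [S'.apply_symm_apply] at this
      exact (hS x).trans ((hφo _).trans h1.symm)
    · rw [← GG_shift hν, S'.apply_symm_apply]
      exact hφ _ h
  · intro x hx z hz h
    have h1 := hφ x hx
    rw [h] at h1
    exact GG_snd h1 (hφ z hz)

/-! ### The ergodic theorem -/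

theorem ae_graph (hfree : ∀ᵐ x ∂μ, ∀ n : ℤ, n ≠ 0 → pw T n x ≠ x) {U : X ≃ᵐ X}
    (hU : ∀ x, Orb T x (U x)) {q : X × X → Prop} (h : ∀ᵐ p ∂(MM T μ), q p) :
    ∀ᵐ x ∂μ, q (x, U x) := by
  obtain ⟨C, hC1, hC2, hC3⟩ := exists_measurable_superset_of_null (ae_iff.mp h)
  have h1 := MM_gr hfree hU hC2
  have h2 : μ {x | (x, U x) ∈ C} = 0 := by
    rw [← h1]
    exact measure_mono_null inter_subset_right hC3
  rw [ae_iff]
  exact measure_mono_null (fun x hx => hC1 hx) h2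

theorem iterate_pair (S S' : X → X) (n : ℕ) (p : X × X) :
    (fun p : X × X => (S p.1, S' p.2))^[n] p = (S^[n] p.1, S'^[n] p.2) := by
  induction n with
  | zero => rfl
  | succ n ih => rw [Function.iterate_succ_apply', ih, Function.iterate_succ_apply',
      Function.iterate_succ_apply']

theorem exists_subseq (hT : MeasurePreserving T μ μ) [IsProbabilityMeasure μ]
    (hfree : ∀ᵐ x ∂μ, ∀ n : ℤ, n ≠ 0 → pw T n x ≠ x)
    {S S' U : X ≃ᵐ X} (hS : ∀ x, Orb T x (S x)) (hS' : ∀ x, Orb T x (S' x))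
    (hU : ∀ x, Orb T x (U x)) {φ : ℕ → ℕ} (hφ : StrictMono φ) :
    ∃ ψ : ℕ → ℕ, StrictMono ψ ∧ ∃ h : X → ℝ, Measurable h ∧
      ∀ᵐ x ∂μ, Tendsto (fun k => frq S S' U (φ (ψ k)) (x, U x)) atTop (𝓝 (h x)) := by
  have hW : MeasurePreserving (fun p : X × X => (S p.1, S' p.2)) (MM T μ) (MM T μ) :=
    mp_both hT (mp_of_orb hT hS) (mp_of_orb hT hS') hS hS'
  have hfin : MM T μ (gr U) ≠ ∞ := by
    have := MM_gr hfree hU (C := univ) MeasurableSet.univ
    rw [inter_univ] at this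
    rw [this]
    exact measure_ne_top μ _
  let ξ : Lp ℝ 2 (MM T μ) := indicatorConstLp 2 (measurableSet_gr U) hfin (1 : ℝ)
  have hξ : (ξ : X × X → ℝ) =ᵐ[MM T μ] ig U := indicatorConstLp_coeFn
  let K : Lp ℝ 2 (MM T μ) →L[ℝ] Lp ℝ 2 (MM T μ) :=
    (Lp.compMeasurePreservingₗᵢ ℝ _ hW).toContinuousLinearMap
  have hK : ‖K‖ ≤ 1 := LinearIsometry.norm_toContinuousLinearMap_le _
  obtain ⟨ζ, hlim⟩ : ∃ ζ : Lp ℝ 2 (MM T μ),
      Tendsto (birkhoffAverage ℝ K _root_.id · ξ) atTop (𝓝 ζ) :=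
    ⟨_, ContinuousLinearMap.tendsto_birkhoffAverage_orthogonalProjection K hK ξ⟩
  have hlim3 := (tendstoInMeasure_of_tendsto_Lp (hlim.comp hφ.tendsto_atTop))
  obtain ⟨ψ, hψ, hae⟩ := hlim3.exists_seq_tendsto_ae
  have hit : ∀ n, (K^[n] ξ : Lp ℝ 2 (MM T μ)) =ᵐ[MM T μ]
      fun p => ig U (S^[n] p.1, S'^[n] p.2) := by
    intro n
    have h1 : K^[n] ξ = Lp.compMeasurePreserving _ (hW.iterate n) ξ := by
      have h2 := Lp.compMeasurePreserving_iterate (E := ℝ) (p := 2) hW n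
      rw [← h2]
      rfl
    rw [h1]
    have h3 := Lp.coeFn_compMeasurePreserving ξ (hW.iterate n)
    have h4 := (hW.iterate n).quasiMeasurePreserving.ae_eq_comp hξ
    filter_upwards [h3, h4] with p hp3 hp4
    rw [hp3, hp4, Function.comp_apply, iterate_pair]
  have havg : ∀ N, (birkhoffAverage ℝ K _root_.id N ξ : Lp ℝ 2 (MM T μ)) =ᵐ[MM T μ]
      frq S S' U N := by
    intro N
    rw [birkhoffAverage, birkhoffSum]
    have h1 := Lp.coeFn_smul ((N : ℝ)⁻¹) (∑ k ∈ Finset.range N, _root_.id (K^[k] ξ))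
    have h2 := Lp.coeFn_fun_finsetSum (Finset.range N) fun k => _root_.id (K^[k] ξ)
    have h3 : ∀ᵐ p ∂(MM T μ), ∀ n, (K^[n] ξ : Lp ℝ 2 (MM T μ)) p =
        ig U (S^[n] p.1, S'^[n] p.2) := ae_all_iff.mpr hit
    filter_upwards [h1, h2, h3] with p hp1 hp2 hp3
    rw [hp1, Pi.smul_apply, hp2, frq, smul_eq_mul]
    congr 1
    exact Finset.sum_congr rfl fun n _ => hp3 n
  have hall : ∀ᵐ p ∂(MM T μ), ∀ N, (birkhoffAverage ℝ K _root_.id N ξ : Lp ℝ 2 (MM T μ)) p =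
      frq S S' U N p := ae_all_iff.mpr havg
  have hfinal : ∀ᵐ p ∂(MM T μ), ∃ l : ℝ, Tendsto (fun k => frq S S' U (φ (ψ k)) p) atTop (𝓝 l) := by
    filter_upwards [hae, hall] with p h1 h2
    exact ⟨ζ p, h1.congr fun k => h2 _⟩
  have hX := ae_graph hfree hU hfinal
  have hmeas := measurable_limit_of_tendsto_metrizable_ae (μ := μ) (L := atTop)
    (f := fun k x => frq S S' U (φ (ψ k)) (x, U x))
    (fun k => ((measurable_frq _ _ _ _).comp (measurable_id.prodMk U.measurable)).aemeasurable) hX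
  obtain ⟨h, hh1, hh2⟩ := hmeas
  exact ⟨ψ, hψ, h, hh1, hh2⟩

end Pool.Agent.V11255.FG
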