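import Mathlib
import Pool.Agent.V11255.FG5

set_option autoImplicit false
set_option linter.unusedSectionVars false

open Set MeasureTheory Filter Topology
open scoped ENNReal

namespace Pool.Agent.V11255.FG

variable {X : Type} [MeasurableSpace X] [StandardBorelSpace X] {T : X ≃ᵐ X} {μ : Measure X}

/-- the measure of the set where `U S ^ n = S' ^ n U` -/
noncomputable def agr (μ : Measure X) (S S' U : X ≃ᵐ X) (n : ℕ) : ℝ :=
  μ.real {x | U (S^[n] x) = S'^[n] (U x)}

/-- the average -/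
noncomputable def avg (μ : Measure X) (S S' U : X ≃ᵐ X) (N : ℕ) : ℝ :=
  (N : ℝ)⁻¹ * ∑ n ∈ Finset.range N, agr μ S S' U n

theorem integral_frq [IsProbabilityMeasure μ] (S S' U : X ≃ᵐ X) (N : ℕ) :
    ∫ x, frq S S' U N (x, U x) ∂μ = avg μ S S' U N := by
  unfold frq avg
  rw [integral_const_mul, integral_finsetSum]
  · congr 1
    refine Finset.sum_congr rfl fun n _ => ?_
    have hm : MeasurableSet {x | U (S^[n] x) = S'^[n] (U x)} :=
      measurableSet_eq_fun (U.measurable.comp (S.measurable.iterate n))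
        ((S'.measurable.iterate n).comp U.measurable)
    rw [agr, ← integral_indicator_one hm]
    rfl
  · intro n _
    have hm : Measurable fun x => ig U (S^[n] x, S'^[n] (U x)) :=
      (measurable_ig U).comp ((S.measurable.iterate n).prodMk
        ((S'.measurable.iterate n).comp U.measurable))
    refine Integrable.of_bound hm.aestronglyMeasurable 1 (Eventually.of_forall fun x => ?_)
    rw [Real.norm_eq_abs, abs_of_nonneg (ig_nonneg _ _)]
    exact ig_le_one _ _

theorem exists_piso (hT : MeasurePreserving T μ μ) [IsProbabilityMeasure μ]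
    (hfree : ∀ᵐ x ∂μ, ∀ n : ℤ, n ≠ 0 → pw T n x ≠ x)
    {S S' U : X ≃ᵐ X} (hS : ∀ x, Orb T x (S x)) (hS' : ∀ x, Orb T x (S' x))
    (hU : ∀ x, Orb T x (U x)) {δ : ℝ} (hfr : ∃ᶠ N in atTop, 1 - δ < avg μ S S' U N) :
    ∃ P : PIso T S S', μ.real P.Aᶜ ≤ 2 * δ := by
  obtain ⟨φ, hφ, hφ2⟩ := extraction_of_frequently_atTop hfr
  obtain ⟨ψ, hψ, h, hhm, hh⟩ := exists_subseq hT hfree hS hS' hU hφ
  obtain ⟨P, hP⟩ := exists_piso_GG (U := U) hS hS' (hφ.comp hψ)
  refine ⟨P, ?_⟩
  have hlim : Tendsto (fun k => ∫ x, frq S S' U (φ (ψ k)) (x, U x) ∂μ) atTop (𝓝 (∫ x, h x ∂μ)) := by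
    refine tendsto_integral_of_dominated_convergence (fun _ => (1 : ℝ)) ?_ (integrable_const 1) ?_ hh
    · intro k
      exact ((measurable_frq _ _ _ _).comp (measurable_id.prodMk U.measurable)).aestronglyMeasurable
    · intro k
      refine Eventually.of_forall fun x => ?_
      rw [Real.norm_eq_abs, abs_of_nonneg (frq_nonneg _ _ _ _ _)]
      exact frq_le_one _ _ _ _ _
  have hint : 1 - δ ≤ ∫ x, h x ∂μ := by
    refine ge_of_tendsto' hlim fun k => ?_
    rw [integral_frq]
    exact (hφ2 (ψ k)).le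
  have h01 : ∀ᵐ x ∂μ, 0 ≤ h x ∧ h x ≤ 1 := by
    filter_upwards [hh] with x hx
    exact ⟨ge_of_tendsto' hx fun k => frq_nonneg _ _ _ _ _,
      le_of_tendsto' hx fun k => frq_le_one _ _ _ _ _⟩
  have hhi : Integrable h μ := by
    refine Integrable.of_bound hhm.aestronglyMeasurable 1 ?_
    filter_upwards [h01] with x hx
    rw [Real.norm_eq_abs, abs_of_nonneg hx.1]
    exact hx.2
  have hsub : ∀ᵐ x ∂μ, x ∈ P.Aᶜ → x ∈ {x | 1 / 2 ≤ 1 - h x} := by
    filter_upwards [hh] with x hx hxA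
    by_contra hcon
    simp only [mem_ofPred_eq, not_le] at hcon
    apply hxA
    rw [hP]
    refine ⟨U x, hU x, ?_⟩
    obtain ⟨j, hj⟩ := exists_nat_one_div_lt (show (0 : ℝ) < h x - 1 / 2 by linarith)
    have h1 := hx.eventually (lt_mem_nhds (show 1 / 2 + 1 / ((j : ℝ) + 1) < h x by linarith))
    obtain ⟨K, hK⟩ := eventually_atTop.mp h1
    exact ⟨j, K, fun k hk => (hK k hk).le⟩
  have h1 : μ.real P.Aᶜ ≤ μ.real {x | 1 / 2 ≤ 1 - h x} := by
    rw [measureReal_def, measureReal_def]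
    exact ENNReal.toReal_mono (measure_ne_top μ _) (measure_mono_ae hsub)
  have h2 := mul_meas_ge_le_integral_of_nonneg (μ := μ) (f := fun x => 1 - h x)
    (by filter_upwards [h01] with x hx; simp only [Pi.zero_apply]; linarith [hx.2])
    ((integrable_const 1).sub hhi) (1 / 2)
  have h3 : ∫ x, (1 - h x) ∂μ = 1 - ∫ x, h x ∂μ := by
    rw [integral_sub (integrable_const 1) hhi]
    simp
  rw [h3] at h2
  linarith

/-! ### Continuity -/

/-- distance -/
noncomputable def dd (μ : Measure X) (U V : X ≃ᵐ X) : ℝ := μ.real {x | U x ≠ V x}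

theorem measurableSet_ne (U V : X ≃ᵐ X) : MeasurableSet {x | U x ≠ V x} :=
  (measurableSet_eq_fun U.measurable V.measurable).compl

theorem dd_iterate [IsFiniteMeasure μ] {S R : X ≃ᵐ X} (hS : MeasurePreserving S μ μ) (n : ℕ) :
    μ.real {x | S^[n] x ≠ R^[n] x} ≤ n * dd μ S R := by
  induction n with
  | zero => simp
  | succ n ih =>
    have hsub : {x | S^[n + 1] x ≠ R^[n + 1] x} ⊆
        {x | S^[n] x ≠ R^[n] x} ∪ (S^[n]) ⁻¹' {x | S x ≠ R x} := by
      intro x hx
      by_contra hcon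
      simp only [mem_union, mem_ofPred_eq, mem_preimage, not_or, not_not] at hcon
      apply hx
      rw [Function.iterate_succ_apply', Function.iterate_succ_apply', hcon.2, hcon.1]
    calc μ.real {x | S^[n + 1] x ≠ R^[n + 1] x} ≤ _ := measureReal_mono hsub
      _ ≤ μ.real {x | S^[n] x ≠ R^[n] x} + μ.real ((S^[n]) ⁻¹' {x | S x ≠ R x}) :=
        measureReal_union_le _ _
      _ = μ.real {x | S^[n] x ≠ R^[n] x} + dd μ S R := by
        rw [dd, measureReal_def, measureReal_def, measureReal_def,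
          (hS.iterate n).measure_preimage (measurableSet_ne S R).nullMeasurableSet]
      _ ≤ ((n + 1 : ℕ) : ℝ) * dd μ S R := by push_cast; linarith

theorem real_le_add [IsFiniteMeasure μ] {A B C : Set X} (h : A ⊆ B ∪ C) :
    μ.real A ≤ μ.real B + μ.real C :=
  (measureReal_mono h).trans (measureReal_union_le _ _)

/-- `agr` is Lipschitz in the transformations -/
theorem agr_le [IsFiniteMeasure μ] {S S' R R' : X ≃ᵐ X} (U : X ≃ᵐ X)
    (hS : MeasurePreserving S μ μ) (hS' : MeasurePreserving S' μ μ)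
    (hU : MeasurePreserving U μ μ) (n : ℕ) :
    agr μ S S' U n ≤ agr μ R R' U n + n * (dd μ S R + dd μ S' R') := by
  have hsub : {x | U (S^[n] x) = S'^[n] (U x)} ⊆
      {x | U (R^[n] x) = R'^[n] (U x)} ∪ ({x | S^[n] x ≠ R^[n] x} ∪ U ⁻¹' {x | S'^[n] x ≠ R'^[n] x}) := by
    intro x hx
    by_contra hcon
    simp only [mem_union, mem_ofPred_eq, mem_preimage, not_or, not_not] at hcon
    apply hcon.1
    rw [← hcon.2.1, ← hcon.2.2]
    exact hx
  have h1 := dd_iterate (μ := μ) (R := R) hS n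
  have h2 := dd_iterate (μ := μ) (R := R') hS' n
  have h3 : μ.real (U ⁻¹' {x | S'^[n] x ≠ R'^[n] x}) = μ.real {x | S'^[n] x ≠ R'^[n] x} := by
    rw [measureReal_def, measureReal_def, hU.measure_preimage]
    exact (measurableSet_eq_fun (S'.measurable.iterate n)
      (R'.measurable.iterate n)).compl.nullMeasurableSet
  have h4 := real_le_add (μ := μ) hsub
  have h5 := measureReal_union_le (μ := μ) {x | S^[n] x ≠ R^[n] x} (U ⁻¹' {x | S'^[n] x ≠ R'^[n] x})
  rw [agr, agr]
  nlinarith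

/-- `agr` is Lipschitz in the conjugating map -/
theorem agr_le' [IsFiniteMeasure μ] {S S' U V : X ≃ᵐ X} (hS : MeasurePreserving S μ μ) (n : ℕ) :
    agr μ S S' U n ≤ agr μ S S' V n + 2 * dd μ U V := by
  have hsub : {x | U (S^[n] x) = S'^[n] (U x)} ⊆
      {x | V (S^[n] x) = S'^[n] (V x)} ∪ ({x | U x ≠ V x} ∪ (S^[n]) ⁻¹' {x | U x ≠ V x}) := by
    intro x hx
    by_contra hcon
    simp only [mem_union, mem_ofPred_eq, mem_preimage, not_or, not_not] at hcon
    apply hcon.1
    rw [← hcon.2.1, ← hcon.2.2]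
    exact hx
  have h3 : μ.real ((S^[n]) ⁻¹' {x | U x ≠ V x}) = dd μ U V := by
    rw [dd, measureReal_def, measureReal_def, (hS.iterate n).measure_preimage]
    exact (measurableSet_ne U V).nullMeasurableSet
  have h4 := real_le_add (μ := μ) hsub
  have h5 := measureReal_union_le (μ := μ) {x | U x ≠ V x} ((S^[n]) ⁻¹' {x | U x ≠ V x})
  rw [h3] at h5
  rw [agr, agr]
  have h6 : μ.real {x | U x ≠ V x} = dd μ U V := rfl
  linarith

theorem agr_eq_one [IsProbabilityMeasure μ] {S S' U : X ≃ᵐ X} (hS : MeasurePreserving S μ μ)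
    (h : ∀ᵐ x ∂μ, U (S x) = S' (U x)) (n : ℕ) : agr μ S S' U n = 1 := by
  have h1 : ∀ᵐ x ∂μ, U (S^[n] x) = S'^[n] (U x) := by
    induction n with
    | zero => exact Eventually.of_forall fun x => rfl
    | succ n ih =>
      have h2 := (hS.iterate n).quasiMeasurePreserving.ae h
      filter_upwards [ih, h2] with x h3 h4
      rw [Function.iterate_succ_apply', Function.iterate_succ_apply', h4, h3]
  have h2 : {x | U (S^[n] x) = S'^[n] (U x)} =ᵐ[μ] univ := by
    filter_upwards [h1] with x hx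
    exact propext ⟨fun _ => trivial, fun _ => hx⟩
  rw [agr, measureReal_def, measure_congr h2, measure_univ, ENNReal.toReal_one]

end Pool.Agent.V11255.FG
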