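import Mathlib

set_option autoImplicit false

open Set MeasureTheory Topology

namespace Pool.Agent.V11255.FG

variable {X : Type} [MeasurableSpace X]

/-- The full group `[T]` of an automorphism `T` of the measurable space `X`, before the
identification modulo `μ`-null sets: the measurable bijections `U` (with measurable inverse) such
that `U x` lies in the orbit `{T ^ n x : n ∈ ℤ}` for every `x`.  (`μ` only serves to define the
topology below.) -/
@[ext]
structure FullGroup (T : X ≃ᵐ X) (μ : Measure X) where
  /-- the underlying bijection -/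
  toEquiv : X ≃ᵐ X
  /-- every point stays in its `T`-orbit -/
  mem_orbit : ∀ x, ∃ n : ℤ, toEquiv x = ((T.toEquiv : Equiv.Perm X) ^ n) x

variable {T : X ≃ᵐ X} {μ : Measure X}

namespace FullGroup

/-- the group operation is composition -/
instance : Group (FullGroup T μ) where
  mul U V := ⟨V.toEquiv.trans U.toEquiv, fun x => by
    obtain ⟨n, hn⟩ := V.mem_orbit x
    obtain ⟨m, hm⟩ := U.mem_orbit (V.toEquiv x)
    refine ⟨m + n, ?_⟩
    rw [zpow_add, Equiv.Perm.mul_apply, ← hn]
    exact hm⟩
  one := ⟨MeasurableEquiv.refl X, fun x => ⟨0, by simp⟩⟩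
  inv U := ⟨U.toEquiv.symm, fun x => by
    obtain ⟨n, hn⟩ := U.mem_orbit (U.toEquiv.symm x)
    refine ⟨-n, ?_⟩
    rw [U.toEquiv.apply_symm_apply] at hn
    rw [zpow_neg]
    apply ((T.toEquiv : Equiv.Perm X) ^ n).injective
    rw [← hn]
    exact (((T.toEquiv : Equiv.Perm X) ^ n).apply_symm_apply x).symm⟩
  mul_assoc U V W := rfl
  one_mul U := rfl
  mul_one U := rfl
  inv_mul_cancel U := by
    apply FullGroup.ext
    apply MeasurableEquiv.ext
    funext x
    exact U.toEquiv.symm_apply_apply x

@[simp] theorem mul_apply (U V : FullGroup T μ) (x : X) :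
    (U * V).toEquiv x = U.toEquiv (V.toEquiv x) := rfl

@[simp] theorem one_apply (x : X) : (1 : FullGroup T μ).toEquiv x = x := rfl

@[simp] theorem inv_toEquiv (U : FullGroup T μ) : (U⁻¹).toEquiv = U.toEquiv.symm := rfl

/-- the uniform pseudometric `μ {x | U x ≠ V x}` -/
noncomputable instance [StandardBorelSpace X] [IsFiniteMeasure μ] :
    PseudoMetricSpace (FullGroup T μ) where
  dist U V := μ.real {x | U.toEquiv x ≠ V.toEquiv x}
  dist_self U := by simp
  dist_comm U V := by simp only [ne_comm]
  dist_triangle U V W := by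
    refine (measureReal_mono ?_).trans (measureReal_union_le _ _)
    intro x hx
    by_contra h
    simp only [mem_union, mem_ofPred_eq, not_or, not_not] at h
    exact hx (h.1.trans h.2)

theorem dist_def [StandardBorelSpace X] [IsFiniteMeasure μ] (U V : FullGroup T μ) :
    dist U V = μ.real {x | U.toEquiv x ≠ V.toEquiv x} := rfl

end FullGroup

end Pool.Agent.V11255.FG
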