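import Mathlib
import Pool.Agent.V11255.FG6
import Pool.Agent.V11255.FGDefs

set_option autoImplicit false
set_option linter.unusedSectionVars false

open Set MeasureTheory Filter Topology
open scoped ENNReal

namespace Pool.Agent.V11255.FG

variable {X : Type} [MeasurableSpace X] [StandardBorelSpace X] {T : X ≃ᵐ X} {μ : Measure X}

theorem FullGroup.orb (U : FullGroup T μ) (x : X) : Orb T x (U.toEquiv x) := U.mem_orbit x

/-- if the indicators of graphs are close in L¹ then so are the maps -/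
theorem le_norm_sub [IsProbabilityMeasure μ]
    (hfree : ∀ᵐ x ∂μ, ∀ n : ℤ, n ≠ 0 → pw T n x ≠ x) {U V : X ≃ᵐ X} (hU : ∀ x, Orb T x (U x))
    (f g : Lp ℝ 1 (MM T μ)) (hf : (f : X × X → ℝ) =ᵐ[MM T μ] ig U)
    (hg : (g : X × X → ℝ) =ᵐ[MM T μ] ig V) : dd μ U V ≤ ‖f - g‖ := by
  have h1 : μ {x | U x ≠ V x} = MM T μ (gr U ∩ (gr V)ᶜ) := by
    rw [MM_gr hfree hU (measurableSet_gr V).compl]
    congr 1
    ext x
    simp only [gr, mem_ofPred_eq, mem_compl_iff, ne_eq, eq_comm]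
  have hm : MeasurableSet (gr U ∩ (gr V)ᶜ) := (measurableSet_gr U).inter (measurableSet_gr V).compl
  have h2 : MM T μ (gr U ∩ (gr V)ᶜ) ≤ ‖f - g‖ₑ := by
    rw [Lp.enorm_def, eLpNorm_one_eq_lintegral_enorm, ← lintegral_indicator_one hm]
    refine lintegral_mono_ae ?_
    filter_upwards [hf, hg, Lp.coeFn_sub f g] with p h3 h4 h5
    rw [h5, Pi.sub_apply, h3, h4]
    by_cases hp : p ∈ gr U ∩ (gr V)ᶜ
    · rw [indicator_of_mem hp, ig_of U hp.1, ig_of_not V hp.2]
      simp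
    · rw [indicator_of_notMem hp]
      exact zero_le
  rw [dd, measureReal_def, h1]
  have h3 : (‖f - g‖ₑ).toReal = ‖f - g‖ := by simp
  rw [← h3]
  exact ENNReal.toReal_mono (by simp) h2

theorem exists_dense [IsProbabilityMeasure μ]
    (hfree : ∀ᵐ x ∂μ, ∀ n : ℤ, n ≠ 0 → pw T n x ≠ x) :
    ∃ u : ℕ → FullGroup T μ, ∀ (V : FullGroup T μ) (ε : ℝ), 0 < ε →
      ∃ i, dd μ (u i).toEquiv V.toEquiv < ε := by
  have hfin : ∀ U : FullGroup T μ, MM T μ (gr U.toEquiv) ≠ ∞ := by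
    intro U
    have := MM_gr hfree U.orb (C := univ) MeasurableSet.univ
    rw [inter_univ] at this
    rw [this]
    exact measure_ne_top μ _
  let Φ : FullGroup T μ → Lp ℝ 1 (MM T μ) := fun U =>
    indicatorConstLp 1 (measurableSet_gr U.toEquiv) (hfin U) (1 : ℝ)
  have hΦ : ∀ U, (Φ U : X × X → ℝ) =ᵐ[MM T μ] ig U.toEquiv := fun U => indicatorConstLp_coeFn
  have : Nonempty (range Φ) := ⟨⟨Φ 1, mem_range_self _⟩⟩
  have : Fact ((1 : ℝ≥0∞) ≠ ∞) := ⟨ENNReal.one_ne_top⟩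
  have : SecondCountableTopology (Lp ℝ 1 (MM T μ)) := Lp.SecondCountableTopology
  obtain ⟨d, hd⟩ := TopologicalSpace.exists_dense_seq (range Φ)
  choose u hu using fun n => (d n).2
  refine ⟨u, fun V ε hε => ?_⟩
  obtain ⟨i, hi⟩ := Metric.denseRange_iff.mp hd ⟨Φ V, mem_range_self V⟩ ε hε
  refine ⟨i, ?_⟩
  have h1 := le_norm_sub hfree (u i).orb (Φ (u i)) (Φ V) (hΦ _) (hΦ V)
  rw [Subtype.dist_eq, ← hu i, dist_comm, dist_eq_norm] at hi
  exact h1.trans_lt hi

/-- the main equivalence -/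
theorem conj_iff [IsProbabilityMeasure μ] (hT : MeasurePreserving T μ μ)
    (hfree : ∀ᵐ x ∂μ, ∀ n : ℤ, n ≠ 0 → pw T n x ≠ x) {u : ℕ → FullGroup T μ}
    (hu : ∀ (V : FullGroup T μ) (ε : ℝ), 0 < ε → ∃ i, dd μ (u i).toEquiv V.toEquiv < ε)
    (S S' : FullGroup T μ) :
    (∃ U : FullGroup T μ, ∀ᵐ x ∂μ, U.toEquiv (S.toEquiv x) = S'.toEquiv (U.toEquiv x)) ↔
    ∀ m : ℕ, ∃ i : ℕ, ∀ N₀ : ℕ, ∃ N : ℕ, N₀ ≤ N ∧
      1 - 1 / ((m : ℝ) + 1) < avg μ S.toEquiv S'.toEquiv (u i).toEquiv N := by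
  constructor
  · rintro ⟨U, hU⟩ m
    have hm : (0 : ℝ) < 1 / ((m : ℝ) + 1) / 2 := by positivity
    obtain ⟨i, hi⟩ := hu U _ hm
    refine ⟨i, fun N₀ => ⟨max N₀ 1, le_max_left _ _, ?_⟩⟩
    have hN : 0 < max N₀ 1 := lt_of_lt_of_le one_pos (le_max_right _ _)
    generalize max N₀ 1 = N at hN
    have hN' : (0 : ℝ) < N := by exact_mod_cast hN
    have h1 : ∀ n, 1 - 2 * dd μ (u i).toEquiv U.toEquiv ≤
        agr μ S.toEquiv S'.toEquiv (u i).toEquiv n := by
      intro n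
      have h2 := agr_eq_one (mp_of_orb hT S.orb) hU n
      have h3 := agr_le' (μ := μ) (S := S.toEquiv) (S' := S'.toEquiv) (U := U.toEquiv)
        (V := (u i).toEquiv) (mp_of_orb hT S.orb) n
      have h4 : dd μ U.toEquiv (u i).toEquiv = dd μ (u i).toEquiv U.toEquiv := by
        simp only [dd, ne_comm]
      rw [h2, h4] at h3
      linarith
    have h5 : (N : ℝ) * (1 - 2 * dd μ (u i).toEquiv U.toEquiv) ≤
        ∑ n ∈ Finset.range N, agr μ S.toEquiv S'.toEquiv (u i).toEquiv n := by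
      have := Finset.sum_le_sum (s := Finset.range N) fun n _ => h1 n
      rwa [Finset.sum_const, Finset.card_range, nsmul_eq_mul] at this
    rw [avg]
    have h6 : 1 - 2 * dd μ (u i).toEquiv U.toEquiv ≤ (N : ℝ)⁻¹ *
        ∑ n ∈ Finset.range N, agr μ S.toEquiv S'.toEquiv (u i).toEquiv n := by
      rw [inv_mul_eq_div, le_div_iff₀ hN']
      linarith
    linarith
  · intro h
    have hP : ∀ n : ℕ, ∃ P : PIso T S.toEquiv S'.toEquiv, μ P.Aᶜ ≤ (n + 1 : ℝ≥0∞)⁻¹ := by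
      intro n
      obtain ⟨i, hi⟩ := h (2 * n + 1)
      have hfr : ∃ᶠ N in atTop, 1 - 1 / (((2 * n + 1 : ℕ) : ℝ) + 1) <
          avg μ S.toEquiv S'.toEquiv (u i).toEquiv N := by
        rw [frequently_atTop]
        intro N₀
        obtain ⟨N, hN, hN2⟩ := hi N₀
        exact ⟨N, hN, hN2⟩
      obtain ⟨P, hP⟩ := exists_piso hT hfree S.orb S'.orb (u i).orb hfr
      refine ⟨P, ?_⟩
      have h1 : 2 * (1 / (((2 * n + 1 : ℕ) : ℝ) + 1)) = ((n : ℝ) + 1)⁻¹ := by
        push_cast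
        have : (2 * (n : ℝ) + 1 + 1) = 2 * ((n : ℝ) + 1) := by ring
        rw [this]
        field_simp
      rw [h1, measureReal_def] at hP
      rw [← ENNReal.ofReal_toReal (measure_ne_top μ P.Aᶜ)]
      refine (ENNReal.ofReal_le_ofReal hP).trans ?_
      rw [ENNReal.ofReal_inv_of_pos (by positivity)]
      apply le_of_eq
      congr 1
      rw [ENNReal.ofReal_add (by positivity) (by positivity), ENNReal.ofReal_natCast,
        ENNReal.ofReal_one]
    obtain ⟨P, hP0⟩ := exists_full hT hP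
    obtain ⟨U, hU1, hU2⟩ := exists_equiv hT S.orb P hP0
    exact ⟨⟨U, hU1⟩, hU2⟩

/-! ### Topology -/

theorem dist_eq_dd [IsProbabilityMeasure μ] (U V : FullGroup T μ) :
    dist U V = dd μ U.toEquiv V.toEquiv := rfl

theorem continuous_agr [IsProbabilityMeasure μ] (hT : MeasurePreserving T μ μ)
    (U : FullGroup T μ) (n : ℕ) :
    Continuous fun p : FullGroup T μ × FullGroup T μ => agr μ p.1.toEquiv p.2.toEquiv U.toEquiv n := by
  have h : LipschitzWith (2 * n)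
      fun p : FullGroup T μ × FullGroup T μ => agr μ p.1.toEquiv p.2.toEquiv U.toEquiv n := by
    refine LipschitzWith.of_le_add_mul _ fun p q => ?_
    have h1 := agr_le (μ := μ) (R := q.1.toEquiv) (R' := q.2.toEquiv) U.toEquiv
      (mp_of_orb hT p.1.orb) (mp_of_orb hT p.2.orb) (mp_of_orb hT U.orb) n
    have h2 : dd μ p.1.toEquiv q.1.toEquiv ≤ dist p q := by
      rw [← dist_eq_dd, Prod.dist_eq]
      exact le_max_left _ _
    have h3 : dd μ p.2.toEquiv q.2.toEquiv ≤ dist p q := by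
      rw [← dist_eq_dd, Prod.dist_eq]
      exact le_max_right _ _
    have h4 : (n : ℝ) * (dd μ p.1.toEquiv q.1.toEquiv + dd μ p.2.toEquiv q.2.toEquiv) ≤
        n * (dist p q + dist p q) := mul_le_mul_of_nonneg_left (add_le_add h2 h3) (by positivity)
    push_cast
    linarith
  exact h.continuous

theorem continuous_avg [IsProbabilityMeasure μ] (hT : MeasurePreserving T μ μ)
    (U : FullGroup T μ) (N : ℕ) :
    Continuous fun p : FullGroup T μ × FullGroup T μ => avg μ p.1.toEquiv p.2.toEquiv U.toEquiv N :=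
  continuous_const.mul (continuous_finsetSum _ fun n _ => continuous_agr hT U n)

theorem borel_conj [IsProbabilityMeasure μ] [NullSingletonClass μ] (hT : Ergodic T μ) :
    MeasurableSet[borel (FullGroup T μ × FullGroup T μ)]
      {p : FullGroup T μ × FullGroup T μ |
        ∃ U : FullGroup T μ, ∀ᵐ x ∂μ, U.toEquiv (p.1.toEquiv x) = p.2.toEquiv (U.toEquiv x)} := by
  borelize (FullGroup T μ × FullGroup T μ)
  have hfree := ae_free hT
  obtain ⟨u, hu⟩ := exists_dense hfree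
  have : {p : FullGroup T μ × FullGroup T μ |
        ∃ U : FullGroup T μ, ∀ᵐ x ∂μ, U.toEquiv (p.1.toEquiv x) = p.2.toEquiv (U.toEquiv x)} =
      ⋂ m : ℕ, ⋃ i : ℕ, ⋂ N₀ : ℕ, ⋃ N : ℕ, ⋃ (_ : N₀ ≤ N),
        {p | 1 - 1 / ((m : ℝ) + 1) < avg μ p.1.toEquiv p.2.toEquiv (u i).toEquiv N} := by
    ext p
    rw [mem_ofPred_eq, conj_iff hT.toMeasurePreserving hfree hu]
    simp only [mem_iInter, mem_iUnion, mem_ofPred_eq, exists_prop]
  rw [this]
  refine MeasurableSet.iInter fun m => MeasurableSet.iUnion fun i => MeasurableSet.iInter fun N₀ =>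
    MeasurableSet.iUnion fun N => MeasurableSet.iUnion fun _ => IsOpen.measurableSet ?_
  exact isOpen_lt continuous_const (continuous_avg hT.toMeasurePreserving (u i) N)

end Pool.Agent.V11255.FG
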