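import Mathlib
import Pool.Agent.V11255.FG7

set_option autoImplicit false
set_option linter.unusedSectionVars false

open Set MeasureTheory Filter Topology
open scoped ENNReal

namespace Pool.Agent.V11255.FG

variable {X : Type} [MeasurableSpace X] [StandardBorelSpace X] {T : X ≃ᵐ X} {μ : Measure X}

theorem FullGroup.mp (hT : MeasurePreserving T μ μ) (U : FullGroup T μ) :
    MeasurePreserving U.toEquiv μ μ := mp_of_orb hT U.orb

theorem FullGroup.dist_mul_le [IsFiniteMeasure μ] (hT : MeasurePreserving T μ μ)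
    (U V U' V' : FullGroup T μ) : dist (U * V) (U' * V') ≤ dist U U' + dist V V' := by
  have hsub : {x | (U * V).toEquiv x ≠ (U' * V').toEquiv x} ⊆
      V.toEquiv ⁻¹' {x | U.toEquiv x ≠ U'.toEquiv x} ∪ {x | V.toEquiv x ≠ V'.toEquiv x} := by
    intro x hx
    by_contra h
    simp only [mem_union, mem_preimage, mem_ofPred_eq, not_or, not_not] at h
    apply hx
    rw [FullGroup.mul_apply, FullGroup.mul_apply, h.1, h.2]
  have h1 : μ.real (V.toEquiv ⁻¹' {x | U.toEquiv x ≠ U'.toEquiv x}) = dist U U' := by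
    rw [FullGroup.dist_def, measureReal_def, measureReal_def,
      (V.mp hT).measure_preimage (measurableSet_ne _ _).nullMeasurableSet]
  have h2 := real_le_add (μ := μ) hsub
  rw [h1] at h2
  exact h2

theorem FullGroup.dist_inv [IsFiniteMeasure μ] (hT : MeasurePreserving T μ μ)
    (U V : FullGroup T μ) : dist U⁻¹ V⁻¹ = dist U V := by
  rw [FullGroup.dist_def, FullGroup.dist_def, measureReal_def, measureReal_def,
    ← (U.mp hT).measure_preimage (measurableSet_ne _ _).nullMeasurableSet]
  congr 2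
  ext x
  simp only [mem_preimage, mem_ofPred_eq, FullGroup.inv_toEquiv, ne_eq,
    MeasurableEquiv.symm_apply_apply]
  rw [not_iff_not]
  constructor
  · intro h
    have := congrArg V.toEquiv h
    rw [MeasurableEquiv.apply_symm_apply] at this
    exact this.symm
  · intro h
    rw [h, MeasurableEquiv.symm_apply_apply]

/-- the full group is a topological group -/
theorem FullGroup.isTopologicalGroup [IsFiniteMeasure μ] (hT : MeasurePreserving T μ μ) :
    IsTopologicalGroup (FullGroup T μ) where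
  continuous_mul := by
    refine LipschitzWith.continuous (K := 2) ?_
    refine LipschitzWith.of_dist_le_mul fun p q => ?_
    have h1 := FullGroup.dist_mul_le hT p.1 p.2 q.1 q.2
    have h2 : dist p.1 q.1 ≤ dist p q := by
      rw [Prod.dist_eq]; exact le_max_left _ _
    have h3 : dist p.2 q.2 ≤ dist p q := by
      rw [Prod.dist_eq]; exact le_max_right _ _
    push_cast
    linarith
  continuous_inv := by
    refine LipschitzWith.continuous (K := 1) ?_
    refine LipschitzWith.of_dist_le_mul fun p q => ?_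
    rw [FullGroup.dist_inv hT]
    simp

theorem mk_conj_iff [IsProbabilityMeasure μ] (hT : MeasurePreserving T μ μ)
    (S S' U : FullGroup T μ) :
    (SeparationQuotient.mk (U * S * U⁻¹) = SeparationQuotient.mk S') ↔
      ∀ᵐ x ∂μ, U.toEquiv (S.toEquiv x) = S'.toEquiv (U.toEquiv x) := by
  rw [SeparationQuotient.mk_eq_mk, Metric.inseparable_iff, FullGroup.dist_def, measureReal_def,
    ENNReal.toReal_eq_zero_iff, or_iff_left (measure_ne_top μ _),
    ← (U.mp hT).measure_preimage (measurableSet_ne _ _).nullMeasurableSet, ae_iff]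
  have : U.toEquiv ⁻¹' {x | (U * S * U⁻¹).toEquiv x ≠ S'.toEquiv x} =
      {a | ¬U.toEquiv (S.toEquiv a) = S'.toEquiv (U.toEquiv a)} := by
    ext x
    simp only [mem_preimage, mem_ofPred_eq, FullGroup.mul_apply, FullGroup.inv_toEquiv,
      MeasurableEquiv.symm_apply_apply, ne_eq]
  rw [this]

/-- closed description of conjugacy in the full group -/
theorem closed_desc [IsProbabilityMeasure μ] (hT : MeasurePreserving T μ μ)
    (hfree : ∀ᵐ x ∂μ, ∀ n : ℤ, n ≠ 0 → pw T n x ≠ x) {u : ℕ → FullGroup T μ}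
    (hu : ∀ (V : FullGroup T μ) (ε : ℝ), 0 < ε → ∃ i, dd μ (u i).toEquiv V.toEquiv < ε)
    (S S' : FullGroup T μ) :
    (∃ U : FullGroup T μ, ∀ᵐ x ∂μ, U.toEquiv (S.toEquiv x) = S'.toEquiv (U.toEquiv x)) ↔
    ∀ m : ℕ, ∃ i : ℕ, ∀ N : ℕ, 0 < N →
      1 - 1 / ((m : ℝ) + 1) ≤ avg μ S.toEquiv S'.toEquiv (u i).toEquiv N := by
  constructor
  · rintro ⟨U, hU⟩ m
    have hm : (0 : ℝ) < 1 / ((m : ℝ) + 1) / 2 := by positivity
    obtain ⟨i, hi⟩ := hu U _ hm
    refine ⟨i, fun N hN => ?_⟩
    have hN' : (0 : ℝ) < N := by exact_mod_cast hN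
    have h1 : ∀ n, 1 - 2 * dd μ (u i).toEquiv U.toEquiv ≤
        agr μ S.toEquiv S'.toEquiv (u i).toEquiv n := by
      intro n
      have h2 := agr_eq_one (mp_of_orb hT S.orb) hU n
      have h3 := agr_le' (μ := μ) (S := S.toEquiv) (S' := S'.toEquiv) (U := U.toEquiv)
        (V := (u i).toEquiv) (mp_of_orb hT S.orb) n
      have h4 : dd μ U.toEquiv (u i).toEquiv = dd μ (u i).toEquiv U.toEquiv := by
        simp only [dd, ne_comm]
      rw [h2, h4] at h3
      linarith
    have h5 : (N : ℝ) * (1 - 2 * dd μ (u i).toEquiv U.toEquiv) ≤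
        ∑ n ∈ Finset.range N, agr μ S.toEquiv S'.toEquiv (u i).toEquiv n := by
      have := Finset.sum_le_sum (s := Finset.range N) fun n _ => h1 n
      rwa [Finset.sum_const, Finset.card_range, nsmul_eq_mul] at this
    rw [avg]
    have h6 : 1 - 2 * dd μ (u i).toEquiv U.toEquiv ≤ (N : ℝ)⁻¹ *
        ∑ n ∈ Finset.range N, agr μ S.toEquiv S'.toEquiv (u i).toEquiv n := by
      rw [inv_mul_eq_div, le_div_iff₀ hN']
      linarith
    linarith
  · intro h
    rw [conj_iff hT hfree hu]
    intro m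
    obtain ⟨i, hi⟩ := h (m + 1)
    refine ⟨i, fun N₀ => ⟨max N₀ 1, le_max_left _ _, ?_⟩⟩
    refine lt_of_lt_of_le ?_ (hi _ (lt_of_lt_of_le one_pos (le_max_right _ _)))
    have : 1 / (((m + 1 : ℕ) : ℝ) + 1) < 1 / ((m : ℝ) + 1) := by
      apply one_div_lt_one_div_of_lt (by positivity)
      push_cast
      linarith
    linarith

theorem main [IsProbabilityMeasure μ] [NullSingletonClass μ] (hT : Ergodic T μ) :
    haveI := FullGroup.isTopologicalGroup (μ := μ) hT.toMeasurePreserving
    ∃ F : ℕ → ℕ → Set (SeparationQuotient (FullGroup T μ) × SeparationQuotient (FullGroup T μ)),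
      (∀ m i, IsClosed (F m i)) ∧
      {p : SeparationQuotient (FullGroup T μ) × SeparationQuotient (FullGroup T μ) |
        IsConj p.1 p.2} = ⋂ m, ⋃ i, F m i := by
  have := FullGroup.isTopologicalGroup (μ := μ) hT.toMeasurePreserving
  have hfree := ae_free hT
  obtain ⟨u, hu⟩ := exists_dense hfree
  let q : FullGroup T μ × FullGroup T μ →
      SeparationQuotient (FullGroup T μ) × SeparationQuotient (FullGroup T μ) :=
    Prod.map SeparationQuotient.mk SeparationQuotient.mk
  have hq : IsInducing q :=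
    SeparationQuotient.isInducing_mk.prodMap SeparationQuotient.isInducing_mk
  have hqs : Function.Surjective q :=
    SeparationQuotient.surjective_mk.prodMap SeparationQuotient.surjective_mk
  have hF : ∀ m i : ℕ, ∃ F : Set (SeparationQuotient (FullGroup T μ) ×
      SeparationQuotient (FullGroup T μ)), IsClosed F ∧ q ⁻¹' F =
      {p | ∀ N : ℕ, 0 < N → 1 - 1 / ((m : ℝ) + 1) ≤
        avg μ p.1.toEquiv p.2.toEquiv (u i).toEquiv N} := by
    intro m i
    rw [← hq.isClosed_iff]
    have : {p : FullGroup T μ × FullGroup T μ | ∀ N : ℕ, 0 < N → 1 - 1 / ((m : ℝ) + 1) ≤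
        avg μ p.1.toEquiv p.2.toEquiv (u i).toEquiv N} = ⋂ N : ℕ, ⋂ (_ : 0 < N),
        {p | 1 - 1 / ((m : ℝ) + 1) ≤ avg μ p.1.toEquiv p.2.toEquiv (u i).toEquiv N} := by
      ext p
      simp only [mem_ofPred_eq, mem_iInter]
    rw [this]
    exact isClosed_iInter fun N => isClosed_iInter fun _ =>
      isClosed_le continuous_const (continuous_avg hT.toMeasurePreserving (u i) N)
  choose F hF1 hF2 using hF
  refine ⟨F, hF1, ?_⟩
  apply hqs.preimage_injective
  rw [preimage_iInter]
  simp only [preimage_iUnion, hF2]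
  ext ⟨S, S'⟩
  simp only [mem_preimage, mem_ofPred_eq, mem_iInter, mem_iUnion]
  rw [← closed_desc hT.toMeasurePreserving hfree hu]
  have hc : IsConj (q (S, S')).1 (q (S, S')).2 ↔
      ∃ c : SeparationQuotient (FullGroup T μ), c * SeparationQuotient.mk S * c⁻¹ =
        SeparationQuotient.mk S' := isConj_iff
  rw [hc]
  constructor
  · rintro ⟨c, hc⟩
    obtain ⟨U, rfl⟩ := SeparationQuotient.surjective_mk c
    exact ⟨U, (mk_conj_iff hT.toMeasurePreserving S S' U).mp hc⟩
  · rintro ⟨U, hU⟩
    exact ⟨SeparationQuotient.mk U, (mk_conj_iff hT.toMeasurePreserving S S' U).mpr hU⟩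

end Pool.Agent.V11255.FG
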