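import Mathlib
import Pool.Agent.V11255.FG8

set_option autoImplicit false
set_option linter.unusedSectionVars false

open Set MeasureTheory Filter Topology
open scoped ENNReal

namespace Pool.Agent.V11255.FG

variable {X : Type} [MeasurableSpace X] [StandardBorelSpace X] {T : X ≃ᵐ X} {μ : Measure X}

theorem second_countable [IsProbabilityMeasure μ] [NullSingletonClass μ] (hT : Ergodic T μ) :
    SecondCountableTopology (SeparationQuotient (FullGroup T μ)) := by
  obtain ⟨u, hu⟩ := exists_dense (ae_free hT)
  have h1 : DenseRange u := by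
    rw [Metric.denseRange_iff]
    intro V r hr
    obtain ⟨i, hi⟩ := hu V r hr
    refine ⟨i, ?_⟩
    rw [dist_comm, dist_eq_dd]
    exact hi
  have h2 : TopologicalSpace.SeparableSpace (FullGroup T μ) := ⟨range u, countable_range u, h1⟩
  have h3 : TopologicalSpace.SeparableSpace (SeparationQuotient (FullGroup T μ)) := by
    exact SeparationQuotient.surjective_mk.denseRange.separableSpace
      SeparationQuotient.continuous_mk
  exact UniformSpace.secondCountable_of_separable _

theorem potential [IsProbabilityMeasure μ] [NullSingletonClass μ] (hT : Ergodic T μ)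
    {Y : Type*} [MeasurableSpace Y] (R : Y → Y → Prop)
    (f : Y → SeparationQuotient (FullGroup T μ)) (hf : @Measurable _ _ _ (borel _) f)
    (hR : haveI := FullGroup.isTopologicalGroup (μ := μ) hT.toMeasurePreserving
      ∀ y y', R y y' ↔ IsConj (f y) (f y')) :
    ∃ A B : ℕ → ℕ → ℕ → Set Y, (∀ m i j, MeasurableSet (A m i j) ∧ MeasurableSet (B m i j)) ∧
      ∀ y y', R y y' ↔ ∀ m, ∃ i, ∀ j, ¬ (y ∈ A m i j ∧ y' ∈ B m i j) := by
  classical
  have inst := FullGroup.isTopologicalGroup (μ := μ) hT.toMeasurePreserving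
  have := second_countable hT
  borelize (SeparationQuotient (FullGroup T μ))
  obtain ⟨F, hF1, hF2⟩ := main (μ := μ) hT
  obtain ⟨b, hb1, -, hb⟩ := TopologicalSpace.exists_countable_basis
    (SeparationQuotient (FullGroup T μ))
  have hbne : b.Nonempty := by
    by_contra hne
    rw [not_nonempty_iff_eq_empty] at hne
    have := hb.sUnion_eq
    rw [hne, sUnion_empty] at this
    have h1 : (SeparationQuotient.mk (1 : FullGroup T μ)) ∈
        (univ : Set (SeparationQuotient (FullGroup T μ))) := mem_univ _
    rw [← this] at h1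
    exact h1
  obtain ⟨c, hc⟩ := hb1.exists_eq_range hbne
  let good : ℕ → ℕ → ℕ → Prop := fun m i j => c j.unpair.1 ×ˢ c j.unpair.2 ⊆ (F m i)ᶜ
  refine ⟨fun m i j => if good m i j then f ⁻¹' (c j.unpair.1) else ∅,
    fun m i j => if good m i j then f ⁻¹' (c j.unpair.2) else ∅, ?_, ?_⟩
  · intro m i j
    have hco : ∀ k, MeasurableSet (c k) := fun k => (hb.isOpen (hc ▸ mem_range_self k)).measurableSet
    by_cases h : good m i j
    · simp only [h, if_true]
      exact ⟨hf (hco _), hf (hco _)⟩
    · simp only [h, if_false]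
      exact ⟨MeasurableSet.empty, MeasurableSet.empty⟩
  · intro y y'
    have h1 : R y y' ↔ (f y, f y') ∈ ⋂ m, ⋃ i, F m i := by
      rw [← hF2, mem_ofPred_eq]
      exact hR y y'
    rw [h1]
    simp only [mem_iInter, mem_iUnion]
    refine forall_congr' fun m => exists_congr fun i => ?_
    constructor
    · intro h j hj
      by_cases hg : good m i j
      · simp only [hg, if_true, mem_preimage] at hj
        exact hg (mk_mem_prod hj.1 hj.2) h
      · simp only [hg, if_false, mem_empty_iff_false, false_and] at hj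
    · intro h
      by_contra hcon
      have hopen : IsOpen (F m i)ᶜ := (hF1 m i).isOpen_compl
      obtain ⟨s, hs, hs1, hs2⟩ := (hb.prod hb).isOpen_iff.mp hopen (f y, f y') hcon
      obtain ⟨s1, hs1', s2, hs2', rfl⟩ := mem_image2.mp hs
      rw [hc] at hs1' hs2'
      obtain ⟨k, rfl⟩ := hs1'
      obtain ⟨l, rfl⟩ := hs2'
      have hg : good m i (Nat.pair k l) := by
        simp only [good, Nat.unpair_pair]
        exact hs2
      apply h (Nat.pair k l)
      simp only [hg, if_true, Nat.unpair_pair, mem_preimage]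
      exact ⟨hs1.1, hs1.2⟩

theorem borel_of_reduction [IsProbabilityMeasure μ] [NullSingletonClass μ] (hT : Ergodic T μ)
    {Y : Type*} [MeasurableSpace Y] (R : Y → Y → Prop)
    (f : Y → SeparationQuotient (FullGroup T μ)) (hf : @Measurable _ _ _ (borel _) f)
    (hR : haveI := FullGroup.isTopologicalGroup (μ := μ) hT.toMeasurePreserving
      ∀ y y', R y y' ↔ IsConj (f y) (f y')) :
    MeasurableSet {p : Y × Y | R p.1 p.2} := by
  obtain ⟨A, B, hAB, h⟩ := potential hT R f hf hR
  have : {p : Y × Y | R p.1 p.2} = ⋂ m, ⋃ i, ⋂ j, (A m i j ×ˢ B m i j)ᶜ := by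
    ext p
    simp only [mem_ofPred_eq, mem_iInter, mem_iUnion, mem_compl_iff, mem_prod]
    exact h _ _
  rw [this]
  exact MeasurableSet.iInter fun m => MeasurableSet.iUnion fun i => MeasurableSet.iInter fun j =>
    ((hAB m i j).1.prod (hAB m i j).2).compl

end Pool.Agent.V11255.FG
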