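import Mathlib

open Set Filter Topology

namespace Pool.Agent.V11255.MED

/-- Entries `(g, g', w₀, w₁)` of a parameter, without its last coordinate. -/
abbrev E4 : Type := ℕ × ℕ × ℕ × ℕ

/-- Entries of a parameter. -/
abbrev E : Type := E4 × ℕ

/-- The restriction of a sequence to its first `n` entries. -/
def rs {α : Type} (q : ℕ → α) (n : ℕ) : List α := (List.range n).map q

theorem rs_length {α : Type} (q : ℕ → α) (n : ℕ) : (rs q n).length = n := by simp [rs]

theorem rs_succ {α : Type} (q : ℕ → α) (n : ℕ) : rs q (n + 1) = rs q n ++ [q n] := by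
  simp [rs, List.range_succ]

theorem rs_getElem {α : Type} (q : ℕ → α) (n i : ℕ) (h : i < (rs q n).length) : (rs q n)[i] = q i := by
  simp [rs]

theorem rs_getElem? {α : Type} (q : ℕ → α) (n i : ℕ) (h : i < n) : (rs q n)[i]? = some (q i) := by
  simp [rs, h]

theorem rs_eq_iff {α : Type} (q r : ℕ → α) (n : ℕ) : rs q n = rs r n ↔ ∀ i < n, q i = r i := by
  constructor
  · intro h i hi
    have h1 := congrArg (fun l => l[i]?) h
    simp only [rs_getElem? _ _ _ hi] at h1
    exact Option.some_injective _ h1
  · intro h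
    refine List.map_congr_left fun i hi => h i ?_
    exact List.mem_range.1 hi

theorem rs_prefix {α : Type} (q : ℕ → α) {m n : ℕ} (h : m ≤ n) : rs q m <+: rs q n := by
  induction n, h using Nat.le_induction with
  | base => exact List.prefix_rfl
  | succ n _ ih => rw [rs_succ]; exact ih.trans (List.prefix_append _ _)

theorem eq_rs_of_prefix {α : Type} (q : ℕ → α) {n : ℕ} {t : List α} (h : t <+: rs q n) :
    t = rs q t.length := by
  have h1 : t.length ≤ n := by simpa [rs_length] using h.length_le
  have h2 : rs q t.length <+: rs q n := rs_prefix q h1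
  exact (List.prefix_of_prefix_length_le h h2 (by rw [rs_length])).eq_of_length (by rw [rs_length])

/-- Code of the pair formed by a number and a finite sequence; `≡ 1` modulo `3`. -/
def c (n : ℕ) (s : List E) : ℕ := 3 * Nat.pair n (Encodable.encode s) + 1

/-- Code of a finite sequence and a number; `≡ 2` modulo `3`. -/
def z (t : List E4) (x : ℕ) : ℕ := 3 * Encodable.encode (t, x) + 2

theorem lt_c (n : ℕ) (s : List E) : n < c n s := by
  have := Nat.left_le_pair n (Encodable.encode s)
  unfold c; omega

theorem c_inj {n m : ℕ} {s t : List E} (h : c n s = c m t) : n = m ∧ s = t := by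
  have h1 : Nat.pair n (Encodable.encode s) = Nat.pair m (Encodable.encode t) := by
    unfold c at h; omega
  rw [Nat.pair_eq_pair] at h1
  exact ⟨h1.1, Encodable.encode_injective h1.2⟩

theorem z_inj {t t' : List E4} {x x' : ℕ} (h : z t x = z t' x') : t = t' ∧ x = x' := by
  have h1 : Encodable.encode (t, x) = Encodable.encode (t', x') := by
    unfold z at h; omega
  have h2 := Encodable.encode_injective h1
  rw [Prod.mk.injEq] at h2
  exact h2

theorem c_ne_z (n : ℕ) (s : List E) (t : List E4) (x : ℕ) : c n s ≠ z t x := by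
  unfold c z; omega

/-- First component of a code `c n s`. -/
def dn (n : ℕ) : ℕ := (Nat.unpair ((n - 1) / 3)).1

theorem dn_c (n : ℕ) (s : List E) : dn (c n s) = n := by
  unfold dn c
  rw [show (3 * Nat.pair n (Encodable.encode s) + 1 - 1) / 3 = Nat.pair n (Encodable.encode s) by omega,
    Nat.unpair_pair]

/-- Second component of a code `c n s`. -/
def sc (n : ℕ) : List E := ((Encodable.decode (Nat.unpair ((n - 1) / 3)).2 : Option (List E))).getD []

theorem sc_c (n : ℕ) (s : List E) : sc (c n s) = s := by
  unfold sc c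
  rw [show (3 * Nat.pair n (Encodable.encode s) + 1 - 1) / 3 = Nat.pair n (Encodable.encode s) by omega,
    Nat.unpair_pair]
  simp [Encodable.encodek]

/-- The length of the sequence coded by `z t x`. -/
def idx (n : ℕ) : ℕ :=
  (((Encodable.decode ((n - 2) / 3) : Option (List E4 × ℕ))).map (fun t => t.1.length)).getD 0

theorem idx_z (t : List E4) (x : ℕ) : idx (z t x) = t.length := by
  unfold idx z
  rw [show (3 * Encodable.encode (t, x) + 2 - 2) / 3 = Encodable.encode (t, x) by omega]
  simp [Encodable.encodek]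

/-- The coded points of `p`. -/
def b (p : ℕ → E4) (i : ℕ) : ℕ := z (rs p i) (p i).2.2.1

theorem idx_b (p : ℕ → E4) (i : ℕ) : idx (b p i) = i := by
  rw [b, idx_z, rs_length]

theorem b_inj (p : ℕ → E4) : Function.Injective (b p) := fun i j h => by
  rw [← idx_b p i, h, idx_b]

/-- If the value `v` at `n` is a code of `n` and a sequence of length `n + 1`, this sequence. -/
noncomputable def sg (n v : ℕ) : Option (List E) :=
  open Classical in if h : ∃ s, v = c n s ∧ s.length = n + 1 then some h.choose else none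

theorem sg_eq_some {n v : ℕ} {s : List E} : sg n v = some s ↔ v = c n s ∧ s.length = n + 1 := by
  classical
  unfold sg
  constructor
  · intro h
    split_ifs at h with h1
    rw [Option.some_inj] at h
    rw [← h]
    exact h1.choose_spec
  · rintro ⟨rfl, hs⟩
    have h1 : ∃ s', c n s = c n s' ∧ s'.length = n + 1 := ⟨s, rfl, hs⟩
    rw [dif_pos h1, Option.some_inj]
    exact (c_inj h1.choose_spec.1).2.symm

/-- The sequence of strings attached to `p`. -/
noncomputable def sig (p : ℕ → E4) (i : ℕ) : Option (List E) := sg (b p i) (p (b p i)).1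

/-- Compatibility of finite sequences. -/
def Compat (s t : List E) : Prop := s <+: t ∨ t <+: s

theorem Compat_rs (q : ℕ → E) (m n : ℕ) : Compat (rs q m) (rs q n) := by
  rcases le_total m n with h | h
  · exact Or.inl (rs_prefix q h)
  · exact Or.inr (rs_prefix q h)

def Incomp (x y : Option (List E)) : Prop := ∀ s t, x = some s → y = some t → ¬ Compat s t

/-- The greedy antichain starting at `k`. -/
def inG (σ : ℕ → Option (List E)) (k : ℕ) (i : ℕ) : Prop :=
  k ≤ i ∧ ∀ j, (h : j < i) → inG σ k j → Incomp (σ j) (σ i)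
termination_by i
decreasing_by exact h

theorem inG_iff (σ : ℕ → Option (List E)) (k i : ℕ) :
    inG σ k i ↔ k ≤ i ∧ ∀ j, j < i → inG σ k j → Incomp (σ j) (σ i) := by
  conv_lhs => rw [inG]

theorem inG_incomp {σ : ℕ → Option (List E)} {k i j : ℕ} (hi : inG σ k i) (hj : inG σ k j) (hij : i ≠ j)
    {s t : List E} (hs : σ i = some s) (ht : σ j = some t) : ¬ Compat s t := by
  rcases lt_or_gt_of_ne hij with h | h
  · exact ((inG_iff σ k j).1 hj).2 i h hi s t hs ht
  · intro hc
    exact ((inG_iff σ k i).1 hi).2 j h hj t s ht hs (Or.symm hc)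

variable (q : ℕ → E)

def P : ℕ → E4 := fun n => (q n).1
def g (n : ℕ) : ℕ := (q n).1.1
def g' (n : ℕ) : ℕ := (q n).1.2.1
def u (n : ℕ) : ℕ := (q n).2

/-- The last coordinate of `q` describes correctly, up to stage `i`, the least `k` for which the greedy
antichain from `k` is infinite. -/
def Valid (i : ℕ) : Prop :=
  (∀ k, k < u q 0 → (u q (k + 1) = 0 ∨ inG (sig (P q)) k (u q (k + 1) - 1)) ∧
    ∀ j, j < i + 1 → u q (k + 1) ≤ j → ¬ inG (sig (P q)) k j) ∧
  ∀ j, j < i + 1 → u q 0 < j → u q j = 0

/-- The set of points where `h q` copies `g q`. -/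
def InB (n : ℕ) : Prop :=
  n = b (P q) (idx n) ∧ inG (sig (P q)) (u q 0) (idx n) ∧ Valid q (idx n) ∧ g' q (g q n) = n ∧
    ∀ m, m < g q n → g q n ≠ c m (rs q (m + 1))

def Res : Bool → ℕ → Prop
  | true, n => InB q n
  | false, n => InB q (g' q n) ∧ g q (g' q n) = n

def Up (s : Bool) (n : ℕ) : Prop :=
  ¬ Res q s n ∧ ∀ m, (h : m < n) → n = c m (rs q (m + 1)) → ¬ Up (!s) m
termination_by n
decreasing_by exact h

theorem Up_iff (s : Bool) (n : ℕ) :
    Up q s n ↔ ¬ Res q s n ∧ ∀ m, m < n → n = c m (rs q (m + 1)) → ¬ Up q (!s) m := by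
  conv_lhs => rw [Up]

def GG (s : Bool) : ℕ → ℕ := if s then g q else g' q

open Classical in
/-- The matching coded by `q` (`s = true`: from left to right, `s = false`: from right to left). -/
noncomputable def H (s : Bool) (n : ℕ) : ℕ :=
  if Res q s n then GG q s n else if Up q s n then c n (rs q (n + 1)) else dn n

theorem InB_mod {n : ℕ} (h : InB q n) : n % 3 = 2 := by
  rw [h.1, b, z]; omega

theorem c_mod (n : ℕ) (s : List E) : c n s % 3 = 1 := by unfold c; omega

theorem Res_GG {s : Bool} {n : ℕ} (h : Res q s n) : Res q (!s) (GG q s n) ∧ GG q (!s) (GG q s n) = n := by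
  cases s with
  | true =>
    have h' : InB q n := h
    have e : g' q (g q n) = n := h'.2.2.2.1
    refine ⟨⟨?_, ?_⟩, ?_⟩
    · show InB q (g' q (g q n))
      rw [e]; exact h'
    · show g q (g' q (g q n)) = g q n
      rw [e]
    · exact e
  | false => exact ⟨h.1, h.2⟩

theorem not_Res_c {s : Bool} {n : ℕ} : ¬ Res q (!s) (c n (rs q (n + 1))) := by
  intro h
  cases s with
  | true =>
    obtain ⟨h1, h2⟩ := h
    have h3 := h1.2.2.2.2 n (by
      have := lt_c n (rs q (n + 1))
      rw [h2]; exact this)
    exact h3 h2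
  | false =>
    have h1 := InB_mod q h
    rw [c_mod] at h1
    omega

theorem H_H (s : Bool) (n : ℕ) : H q (!s) (H q s n) = n := by
  classical
  by_cases hR : Res q s n
  · have h1 : H q s n = GG q s n := if_pos hR
    rw [h1]
    obtain ⟨h2, h3⟩ := Res_GG q hR
    have h4 : H q (!s) (GG q s n) = GG q (!s) (GG q s n) := if_pos h2
    rw [h4, h3]
  · by_cases hU : Up q s n
    · have h1 : H q s n = c n (rs q (n + 1)) := by
        unfold H; rw [if_neg hR, if_pos hU]
      rw [h1]
      have h2 : ¬ Up q (!s) (c n (rs q (n + 1))) := by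
        intro h
        have h3 := ((Up_iff q _ _).1 h).2 n (lt_c _ _) rfl
        rw [Bool.not_not] at h3
        exact h3 hU
      unfold H
      rw [if_neg (not_Res_c q), if_neg h2, dn_c]
    · have h1 : H q s n = dn n := by
        unfold H; rw [if_neg hR, if_neg hU]
      rw [Up_iff] at hU
      push Not at hU
      obtain ⟨m, hm, hn, hUm⟩ := hU hR
      have h2 : dn n = m := by rw [hn, dn_c]
      rw [h1, h2]
      unfold H
      rw [if_neg ((Up_iff q _ _).1 hUm).1, if_pos hUm, ← hn]

/-- The permutation coded by `q`. -/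
noncomputable def perm : Equiv.Perm ℕ where
  toFun := H q true
  invFun := H q false
  left_inv := fun n => H_H q true n
  right_inv := fun n => H_H q false n

/-! ### Local constancy -/

/-- Locally constant functions of the parameter. -/
def LC {α : Type} (f : (ℕ → E) → α) : Prop := ∀ q, ∀ᶠ r in 𝓝 q, f r = f q

theorem LC.const {α : Type} (a : α) : LC fun _ => a := fun _ => Eventually.of_forall fun _ => rfl

theorem LC.map {α β : Type} {f : (ℕ → E) → α} (hf : LC f) (φ : α → β) : LC fun q => φ (f q) := fun q => by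
  filter_upwards [hf q] with r hr
  rw [hr]

theorem LC.map2 {α β γ : Type} {f : (ℕ → E) → α} {f' : (ℕ → E) → β} (hf : LC f) (hf' : LC f')
    (φ : α → β → γ) : LC fun q => φ (f q) (f' q) := fun q => by
  filter_upwards [hf q, hf' q] with r hr hr'
  rw [hr, hr']

theorem LC.bind {α β : Type} {F : α → (ℕ → E) → β} (hF : ∀ a, LC (F a)) {f : (ℕ → E) → α} (hf : LC f) :
    LC fun q => F (f q) q := fun q => by
  filter_upwards [hf q, hF (f q) q] with r hr hr'
  rw [hr, hr']

theorem LC.eval (n : ℕ) : LC fun q => q n := fun q => by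
  have h1 : Continuous fun r : ℕ → E => r n := continuous_apply n
  exact h1.continuousAt.eventually (show ∀ᶠ e in 𝓝 (q n), e = q n by
    rw [nhds_discrete]; exact rfl)

theorem LC.ball {Pr : ℕ → (ℕ → E) → Prop} (hP : ∀ j, LC (Pr j)) (n : ℕ) : LC fun q => ∀ j, j < n → Pr j q := by
  induction n with
  | zero =>
    intro q
    refine Eventually.of_forall fun r => ?_
    simp
  | succ n ih =>
    have h1 : (fun q => ∀ j, j < n + 1 → Pr j q) = fun q => (∀ j, j < n → Pr j q) ∧ Pr n q := by
      funext q
      refine propext ⟨fun h => ⟨fun j hj => h j (by omega), h n (by omega)⟩, fun h j hj => ?_⟩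
      rcases Nat.lt_succ_iff_lt_or_eq.1 hj with h1 | rfl
      · exact h.1 j h1
      · exact h.2
    rw [h1]
    exact ih.map2 (hP n) And

theorem LC.imp {A B : (ℕ → E) → Prop} (hA : LC A) (hB : LC B) : LC fun q => A q → B q :=
  hA.map2 hB fun a b => a → b

theorem LC.and {A B : (ℕ → E) → Prop} (hA : LC A) (hB : LC B) : LC fun q => A q ∧ B q :=
  hA.map2 hB And

theorem LC.or {A B : (ℕ → E) → Prop} (hA : LC A) (hB : LC B) : LC fun q => A q ∨ B q :=
  hA.map2 hB Or

theorem LC.not {A : (ℕ → E) → Prop} (hA : LC A) : LC fun q => ¬ A q := hA.map Not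

theorem LC_rs (n : ℕ) : LC fun q => rs q n := by
  induction n with
  | zero => exact LC.const _
  | succ n ih =>
    have : (fun q : ℕ → E => rs q (n + 1)) = fun q => rs q n ++ [q n] := funext fun q => rs_succ q n
    rw [this]
    exact ih.map2 (LC.eval n) fun a b => a ++ [b]

theorem LC_rsP (n : ℕ) : LC fun q => rs (P q) n := by
  have : (fun q : ℕ → E => rs (P q) n) = fun q => (rs q n).map Prod.fst := by
    funext q
    simp [rs, P]
  rw [this]
  exact (LC_rs n).map _

theorem LC_b (i : ℕ) : LC fun q => b (P q) i :=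
  (LC_rsP i).map2 (LC.eval i) fun a e => z a e.1.2.2.1

theorem LC_g (n : ℕ) : LC fun q => g q n := (LC.eval n).map fun e => e.1.1
theorem LC_g' (n : ℕ) : LC fun q => g' q n := (LC.eval n).map fun e => e.1.2.1
theorem LC_u (n : ℕ) : LC fun q => u q n := (LC.eval n).map fun e => e.2

theorem LC_sig (i : ℕ) : LC fun q => sig (P q) i := by
  have h1 : LC fun q => (fun (n : ℕ) (r : ℕ → E) => sg n (g r n)) (b (P q) i) q :=
    LC.bind (fun n => (LC_g n).map (sg n)) (LC_b i)
  exact h1

theorem LC_inG (k : ℕ) (i : ℕ) : LC fun q => inG (sig (P q)) k i := by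
  induction i using Nat.strong_induction_on with
  | _ i ih =>
    have h1 : (fun q : ℕ → E => inG (sig (P q)) k i) = fun q => k ≤ i ∧
        ∀ j, j < i → (j < i → inG (sig (P q)) k j) → Incomp (sig (P q) j) (sig (P q) i) := by
      funext q
      rw [inG_iff]
      refine propext (and_congr_right fun _ => forall_congr' fun j => ?_)
      refine forall_congr' fun hj => ?_
      simp [hj]
    rw [h1]
    refine (LC.const _).and (LC.ball (fun j => ?_) i)
    refine LC.imp ?_ ((LC_sig j).map2 (LC_sig i) Incomp)
    by_cases hj : j < i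
    · exact (LC.const _).imp (ih j hj)
    · have : (fun q : ℕ → E => (j < i → inG (sig (P q)) k j)) = fun _ => True := by
        funext q; simp [hj]
      rw [this]
      exact LC.const _

theorem LC_inG' {f : (ℕ → E) → ℕ} {f' : (ℕ → E) → ℕ} (hf : LC f) (hf' : LC f') :
    LC fun q => inG (sig (P q)) (f q) (f' q) := by
  have h1 : LC fun q => (fun (a : ℕ × ℕ) (r : ℕ → E) => inG (sig (P r)) a.1 a.2) (f q, f' q) q :=
    LC.bind (fun a => LC_inG a.1 a.2) (hf.map2 hf' Prod.mk)
  exact h1

theorem LC_Valid (i : ℕ) : LC fun q => Valid q i := by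
  unfold Valid
  refine LC.and ?_ ?_
  · have h1 : ∀ a : ℕ, LC fun q => ∀ k, k < a → (u q (k + 1) = 0 ∨ inG (sig (P q)) k (u q (k + 1) - 1)) ∧
        ∀ j, j < i + 1 → u q (k + 1) ≤ j → ¬ inG (sig (P q)) k j := by
      intro a
      refine LC.ball (fun k => ?_) a
      refine LC.and (LC.or ((LC_u _).map fun x => x = 0)
        (LC_inG' (LC.const k) ((LC_u (k + 1)).map fun x => x - 1))) ?_
      refine LC.ball (fun j => ?_) _
      exact LC.imp ((LC_u _).map fun x => x ≤ j) (LC_inG k j).not
    exact LC.bind h1 (LC_u 0)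
  · refine LC.ball (fun j => ?_) _
    exact LC.imp ((LC_u 0).map fun x => x < j) ((LC_u j).map fun x => x = 0)

theorem LC_InB (n : ℕ) : LC fun q => InB q n := by
  unfold InB
  refine LC.and ((LC_b _).map fun x => n = x) (LC.and (LC_inG' (LC_u 0) (LC.const _))
    (LC.and (LC_Valid _) (LC.and ?_ ?_)))
  · have h1 : LC fun q => (fun (a : ℕ) (r : ℕ → E) => g' r a) (g q n) q := LC.bind (fun a => LC_g' a) (LC_g n)
    exact h1.map fun x => x = n
  · have h1 : ∀ a : ℕ, LC fun q => ∀ m, m < a → g q n ≠ c m (rs q (m + 1)) := by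
      intro a
      refine LC.ball (fun m => ?_) a
      exact (LC_g n).map2 (LC_rs (m + 1)) fun x s => x ≠ c m s
    exact LC.bind h1 (LC_g n)

theorem LC_Res (s : Bool) (n : ℕ) : LC fun q => Res q s n := by
  cases s with
  | true => exact LC_InB n
  | false =>
    refine LC.and (A := fun q => InB q (g' q n)) (B := fun q => g q (g' q n) = n) ?_ ?_
    · exact LC.bind (fun a => LC_InB a) (LC_g' n)
    · have h1 : LC fun q => (fun (a : ℕ) (r : ℕ → E) => g r a) (g' q n) q := LC.bind (fun a => LC_g a) (LC_g' n)
      exact h1.map fun x => x = n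

theorem LC_Up (s : Bool) (n : ℕ) : LC fun q => Up q s n := by
  induction n using Nat.strong_induction_on generalizing s with
  | _ n ih =>
    have h1 : (fun q : ℕ → E => Up q s n) = fun q => ¬ Res q s n ∧
        ∀ m, m < n → (n = c m (rs q (m + 1)) → ¬ (m < n ∧ Up q (!s) m)) := by
      funext q
      rw [Up_iff]
      refine propext (and_congr_right fun _ => forall_congr' fun m => ?_)
      refine forall_congr' fun hm => ?_
      simp [hm]
    rw [h1]
    refine (LC_Res s n).not.and (LC.ball (fun m => ?_) n)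
    refine LC.imp ((LC_rs (m + 1)).map fun t => n = c m t) (LC.not ?_)
    by_cases hm : m < n
    · exact (LC.const _).and (ih m hm (!s))
    · have : (fun q : ℕ → E => (m < n ∧ Up q (!s) m)) = fun _ => False := by
        funext q; simp [hm]
      rw [this]
      exact LC.const _

theorem LC_H (s : Bool) (n : ℕ) : LC fun q => H q s n := by
  classical
  intro q
  have hGG : LC fun q => GG q s n := by
    cases s
    · exact LC_g' n
    · exact LC_g n
  filter_upwards [LC_Res s n q, LC_Up s n q, hGG q, LC_rs (n + 1) q] with r h1 h2 h3 h4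
  have h1' : Res r s n ↔ Res q s n := iff_of_eq h1
  have h2' : Up r s n ↔ Up q s n := iff_of_eq h2
  unfold H
  simp only [h1', h2', h3, h4]

theorem continuous_H : Continuous fun q : ℕ → E => (fun n => H q true n) := by
  refine continuous_pi fun n => ?_
  rw [continuous_iff_continuousAt]
  intro q
  have h1 := LC_H true n q
  refine tendsto_nhds_of_eventually_eq h1

/-- Reading the parameter from the permutation. -/
def rd (f : ℕ → ℕ) : ℕ → E := fun n => ((sc (f (3 * n)))[n]?).getD ((0, 0, 0, 0), 0)

theorem continuous_rd : Continuous rd := by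
  refine continuous_pi fun n => ?_
  have h1 : Continuous fun f : ℕ → ℕ => f (3 * n) := continuous_apply _
  exact (continuous_of_discreteTopology (f := fun v : ℕ => ((sc v)[n]?).getD ((0, 0, 0, 0), 0))).comp h1

theorem Up_three (s : Bool) (n : ℕ) (hs : s = true) : Up q s (3 * n) := by
  subst hs
  rw [Up_iff]
  refine ⟨fun h => ?_, fun m _ hn _ => ?_⟩
  · have := InB_mod q h
    omega
  · have := c_mod m (rs q (m + 1))
    rw [← hn] at this
    omega

theorem H_up {s : Bool} {n : ℕ} (h : Up q s n) : H q s n = c n (rs q (n + 1)) := by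
  classical
  unfold H
  rw [if_neg ((Up_iff q _ _).1 h).1, if_pos h]

theorem rd_H : rd (fun n => H q true n) = q := by
  funext n
  show ((sc (H q true (3 * n)))[n]?).getD ((0, 0, 0, 0), 0) = q n
  rw [H_up q (Up_three q true n rfl), sc_c, rs_getElem? _ _ _ (by omega)]
  rfl

theorem isClosed_range : IsClosed (range fun q : ℕ → E => (fun n => H q true n)) := by
  have h1 : (range fun q : ℕ → E => (fun n => H q true n)) = {f : ℕ → ℕ | (fun n => H (rd f) true n) = f} := by
    ext f
    constructor
    · rintro ⟨q, rfl⟩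
      show (fun n => H (rd (fun n => H q true n)) true n) = fun n => H q true n
      rw [rd_H]
    · intro hf
      exact ⟨rd f, hf⟩
  rw [h1]
  exact isClosed_eq (continuous_H.comp continuous_rd) continuous_id

end Pool.Agent.V11255.MED
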