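import Pool.Agent.V11255.MED1

open Set Filter Topology

namespace Pool.Agent.V11255.MED

theorem Valid_mono {q : ℕ → E} {i j : ℕ} (h : j ≤ i) (hv : Valid q i) : Valid q j :=
  ⟨fun k hk => ⟨(hv.1 k hk).1, fun l hl => (hv.1 k hk).2 l (by omega)⟩,
    fun l hl => hv.2 l (by omega)⟩

theorem exists_large {S : Set ℕ} (hS : S.Infinite) (p : ℕ → E4) (hp : ∀ n ∈ S, n = b p (idx n)) (i0 : ℕ) :
    ∃ n ∈ S, i0 ≤ idx n := by
  by_contra hcon
  push Not at hcon
  refine hS (((Finset.range i0).image (b p)).finite_toSet.subset fun n hn => ?_)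
  rw [Finset.mem_coe, Finset.mem_image]
  exact ⟨idx n, Finset.mem_range.2 (hcon n hn), (hp n hn).symm⟩

theorem u0_le {q r : ℕ → E} (hP : P q = P r) (hr : ∀ i, Valid r i)
    (hq : ∀ i0, ∃ i, i0 ≤ i ∧ inG (sig (P q)) (u q 0) i) : u r 0 ≤ u q 0 := by
  by_contra hcon
  push Not at hcon
  obtain ⟨i, hi, hG⟩ := hq (u r (u q 0 + 1))
  rw [hP] at hG
  exact ((hr i).1 (u q 0) hcon).2 i (by omega) hi hG

theorem uk_le {q r : ℕ → E} (hP : P q = P r) (h0 : u q 0 = u r 0) (hq : ∀ i, Valid q i)
    (hr : ∀ i, Valid r i) {k : ℕ} (hk : k < u q 0) : u r (k + 1) ≤ u q (k + 1) := by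
  by_contra hcon
  push Not at hcon
  rcases ((hr 0).1 k (h0 ▸ hk)).1 with h1 | h1
  · omega
  · rw [← hP] at h1
    exact ((hq (u r (k + 1))).1 k hk).2 (u r (k + 1) - 1) (by omega) (by omega) h1

theorem finite_InB {q r : ℕ → E} (hne : q ≠ r) : {n | InB q n ∧ InB r n}.Finite := by
  by_contra hinf
  have hS : {n | InB q n ∧ InB r n}.Infinite := hinf
  have hlq : ∀ i0, ∃ n, (InB q n ∧ InB r n) ∧ i0 ≤ idx n := fun i0 => by
    obtain ⟨n, hn, hi⟩ := exists_large hS (P q) (fun n hn => hn.1.1) i0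
    exact ⟨n, hn, hi⟩
  have hP : P q = P r := by
    funext j
    obtain ⟨n, ⟨hq, hr⟩, hi⟩ := hlq (j + 1)
    have h1 : b (P q) (idx n) = b (P r) (idx n) := by rw [← hq.1, ← hr.1]
    exact (rs_eq_iff _ _ _).1 (z_inj h1).1 j (by omega)
  have hvq : ∀ i, Valid q i := fun i => by
    obtain ⟨n, ⟨hq, _⟩, hi⟩ := hlq i
    exact Valid_mono hi hq.2.2.1
  have hvr : ∀ i, Valid r i := fun i => by
    obtain ⟨n, ⟨_, hr⟩, hi⟩ := hlq i
    exact Valid_mono hi hr.2.2.1
  have h0 : u q 0 = u r 0 := by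
    refine le_antisymm (u0_le hP.symm hvq fun i0 => ?_) (u0_le hP hvr fun i0 => ?_)
    · obtain ⟨n, ⟨_, hr⟩, hi⟩ := hlq i0
      exact ⟨idx n, hi, hr.2.1⟩
    · obtain ⟨n, ⟨hq, _⟩, hi⟩ := hlq i0
      exact ⟨idx n, hi, hq.2.1⟩
  have hu : ∀ j, u q j = u r j := by
    intro j
    cases j with
    | zero => exact h0
    | succ k =>
      by_cases hk : k < u q 0
      · exact le_antisymm (uk_le hP.symm h0.symm hvr hvq (h0 ▸ hk)) (uk_le hP h0 hvq hvr hk)
      · rw [(hvq (k + 1)).2 (k + 1) (by omega) (by omega),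
          (hvr (k + 1)).2 (k + 1) (by omega) (by omega)]
  apply hne
  funext j
  exact Prod.ext (congrFun hP j) (hu j)

theorem finite_cross (q r : ℕ → E) : {n | InB q n ∧ g q n = c n (rs r (n + 1))}.Finite := by
  refine Set.Subsingleton.finite ?_
  rintro n ⟨hn, hgn⟩ m ⟨hm, hgm⟩
  by_contra hnm
  have hi : idx n ≠ idx m := fun h => hnm (by rw [hn.1, hm.1, h])
  have hs : sig (P q) (idx n) = some (rs r (n + 1)) := by
    show sg (b (P q) (idx n)) (g q (b (P q) (idx n))) = _
    rw [← hn.1, sg_eq_some]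
    exact ⟨hgn, rs_length _ _⟩
  have ht : sig (P q) (idx m) = some (rs r (m + 1)) := by
    show sg (b (P q) (idx m)) (g q (b (P q) (idx m))) = _
    rw [← hm.1, sg_eq_some]
    exact ⟨hgm, rs_length _ _⟩
  exact inG_incomp hn.2.1 hm.2.1 hi hs ht (Compat_rs r _ _)

theorem H_res {q : ℕ → E} {s : Bool} {n : ℕ} (h : Res q s n) : H q s n = GG q s n := by
  classical
  exact if_pos h

theorem H_down {q : ℕ → E} {s : Bool} {n : ℕ} (hR : ¬ Res q s n) (hU : ¬ Up q s n) :
    ∃ m, m < n ∧ n = c m (rs q (m + 1)) ∧ H q s n = m := by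
  classical
  have h1 : H q s n = dn n := by unfold H; rw [if_neg hR, if_neg hU]
  rw [Up_iff] at hU
  push Not at hU
  obtain ⟨m, hm, hn, _⟩ := hU hR
  refine ⟨m, hm, hn, ?_⟩
  rw [h1, hn, dn_c]

/-- The permutations are eventually different. -/
theorem ed {q r : ℕ → E} (hne : q ≠ r) : {n | H q true n = H r true n}.Finite := by
  classical
  obtain ⟨N, hN⟩ : ∃ N, q N ≠ r N := by
    by_contra h
    push Not at h
    exact hne (funext h)
  have hrs : ∀ m, rs q (m + 1) = rs r (m + 1) → m < N := by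
    intro m h
    by_contra hm
    exact hN ((rs_eq_iff _ _ _).1 h N (by omega))
  refine ((((finite_InB hne).union (finite_cross q r)).union (finite_cross r q)).union
    ((Set.finite_lt_nat N).union ((Set.finite_lt_nat N).image fun m => c m (rs q (m + 1))))).subset ?_
  intro n hn
  have hn' : H q true n = H r true n := hn
  by_cases hRq : Res q true n
  · have e1 : H q true n = g q n := H_res hRq
    have hq : InB q n := hRq
    by_cases hRr : Res r true n
    · exact Or.inl (Or.inl (Or.inl ⟨hq, hRr⟩))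
    · by_cases hUr : Up r true n
      · refine Or.inl (Or.inl (Or.inr ⟨hq, ?_⟩))
        rw [← e1, hn', H_up r hUr]
      · obtain ⟨m, hm, hnm, _⟩ := H_down hRr hUr
        have h1 := InB_mod q hq
        have h2 := c_mod m (rs r (m + 1))
        rw [← hnm] at h2
        omega
  · by_cases hUq : Up q true n
    · have e1 := H_up q hUq
      by_cases hRr : Res r true n
      · refine Or.inl (Or.inr ⟨hRr, ?_⟩)
        have e2 : H r true n = g r n := H_res hRr
        rw [← e2, ← hn', e1]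
      · by_cases hUr : Up r true n
        · have e2 := H_up r hUr
          rw [e1, e2] at hn'
          exact Or.inr (Or.inl (hrs n (c_inj hn').2))
        · obtain ⟨m, hm, _, hHm⟩ := H_down hRr hUr
          rw [e1, hHm] at hn'
          have := lt_c n (rs q (n + 1))
          omega
    · obtain ⟨m, hm, hnm, hHm⟩ := H_down hRq hUq
      by_cases hRr : Res r true n
      · have h1 := InB_mod r hRr
        have h2 := c_mod m (rs q (m + 1))
        rw [← hnm] at h2
        omega
      · by_cases hUr : Up r true n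
        · have e2 := H_up r hUr
          rw [e2, hHm] at hn'
          have := lt_c n (rs r (n + 1))
          omega
        · obtain ⟨m', hm', hnm', hHm'⟩ := H_down hRr hUr
          rw [hHm, hHm'] at hn'
          subst hn'
          refine Or.inr (Or.inr ⟨m, hrs m ?_, hnm.symm⟩)
          exact (c_inj (hnm.symm.trans hnm')).2

end Pool.Agent.V11255.MED
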