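import Mathlib

set_option autoImplicit false

open Set MeasureTheory Filter Topology
open scoped ENNReal

namespace Pool.Agent.V11255.US

/-- the fair coin -/
noncomputable def coin : Measure Bool := (1 / 2 : ℝ≥0∞) • (Measure.dirac true + Measure.dirac false)

instance : IsProbabilityMeasure coin := by
  constructor
  simp only [coin, Measure.smul_apply, Measure.add_apply, measure_univ, smul_eq_mul]
  rw [one_add_one_eq_two, one_div, ENNReal.inv_mul_cancel] <;> norm_num

theorem coin_map_not : coin.map not = coin := by
  have hm : Measurable not := measurable_from_top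
  rw [coin, Measure.map_smul, Measure.map_add _ _ hm, Measure.map_dirac' hm,
    Measure.map_dirac' hm, add_comm]
  rfl

/-- the product of fair coins -/
noncomputable def bern (J : Type) : Measure (J → Bool) := Measure.infinitePi (fun _ : J => coin)

instance (J : Type) : IsProbabilityMeasure (bern J) := by
  unfold bern
  infer_instance

/-- the sign of a bit -/
def sgn (b : Bool) : ℝ := if b then -1 else 1

theorem sgn_mul_self (b : Bool) : sgn b * sgn b = 1 := by
  cases b <;> norm_num [sgn]

theorem sgn_not (b : Bool) : sgn (!b) = - sgn b := by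
  cases b <;> norm_num [sgn]

theorem sgn_xor (b c : Bool) : sgn (b ^^ c) = sgn b * sgn c := by
  cases b <;> cases c <;> norm_num [sgn]

theorem abs_sgn (b : Bool) : |sgn b| = 1 := by
  cases b <;> norm_num [sgn]

variable {J : Type}

/-- the Walsh functions -/
noncomputable def wal (S : Finset J) (x : J → Bool) : ℝ := ∏ i ∈ S, sgn (x i)

theorem measurable_wal (S : Finset J) : Measurable (wal S) := by
  refine Finset.measurable_fun_prod _ (fun i _ => ?_)
  exact (measurable_from_top (f := sgn)).comp (measurable_pi_apply i)

@[simp] theorem wal_empty (x : J → Bool) : wal ∅ x = 1 := by simp [wal]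

theorem abs_wal (S : Finset J) (x : J → Bool) : |wal S x| = 1 := by
  rw [wal, Finset.abs_prod]
  exact Finset.prod_eq_one fun i _ => abs_sgn _

theorem wal_mul_self (S : Finset J) (x : J → Bool) : wal S x * wal S x = 1 := by
  rw [← abs_mul_abs_self, abs_wal, one_mul]

theorem wal_mul [DecidableEq J] (S T : Finset J) (x : J → Bool) :
    wal S x * wal T x = wal (symmDiff S T) x := by
  have h1 : wal S x = wal (S \ T) x * wal (S ∩ T) x := by
    rw [wal, wal, wal, ← Finset.prod_union (Finset.disjoint_sdiff_inter S T),
      Finset.sdiff_union_inter]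
  have h2 : wal T x = wal (T \ S) x * wal (S ∩ T) x := by
    rw [wal, wal, wal, Finset.inter_comm, ← Finset.prod_union (Finset.disjoint_sdiff_inter T S),
      Finset.sdiff_union_inter]
  have h3 : wal (symmDiff S T) x = wal (S \ T) x * wal (T \ S) x := by
    rw [wal, wal, wal, ← Finset.prod_union disjoint_sdiff_sdiff]
    rfl
  rw [h1, h2, h3]
  calc _ = wal (S \ T) x * wal (T \ S) x * (wal (S ∩ T) x * wal (S ∩ T) x) := by ring
    _ = _ := by rw [wal_mul_self, mul_one]

/-- flipping a coordinate -/
def flp [DecidableEq J] (i : J) (x : J → Bool) : J → Bool := fun j => if j = i then !(x j) else x j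

theorem map_flp [DecidableEq J] (i : J) : (bern J).map (flp i) = bern J := by
  have h := Measure.infinitePi_map_pi (fun _ : J => coin) (Y := fun _ => Bool)
    (f := fun j => if j = i then not else id) (fun j => measurable_from_top)
  have h1 : (fun (x : J → Bool) j => (if j = i then not else id) (x j)) = flp i := by
    funext x j
    simp only [flp]
    split_ifs <;> rfl
  have h2 : (fun j => coin.map (if j = i then not else id)) = fun _ : J => coin := by
    funext j
    split_ifs
    · exact coin_map_not
    · exact Measure.map_id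
  rw [h1] at h
  rw [bern, h]
  congr 1

theorem measurable_flp [DecidableEq J] (i : J) : Measurable (flp (J := J) i) := by
  refine measurable_pi_lambda _ fun j => ?_
  simp only [flp]
  split_ifs
  · exact (measurable_from_top (f := not)).comp (measurable_pi_apply j)
  · exact measurable_pi_apply j

theorem wal_flp [DecidableEq J] {S : Finset J} {i : J} (hi : i ∈ S) (x : J → Bool) :
    wal S (flp i x) = - wal S x := by
  rw [wal, wal, ← Finset.mul_prod_erase S _ hi, ← Finset.mul_prod_erase S _ hi]
  have h1 : flp i x i = !(x i) := by simp [flp]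
  rw [h1, sgn_not, neg_mul]
  congr 2
  apply Finset.prod_congr rfl
  intro j hj
  have : flp i x j = x j := by simp [flp, Finset.ne_of_mem_erase hj]
  rw [this]

theorem integral_wal {S : Finset J} (hS : S.Nonempty) : ∫ x, wal S x ∂(bern J) = 0 := by
  classical
  obtain ⟨i, hi⟩ := hS
  have h : ∫ x, wal S x ∂(bern J) = ∫ x, wal S (flp i x) ∂(bern J) := by
    conv_lhs => rw [← map_flp i]
    rw [integral_map (measurable_flp i).aemeasurable (measurable_wal S).aestronglyMeasurable]
  simp only [wal_flp hi, integral_neg] at h
  linarith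

theorem integral_wal_eq (S : Finset J) [Decidable (S = ∅)] :
    ∫ x, wal S x ∂(bern J) = if S = ∅ then 1 else 0 := by
  split_ifs with h
  · rw [h]; simp
  · exact integral_wal (Finset.nonempty_iff_ne_empty.mpr h)

theorem memLp_wal (S : Finset J) (μ : Measure (J → Bool)) [IsFiniteMeasure μ] :
    MemLp (wal S) 2 μ :=
  MemLp.of_bound (measurable_wal S).aestronglyMeasurable 1
    (Eventually.of_forall fun x => (by rw [Real.norm_eq_abs, abs_wal]))

theorem integrable_wal (S : Finset J) (μ : Measure (J → Bool)) [IsFiniteMeasure μ] :
    Integrable (wal S) μ :=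
  (memLp_wal S μ).integrable (by norm_num)

/-- the indicator of a box is a combination of Walsh functions -/
theorem box_expand (s : Finset J) (t : J → Set Bool) :
    ∃ c : Finset J → ℝ, ∀ x : J → Bool, (Set.pi (s : Set J) t).indicator (fun _ => (1:ℝ)) x =
      ∑ S ∈ s.powerset, c S * wal S x := by
  classical
  have h1 : ∀ (D : Set Bool), ∃ α β : ℝ, ∀ b : Bool, D.indicator (fun _ => (1:ℝ)) b =
      β * sgn b + α := by
    intro D
    refine ⟨(D.indicator (fun _ => (1:ℝ)) false + D.indicator (fun _ => (1:ℝ)) true) / 2,
      (D.indicator (fun _ => (1:ℝ)) false - D.indicator (fun _ => (1:ℝ)) true) / 2, fun b => ?_⟩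
    cases b
    · simp only [sgn, Bool.false_eq_true, if_false]
      ring
    · simp only [sgn, if_true]
      ring
  choose α β hαβ using h1
  refine ⟨fun S => (∏ i ∈ S, β (t i)) * ∏ i ∈ s \ S, α (t i), fun x => ?_⟩
  have h2 : (Set.pi (s : Set J) t).indicator (fun _ => (1:ℝ)) x =
      ∏ i ∈ s, (t i).indicator (fun _ => (1:ℝ)) (x i) := by
    by_cases h : x ∈ Set.pi (s : Set J) t
    · rw [Set.indicator_of_mem h]
      symm
      apply Finset.prod_eq_one
      intro i hi
      rw [Set.indicator_of_mem (h i hi)]
    · rw [Set.indicator_of_notMem h]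
      simp only [Set.mem_pi, not_forall] at h
      obtain ⟨i, hi, hi'⟩ := h
      symm
      apply Finset.prod_eq_zero (i := i) hi
      rw [Set.indicator_of_notMem hi']
  rw [h2]
  simp only [hαβ]
  rw [Finset.prod_add]
  apply Finset.sum_congr rfl
  intro S _
  rw [Finset.prod_mul_distrib, wal]
  ring

/-- a measurable box -/
theorem generate_boxes : MeasurableSpace.generateFrom
    (squareCylinders (fun _ : J => {s : Set Bool | MeasurableSet s})) =
      (inferInstance : MeasurableSpace (J → Bool)) :=
  generateFrom_squareCylinders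

theorem pi_boxes : IsPiSystem (squareCylinders (fun _ : J => {s : Set Bool | MeasurableSet s})) :=
  isPiSystem_squareCylinders (fun _ => MeasurableSpace.isPiSystem_measurableSet) (fun _ => (MeasurableSet.univ : MeasurableSet (univ : Set Bool)))

/-- finite measures are determined by the integrals of Walsh functions -/
theorem ext_of_wal {m₁ m₂ : Measure (J → Bool)} [IsFiniteMeasure m₁] [IsFiniteMeasure m₂]
    (h : ∀ S : Finset J, ∫ x, wal S x ∂m₁ = ∫ x, wal S x ∂m₂) : m₁ = m₂ := by
  classical
  have hbox : ∀ (m : Measure (J → Bool)) [IsFiniteMeasure m] (s : Finset J) (t : J → Set Bool)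
      (c : Finset J → ℝ) (_ : ∀ x : J → Bool, (Set.pi (s : Set J) t).indicator (fun _ => (1:ℝ)) x =
      ∑ S ∈ s.powerset, c S * wal S x), m.real (Set.pi (s : Set J) t) =
        ∑ S ∈ s.powerset, c S * ∫ x, wal S x ∂m := by
    intro m _ s t c hc
    have hms : MeasurableSet (Set.pi (s : Set J) t) :=
      MeasurableSet.pi s.countable_toSet (fun i _ => MeasurableSet.of_discrete)
    rw [← integral_indicator_one hms]
    have h2 : ∫ x, (Set.pi (s : Set J) t).indicator (1 : (J → Bool) → ℝ) x ∂m =
        ∫ x, ∑ S ∈ s.powerset, c S * wal S x ∂m :=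
      integral_congr_ae (Eventually.of_forall fun x => hc x)
    rw [h2, integral_finsetSum _ (fun S _ => (integrable_wal S m).const_mul _)]
    simp only [integral_const_mul]
  refine ext_of_generate_finite _ generate_boxes.symm pi_boxes ?_ ?_
  · rintro _ ⟨s, t, -, rfl⟩
    obtain ⟨c, hc⟩ := box_expand s t
    have h1 := hbox m₁ s t c hc
    have h2 := hbox m₂ s t c hc
    simp only [h] at h1
    rw [← h2] at h1
    exact (measureReal_eq_measureReal_iff).mp h1
  · have h1 := h ∅
    simp only [wal_empty, integral_const, smul_eq_mul, mul_one] at h1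
    exact (measureReal_eq_measureReal_iff).mp h1

/-- a function orthogonal to all Walsh functions is zero -/
theorem ae_zero_of_wal {f : (J → Bool) → ℝ} {μ : Measure (J → Bool)} [IsFiniteMeasure μ]
    (hf : Integrable f μ) (h : ∀ S : Finset J, ∫ x, wal S x * f x ∂μ = 0) : f =ᵐ[μ] 0 := by
  classical
  apply Integrable.ae_eq_zero_of_forall_setIntegral_eq_zero hf
  intro A hA _
  have h0 : ∫ x, f x ∂μ = 0 := by
    have := h ∅
    simpa using this
  refine MeasurableSpace.induction_on_inter (C := fun A _ => ∫ x in A, f x ∂μ = 0)
    generate_boxes.symm pi_boxes ?_ ?_ ?_ ?_ A hA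
  · simp
  · rintro _ ⟨s, t, -, rfl⟩
    obtain ⟨c, hc⟩ := box_expand s t
    have hms : MeasurableSet (Set.pi (s : Set J) t) :=
      MeasurableSet.pi s.countable_toSet (fun i _ => MeasurableSet.of_discrete)
    rw [← integral_indicator hms]
    have h1 : ∀ x, (Set.pi (s : Set J) t).indicator f x = ∑ S ∈ s.powerset, c S * (wal S x * f x) := by
      intro x
      have : (Set.pi (s : Set J) t).indicator f x =
          (Set.pi (s : Set J) t).indicator (fun _ => (1:ℝ)) x * f x := by
        by_cases hx : x ∈ Set.pi (s : Set J) t
        · rw [Set.indicator_of_mem hx, Set.indicator_of_mem hx, one_mul]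
        · rw [Set.indicator_of_notMem hx, Set.indicator_of_notMem hx, zero_mul]
      rw [this, hc, Finset.sum_mul]
      exact Finset.sum_congr rfl fun S _ => by ring
    simp only [h1]
    rw [integral_finsetSum]
    · simp only [integral_const_mul, h, mul_zero, Finset.sum_const_zero]
    · intro S _
      apply Integrable.const_mul
      exact hf.bdd_mul (c := 1) (measurable_wal S).aestronglyMeasurable
        (Eventually.of_forall fun x => by rw [Real.norm_eq_abs, abs_wal])
  · intro B hB hB'
    have := integral_add_compl hB hf
    rw [hB', zero_add] at this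
    rw [this, h0]
  · intro g hd hg hg'
    rw [integral_iUnion hg hd hf.integrableOn]
    simp only [hg', tsum_zero]

end Pool.Agent.V11255.US
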