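import Mathlib
import Pool.Agent.V11255.US1

set_option autoImplicit false

open Set MeasureTheory Filter Topology
open scoped ENNReal InnerProductSpace

namespace Pool.Agent.V11255.US

variable {J : Type}

/-- the Walsh functions in the Hilbert space -/
noncomputable def vw (S : Finset J) : Lp ℝ 2 (bern J) := (memLp_wal S (bern J)).toLp (wal S)

theorem inner_vw (S : Finset J) (f : Lp ℝ 2 (bern J)) :
    ⟪vw S, f⟫_ℝ = ∫ x, wal S x * f x ∂(bern J) := by
  rw [L2.inner_def]
  apply integral_congr_ae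
  filter_upwards [(memLp_wal S (bern J)).coeFn_toLp] with x h1
  simp only [vw]
  rw [h1]
  simp [mul_comm]

theorem orthonormal_vw : Orthonormal ℝ (vw (J := J)) := by
  classical
  rw [orthonormal_iff_ite]
  intro S T
  rw [inner_vw]
  have h1 : ∫ x, wal S x * (vw T : (J → Bool) → ℝ) x ∂(bern J) =
      ∫ x, wal (symmDiff S T) x ∂(bern J) := by
    apply integral_congr_ae
    filter_upwards [(memLp_wal T (bern J)).coeFn_toLp] with x h1
    simp only [vw]
    rw [h1, wal_mul]
  rw [h1, integral_wal_eq]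
  congr 1
  rw [← Finset.bot_eq_empty, symmDiff_eq_bot]

theorem span_vw : (Submodule.span ℝ (Set.range (vw (J := J))))ᗮ = ⊥ := by
  rw [Submodule.eq_bot_iff]
  intro f hf
  have h1 : ∀ S, ⟪vw S, f⟫_ℝ = 0 := fun S =>
    (Submodule.mem_orthogonal _ _).mp hf (vw S) (Submodule.subset_span ⟨S, rfl⟩)
  have h2 : f =ᵐ[bern J] 0 := by
    apply ae_zero_of_wal
    · exact (Lp.memLp f).integrable (by norm_num)
    · intro S
      rw [← inner_vw, h1]
  exact (Lp.eq_zero_iff_ae_eq_zero).mpr h2

/-- Parseval's identity -/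
theorem parseval {f : (J → Bool) → ℝ} (hf : MemLp f 2 (bern J)) :
    HasSum (fun S : Finset J => (∫ x, wal S x * f x ∂(bern J)) ^ 2)
      (∫ x, f x ^ 2 ∂(bern J)) := by
  let b := HilbertBasis.mkOfOrthogonalEqBot (orthonormal_vw (J := J)) span_vw
  have h1 := b.hasSum_inner_mul_inner (hf.toLp f) (hf.toLp f)
  have h2 : ∀ S, b S = vw S := fun S => by
    simp only [b, HilbertBasis.coe_mkOfOrthogonalEqBot]
  have h3 : ∀ S, ⟪vw S, hf.toLp f⟫_ℝ = ∫ x, wal S x * f x ∂(bern J) := by
    intro S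
    rw [inner_vw]
    apply integral_congr_ae
    filter_upwards [hf.coeFn_toLp] with x h
    rw [h]
  have h4 : ⟪hf.toLp f, hf.toLp f⟫_ℝ = ∫ x, f x ^ 2 ∂(bern J) := by
    rw [L2.inner_def]
    apply integral_congr_ae
    filter_upwards [hf.coeFn_toLp] with x h
    rw [h]
    simp [sq]
  rw [h4] at h1
  have h5 : (fun S => ⟪hf.toLp f, b S⟫_ℝ * ⟪b S, hf.toLp f⟫_ℝ) =
      fun S : Finset J => (∫ x, wal S x * f x ∂(bern J)) ^ 2 := by
    funext S
    rw [h2, real_inner_comm (vw S) (hf.toLp f), h3, sq]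
  rw [h5] at h1
  exact h1

/-! ## The shift of a group -/

section shift

set_option linter.unusedSectionVars false

variable {Γ : Type} [Group Γ]

/-- the shift -/
def sh (γ : Γ) (x : Γ → Bool) : Γ → Bool := fun j => x (γ⁻¹ * j)

/-- translation of finite sets -/
def tr (γ : Γ) (S : Finset Γ) : Finset Γ := S.map (Equiv.mulLeft γ).toEmbedding

theorem mem_tr {γ : Γ} {S : Finset Γ} {g : Γ} : g ∈ tr γ S ↔ γ⁻¹ * g ∈ S := by
  simp [tr]

theorem tr_tr (γ δ : Γ) (S : Finset Γ) : tr γ (tr δ S) = tr (γ * δ) S := by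
  ext g
  simp [mem_tr, mul_assoc]

theorem tr_one (S : Finset Γ) : tr 1 S = S := by
  ext g
  simp [mem_tr]

theorem card_tr (γ : Γ) (S : Finset Γ) : (tr γ S).card = S.card := Finset.card_map _

theorem tr_empty_iff (γ : Γ) (S : Finset Γ) : tr γ S = ∅ ↔ S = ∅ := by
  rw [← Finset.card_eq_zero, card_tr, Finset.card_eq_zero]

/-- translation as a permutation of finite sets -/
def trE (γ : Γ) : Finset Γ ≃ Finset Γ where
  toFun := tr γ
  invFun := tr γ⁻¹
  left_inv S := by rw [tr_tr, inv_mul_cancel, tr_one]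
  right_inv S := by rw [tr_tr, mul_inv_cancel, tr_one]

theorem wal_sh (γ : Γ) (S : Finset Γ) (x : Γ → Bool) : wal S (sh γ x) = wal (tr γ⁻¹ S) x := by
  rw [wal, wal, tr, Finset.prod_map]
  rfl

theorem measurable_sh (γ : Γ) : Measurable (sh γ) :=
  measurable_pi_lambda _ fun j => measurable_pi_apply (γ⁻¹ * j)

theorem map_sh (γ : Γ) : (bern Γ).map (sh γ) = bern Γ := by
  classical
  have : IsProbabilityMeasure ((bern Γ).map (sh γ)) :=
    Measure.isProbabilityMeasure_map (measurable_sh γ).aemeasurable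
  apply ext_of_wal
  intro S
  rw [integral_map (measurable_sh γ).aemeasurable (measurable_wal S).aestronglyMeasurable]
  simp only [wal_sh]
  rw [integral_wal_eq, integral_wal_eq]
  simp only [tr_empty_iff]

theorem mp_sh (γ : Γ) : MeasurePreserving (sh γ) (bern Γ) (bern Γ) := ⟨measurable_sh γ, map_sh γ⟩

theorem sh_sh (γ δ : Γ) (x : Γ → Bool) : sh γ (sh δ x) = sh (γ * δ) x := by
  funext j
  simp [sh, mul_assoc]

theorem sh_one (x : Γ → Bool) : sh 1 x = x := by
  funext j
  simp [sh]

/-- the averages of a function over a finite set -/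
noncomputable def avg (w : Γ → ℝ) (S : Finset Γ) : ℝ := (∑ i ∈ S, w i) / S.card

theorem avg_nonneg {w : Γ → ℝ} (h0 : ∀ i, 0 ≤ w i) (S : Finset Γ) : 0 ≤ avg w S :=
  div_nonneg (Finset.sum_nonneg fun i _ => h0 i) (Nat.cast_nonneg _)

theorem avg_le_one {w : Γ → ℝ} (h1 : ∀ i, w i ≤ 1) (S : Finset Γ) : avg w S ≤ 1 := by
  rcases S.eq_empty_or_nonempty with rfl | hS
  · simp [avg]
  · rw [avg, div_le_one (by exact_mod_cast hS.card_pos)]
    calc ∑ i ∈ S, w i ≤ ∑ i ∈ S, 1 := Finset.sum_le_sum fun i _ => h1 i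
      _ = S.card := by simp

theorem one_le_avg {w : Γ → ℝ} (h1 : ∀ i, 1 ≤ w i) {S : Finset Γ} (hS : S.Nonempty) :
    1 ≤ avg w S := by
  rw [avg, one_le_div (by exact_mod_cast hS.card_pos)]
  calc (S.card : ℝ) = ∑ i ∈ S, 1 := by simp
    _ ≤ ∑ i ∈ S, w i := Finset.sum_le_sum fun i _ => h1 i

theorem avg_add (w w' : Γ → ℝ) (S : Finset Γ) :
    avg (fun i => w i + w' i) S = avg w S + avg w' S := by
  rw [avg, avg, avg, Finset.sum_add_distrib, add_div]

theorem avg_tr (γ : Γ) (w : Γ → ℝ) (S : Finset Γ) :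
    avg (fun i => w (γ⁻¹ * i)) (tr γ S) = avg w S := by
  rw [avg, avg, card_tr, tr, Finset.sum_map]
  simp

theorem sq_diff_le (p q : ℝ) : |q ^ 2 - p ^ 2| ≤ 4 * (p - q) ^ 2 + (1 / 8) * (p ^ 2 + q ^ 2) := by
  have e1 : 4 * (p - q) ^ 2 + (1 / 8) * (p ^ 2 + q ^ 2) - (q ^ 2 - p ^ 2) =
    (2 * (p - q) + (p + q) / 4) ^ 2 + (p - q) ^ 2 / 16 := by ring
  have e2 : 4 * (p - q) ^ 2 + (1 / 8) * (p ^ 2 + q ^ 2) + (q ^ 2 - p ^ 2) =
    (2 * (p - q) - (p + q) / 4) ^ 2 + (p - q) ^ 2 / 16 := by ring
  have n1 : 0 ≤ (2 * (p - q) + (p + q) / 4) ^ 2 + (p - q) ^ 2 / 16 := by positivity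
  have n2 : 0 ≤ (2 * (p - q) - (p + q) / 4) ^ 2 + (p - q) ^ 2 / 16 := by positivity
  rw [abs_le]
  constructor <;> linarith

/-- The spectral gap of the Bernoulli shift: sets which are nearly invariant under two elements
with a paradoxical decomposition are nearly trivial. -/
theorem gap {a b : Γ} {w₁ w₂ w₃ w₄ : Γ → ℝ} (h1 : ∀ g, 0 ≤ w₁ g) (h2 : ∀ g, 0 ≤ w₂ g)
    (h3 : ∀ g, 0 ≤ w₃ g) (h4 : ∀ g, 0 ≤ w₄ g) (hsum : ∀ g, w₁ g + w₂ g + w₃ g + w₄ g ≤ 1)
    (ha : ∀ g, 1 ≤ w₁ g + w₂ (a⁻¹ * g)) (hb : ∀ g, 1 ≤ w₃ g + w₄ (b⁻¹ * g))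
    {B : Set (Γ → Bool)} (hB : MeasurableSet B) :
    (bern Γ).real B * (1 - (bern Γ).real B) ≤
      8 * ((bern Γ).real (symmDiff B (sh a ⁻¹' B)) + (bern Γ).real (symmDiff B (sh b ⁻¹' B))) := by
  classical
  set μ := bern Γ with hμ
  set f : (Γ → Bool) → ℝ := B.indicator (fun _ => 1) with hf
  have hfm : Measurable f := measurable_const.indicator hB
  have hfb : ∀ x, ‖f x‖ ≤ 1 := by
    intro x
    rw [hf]
    by_cases hx : x ∈ B
    · rw [Set.indicator_of_mem hx]; simp
    · rw [Set.indicator_of_notMem hx]; simp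
  have hfl : MemLp f 2 μ := MemLp.of_bound hfm.aestronglyMeasurable 1 (Eventually.of_forall hfb)
  set c : Finset Γ → ℝ := fun S => ∫ x, wal S x * f x ∂μ with hc
  have hP : HasSum (fun S => c S ^ 2) (μ.real B) := by
    have := parseval hfl
    have h : ∫ x, f x ^ 2 ∂μ = μ.real B := by
      rw [← integral_indicator_one hB]
      apply integral_congr_ae
      refine Eventually.of_forall fun x => ?_
      simp only [hf]
      by_cases hx : x ∈ B
      · rw [Set.indicator_of_mem hx, Set.indicator_of_mem hx]; simp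
      · rw [Set.indicator_of_notMem hx, Set.indicator_of_notMem hx]; simp
    rw [h] at this
    exact this
  have hQ : ∀ s : Γ, HasSum (fun S => (c S - c (tr s S)) ^ 2) (μ.real (symmDiff B (sh s ⁻¹' B))) := by
    intro s
    have hfs : MemLp (fun x => f (sh s x)) 2 μ :=
      MemLp.of_bound (hfm.comp (measurable_sh s)).aestronglyMeasurable 1
        (Eventually.of_forall fun x => hfb _)
    have := parseval (hfl.sub hfs)
    have h : ∫ x, (f - fun x => f (sh s x)) x ^ 2 ∂μ = μ.real (symmDiff B (sh s ⁻¹' B)) := by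
      rw [← integral_indicator_one (hB.symmDiff (measurable_sh s hB))]
      apply integral_congr_ae
      refine Eventually.of_forall fun x => ?_
      simp only [hf, Pi.sub_apply]
      by_cases hx : x ∈ B
      · by_cases hy : sh s x ∈ B
        · rw [Set.indicator_of_mem hx, Set.indicator_of_mem hy, Set.indicator_of_notMem]
          · simp
          · rintro (h | h)
            · exact h.2 hy
            · exact h.2 hx
        · rw [Set.indicator_of_mem hx, Set.indicator_of_notMem hy, Set.indicator_of_mem]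
          · simp
          · exact Or.inl ⟨hx, hy⟩
      · by_cases hy : sh s x ∈ B
        · rw [Set.indicator_of_notMem hx, Set.indicator_of_mem hy, Set.indicator_of_mem]
          · simp
          · exact Or.inr ⟨hy, hx⟩
        · rw [Set.indicator_of_notMem hx, Set.indicator_of_notMem hy, Set.indicator_of_notMem]
          · simp
          · rintro (h | h)
            · exact hx h.1
            · exact hy h.1
    rw [h] at this
    convert this using 1
    funext S
    congr 1
    have e1 : c (tr s S) = ∫ x, wal S x * f (sh s x) ∂μ := by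
      have : c (tr s S) = ∫ x, wal (tr s S) (sh s x) * f (sh s x) ∂μ := by
        have hm : Measurable (fun x => wal (tr s S) x * f x) := (measurable_wal _).mul hfm
        have h5 := integral_map (measurable_sh s).aemeasurable
          (μ := bern Γ) (f := fun x => wal (tr s S) x * f x) hm.aestronglyMeasurable
        rw [map_sh] at h5
        exact h5
      rw [this]
      simp only [wal_sh, tr_tr, inv_mul_cancel, tr_one]
    rw [e1, hc]
    simp only [Pi.sub_apply, mul_sub]
    rw [integral_sub]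
    · exact (hfl.integrable (by norm_num)).bdd_mul (c := 1) (measurable_wal S).aestronglyMeasurable
        (Eventually.of_forall fun x => by rw [Real.norm_eq_abs, abs_wal])
    · exact (hfs.integrable (by norm_num)).bdd_mul (c := 1) (measurable_wal S).aestronglyMeasurable
        (Eventually.of_forall fun x => by rw [Real.norm_eq_abs, abs_wal])
  -- the mass
  set u : Finset Γ → ℝ := fun S => if S = ∅ then 0 else c S ^ 2 with hu
  have hu0 : ∀ S, 0 ≤ u S := fun S => by
    simp only [hu]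
    split_ifs
    · exact le_rfl
    · exact sq_nonneg _
  have hc0 : c ∅ = μ.real B := by
    simp only [hc, wal_empty, one_mul]
    rw [← integral_indicator_one hB]
    rfl
  have hV : HasSum u (μ.real B - (μ.real B) ^ 2) := by
    have h := hP.sub (hasSum_ite_eq (∅ : Finset Γ) (c ∅ ^ 2))
    rw [hc0] at h
    have e : (fun S => c S ^ 2 - if S = ∅ then μ.real B ^ 2 else 0) = u := by
      funext S
      simp only [hu]
      split_ifs with hS
      · rw [hS, hc0]; ring
      · ring
    rw [e] at h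
    exact h
  set V := μ.real B - (μ.real B) ^ 2 with hVdef
  have hMs : ∀ w : Γ → ℝ, (∀ i, 0 ≤ w i) → (∀ i, w i ≤ 1) → Summable (fun S => u S * avg w S) := by
    intro w hw0 hw1
    refine Summable.of_nonneg_of_le (fun S => mul_nonneg (hu0 S) (avg_nonneg hw0 S)) (fun S => ?_)
      hV.summable
    calc u S * avg w S ≤ u S * 1 := mul_le_mul_of_nonneg_left (avg_le_one hw1 S) (hu0 S)
      _ = u S := mul_one _
  -- translation
  have hT : ∀ (s : Γ) (w : Γ → ℝ), (∀ i, 0 ≤ w i) → (∀ i, w i ≤ 1) →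
      ∑' S, u S * avg (fun i => w (s⁻¹ * i)) S ≤ ∑' S, u S * avg w S +
        (4 * μ.real (symmDiff B (sh s ⁻¹' B)) + V / 4) := by
    intro s w hw0 hw1
    have e1 : ∑' S, u S * avg (fun i => w (s⁻¹ * i)) S = ∑' S, u (tr s S) * avg w S := by
      rw [← (trE s).tsum_eq]
      apply tsum_congr
      intro S
      show u (tr s S) * avg (fun i => w (s⁻¹ * i)) (tr s S) = _
      rw [avg_tr]
    have hut : HasSum (fun S => u (tr s S)) V := (trE s).hasSum_iff.mpr hV
    have e2 : ∀ S, u (tr s S) * avg w S ≤ u S * avg w S +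
        (4 * (c S - c (tr s S)) ^ 2 + (1 / 8) * (u S + u (tr s S))) := by
      intro S
      by_cases hS : S = ∅
      · have hS' : tr s S = ∅ := (tr_empty_iff s S).mpr hS
        have z1 : u (tr s S) = 0 := by simp only [hu, hS', if_true]
        have z2 : u S = 0 := by simp only [hu, hS, if_true]
        rw [z1, z2, zero_mul]
        have := sq_nonneg (c S - c (tr s S))
        linarith
      · have hS' : tr s S ≠ ∅ := fun h => hS ((tr_empty_iff s S).mp h)
        have z1 : u (tr s S) = c (tr s S) ^ 2 := by simp only [hu, hS', if_false]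
        have z2 : u S = c S ^ 2 := by simp only [hu, hS, if_false]
        have y0 := avg_nonneg hw0 S
        have y1 := avg_le_one hw1 S
        have k1 : (u (tr s S) - u S) * avg w S ≤ |u (tr s S) - u S| := by
          calc (u (tr s S) - u S) * avg w S ≤ |u (tr s S) - u S| * avg w S :=
                mul_le_mul_of_nonneg_right (le_abs_self _) y0
            _ ≤ |u (tr s S) - u S| * 1 := mul_le_mul_of_nonneg_left y1 (abs_nonneg _)
            _ = _ := mul_one _
        have k2 : |u (tr s S) - u S| ≤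
            4 * (c S - c (tr s S)) ^ 2 + (1 / 8) * (u S + u (tr s S)) := by
          rw [z1, z2]
          exact sq_diff_le _ _
        linarith
    have hsumm : HasSum (fun S => u S * avg w S +
        (4 * (c S - c (tr s S)) ^ 2 + (1 / 8) * (u S + u (tr s S))))
        (∑' S, u S * avg w S + (4 * μ.real (symmDiff B (sh s ⁻¹' B)) + (1 / 8) * (V + V))) :=
      (hMs w hw0 hw1).hasSum.add (((hQ s).mul_left 4).add ((hV.add hut).mul_left (1 / 8)))
    have hsl : Summable (fun S => u (tr s S) * avg w S) := by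
      refine Summable.of_nonneg_of_le (fun S => mul_nonneg (hu0 _) (avg_nonneg hw0 S)) (fun S => ?_)
        hut.summable
      calc u (tr s S) * avg w S ≤ u (tr s S) * 1 :=
            mul_le_mul_of_nonneg_left (avg_le_one hw1 S) (hu0 _)
        _ = _ := mul_one _
    rw [e1]
    have := hsl.tsum_le_tsum e2 hsumm.summable
    rw [hsumm.tsum_eq] at this
    linarith
  have b1 : ∀ g, w₁ g ≤ 1 := fun g => by linarith [h1 g, h2 g, h3 g, h4 g, hsum g]
  have b2 : ∀ g, w₂ g ≤ 1 := fun g => by linarith [h1 g, h2 g, h3 g, h4 g, hsum g]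
  have b3 : ∀ g, w₃ g ≤ 1 := fun g => by linarith [h1 g, h2 g, h3 g, h4 g, hsum g]
  have b4 : ∀ g, w₄ g ≤ 1 := fun g => by linarith [h1 g, h2 g, h3 g, h4 g, hsum g]
  have cov : ∀ (s : Γ) (w w' : Γ → ℝ), (∀ i, 0 ≤ w i) → (∀ i, w i ≤ 1) → (∀ i, 0 ≤ w' i) →
      (∀ i, w' i ≤ 1) → (∀ g, 1 ≤ w g + w' (s⁻¹ * g)) →
      V ≤ ∑' S, u S * avg w S + ∑' S, u S * avg (fun i => w' (s⁻¹ * i)) S := by
    intro s w w' hw0 hw1 hw0' hw1' hcov
    have s1 := hMs w hw0 hw1
    have s2 := hMs (fun i => w' (s⁻¹ * i)) (fun i => hw0' _) (fun i => hw1' _)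
    rw [← s1.tsum_add s2, ← hV.tsum_eq]
    refine hV.summable.tsum_le_tsum (fun S => ?_) (s1.add s2)
    by_cases hS : S = ∅
    · have z2 : u S = 0 := by simp only [hu, hS, if_true]
      rw [z2]; simp
    · rw [← mul_add, ← avg_add]
      calc u S = u S * 1 := (mul_one _).symm
        _ ≤ _ := mul_le_mul_of_nonneg_left (one_le_avg hcov (Finset.nonempty_iff_ne_empty.mpr hS))
          (hu0 S)
  have tot : ∑' S, u S * avg w₁ S + ∑' S, u S * avg w₂ S + ∑' S, u S * avg w₃ S +
      ∑' S, u S * avg w₄ S ≤ V := by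
    have s1 := hMs w₁ h1 b1
    have s2 := hMs w₂ h2 b2
    have s3 := hMs w₃ h3 b3
    have s4 := hMs w₄ h4 b4
    rw [← s1.tsum_add s2, ← (s1.add s2).tsum_add s3, ← ((s1.add s2).add s3).tsum_add s4,
      ← hV.tsum_eq]
    refine (((s1.add s2).add s3).add s4).tsum_le_tsum (fun S => ?_) hV.summable
    rw [← mul_add, ← mul_add, ← mul_add, ← avg_add, ← avg_add, ← avg_add]
    calc _ ≤ u S * 1 := mul_le_mul_of_nonneg_left (avg_le_one hsum S) (hu0 S)
      _ = u S := mul_one _
  have c1 := cov a w₁ w₂ h1 b1 h2 b2 ha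
  have c2 := cov b w₃ w₄ h3 b3 h4 b4 hb
  have t1 := hT a w₂ h2 b2
  have t2 := hT b w₄ h4 b4
  have hV' : μ.real B * (1 - μ.real B) = V := by rw [hVdef]; ring
  rw [hV']
  linarith

end shift

end Pool.Agent.V11255.US
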