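import Mathlib
import Pool.Agent.V11255.US2

set_option autoImplicit false
set_option linter.unusedSectionVars false

open Set MeasureTheory Filter Topology
open scoped ENNReal InnerProductSpace

namespace Pool.Agent.V11255.US

section

variable {Γ : Type} [Group Γ] [Countable Γ]

/-- the averages of translates of a Walsh function -/
noncomputable def av (a : Γ) (S : Finset Γ) (N : ℕ) (x : Γ → Bool) : ℝ :=
  (∑ n ∈ Finset.range N, wal (tr (a ^ n) S) x) / N

theorem measurable_av (a : Γ) (S : Finset Γ) (N : ℕ) : Measurable (av a S N) :=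
  (Finset.measurable_fun_sum _ fun n _ => measurable_wal _).div_const _

theorem abs_av_le (a : Γ) (S : Finset Γ) (N : ℕ) (x : Γ → Bool) : |av a S N x| ≤ 1 := by
  rcases Nat.eq_zero_or_pos N with rfl | hN
  · simp [av]
  · have hN' : (0:ℝ) < N := by exact_mod_cast hN
    rw [av, abs_div, abs_of_pos hN', div_le_one hN']
    calc |∑ n ∈ Finset.range N, wal (tr (a ^ n) S) x| ≤ ∑ n ∈ Finset.range N, |wal (tr (a ^ n) S) x| :=
          Finset.abs_sum_le_sum_abs _ _
      _ = N := by simp [abs_wal]

variable (ℓ : Γ →* Multiplicative ℤ)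

/-- the translates of a nonempty finite set are distinct -/
theorem tr_pow_inj {a : Γ} (ha : ℓ a = Multiplicative.ofAdd 1) {S : Finset Γ} (hS : S.Nonempty)
    {n m : ℕ} (h : tr (a ^ n) S = tr (a ^ m) S) : n = m := by
  have key : ∀ k : ℕ, ∑ i ∈ tr (a ^ k) S, Multiplicative.toAdd (ℓ i) =
      k * S.card + ∑ i ∈ S, Multiplicative.toAdd (ℓ i) := by
    intro k
    rw [tr, Finset.sum_map]
    simp only [Equiv.coe_toEmbedding, Equiv.coe_mulLeft, map_mul, map_pow, ha, toAdd_mul,
      toAdd_pow, toAdd_ofAdd, smul_eq_mul, Finset.sum_add_distrib, Finset.sum_const, nsmul_eq_mul]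
    ring
  have h1 := congrArg (fun T => ∑ i ∈ T, Multiplicative.toAdd (ℓ i)) h
  simp only [key] at h1
  have h2 : (0:ℤ) < S.card := by exact_mod_cast hS.card_pos
  have h3 : (n:ℤ) * S.card = m * S.card := by linarith
  have h4 := mul_right_cancel₀ h2.ne' h3
  exact_mod_cast h4

theorem integral_av_sq {a : Γ} (ha : ℓ a = Multiplicative.ofAdd 1) {S : Finset Γ} (hS : S.Nonempty)
    {N : ℕ} (hN : 0 < N) : ∫ x, av a S N x ^ 2 ∂(bern Γ) = 1 / N := by
  classical
  have hN' : (N:ℝ) ≠ 0 := by exact_mod_cast hN.ne'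
  have h1 : ∀ x, av a S N x ^ 2 = (∑ n ∈ Finset.range N, ∑ m ∈ Finset.range N,
      wal (symmDiff (tr (a ^ n) S) (tr (a ^ m) S)) x) / N ^ 2 := by
    intro x
    rw [av, div_pow, sq, Finset.sum_mul_sum]
    simp only [wal_mul]
  simp only [h1]
  rw [integral_div, integral_finsetSum _ (fun n _ => integrable_finsetSum _
    (fun m _ => integrable_wal _ _))]
  have h2 : ∀ n ∈ Finset.range N, ∫ x, ∑ m ∈ Finset.range N,
      wal (symmDiff (tr (a ^ n) S) (tr (a ^ m) S)) x ∂(bern Γ) = 1 := by
    intro n hn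
    rw [integral_finsetSum _ (fun m _ => integrable_wal _ _), Finset.sum_eq_single n]
    · rw [symmDiff_self]
      simp
    · intro m _ hmn
      rw [integral_wal]
      rw [Finset.nonempty_iff_ne_empty, ← Finset.bot_eq_empty, ne_eq, symmDiff_eq_bot]
      intro h
      exact hmn (tr_pow_inj ℓ ha hS h).symm
    · intro h
      exact absurd hn h
  rw [Finset.sum_congr rfl h2]
  simp only [Finset.sum_const, Finset.card_range, nsmul_eq_mul, mul_one]
  field_simp

theorem exists_seq {a : Γ} (ha : ℓ a = Multiplicative.ofAdd 1) {S : Finset Γ} (hS : S.Nonempty) :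
    ∃ ns : ℕ → ℕ, StrictMono ns ∧
      ∀ᵐ x ∂(bern Γ), Tendsto (fun k => av a S (ns k) x) atTop (𝓝 0) := by
  have h : TendstoInMeasure (bern Γ) (fun N => av a S N) atTop (fun _ => 0) := by
    rw [tendstoInMeasure_iff_measureReal_norm]
    intro ε hε
    have h2 : Tendsto (fun N : ℕ => (1 / (N:ℝ)) / ε ^ 2) atTop (𝓝 0) := by
      have := (tendsto_one_div_atTop_nhds_zero_nat (𝕜 := ℝ)).div_const (ε ^ 2)
      rwa [zero_div] at this
    refine squeeze_zero' (Eventually.of_forall fun N => measureReal_nonneg) ?_ h2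
    filter_upwards [eventually_gt_atTop 0] with N hN
    have h3 := mul_meas_ge_le_integral_of_nonneg (μ := bern Γ) (f := fun x => av a S N x ^ 2)
      (Eventually.of_forall fun x => sq_nonneg _) (by
        refine Integrable.of_bound ((measurable_av a S N).pow_const 2).aestronglyMeasurable 1 ?_
        refine Eventually.of_forall fun x => ?_
        rw [Real.norm_eq_abs, abs_pow]
        exact pow_le_one₀ (abs_nonneg _) (abs_av_le a S N x)) (ε ^ 2)
    rw [integral_av_sq ℓ ha hS hN] at h3
    have h4 : {x | ε ≤ ‖av a S N x - 0‖} ⊆ {x | ε ^ 2 ≤ av a S N x ^ 2} := by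
      intro x hx
      simp only [mem_ofPred_eq, sub_zero, Real.norm_eq_abs] at hx ⊢
      rw [← sq_abs (av a S N x)]
      exact pow_le_pow_left₀ hε.le hx 2
    have h5 := measureReal_mono h4 (μ := bern Γ)
    rw [le_div_iff₀ (by positivity)]
    calc _ ≤ (bern Γ).real {x | ε ^ 2 ≤ av a S N x ^ 2} * ε ^ 2 :=
          mul_le_mul_of_nonneg_right h5 (by positivity)
      _ = ε ^ 2 * (bern Γ).real {x | ε ^ 2 ≤ av a S N x ^ 2} := mul_comm _ _
      _ ≤ _ := h3
  exact h.exists_seq_tendsto_ae

/-- The set of generic free points -/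
def X1 (a : Γ) (ns : Finset Γ → ℕ → ℕ) : Set (Γ → Bool) :=
  {x | (∀ γ : Γ, γ ≠ 1 → sh γ x ≠ x) ∧
    ∀ (γ : Γ) (S : Finset Γ), S.Nonempty → Tendsto (fun k => av a S (ns S k) (sh γ x)) atTop (𝓝 0)}

theorem X1_inv {a : Γ} {ns : Finset Γ → ℕ → ℕ} {x : Γ → Bool} (hx : x ∈ X1 a ns) (δ : Γ) :
    sh δ x ∈ X1 a ns := by
  constructor
  · intro γ hγ h
    apply hx.1 (δ⁻¹ * γ * δ)
    · intro h1
      apply hγ
      have : γ = δ * (δ⁻¹ * γ * δ) * δ⁻¹ := by group
      rw [this, h1]
      group
    · rw [← sh_sh, ← sh_sh, h, sh_sh, inv_mul_cancel, sh_one]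
  · intro γ S hS
    rw [sh_sh]
    exact hx.2 _ S hS

theorem measurableSet_X1 (a : Γ) (ns : Finset Γ → ℕ → ℕ) : MeasurableSet (X1 a ns) := by
  have h1 : X1 a ns = (⋂ γ : Γ, {x | γ ≠ 1 → sh γ x ≠ x}) ∩ ⋂ γ : Γ, ⋂ S : Finset Γ,
      {x | S.Nonempty → Tendsto (fun k => av a S (ns S k) (sh γ x)) atTop (𝓝 0)} := by
    ext x
    simp only [X1, mem_ofPred_eq, mem_inter_iff, mem_iInter]
  rw [h1]
  refine MeasurableSet.inter (MeasurableSet.iInter fun γ => ?_) (MeasurableSet.iInter fun γ =>
    MeasurableSet.iInter fun S => ?_)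
  · by_cases h : γ ≠ 1
    · simp only [h, ne_eq, not_false_eq_true, true_imp_iff]
      exact (measurableSet_eq_fun (measurable_sh γ) measurable_id).compl
    · simp only [h, false_imp_iff]
      exact MeasurableSet.univ
  · by_cases h : S.Nonempty
    · simp only [h, true_imp_iff]
      exact measurableSet_tendsto _ fun k => (measurable_av a S _).comp (measurable_sh γ)
    · simp only [h, false_imp_iff]
      exact MeasurableSet.univ

/-- almost every point is free -/
theorem ae_free [Infinite Γ] {γ : Γ} (hγ : γ ≠ 1) : ∀ᵐ x ∂(bern Γ), sh γ x ≠ x := by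
  classical
  have hB : MeasurableSet {x : Γ → Bool | sh γ x = x} :=
    measurableSet_eq_fun (measurable_sh γ) measurable_id
  set B := {x : Γ → Bool | sh γ x = x} with hBdef
  have hfl : MemLp (B.indicator fun _ => (1:ℝ)) 2 (bern Γ) := by
    refine MemLp.of_bound (measurable_const.indicator hB).aestronglyMeasurable 1 ?_
    refine Eventually.of_forall fun x => ?_
    by_cases hx : x ∈ B
    · rw [Set.indicator_of_mem hx]; simp
    · rw [Set.indicator_of_notMem hx]; simp
  have hP := (parseval hfl).summable.tendsto_cofinite_zero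
  have hS : ∀ j : Γ, ∫ x, wal {j, γ⁻¹ * j} x * B.indicator (fun _ => (1:ℝ)) x ∂(bern Γ) =
      (bern Γ).real B := by
    intro j
    rw [← integral_indicator_one hB]
    apply integral_congr_ae
    refine Eventually.of_forall fun x => ?_
    simp only
    by_cases hx : x ∈ B
    · rw [Set.indicator_of_mem hx, Set.indicator_of_mem hx, mul_one, wal, Finset.prod_pair]
      · have : x (γ⁻¹ * j) = x j := congrFun hx j
        rw [this, sgn_mul_self]
        rfl
      · intro h
        apply hγ
        have : γ⁻¹ = 1 := by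
          calc γ⁻¹ = γ⁻¹ * j * j⁻¹ := by group
            _ = 1 := by rw [← h]; group
        exact inv_eq_one.mp this
    · rw [Set.indicator_of_notMem hx, Set.indicator_of_notMem hx, mul_zero]
  have h0 : (bern Γ).real B = 0 := by
    by_contra hne
    have hpos : 0 < (bern Γ).real B ^ 2 := by positivity
    have h1 : ∀ᶠ S : Finset Γ in cofinite,
        (∫ x, wal S x * B.indicator (fun _ => (1:ℝ)) x ∂(bern Γ)) ^ 2 < (bern Γ).real B ^ 2 :=
      hP.eventually_lt_const hpos
    rw [eventually_cofinite] at h1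
    have h2 : (univ : Set Γ) ⊆ ⋃ S ∈ {S : Finset Γ | ¬
        (∫ x, wal S x * B.indicator (fun _ => (1:ℝ)) x ∂(bern Γ)) ^ 2 < (bern Γ).real B ^ 2},
        (S : Set Γ) := by
      intro j _
      simp only [mem_iUnion]
      refine ⟨{j, γ⁻¹ * j}, ?_, ?_⟩
      · rw [mem_ofPred_eq, hS j]
        exact lt_irrefl _
      · simp
    have h3 : (univ : Set Γ).Finite := (h1.biUnion fun S _ => S.finite_toSet).subset h2
    exact Set.infinite_univ h3
  rw [measureReal_eq_zero_iff] at h0
  rw [ae_iff]
  simpa only [ne_eq, not_not] using h0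

/-- the generic free points have full measure -/
theorem ae_X1 [Infinite Γ] {a : Γ} {ns : Finset Γ → ℕ → ℕ}
    (hns : ∀ S : Finset Γ, S.Nonempty → ∀ᵐ x ∂(bern Γ),
      Tendsto (fun k => av a S (ns S k) x) atTop (𝓝 0)) : ∀ᵐ x ∂(bern Γ), x ∈ X1 a ns := by
  have h1 : ∀ᵐ x ∂(bern Γ), ∀ γ : Γ, γ ≠ 1 → sh γ x ≠ x := by
    rw [ae_all_iff]
    intro γ
    by_cases h : γ = 1
    · exact Eventually.of_forall fun x hx => absurd h hx
    · filter_upwards [ae_free h] with x hx _
      exact hx
  have h2 : ∀ᵐ x ∂(bern Γ), ∀ (γ : Γ) (S : Finset Γ), S.Nonempty →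
      Tendsto (fun k => av a S (ns S k) (sh γ x)) atTop (𝓝 0) := by
    rw [ae_all_iff]
    intro γ
    rw [ae_all_iff]
    intro S
    by_cases hS : S.Nonempty
    · filter_upwards [(mp_sh γ).quasiMeasurePreserving.ae (hns S hS)] with x hx _
      exact hx
    · exact Eventually.of_forall fun x hx => absurd hx hS
  filter_upwards [h1, h2] with x h3 h4
  exact ⟨h3, h4⟩

/-- the Bernoulli measure is the only invariant measure on the generic points -/
theorem unique_measure {a : Γ} {ns : Finset Γ → ℕ → ℕ}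
    (hns : ∀ S : Finset Γ, S.Nonempty → StrictMono (ns S))
    (m : Measure (Γ → Bool)) [IsProbabilityMeasure m] (hm : ∀ᵐ x ∂m, x ∈ X1 a ns)
    (hinv : ∀ γ : Γ, m.map (sh γ) = m) : m = bern Γ := by
  classical
  apply ext_of_wal
  intro S
  rcases S.eq_empty_or_nonempty with rfl | hS
  · simp
  · rw [integral_wal hS]
    have h1 : ∀ N : ℕ, 0 < N → ∫ x, av a S N x ∂m = ∫ x, wal S x ∂m := by
      intro N hN
      have hN' : (N:ℝ) ≠ 0 := by exact_mod_cast hN.ne'
      simp only [av]
      rw [integral_div, integral_finsetSum _ (fun n _ => integrable_wal _ _)]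
      have h2 : ∀ n ∈ Finset.range N, ∫ x, wal (tr (a ^ n) S) x ∂m = ∫ x, wal S x ∂m := by
        intro n _
        have h3 : ∀ x, wal (tr (a ^ n) S) x = wal S (sh (a ^ n)⁻¹ x) := by
          intro x
          rw [wal_sh, inv_inv]
        simp only [h3]
        have h5 := integral_map (measurable_sh (a ^ n)⁻¹).aemeasurable
          (μ := m) (f := fun x => wal S x) (measurable_wal S).aestronglyMeasurable
        rw [hinv] at h5
        exact h5.symm
      rw [Finset.sum_congr rfl h2]
      simp only [Finset.sum_const, Finset.card_range, nsmul_eq_mul]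
      field_simp
    have h2 : Tendsto (fun k => ∫ x, av a S (ns S (k + 1)) x ∂m) atTop (𝓝 (∫ x, (0:ℝ) ∂m)) := by
      refine tendsto_integral_of_dominated_convergence (fun _ => 1)
        (fun k => (measurable_av a S _).aestronglyMeasurable) (integrable_const _)
        (fun k => Eventually.of_forall fun x => by
          rw [Real.norm_eq_abs]; exact abs_av_le _ _ _ _) ?_
      filter_upwards [hm] with x hx
      have := hx.2 1 S hS
      rw [sh_one] at this
      exact this.comp (tendsto_add_atTop_nat 1)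
    have h3 : ∀ k, ∫ x, av a S (ns S (k + 1)) x ∂m = ∫ x, wal S x ∂m := fun k =>
      h1 _ (lt_of_le_of_lt (Nat.zero_le _) ((hns S hS) (Nat.lt_succ_self k)))
    simp only [h3, integral_zero] at h2
    exact tendsto_nhds_unique tendsto_const_nhds h2

end

end Pool.Agent.V11255.US
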