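import Mathlib
import Pool.Agent.V11255.US3

set_option autoImplicit false
set_option linter.unusedSectionVars false

open Set MeasureTheory Filter Topology
open scoped ENNReal InnerProductSpace

namespace Pool.Agent.V11255.US

section ext

variable {Γ : Type} [Group Γ] [Countable Γ] (π : Γ → ℕ → Bool)

/-- the extended action -/
def ac (γ : Γ) (y : Γ ⊕ ℕ → Bool) : Γ ⊕ ℕ → Bool :=
  Sum.elim (fun j => y (Sum.inl (γ⁻¹ * j))) (fun n => (y (Sum.inr n) ^^ π γ n))

/-- translation of finite sets -/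
def trs (γ : Γ) (S : Finset (Γ ⊕ ℕ)) : Finset (Γ ⊕ ℕ) :=
  S.map (Equiv.sumCongr (Equiv.mulLeft γ) (Equiv.refl ℕ)).toEmbedding

/-- the sign -/
noncomputable def sg (γ : Γ) (S : Finset (Γ ⊕ ℕ)) : ℝ :=
  ∏ i ∈ S, sgn (Sum.elim (fun _ => false) (π γ) i)

theorem wal_ac (γ : Γ) (S : Finset (Γ ⊕ ℕ)) (y : Γ ⊕ ℕ → Bool) :
    wal S (ac π γ y) = sg π γ S * wal (trs γ⁻¹ S) y := by
  rw [wal, wal, trs, Finset.prod_map, sg, ← Finset.prod_mul_distrib]
  apply Finset.prod_congr rfl
  rintro (j | n) _
  · simp [ac, sgn]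
  · simp only [ac, Sum.elim_inr, sgn_xor]
    rw [mul_comm]
    rfl

theorem sg_sq (γ : Γ) (S : Finset (Γ ⊕ ℕ)) : sg π γ S ^ 2 = 1 := by
  rw [sg, ← Finset.prod_pow]
  apply Finset.prod_eq_one
  intro i _
  rw [sq, sgn_mul_self]

theorem trs_empty_iff (γ : Γ) (S : Finset (Γ ⊕ ℕ)) : trs γ S = ∅ ↔ S = ∅ := by
  rw [← Finset.card_eq_zero, trs, Finset.card_map, Finset.card_eq_zero]

theorem measurable_ac (γ : Γ) : Measurable (ac π γ) := by
  refine measurable_pi_lambda _ fun i => ?_
  rcases i with j | n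
  · exact measurable_pi_apply (Sum.inl (γ⁻¹ * j))
  · exact (measurable_from_top (f := fun b => (b ^^ π γ n))).comp (measurable_pi_apply (Sum.inr n))

theorem map_ac (γ : Γ) : (bern (Γ ⊕ ℕ)).map (ac π γ) = bern (Γ ⊕ ℕ) := by
  classical
  have : IsProbabilityMeasure ((bern (Γ ⊕ ℕ)).map (ac π γ)) :=
    Measure.isProbabilityMeasure_map (measurable_ac π γ).aemeasurable
  apply ext_of_wal
  intro S
  rw [integral_map (measurable_ac π γ).aemeasurable (measurable_wal S).aestronglyMeasurable]
  simp only [wal_ac]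
  rw [integral_const_mul, integral_wal_eq, integral_wal_eq]
  simp only [trs_empty_iff]
  split_ifs with h
  · rw [h]; simp [sg]
  · simp

theorem mp_ac (γ : Γ) : MeasurePreserving (ac π γ) (bern (Γ ⊕ ℕ)) (bern (Γ ⊕ ℕ)) :=
  ⟨measurable_ac π γ, map_ac π γ⟩

variable (π1 : ∀ γ δ n, π (γ * δ) n = (π γ n ^^ π δ n))

include π1 in
theorem ac_ac (γ δ : Γ) (y : Γ ⊕ ℕ → Bool) : ac π γ (ac π δ y) = ac π (γ * δ) y := by
  funext i
  rcases i with j | n
  · simp [ac, mul_assoc]
  · simp only [ac, Sum.elim_inr, π1]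
    cases y (Sum.inr n) <;> cases π γ n <;> cases π δ n <;> rfl

include π1 in
theorem ac_one (y : Γ ⊕ ℕ → Bool) : ac π 1 y = y := by
  funext i
  rcases i with j | n
  · simp [ac]
  · have h : π 1 n = false := by
      have := π1 1 1 n
      rw [mul_one, Bool.xor_self] at this
      exact this
    simp [ac, h]

/-- the projection -/
def pj (y : Γ ⊕ ℕ → Bool) : Γ → Bool := fun j => y (Sum.inl j)

theorem pj_ac (γ : Γ) (y : Γ ⊕ ℕ → Bool) : pj (ac π γ y) = sh γ (pj y) := rfl

theorem measurable_pj : Measurable (pj (Γ := Γ)) :=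
  measurable_pi_lambda _ fun j => measurable_pi_apply (Sum.inl j)

theorem map_pj : (bern (Γ ⊕ ℕ)).map pj = bern Γ := by
  classical
  have : IsProbabilityMeasure ((bern (Γ ⊕ ℕ)).map (pj (Γ := Γ))) :=
    Measure.isProbabilityMeasure_map measurable_pj.aemeasurable
  apply ext_of_wal
  intro S
  rw [integral_map measurable_pj.aemeasurable (measurable_wal S).aestronglyMeasurable]
  have h : ∀ y : Γ ⊕ ℕ → Bool, wal S (pj y) = wal (S.map ⟨Sum.inl, Sum.inl_injective⟩) y := by
    intro y
    rw [wal, wal, Finset.prod_map]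
    rfl
  simp only [h]
  rw [integral_wal_eq, integral_wal_eq]
  simp only [Finset.map_eq_empty]

theorem mp_pj : MeasurePreserving (pj (Γ := Γ)) (bern (Γ ⊕ ℕ)) (bern Γ) :=
  ⟨measurable_pj, map_pj⟩

/-- The half measure sets -/
theorem measure_half (n : ℕ) : (bern (Γ ⊕ ℕ)).real {y | y (Sum.inr n) = true} = 1 / 2 := by
  classical
  have hA : MeasurableSet {y : Γ ⊕ ℕ → Bool | y (Sum.inr n) = true} :=
    measurableSet_eq_fun (measurable_pi_apply _) measurable_const
  have h := integral_wal (J := Γ ⊕ ℕ) (S := {Sum.inr n}) (Finset.singleton_nonempty _)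
  have h1 : ∀ y : Γ ⊕ ℕ → Bool, wal {Sum.inr n} y =
      1 - 2 * ({y : Γ ⊕ ℕ → Bool | y (Sum.inr n) = true}).indicator (fun _ => (1:ℝ)) y := by
    intro y
    rw [wal, Finset.prod_singleton]
    by_cases hy : y (Sum.inr n) = true
    · rw [Set.indicator_of_mem (by exact hy), hy]
      norm_num [sgn]
    · rw [Set.indicator_of_notMem (by exact hy)]
      rw [Bool.not_eq_true] at hy
      rw [hy]
      norm_num [sgn]
  simp only [h1] at h
  have h2 : ∫ y, ({y : Γ ⊕ ℕ → Bool | y (Sum.inr n) = true}).indicator (fun _ => (1:ℝ)) y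
      ∂(bern (Γ ⊕ ℕ)) = (bern (Γ ⊕ ℕ)).real {y | y (Sum.inr n) = true} := integral_indicator_one hA
  rw [integral_sub (integrable_const _) ((integrable_const (1:ℝ)).indicator hA |>.const_mul 2),
    integral_const_mul, h2] at h
  simp at h
  linarith

variable (π3 : ∀ n, ∃ γ, ∀ m, π γ m = decide (m = n))
  (ℓ : Γ →* Multiplicative ℤ)

theorem trs_pow_inj {a : Γ} (ha : ℓ a = Multiplicative.ofAdd 1) {S : Finset (Γ ⊕ ℕ)} {j : Γ}
    (hj : Sum.inl j ∈ S) {n m : ℕ} (h : trs (a ^ n) S = trs (a ^ m) S) : n = m := by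
  have key : ∀ k : ℕ, ∑ i ∈ trs (a ^ k) S, Sum.elim (fun γ => Multiplicative.toAdd (ℓ γ)) (fun _ => 0) i =
      k * ∑ i ∈ S, Sum.elim (fun _ => (1:ℤ)) (fun _ => 0) i +
        ∑ i ∈ S, Sum.elim (fun γ => Multiplicative.toAdd (ℓ γ)) (fun _ => 0) i := by
    intro k
    rw [trs, Finset.sum_map, Finset.mul_sum, ← Finset.sum_add_distrib]
    apply Finset.sum_congr rfl
    rintro (γ | q) _
    · simp [ha]
    · simp
  have h1 := congrArg (fun T => ∑ i ∈ T, Sum.elim (fun γ => Multiplicative.toAdd (ℓ γ))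
    (fun _ => (0:ℤ)) i) h
  simp only [key] at h1
  have h2 : (0:ℤ) < ∑ i ∈ S, Sum.elim (fun _ => (1:ℤ)) (fun _ => 0) i := by
    apply Finset.sum_pos'
    · rintro (γ | q) _ <;> simp
    · exact ⟨_, hj, by simp⟩
  have h3 : (n:ℤ) * ∑ i ∈ S, Sum.elim (fun _ => (1:ℤ)) (fun _ => 0) i =
      m * ∑ i ∈ S, Sum.elim (fun _ => (1:ℤ)) (fun _ => 0) i := by linarith
  have h4 := mul_right_cancel₀ h2.ne' h3
  exact_mod_cast h4

include π3 in
/-- the extended action is ergodic -/
theorem ergodic_ac {a : Γ} (ha : ℓ a = Multiplicative.ofAdd 1) {A : Set (Γ ⊕ ℕ → Bool)}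
    (hA : MeasurableSet A) (hinv : ∀ γ y, ac π γ y ∈ A ↔ y ∈ A) :
    bern (Γ ⊕ ℕ) A = 0 ∨ bern (Γ ⊕ ℕ) Aᶜ = 0 := by
  classical
  set ν := bern (Γ ⊕ ℕ) with hν
  set f : (Γ ⊕ ℕ → Bool) → ℝ := A.indicator (fun _ => 1) with hf
  have hfm : Measurable f := measurable_const.indicator hA
  have hfb : ∀ x, ‖f x‖ ≤ 1 := by
    intro x
    rw [hf]
    by_cases hx : x ∈ A
    · rw [Set.indicator_of_mem hx]; simp
    · rw [Set.indicator_of_notMem hx]; simp
  have hfl : MemLp f 2 ν := MemLp.of_bound hfm.aestronglyMeasurable 1 (Eventually.of_forall hfb)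
  have hfi : ∀ γ y, f (ac π γ y) = f y := by
    intro γ y
    simp only [hf]
    by_cases hy : y ∈ A
    · rw [Set.indicator_of_mem hy, Set.indicator_of_mem ((hinv γ y).mpr hy)]
    · rw [Set.indicator_of_notMem hy, Set.indicator_of_notMem (fun h => hy ((hinv γ y).mp h))]
  set c : Finset (Γ ⊕ ℕ) → ℝ := fun S => ∫ x, wal S x * f x ∂ν with hc
  have hP : Summable (fun S => c S ^ 2) := (parseval hfl).summable
  have hcγ : ∀ γ S, c S = sg π γ S * c (trs γ⁻¹ S) := by
    intro γ S
    have hm : Measurable (fun x => wal S x * f x) := (measurable_wal _).mul hfm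
    have h5 := integral_map (measurable_ac π γ).aemeasurable
      (μ := bern (Γ ⊕ ℕ)) (f := fun x => wal S x * f x) hm.aestronglyMeasurable
    rw [map_ac] at h5
    simp only [hc]
    rw [h5, ← integral_const_mul]
    apply integral_congr_ae
    refine Eventually.of_forall fun y => ?_
    simp only [wal_ac, hfi, mul_assoc]
  have hz : ∀ S : Finset (Γ ⊕ ℕ), S ≠ ∅ → c S = 0 := by
    intro S hS
    by_cases hex : ∃ j, Sum.inl j ∈ S
    · obtain ⟨j, hj⟩ := hex
      have h1 : ∀ n : ℕ, c (trs (a ^ n) S) ^ 2 = c S ^ 2 := by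
        intro n
        have := hcγ (a ^ n)⁻¹ S
        rw [inv_inv] at this
        rw [this, mul_pow, sg_sq, one_mul]
      have h2 : Function.Injective (fun n : ℕ => trs (a ^ n) S) := fun n m h =>
        trs_pow_inj ℓ ha hj h
      have h3 := (hP.comp_injective h2).tendsto_atTop_zero
      simp only [Function.comp_def, h1] at h3
      have h4 := tendsto_nhds_unique tendsto_const_nhds h3
      exact pow_eq_zero_iff (two_ne_zero) |>.mp h4
    · push Not at hex
      obtain ⟨i, hi⟩ := Finset.nonempty_iff_ne_empty.mpr hS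
      rcases i with j | n
      · exact absurd hi (hex j)
      · obtain ⟨γ, hγ⟩ := π3 n
        have h1 := hcγ γ S
        have h2 : trs γ⁻¹ S = S := by
          ext i
          simp only [trs, Finset.mem_map_equiv]
          rcases i with j | m
          · constructor
            · intro h
              exact absurd h (hex _)
            · intro h
              exact absurd h (hex _)
          · rfl
        have h3 : sg π γ S = -1 := by
          rw [sg, Finset.prod_eq_single (Sum.inr n)]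
          · simp [hγ, sgn]
          · rintro (j | m) hm hne
            · exact absurd hm (hex j)
            · have : m ≠ n := fun h => hne (by rw [h])
              simp [hγ, this, sgn]
          · intro h
            exact absurd hi h
        rw [h2, h3] at h1
        linarith
  have hc0 : c ∅ = ν.real A := by
    simp only [hc, wal_empty, one_mul]
    rw [← integral_indicator_one hA]
    rfl
  have hae : (fun x => f x - ν.real A) =ᵐ[ν] 0 := by
    apply ae_zero_of_wal
    · exact (hfl.integrable (by norm_num)).sub (integrable_const _)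
    · intro S
      have hi : Integrable (fun x => wal S x * f x) ν :=
        (hfl.integrable (by norm_num)).bdd_mul (c := 1) (measurable_wal S).aestronglyMeasurable
        (Eventually.of_forall fun x => by rw [Real.norm_eq_abs, abs_wal])
      simp only [mul_sub]
      rw [integral_sub hi ((integrable_wal S ν).mul_const _), integral_mul_const]
      by_cases hS : S = ∅
      · rw [hS]
        have : ∫ x, wal ∅ x * f x ∂ν = c ∅ := rfl
        rw [this, hc0]
        simp
      · have : ∫ x, wal S x * f x ∂ν = c S := rfl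
        rw [this, hz S hS, integral_wal (Finset.nonempty_iff_ne_empty.mpr hS)]
        simp
  by_cases h0 : ν A = 0
  · exact Or.inl h0
  · right
    have hfreq : ∃ᵐ x ∂ν, x ∈ A := frequently_ae_mem_iff.mpr h0
    obtain ⟨x, hx, hx'⟩ := (hfreq.and_eventually hae).exists
    simp only [hf, Pi.zero_apply, Set.indicator_of_mem hx] at hx'
    rw [prob_compl_eq_zero_iff hA, ← ENNReal.toReal_eq_one_iff]
    change ν.real A = 1
    linarith

end ext

end Pool.Agent.V11255.US
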