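import Mathlib
import Pool.Agent.V11255.US4

set_option autoImplicit false
set_option linter.unusedSectionVars false

open Set MeasureTheory Filter Topology
open scoped ENNReal InnerProductSpace

namespace Pool.Agent.V11255.US

/-- injective maps which are pieced together from invertible measure preserving maps are measure
preserving -/
theorem mp_full {Y : Type} [MeasurableSpace Y] {ν : Measure Y} [IsProbabilityMeasure ν]
    (δ δ' : ℕ → Y → Y) (hδ : ∀ n, MeasurePreserving (δ n) ν ν)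
    (hδ' : ∀ n, MeasurePreserving (δ' n) ν ν) (hr : ∀ n y, δ n (δ' n y) = y)
    {T : Y → Y} (hT : Measurable T) (hinj : Function.Injective T)
    {idx : Y → ℕ} (hidx : Measurable idx) (h : ∀ y, T y = δ (idx y) y) :
    MeasurePreserving T ν ν := by
  have hle : ∀ A : Set Y, MeasurableSet A → ν (T ⁻¹' A) ≤ ν A := by
    intro A hA
    have hYn : ∀ n, MeasurableSet {y | idx y = n} := fun n => hidx (measurableSet_singleton n)
    have h1 : T ⁻¹' A = ⋃ n, ({y | idx y = n} ∩ (δ n) ⁻¹' A) := by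
      ext y
      simp only [mem_preimage, mem_iUnion, mem_inter_iff, mem_ofPred_eq]
      constructor
      · intro hy
        exact ⟨idx y, rfl, by rw [← h]; exact hy⟩
      · rintro ⟨n, hn, hy⟩
        rw [h, hn]
        exact hy
    have h2 : ∀ n, ν ({y | idx y = n} ∩ (δ n) ⁻¹' A) = ν ((δ' n) ⁻¹' {y | idx y = n} ∩ A) := by
      intro n
      rw [← (hδ' n).measure_preimage ((hYn n).inter ((hδ n).measurable hA)).nullMeasurableSet]
      congr 1
      ext y
      simp only [mem_preimage, mem_inter_iff, mem_ofPred_eq, hr]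
    have h3 : Pairwise (Function.onFun Disjoint fun n => (δ' n) ⁻¹' {y | idx y = n} ∩ A) := by
      intro n m hnm
      rw [Function.onFun, Set.disjoint_left]
      rintro y ⟨hy, -⟩ ⟨hy', -⟩
      simp only [mem_preimage, mem_ofPred_eq] at hy hy'
      have e1 : T (δ' n y) = y := by rw [h, hy, hr]
      have e2 : T (δ' m y) = y := by rw [h, hy', hr]
      have e3 := hinj (e1.trans e2.symm)
      apply hnm
      rw [← hy, ← hy', e3]
    calc ν (T ⁻¹' A) ≤ ∑' n, ν ({y | idx y = n} ∩ (δ n) ⁻¹' A) := by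
          rw [h1]; exact measure_iUnion_le _
      _ = ∑' n, ν ((δ' n) ⁻¹' {y | idx y = n} ∩ A) := by simp only [h2]
      _ = ν (⋃ n, (δ' n) ⁻¹' {y | idx y = n} ∩ A) := by
          rw [measure_iUnion h3 fun n => ((hδ' n).measurable (hYn n)).inter hA]
      _ ≤ ν A := measure_mono (iUnion_subset fun n => inter_subset_right)
  refine ⟨hT, ?_⟩
  ext A hA
  rw [Measure.map_apply hT hA]
  apply le_antisymm (hle A hA)
  have h1 := hle Aᶜ hA.compl
  rw [preimage_compl] at h1
  rw [prob_compl_eq_one_sub hA, prob_compl_eq_one_sub (hT hA)] at h1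
  have h2 : ν (T ⁻¹' A) ≤ 1 := prob_le_one
  have h3 : ν A ≤ 1 := prob_le_one
  have h4 := tsub_le_tsub_left h1 (1 : ℝ≥0∞)
  rw [ENNReal.sub_sub_cancel ENNReal.one_ne_top h2, ENNReal.sub_sub_cancel ENNReal.one_ne_top h3] at h4
  exact h4

/-- the data of the construction -/
structure Data (Γ : Type) [Group Γ] where
  π : Γ → ℕ → Bool
  π1 : ∀ γ δ n, π (γ * δ) n = (π γ n ^^ π δ n)
  π2 : ∀ γ, ∀ᶠ n in atTop, π γ n = false
  π3 : ∀ n, ∃ γ, ∀ m, π γ m = decide (m = n)
  ℓ : Γ →* Multiplicative ℤ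
  a : Γ
  b : Γ
  ha : ℓ a = Multiplicative.ofAdd 1
  w₁ : Γ → ℝ
  w₂ : Γ → ℝ
  w₃ : Γ → ℝ
  w₄ : Γ → ℝ
  h1 : ∀ g, 0 ≤ w₁ g
  h2 : ∀ g, 0 ≤ w₂ g
  h3 : ∀ g, 0 ≤ w₃ g
  h4 : ∀ g, 0 ≤ w₄ g
  hsum : ∀ g, w₁ g + w₂ g + w₃ g + w₄ g ≤ 1
  hca : ∀ g, 1 ≤ w₁ g + w₂ (a⁻¹ * g)
  hcb : ∀ g, 1 ≤ w₃ g + w₄ (b⁻¹ * g)

section

variable {Γ : Type} [Group Γ] [Countable Γ] [Infinite Γ] (D : Data Γ)

theorem exists_ns : ∃ ns : Finset Γ → ℕ → ℕ, (∀ S : Finset Γ, S.Nonempty → StrictMono (ns S)) ∧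
    ∀ S : Finset Γ, S.Nonempty → ∀ᵐ x ∂(bern Γ),
      Tendsto (fun k => av D.a S (ns S k) x) atTop (𝓝 0) := by
  have h : ∀ S : Finset Γ, ∃ ns : ℕ → ℕ, S.Nonempty → (StrictMono ns ∧ ∀ᵐ x ∂(bern Γ),
      Tendsto (fun k => av D.a S (ns k) x) atTop (𝓝 0)) := by
    intro S
    by_cases hS : S.Nonempty
    · obtain ⟨ns, h1, h2⟩ := exists_seq D.ℓ D.ha hS
      exact ⟨ns, fun _ => ⟨h1, h2⟩⟩
    · exact ⟨fun _ => 0, fun h => absurd h hS⟩
  choose ns hns using h
  exact ⟨ns, fun S hS => (hns S hS).1, fun S hS => (hns S hS).2⟩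

/-- the subsequences -/
noncomputable def nsD : Finset Γ → ℕ → ℕ := (exists_ns D).choose

theorem nsD1 : ∀ S : Finset Γ, S.Nonempty → StrictMono (nsD D S) := (exists_ns D).choose_spec.1

theorem nsD2 : ∀ S : Finset Γ, S.Nonempty → ∀ᵐ x ∂(bern Γ),
      Tendsto (fun k => av D.a S (nsD D S k) x) atTop (𝓝 0) := (exists_ns D).choose_spec.2

/-- the set of good points -/
def XD : Set (Γ → Bool) := X1 D.a (nsD D)

theorem XD_inv {x : Γ → Bool} (hx : x ∈ XD D) (γ : Γ) : sh γ x ∈ XD D := X1_inv hx γ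

theorem XD_inv_iff {x : Γ → Bool} (γ : Γ) : sh γ x ∈ XD D ↔ x ∈ XD D := by
  constructor
  · intro h
    have := XD_inv D h γ⁻¹
    rwa [sh_sh, inv_mul_cancel, sh_one] at this
  · exact fun h => XD_inv D h γ

theorem XD_free {x : Γ → Bool} (hx : x ∈ XD D) {γ : Γ} (h : sh γ x = x) : γ = 1 := by
  by_contra hne
  exact hx.1 γ hne h

theorem measurableSet_XD : MeasurableSet (XD D) := measurableSet_X1 _ _

theorem ae_XD : ∀ᵐ x ∂(bern Γ), x ∈ XD D := ae_X1 (nsD2 D)

theorem ae_pj : ∀ᵐ y ∂(bern (Γ ⊕ ℕ)), pj y ∈ XD D := mp_pj.quasiMeasurePreserving.ae (ae_XD D)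

/-- the base relation -/
def E1 (x x' : Γ → Bool) : Prop := x = x' ∨ (x ∈ XD D ∧ ∃ γ : Γ, x' = sh γ x)

/-- the extension -/
def FF (y y' : Γ ⊕ ℕ → Bool) : Prop := y = y' ∨ (pj y ∈ XD D ∧ ∃ γ : Γ, y' = ac D.π γ y)

/-- there is no invariant embedding of the extension -/
theorem no_embed (g : (Γ ⊕ ℕ → Bool) → (Γ → Bool) × ℝ) (hg : Measurable g)
    (hinj : Function.Injective g)
    (hred : ∀ y y', FF D y y' ↔ (E1 D (g y).1 (g y').1 ∧ (g y).2 = (g y').2))
    (hrange : ∀ y p, E1 D (g y).1 p.1 → (g y).2 = p.2 → p ∈ range g) : False := by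
  classical
  set ν := bern (Γ ⊕ ℕ) with hν
  set μ := bern Γ with hμ
  obtain ⟨e, he⟩ := exists_surjective_nat Γ
  -- good points go to good points
  have hgood : ∀ y, pj y ∈ XD D → (g y).1 ∈ XD D := by
    intro y hy
    obtain ⟨γ, hγ⟩ := exists_ne (1 : Γ)
    have h1 : FF D y (ac D.π γ y) := Or.inr ⟨hy, γ, rfl⟩
    have h2 : y ≠ ac D.π γ y := by
      intro h
      apply hγ
      apply XD_free D hy
      rw [← pj_ac D.π γ y, ← h]
    have h3 := (hred _ _).mp h1
    rcases h3.1 with h4 | h4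
    · exact absurd (hinj (Prod.ext h4 h3.2)) h2
    · exact h4.1
  -- transport of the action
  have hex : ∀ (γ : Γ) y, ∃ n, pj y ∉ XD D ∨ g (ac D.π (e n) y) = (sh γ (g y).1, (g y).2) := by
    intro γ y
    by_cases hy : pj y ∈ XD D
    · have h1 := hgood y hy
      obtain ⟨y', hy'⟩ := hrange y (sh γ (g y).1, (g y).2) (Or.inr ⟨h1, γ, rfl⟩) rfl
      have h2 : FF D y y' := by
        rw [hred, hy']
        exact ⟨Or.inr ⟨h1, γ, rfl⟩, rfl⟩
      have h3 : ∃ δ, y' = ac D.π δ y := by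
        rcases h2 with h2 | h2
        · exact ⟨1, by rw [ac_one D.π D.π1, h2]⟩
        · exact h2.2
      obtain ⟨δ, hδ⟩ := h3
      obtain ⟨n, hn⟩ := he δ
      exact ⟨n, Or.inr (by rw [hn, ← hδ, hy'])⟩
    · exact ⟨0, Or.inl hy⟩
  let idx : Γ → (Γ ⊕ ℕ → Bool) → ℕ := fun γ y => Nat.find (hex γ y)
  let T : Γ → (Γ ⊕ ℕ → Bool) → (Γ ⊕ ℕ → Bool) := fun γ y => ac D.π (e (idx γ y)) y
  have hset : ∀ (γ : Γ) (n : ℕ), MeasurableSet {y : Γ ⊕ ℕ → Bool | pj y ∉ XD D ∨
      g (ac D.π (e n) y) = (sh γ (g y).1, (g y).2)} := by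
    intro γ n
    refine ((measurableSet_XD D).preimage measurable_pj).compl.union ?_
    exact measurableSet_eq_fun (hg.comp (measurable_ac D.π _))
      (((measurable_sh γ).comp (measurable_fst.comp hg)).prodMk (measurable_snd.comp hg))
  have hidx : ∀ γ, Measurable (idx γ) := fun γ => measurable_find _ (hset γ)
  have hTm : ∀ γ, Measurable (T γ) := fun γ => Measurable.find
    (fun n => measurable_ac D.π (e n)) (hset γ) (hex γ)
  have hTg : ∀ γ y, pj y ∈ XD D → g (T γ y) = (sh γ (g y).1, (g y).2) := by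
    intro γ y hy
    rcases Nat.find_spec (hex γ y) with h | h
    · exact absurd hy h
    · exact h
  have hT0 : ∀ γ y, pj y ∉ XD D → idx γ y = 0 := by
    intro γ y hy
    exact (Nat.find_eq_zero (hex γ y)).mpr (Or.inl hy)
  have hTX : ∀ γ y, pj (T γ y) ∈ XD D ↔ pj y ∈ XD D := by
    intro γ y
    show pj (ac D.π _ y) ∈ XD D ↔ _
    rw [pj_ac, XD_inv_iff]
  have hTinj : ∀ γ, Function.Injective (T γ) := by
    intro γ y y' h
    by_cases hy : pj y ∈ XD D
    · have hy' : pj y' ∈ XD D := by rw [← hTX γ y', ← h, hTX]; exact hy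
      have h1 := hTg γ y hy
      rw [h, hTg γ y' hy'] at h1
      rw [Prod.mk.injEq] at h1
      apply hinj
      refine Prod.ext ?_ h1.2.symm
      have h2 := congrArg (sh γ⁻¹) h1.1
      rw [sh_sh, sh_sh, inv_mul_cancel, sh_one, sh_one] at h2
      exact h2.symm
    · have hy' : pj y' ∉ XD D := by rw [← hTX γ y', ← h, hTX]; exact hy
      have h1 : ac D.π (e 0) y = ac D.π (e 0) y' := by
        have h2 : T γ y = ac D.π (e 0) y := by
          show ac D.π (e (idx γ y)) y = _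
          rw [hT0 γ y hy]
        have h3 : T γ y' = ac D.π (e 0) y' := by
          show ac D.π (e (idx γ y')) y' = _
          rw [hT0 γ y' hy']
        rw [← h2, ← h3, h]
      have h2 := congrArg (ac D.π (e 0)⁻¹) h1
      rw [ac_ac D.π D.π1, ac_ac D.π D.π1, inv_mul_cancel, ac_one D.π D.π1, ac_one D.π D.π1] at h2
      exact h2
  have hTmp : ∀ γ, MeasurePreserving (T γ) ν ν := by
    intro γ
    refine mp_full (fun n => ac D.π (e n)) (fun n => ac D.π (e n)⁻¹) (fun n => mp_ac D.π _)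
      (fun n => mp_ac D.π _) ?_ (hTm γ) (hTinj γ) (hidx γ) (fun y => rfl)
    intro n y
    show ac D.π (e n) (ac D.π (e n)⁻¹ y) = y
    rw [ac_ac D.π D.π1, mul_inv_cancel, ac_one D.π D.π1]
  -- the real coordinate is constant
  have hconst : ∃ r : ℝ, ∀ᵐ y ∂ν, (g y).2 = r := by
    have := Filter.exists_eventuallyEq_const_of_forall_separating (l := ae ν)
      (f := fun y => (g y).2) MeasurableSet ?_
    · exact this
    · intro U hU
      have hA : MeasurableSet {y : Γ ⊕ ℕ → Bool | pj y ∈ XD D ∧ (g y).2 ∈ U} :=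
        ((measurableSet_XD D).preimage measurable_pj).inter (hU.preimage (measurable_snd.comp hg))
      have hAi : ∀ γ y, ac D.π γ y ∈ {y : Γ ⊕ ℕ → Bool | pj y ∈ XD D ∧ (g y).2 ∈ U} ↔
          y ∈ {y : Γ ⊕ ℕ → Bool | pj y ∈ XD D ∧ (g y).2 ∈ U} := by
        intro γ y
        simp only [mem_ofPred_eq, pj_ac, XD_inv_iff]
        refine and_congr_right fun hy => ?_
        have h1 := (hred y (ac D.π γ y)).mp (Or.inr ⟨hy, γ, rfl⟩)
        rw [h1.2]
      rcases ergodic_ac D.π D.π3 D.ℓ D.ha hA hAi with h | h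
      · right
        have h1 : ∀ᵐ y ∂ν, y ∉ {y : Γ ⊕ ℕ → Bool | pj y ∈ XD D ∧ (g y).2 ∈ U} :=
          measure_eq_zero_iff_ae_notMem.mp h
        filter_upwards [h1, ae_pj D] with y h2 h3 h4
        exact h2 ⟨h3, h4⟩
      · left
        have h1 := measure_eq_zero_iff_ae_notMem.mp h
        filter_upwards [h1] with y h2
        rw [mem_compl_iff, not_not] at h2
        exact h2.2
  obtain ⟨r, hr⟩ := hconst
  -- the image measure
  have hg1 : Measurable (fun y => (g y).1) := measurable_fst.comp hg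
  have hm : ν.map (fun y => (g y).1) = μ := by
    have : IsProbabilityMeasure (ν.map (fun y => (g y).1)) :=
      Measure.isProbabilityMeasure_map hg1.aemeasurable
    apply unique_measure (a := D.a) (ns := nsD D) (nsD1 D)
    · refine (ae_map_iff hg1.aemeasurable (p := fun x => x ∈ XD D) (measurableSet_XD D)).mpr ?_
      filter_upwards [ae_pj D] with y hy
      exact hgood y hy
    · intro γ
      rw [Measure.map_map (measurable_sh γ) hg1]
      have h1 : (sh γ ∘ fun y => (g y).1) =ᵐ[ν] ((fun y => (g y).1) ∘ T γ) := by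
        filter_upwards [ae_pj D] with y hy
        simp only [Function.comp_def]
        rw [hTg γ y hy]
      rw [Measure.map_congr h1, ← Measure.map_map hg1 (hTm γ), (hTmp γ).map_eq]
  -- the almost invariant sets
  have hge : MeasurableEmbedding g := hg.measurableEmbedding hinj
  let A : ℕ → Set (Γ ⊕ ℕ → Bool) := fun n => {y | y (Sum.inr n) = true}
  have hAm : ∀ n, MeasurableSet (A n) := fun n =>
    measurableSet_eq_fun (measurable_pi_apply _) measurable_const
  let B : ℕ → Set (Γ → Bool) := fun n => {x | (x, r) ∈ g '' (A n)}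
  have hBm : ∀ n, MeasurableSet (B n) := fun n =>
    (hge.measurableSet_image.mpr (hAm n)).preimage (measurable_id.prodMk measurable_const)
  have hBA : ∀ n, ∀ᵐ y ∂ν, (g y).1 ∈ B n ↔ y ∈ A n := by
    intro n
    filter_upwards [hr] with y hy
    show ((g y).1, r) ∈ g '' (A n) ↔ _
    rw [← hy]
    show g y ∈ g '' (A n) ↔ _
    rw [hinj.mem_set_image]
  have hBT : ∀ n γ, ∀ᵐ y ∂ν, sh γ (g y).1 ∈ B n ↔ T γ y ∈ A n := by
    intro n γ
    filter_upwards [hr, ae_pj D] with y hy hy'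
    show (sh γ (g y).1, r) ∈ g '' (A n) ↔ _
    rw [← hy, ← hTg γ y hy', hinj.mem_set_image]
  have hBmeas : ∀ n, μ.real (B n) = 1 / 2 := by
    intro n
    have h1 : μ (B n) = ν (A n) := by
      rw [← hm, Measure.map_apply hg1 (hBm n)]
      apply measure_congr
      filter_upwards [hBA n] with y hy
      exact propext hy
    rw [measureReal_def, h1, ← measureReal_def]
    exact measure_half n
  have hdiff : ∀ γ : Γ, Tendsto (fun n => μ.real (symmDiff (B n) (sh γ ⁻¹' (B n)))) atTop (𝓝 0) := by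
    intro γ
    have h1 : ∀ n, μ (symmDiff (B n) (sh γ ⁻¹' (B n))) = ν (symmDiff (A n) (T γ ⁻¹' (A n))) := by
      intro n
      rw [← hm, Measure.map_apply hg1 ((hBm n).symmDiff (measurable_sh γ (hBm n)))]
      apply measure_congr
      filter_upwards [hBA n, hBT n γ] with y h2 h3
      apply propext
      show (g y).1 ∈ symmDiff (B n) (sh γ ⁻¹' (B n)) ↔ y ∈ symmDiff (A n) (T γ ⁻¹' (A n))
      rw [Set.mem_symmDiff, Set.mem_symmDiff, mem_preimage, mem_preimage, h2, h3]
    have h2 : Tendsto (fun n => ν (symmDiff (A n) (T γ ⁻¹' (A n)))) atTop (𝓝 (ν ∅)) := by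
      apply tendsto_measure_of_ae_tendsto_indicator_of_isFiniteMeasure
      · exact MeasurableSet.empty
      · intro n
        exact (hAm n).symmDiff (hTm γ (hAm n))
      · refine Eventually.of_forall fun y => ?_
        filter_upwards [D.π2 (e (idx γ y))] with n hn
        have h4 : T γ y ∈ A n ↔ y ∈ A n := by
          show ac D.π (e (idx γ y)) y (Sum.inr n) = true ↔ y (Sum.inr n) = true
          simp [ac, hn]
        rw [Set.mem_symmDiff, mem_preimage, h4]
        simp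
    rw [measure_empty] at h2
    simp only [measureReal_def, h1]
    have h3 := (ENNReal.tendsto_toReal ENNReal.zero_ne_top).comp h2
    simpa [Function.comp_def] using h3
  have hgap : ∀ n, (1:ℝ) / 4 ≤ 8 * (μ.real (symmDiff (B n) (sh D.a ⁻¹' (B n))) +
      μ.real (symmDiff (B n) (sh D.b ⁻¹' (B n)))) := by
    intro n
    have := gap D.h1 D.h2 D.h3 D.h4 D.hsum D.hca D.hcb (hBm n)
    rw [← hμ, hBmeas n] at this
    linarith
  have hlim := ((hdiff D.a).add (hdiff D.b)).const_mul 8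
  have := ge_of_tendsto' hlim hgap
  norm_num at this

end

end Pool.Agent.V11255.US
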