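import Mathlib
import Pool.Agent.V11255.US5

set_option autoImplicit false

open Set MeasureTheory Filter Topology

namespace Pool.Agent.V11255.US

/-- the group -/
abbrev Gm : Type := FreeGroup (Bool ⊕ ℕ)

instance : Countable Gm := by
  unfold Gm
  rw [FreeGroup]
  infer_instance

/-- the homomorphism to the integers -/
def ell : Gm →* Multiplicative ℤ := FreeGroup.lift (fun _ => Multiplicative.ofAdd 1)

instance : Infinite Gm := by
  have h : Function.Injective (fun n : ℕ => (FreeGroup.of (Sum.inl false) : Gm) ^ n) := by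
    intro n m h
    have h1 := congrArg ell h
    simp only [map_pow, ell, FreeGroup.lift_apply_of] at h1
    have h2 := congrArg Multiplicative.toAdd h1
    simp only [toAdd_pow, toAdd_ofAdd, nsmul_eq_mul, mul_one] at h2
    exact_mod_cast h2
  exact Infinite.of_injective _ h

/-- the homomorphism to the finite sequences -/
noncomputable def pih : Gm →* Multiplicative (ℕ →₀ ZMod 2) :=
  FreeGroup.lift (Sum.elim (fun _ => 1) (fun n => Multiplicative.ofAdd (Finsupp.single n 1)))

theorem zmod2 : ∀ x y : ZMod 2, decide (x + y ≠ 0) = (decide (x ≠ 0) ^^ decide (y ≠ 0)) := by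
  decide

open Classical in
/-- the weight of the words starting with a letter -/
noncomputable def wt (w : (Bool ⊕ ℕ) × Bool) (g : Gm) : ℝ :=
  if (FreeGroup.toWord g)[0]? = some w then 1 else 0

theorem wt_nonneg (w : (Bool ⊕ ℕ) × Bool) (g : Gm) : 0 ≤ wt w g := by
  unfold wt
  split_ifs <;> norm_num

theorem wt_cov (x : Bool ⊕ ℕ) (g : Gm) : 1 ≤ wt (x, true) g + wt (x, false) ((FreeGroup.of x)⁻¹ * g) := by
  classical
  by_cases h : g ∈ FreeGroup.startsWith (x, true)
  · have h1 : wt (x, true) g = 1 := by
      unfold wt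
      rw [if_pos]
      exact h
    rw [h1]
    have := wt_nonneg (x, false) ((FreeGroup.of x)⁻¹ * g)
    linarith
  · have h2 := FreeGroup.startsWith_mk_mul (w := (x, false)) g h
    have h3 : (FreeGroup.mk [(x, false)] : Gm) = (FreeGroup.of x)⁻¹ := rfl
    rw [h3] at h2
    have h1 : wt (x, false) ((FreeGroup.of x)⁻¹ * g) = 1 := by
      unfold wt
      rw [if_pos]
      exact h2
    rw [h1]
    have := wt_nonneg (x, true) g
    linarith

theorem wt_sum (g : Gm) : wt (Sum.inl false, true) g + wt (Sum.inl false, false) g +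
    wt (Sum.inl true, true) g + wt (Sum.inl true, false) g ≤ 1 := by
  unfold wt
  by_cases h1 : (FreeGroup.toWord g)[0]? = some (Sum.inl false, true)
  · simp [h1]
  · by_cases h2 : (FreeGroup.toWord g)[0]? = some (Sum.inl false, false)
    · simp [h2]
    · by_cases h3 : (FreeGroup.toWord g)[0]? = some (Sum.inl true, true)
      · simp [h3]
      · simp only [h1, h2, h3, if_false]
        split_ifs <;> norm_num

/-- the data -/
noncomputable def DD : Data Gm where
  π γ n := decide (Multiplicative.toAdd (pih γ) n ≠ 0)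
  π1 γ δ n := by
    rw [map_mul, toAdd_mul, Finsupp.add_apply]
    exact zmod2 _ _
  π2 γ := by
    have h := (Multiplicative.toAdd (pih γ)).support.finite_toSet
    rw [← Nat.cofinite_eq_atTop]
    filter_upwards [h.compl_mem_cofinite] with n hn
    simpa using hn
  π3 n := by
    refine ⟨FreeGroup.of (Sum.inr n), fun m => ?_⟩
    simp only [pih, FreeGroup.lift_apply_of, Sum.elim_inr, toAdd_ofAdd]
    by_cases h : m = n
    · subst h; simp
    · rw [Finsupp.single_apply, if_neg (Ne.symm h)]
      simp [h]
  ℓ := ell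
  a := FreeGroup.of (Sum.inl false)
  b := FreeGroup.of (Sum.inl true)
  ha := by simp [ell]
  w₁ := wt (Sum.inl false, true)
  w₂ := wt (Sum.inl false, false)
  w₃ := wt (Sum.inl true, true)
  w₄ := wt (Sum.inl true, false)
  h1 := wt_nonneg _
  h2 := wt_nonneg _
  h3 := wt_nonneg _
  h4 := wt_nonneg _
  hsum := wt_sum
  hca := wt_cov _
  hcb := wt_cov _

end Pool.Agent.V11255.US
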